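import Pool.Agent.K9h18.HS.RowsDig
import Pool.Agent.N455.OW.PV
import Pool.Agent.N136.OW.SV
import Pool.Agent.N75.OW.SG
import Pool.Agent.W66.LU

set_option autoImplicit false

/-!
# Prescribed leading digits, with floors
-/

open Finset Filter Topology MeasureTheory

namespace Pool.Agent.K9h18.HS

open Pool.Agent.H305R2 (roughPart)
open Pool.Agent.TH888.R (wt wt_nonneg wt_le_one VS VS_univ_bound VS_nonneg VS_mono gr gr_small cS)

/-- the number of free digits -/
noncomputable def ef (δ : ℝ) (p : ℕ) : ℕ := p - 1 - ⌊δ * p⌋₊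

lemma ef_add {δ : ℝ} (hδ0 : 0 ≤ δ) (hδ : δ < 1) {p : ℕ} (hp : 1 ≤ p) :
    ef δ p + 1 + ⌊δ * p⌋₊ = p := by
  have hp0 : (0 : ℝ) < p := by exact_mod_cast hp
  have h1 : ⌊δ * p⌋₊ < p := by
    rw [Nat.floor_lt (by positivity)]
    calc δ * p < 1 * p := mul_lt_mul_of_pos_right hδ hp0
      _ = p := one_mul _
  unfold ef
  omega

lemma ef_zero (δ : ℝ) : ef δ 0 = 0 := by simp [ef]

lemma dig_ef {δ : ℝ} (hδ0 : 0 ≤ δ) (hδ : δ < 1) {A : ℕ → ℕ} (hlow : ∀ p, 1 ≤ p → 2 ^ (p - 1) ≤ A p)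
    (hup : ∀ p, 1 ≤ p → A p + 2 ^ (ef δ p) ≤ 2 ^ p) : Dig δ (ef δ) A := by
  have hfl : ∀ p q : ℕ, p ≤ q → ⌊δ * q⌋₊ ≤ ⌊δ * p⌋₊ + (q - p) ∧ ⌊δ * p⌋₊ ≤ ⌊δ * q⌋₊ := by
    intro p q hpq
    have h1 : (p : ℝ) ≤ q := by exact_mod_cast hpq
    constructor
    · rw [← Nat.floor_add_natCast (by positivity)]
      apply Nat.floor_le_floor
      rw [Nat.cast_sub hpq]
      nlinarith
    · apply Nat.floor_le_floor
      exact mul_le_mul_of_nonneg_left h1 hδ0
  have hcast : ∀ p : ℕ, 1 ≤ p → (ef δ p : ℝ) = p - 1 - ⌊δ * p⌋₊ := by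
    intro p hp
    have h1 := ef_add hδ0 hδ hp
    have h2 : (ef δ p : ℝ) + 1 + ⌊δ * p⌋₊ = p := by exact_mod_cast h1
    linarith
  refine ⟨fun p hp => ?_, fun p q hpq => ?_, fun p q hpq => ?_, fun p => ?_, fun p q hpq => ?_,
    hlow, hup⟩
  · have := ef_add hδ0 hδ hp
    omega
  · rcases Nat.eq_zero_or_pos p with h0 | h0
    · subst h0
      rw [ef_zero]
      omega
    · have h1 := ef_add hδ0 hδ h0
      have h2 := ef_add hδ0 hδ (show 1 ≤ q by omega)
      have h3 := (hfl p q hpq).1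
      omega
  · rcases Nat.eq_zero_or_pos p with h0 | h0
    · subst h0
      unfold ef
      omega
    · have h1 := ef_add hδ0 hδ h0
      have h2 := ef_add hδ0 hδ (show 1 ≤ q by omega)
      have h3 := (hfl p q hpq).2
      omega
  · rcases Nat.eq_zero_or_pos p with h0 | h0
    · subst h0
      rw [ef_zero]
      norm_num
    · rw [hcast p h0]
      have h1 : (⌊δ * p⌋₊ : ℝ) ≤ δ * p := Nat.floor_le (by positivity)
      linarith
  · rcases Nat.eq_zero_or_pos q with h0 | h0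
    · have hp : p = 0 := by omega
      subst h0 hp
      simp [ef_zero]
    · rw [hcast q h0]
      have h1 : (⌊δ * q⌋₊ : ℝ) ≤ δ * q := Nat.floor_le (by positivity)
      rcases Nat.eq_zero_or_pos p with h2 | h2
      · subst h2
        rw [ef_zero]
        push_cast
        linarith
      · rw [hcast p h2]
        have h3 : δ * p < ⌊δ * p⌋₊ + 1 := Nat.lt_floor_add_one _
        linarith

lemma PtR.inf {s : ℕ → ℕ} {c : ℝ} (hc : 0 < c) {S : Set ℕ} (h : PtR s c S)
    (hV : Tendsto (VS S) atTop atTop) :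
    {p : ℕ | p.Prime ∧ p ∈ S ∧ (roughPart p (s p)).Prime}.Infinite := by
  classical
  obtain ⟨B, hB, hn⟩ := h.law hV
  intro hfin
  have h1 : ∀ n, (cS S s n : ℝ) ≤ hfin.toFinset.card := by
    intro n
    have : cS S s n ≤ hfin.toFinset.card := by
      unfold cS
      apply Finset.card_le_card
      intro p hp
      rw [Finset.mem_filter] at hp
      rw [Set.Finite.mem_toFinset]
      exact hp.2
    exact_mod_cast this
  have h2 := (gr_small hB (show 0 < c / 2 by positivity)).and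
    (eventually_gt_atTop (2 * (hfin.toFinset.card : ℝ) / c))
  obtain ⟨n, h3, h4⟩ := (hV.eventually h2).exists
  rw [div_lt_iff₀ hc] at h4
  have h5 := (abs_le.1 (hn n)).1
  have h6 := h1 n
  nlinarith

/-- **The law for prescribed leading digits.** -/
theorem law_dig {δ : ℝ} (hδ0 : 0 ≤ δ) (hδ : δ < 1 / 4) {A : ℕ → ℕ}
    (hA : ∀ p, p.Prime → 2 ^ (p - 1) ≤ A p ∧ A p + 2 ^ (ef δ p) ≤ 2 ^ p) (S : Set ℕ) :
    ∀ᵐ β : ℝ, 0 < β → β ≤ 1 → PtR (fun p => A p + (⌈β * 2 ^ (ef δ p)⌉₊ - 1)) kc S := by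
  classical
  set A' : ℕ → ℕ := fun p => if p.Prime then A p else 2 ^ (p - 1) with hA'
  have hD : Dig δ (ef δ) A' := by
    refine dig_ef hδ0 (by linarith) (fun p hp => ?_) (fun p hp => ?_)
    · simp only [hA']
      split_ifs with h
      · exact (hA p h).1
      · exact le_rfl
    · simp only [hA']
      split_ifs with h
      · exact (hA p h).2
      · have h1 := ef_add hδ0 (by linarith) hp
        have h2 : 2 ^ ef δ p ≤ 2 ^ (p - 1) := Nat.pow_le_pow_right (by norm_num) (by omega)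
        have h3 : 2 ^ p = 2 ^ (p - 1) + 2 ^ (p - 1) := by
          rw [← two_mul, ← pow_succ']
          congr 1
          omega
        omega
  have hrows := rows_dig Pool.Agent.N455.OW.pv (Pool.Agent.N136.OW.sv2 Pool.Agent.N75.OW.sg)
    hδ0 hδ hD
  have hpt := Rows.pt (μ := mu1) (κ := kc) (s := fun β p => A' p + jj (ef δ p) β) hrows S
  have hcS : ∀ (β : ℝ) (n : ℕ), cS S (fun p => A p + (⌈β * 2 ^ (ef δ p)⌉₊ - 1)) n =
      cS S (fun p => A' p + jj (ef δ p) β) n := by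
    intro β n
    unfold cS
    congr 1
    refine Finset.filter_congr fun p _ => and_congr_right fun hp => ?_
    simp only [hA', if_pos hp, jj]
  have hset : ∀ β : ℝ, {p : ℕ | p.Prime ∧ p ∈ S ∧
      (roughPart p ((fun p => A p + (⌈β * 2 ^ (ef δ p)⌉₊ - 1)) p)).Prime} =
      {p : ℕ | p.Prime ∧ p ∈ S ∧ (roughPart p ((fun p => A' p + jj (ef δ p) β) p)).Prime} := by
    intro β
    ext p
    simp only [Set.mem_setOf_eq]
    refine and_congr_right fun hp => ?_
    simp only [hA', if_pos hp, jj]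
  rw [ae_restrict_iff' measurableSet_Ioc] at hpt
  filter_upwards [hpt] with β hβ h0 h1
  obtain ⟨hl, hf⟩ := hβ ⟨h0, h1⟩
  refine ⟨fun hV => ?_, fun hV => ?_⟩
  · obtain ⟨B, hB, hn⟩ := hl hV
    refine ⟨B, hB, fun n => ?_⟩
    rw [hcS]
    exact hn n
  · rw [hset]
    exact hf hV

end Pool.Agent.K9h18.HS
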