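import Mathlib

set_option autoImplicit false

/-!
# From void frequencies to the distribution of the gaps
-/

open Finset Filter Topology

namespace Pool.Agent.K9h18.HS

/-- no point in `(m η, (m + r + 1) η]` -/
def Void (v : ℕ → ℝ) (η : ℝ) (r m : ℕ) : Prop := ∀ k, ¬ (m * η < v k ∧ v k ≤ (m + r + 1) * η)

section

variable {v : ℕ → ℝ} (hv : StrictMono v) (hv0 : ∀ k, 0 < v k) {η : ℝ} (hη : 0 < η)
include hv hv0 hη

open Classical in
lemma gap_up (r K : ℕ) : ((range K).filter (fun k => (r + 2) * η ≤ v (k + 1) - v k)).card ≤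
    ((range (⌈v K / η⌉₊ - (r + 1))).filter (fun m => Void v η r m ∧ ¬ Void v η (r + 1) m)).card := by
  have hc : ∀ k, ((⌈v k / η⌉₊ : ℝ) - 1) * η < v k ∧ v k ≤ ⌈v k / η⌉₊ * η := by
    intro k
    have h1 : v k / η ≤ ⌈v k / η⌉₊ := Nat.le_ceil _
    have h2 : (⌈v k / η⌉₊ : ℝ) < v k / η + 1 := Nat.ceil_lt_add_one (by have := hv0 k; positivity)
    rw [div_le_iff₀ hη] at h1
    have h3 : (⌈v k / η⌉₊ : ℝ) - 1 < v k / η := by linarith
    rw [lt_div_iff₀ hη] at h3
    exact ⟨h3, h1⟩
  have hbig : ∀ k, (r + 2) * η ≤ v (k + 1) - v k → r + 2 ≤ ⌈v (k + 1) / η⌉₊ := by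
    intro k hk
    have h1 := (hc (k + 1)).2
    have h2 := hv0 k
    have h3 : ((r : ℝ) + 2) * η ≤ ⌈v (k + 1) / η⌉₊ * η := by linarith
    have h4 := le_of_mul_le_mul_right h3 hη
    exact_mod_cast h4
  refine Finset.card_le_card_of_injOn (fun k => ⌈v (k + 1) / η⌉₊ - (r + 2)) ?_ ?_
  · intro k hk
    simp only [Finset.coe_filter, Finset.mem_range, Set.mem_ofPred_eq] at hk ⊢
    obtain ⟨hkK, hgap⟩ := hk
    have hb := hbig k hgap
    obtain ⟨h1, h2⟩ := hc (k + 1)
    set c := ⌈v (k + 1) / η⌉₊ with hcdef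
    have hmr : ((c - (r + 2) : ℕ) : ℝ) = c - (r + 2) := by
      rw [Nat.cast_sub hb]
      push_cast
      ring
    have hcK : c ≤ ⌈v K / η⌉₊ := by
      apply Nat.ceil_le_ceil
      apply div_le_div_of_nonneg_right _ hη.le
      exact hv.monotone (by omega)
    refine ⟨by omega, ?_, ?_⟩
    · intro l hl
      rw [hmr] at hl
      obtain ⟨h3, h4⟩ := hl
      rcases Nat.lt_or_ge k l with h5 | h5
      · have h6 : v (k + 1) ≤ v l := hv.monotone h5
        have e : (c - (r + 2) + r + 1 : ℝ) * η = (c - 1) * η := by ring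
        rw [e] at h4
        linarith
      · have h6 : v l ≤ v k := hv.monotone h5
        have e : (c - (r + 2) : ℝ) * η = c * η - (r + 2) * η := by ring
        rw [e] at h3
        linarith
    · intro h3
      apply h3 (k + 1)
      rw [hmr]
      push_cast
      constructor
      · have e : (c - (r + 2) : ℝ) * η = (c - 1) * η - (r + 1) * η := by ring
        rw [e]
        have : 0 ≤ ((r : ℝ) + 1) * η := by positivity
        linarith
      · have e : (c - (r + 2) + (r + 1) + 1 : ℝ) * η = c * η := by ring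
        rw [e]
        exact h2
  · have hmain : ∀ k k' : ℕ, k < k' → (r + 2) * η ≤ v (k' + 1) - v k' →
        ⌈v (k + 1) / η⌉₊ ≠ ⌈v (k' + 1) / η⌉₊ := by
      intro k k' hkk hgap' heq
      obtain ⟨h1, h2⟩ := hc (k + 1)
      obtain ⟨h3, h4⟩ := hc (k' + 1)
      rw [heq] at h1
      have h6 : v (k + 1) ≤ v k' := hv.monotone hkk
      set c := (⌈v (k' + 1) / η⌉₊ : ℝ) with hcdef
      have h7 : (c - 1) * η = c * η - η := by ring
      have h8 : ((r : ℝ) + 2) * η = r * η + 2 * η := by ring
      have h9 : 0 ≤ (r : ℝ) * η := by positivity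
      linarith
    intro k hk k' hk' heq
    simp only [Finset.coe_filter, Finset.mem_range, Set.mem_ofPred_eq] at hk hk' heq
    have hb := hbig k hk.2
    have hb' := hbig k' hk'.2
    by_contra hne
    rcases Nat.lt_or_gt_of_ne hne with h1 | h1
    · exact hmain k k' h1 hk'.2 (by omega)
    · exact hmain k' k h1 hk.2 (by omega)

open Classical in
lemma gap_lo (htop : Tendsto v atTop atTop) (r K : ℕ) :
    ((range (⌊v K / η⌋₊ - (r + 1))).filter (fun m => Void v η r m ∧ ¬ Void v η (r + 1) m)).card ≤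
    ((range K).filter (fun k => (r + 1) * η < v (k + 1) - v k)).card + 1 := by
  have hex : ∀ m : ℕ, ∃ l, m * η < v l := fun m => (htop.eventually_gt_atTop _).exists
  set f : ℕ → ℕ := fun m => Nat.find (hex m) with hf
  have hf1 : ∀ m, m * η < v (f m) := fun m => Nat.find_spec (hex m)
  have hf2 : ∀ m l, l < f m → v l ≤ m * η := fun m l hl => not_lt.1 (Nat.find_min (hex m) hl)
  have hkey : ∀ m, Void v η r m → ¬ Void v η (r + 1) m →
      (m + r + 1) * η < v (f m) ∧ v (f m) ≤ (m + r + 2) * η := by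
    intro m h1 h2
    unfold Void at h2
    push Not at h2
    obtain ⟨l, h3, h4⟩ := h2
    push_cast at h4
    have h5 : f m ≤ l := Nat.find_min' (hex m) h3
    have h6 : v (f m) ≤ v l := hv.monotone h5
    have h7 := h1 (f m)
    rw [not_and, not_le] at h7
    have e : ((m : ℝ) + (r + 1) + 1) * η = (m + r + 2) * η := by ring
    rw [e] at h4
    exact ⟨h7 (hf1 m), h6.trans h4⟩
  have hcard : (insert 0 (((range K).filter (fun k => (r + 1) * η < v (k + 1) - v k)).image
      (fun k => k + 1))).card ≤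
      ((range K).filter (fun k => (r + 1) * η < v (k + 1) - v k)).card + 1 := by
    refine (Finset.card_insert_le _ _).trans ?_
    exact Nat.add_le_add_right (Finset.card_image_le) 1
  refine le_trans (Finset.card_le_card_of_injOn f ?_ ?_) hcard
  · intro m hm
    simp only [Finset.coe_filter, Finset.mem_range, Set.mem_ofPred_eq] at hm
    obtain ⟨hmM, h1, h2⟩ := hm
    obtain ⟨h3, h4⟩ := hkey m h1 h2
    rw [Finset.mem_coe, Finset.mem_insert, Finset.mem_image]
    rcases Nat.eq_zero_or_pos (f m) with h5 | h5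
    · exact Or.inl h5
    · right
      obtain ⟨k, hk⟩ := Nat.exists_eq_add_of_le' h5
      refine ⟨k, ?_, hk.symm⟩
      rw [Finset.mem_filter, Finset.mem_range]
      have h6 : v (f m) ≤ v K := by
        refine h4.trans ?_
        have h7 : (⌊v K / η⌋₊ : ℝ) ≤ v K / η := Nat.floor_le (by have := hv0 K; positivity)
        rw [le_div_iff₀ hη] at h7
        refine le_trans ?_ h7
        apply mul_le_mul_of_nonneg_right _ hη.le
        have h8 : m + r + 2 ≤ ⌊v K / η⌋₊ := by omega
        exact_mod_cast h8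
      have h7 : f m ≤ K := hv.le_iff_le.1 h6
      refine ⟨by omega, ?_⟩
      have h8 := hf2 m k (by omega)
      rw [← hk]
      have e : ((m : ℝ) + r + 1) * η = m * η + (r + 1) * η := by ring
      rw [e] at h3
      linarith
  · intro m hm m' hm' heq
    simp only [Finset.coe_filter, Finset.mem_range, Set.mem_ofPred_eq] at hm hm'
    obtain ⟨h1, h2⟩ := hkey m hm.2.1 hm.2.2
    obtain ⟨h3, h4⟩ := hkey m' hm'.2.1 hm'.2.2
    rw [heq] at h1 h2
    have a1 := lt_of_mul_lt_mul_right (h1.trans_le h4) hη.le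
    have a2 := lt_of_mul_lt_mul_right (h3.trans_le h2) hη.le
    have b1 : (m : ℝ) < m' + 1 := by linarith
    have b2 : (m' : ℝ) < m + 1 := by linarith
    have c1 : m < m' + 1 := by exact_mod_cast b1
    have c2 : m' < m + 1 := by exact_mod_cast b2
    omega

end

open Classical in
/-- **The gaps are exponentially distributed.** -/
theorem gap_law {v : ℕ → ℝ} (hv : StrictMono v) (hv0 : ∀ k, 0 < v k) {κ : ℝ} (hκ : 0 < κ)
    (hK : Tendsto (fun k : ℕ => v k / k) atTop (𝓝 (1 / κ)))
    (hvoid : ∀ n : ℕ, 1 ≤ n → ∀ r : ℕ, Tendsto (fun M : ℕ =>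
      (((range M).filter (fun m => Void v (1 / n) r m)).card : ℝ) / M) atTop
      (𝓝 (Real.exp (-(κ * (1 / n) * (r + 1)))))) {y : ℝ} (hy : 0 < y) :
    Tendsto (fun K : ℕ => (((range K).filter (fun k => y < v (k + 1) - v k)).card : ℝ) / K) atTop
      (𝓝 (Real.exp (-(κ * y)))) := by
  have htop : Tendsto v atTop atTop := by
    have h1 : Tendsto (fun k : ℕ => v k / k * k) atTop atTop :=
      Tendsto.pos_mul_atTop (by positivity : 0 < 1 / κ) hK tendsto_natCast_atTop_atTop
    refine h1.congr' ?_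
    filter_upwards [eventually_ge_atTop 1] with k hk
    have : (k : ℝ) ≠ 0 := by
      have : 0 < k := hk
      positivity
    field_simp
  -- the number of transitions
  set D : ℕ → ℕ → ℕ → ℕ := fun n r M =>
    ((range M).filter (fun m => Void v (1 / n) r m ∧ ¬ Void v (1 / n) (r + 1) m)).card with hD
  set d : ℕ → ℕ → ℝ := fun n r => Real.exp (-(κ * (1 / n) * (r + 1))) -
    Real.exp (-(κ * (1 / n) * (r + 1 + 1))) with hd
  have hDlim : ∀ n : ℕ, 1 ≤ n → ∀ r : ℕ, Tendsto (fun M : ℕ => (D n r M : ℝ) / M) atTop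
      (𝓝 (d n r)) := by
    intro n hn r
    have h1 := (hvoid n hn r).sub (hvoid n hn (r + 1))
    push_cast at h1
    refine h1.congr fun M => ?_
    rw [← sub_div]
    congr 1
    have h2 : ((range M).filter (fun m => Void v (1 / n) r m)).card =
        ((range M).filter (fun m => Void v (1 / n) (r + 1) m)).card + D n r M := by
      rw [hD]
      simp only
      rw [← Finset.card_filter_add_card_filter_not (s := (range M).filter (fun m => Void v (1 / n) r m))
        (fun m => Void v (1 / n) (r + 1) m), Finset.filter_filter, Finset.filter_filter]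
      congr 2
      ext m
      rw [Finset.mem_filter, Finset.mem_filter]
      refine and_congr_right fun _ => and_iff_right_of_imp fun h3 k hk => ?_
      apply h3 k
      refine ⟨hk.1, hk.2.trans ?_⟩
      push_cast
      apply mul_le_mul_of_nonneg_right _ (by positivity)
      linarith
    rw [h2]
    push_cast
    ring
  -- the number of windows
  have hnat : ∀ (n : ℕ), 1 ≤ n → ∀ (r : ℕ) (g : ℝ → ℕ), (∀ x : ℝ, 0 < x → x - 1 ≤ g x ∧ (g x : ℝ) ≤ x + 1) →
      Tendsto (fun K : ℕ => (D n r (g (v K / (1 / n)) - (r + 1)) : ℝ) / K) atTop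
        (𝓝 (d n r * (1 / κ / (1 / n)))) := by
    intro n hn r g hg
    have hn0 : (0 : ℝ) < n := by exact_mod_cast hn
    set M : ℕ → ℕ := fun K => g (v K / (1 / n)) - (r + 1) with hM
    have hMb : ∀ K, v K / (1 / n) - 1 - (r + 1) ≤ M K ∧ (M K : ℝ) ≤ v K / (1 / n) + 1 := by
      intro K
      obtain ⟨h1, h2⟩ := hg (v K / (1 / n)) (by have := hv0 K; positivity)
      have h3 : g (v K / (1 / n)) ≤ M K + (r + 1) := by simp only [hM]; omega
      have h4 : M K ≤ g (v K / (1 / n)) := by simp only [hM]; omega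
      have h3' : (g (v K / (1 / n)) : ℝ) ≤ M K + (r + 1) := by exact_mod_cast h3
      have h4' : (M K : ℝ) ≤ g (v K / (1 / n)) := by exact_mod_cast h4
      constructor <;> linarith
    have hvn : Tendsto (fun K => v K / (1 / (n : ℝ))) atTop atTop := htop.atTop_div_const (by positivity)
    have hMtop : Tendsto M atTop atTop := by
      rw [← tendsto_natCast_atTop_iff (R := ℝ)]
      refine tendsto_atTop_mono (fun K => (hMb K).1) ?_
      simpa only [sub_eq_add_neg] using
        tendsto_atTop_add_const_right _ _ (tendsto_atTop_add_const_right _ _ hvn)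
    have hKn : Tendsto (fun K : ℕ => (1 : ℝ) / K) atTop (𝓝 0) :=
      tendsto_const_div_atTop_nhds_zero_nat 1
    have hKM : Tendsto (fun K : ℕ => (M K : ℝ) / K) atTop (𝓝 (1 / κ / (1 / n))) := by
      have h1 : Tendsto (fun K : ℕ => v K / K / (1 / (n : ℝ)) - (r + 2) * (1 / (K : ℝ))) atTop
          (𝓝 (1 / κ / (1 / n) - (r + 2) * 0)) := (hK.div_const _).sub (hKn.const_mul _)
      have h2 : Tendsto (fun K : ℕ => v K / K / (1 / (n : ℝ)) + (1 / (K : ℝ))) atTop
          (𝓝 (1 / κ / (1 / n) + 0)) := (hK.div_const _).add hKn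
      rw [mul_zero, sub_zero] at h1
      rw [add_zero] at h2
      refine tendsto_of_tendsto_of_tendsto_of_le_of_le' h1 h2 ?_ ?_
      · filter_upwards [eventually_ge_atTop 1] with K hK1
        have hK0 : (0 : ℝ) < K := by exact_mod_cast hK1
        rw [le_div_iff₀ hK0]
        have h3 := (hMb K).1
        have e : (v K / K / (1 / (n : ℝ)) - (r + 2) * (1 / (K : ℝ))) * K =
            v K / (1 / n) - 1 - (r + 1) := by
          field_simp
          ring
        rw [e]
        exact h3
      · filter_upwards [eventually_ge_atTop 1] with K hK1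
        have hK0 : (0 : ℝ) < K := by exact_mod_cast hK1
        rw [div_le_iff₀ hK0]
        have h3 := (hMb K).2
        have e : (v K / K / (1 / (n : ℝ)) + 1 / (K : ℝ)) * K = v K / (1 / n) + 1 := by
          field_simp
        rw [e]
        exact h3
    have h1 := ((hDlim n hn r).comp hMtop).mul hKM
    refine h1.congr' ?_
    filter_upwards [hMtop.eventually_ge_atTop 1] with K hM1
    have hM0 : (0 : ℝ) < M K := by exact_mod_cast hM1
    have haux : ∀ a b c : ℝ, 0 < b → a / b * (b / c) = a / c := by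
      intro a b c hb
      rw [div_mul_div_comm, mul_comm a b, mul_div_mul_left _ _ hb.ne']
    exact haux (D n r (M K) : ℝ) (M K : ℝ) (K : ℝ) hM0
  -- limits in `n`
  have hcont : Tendsto (fun n : ℕ => Real.exp (-(κ * (y - 2 * (1 / (n : ℝ)))))) atTop
      (𝓝 (Real.exp (-(κ * (y - 2 * 0))))) := by
    have h1 : Tendsto (fun n : ℕ => (1 : ℝ) / n) atTop (𝓝 0) := tendsto_const_div_atTop_nhds_zero_nat 1
    exact (Real.continuous_exp.tendsto _).comp (((tendsto_const_nhds.sub (h1.const_mul 2)).const_mul κ).neg)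
  have hcont2 : Tendsto (fun n : ℕ => Real.exp (-(κ * (y + 1 / (n : ℝ)))) * (1 - κ * (1 / n))) atTop
      (𝓝 (Real.exp (-(κ * (y + 0))) * (1 - κ * 0))) := by
    have h1 : Tendsto (fun n : ℕ => (1 : ℝ) / n) atTop (𝓝 0) := tendsto_const_div_atTop_nhds_zero_nat 1
    exact ((Real.continuous_exp.tendsto _).comp (((tendsto_const_nhds.add h1).const_mul κ).neg)).mul
      (tendsto_const_nhds.sub (h1.const_mul κ))
  rw [mul_zero, sub_zero] at hcont
  rw [mul_zero, sub_zero, mul_one, add_zero] at hcont2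
  rw [Metric.tendsto_atTop]
  intro ε hε
  obtain ⟨n1, hn1⟩ := eventually_atTop.1 (hcont.eventually_lt_const
    (show Real.exp (-(κ * y)) < Real.exp (-(κ * y)) + ε / 2 by linarith))
  obtain ⟨n2, hn2⟩ := eventually_atTop.1 (hcont2.eventually_const_lt
    (show Real.exp (-(κ * y)) - ε / 2 < Real.exp (-(κ * y)) by linarith))
  obtain ⟨n3, hn3⟩ := exists_nat_ge (2 / y)
  set n := n1 + n2 + n3 + 1 with hn
  have hn0 : (0 : ℝ) < n := by exact_mod_cast (by omega : 0 < n)
  have hn3' : 2 / y ≤ n := hn3.trans (by exact_mod_cast (by omega : n3 ≤ n))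
  rw [div_le_iff₀ hy] at hn3'
  have h1n := hn1 n (by omega)
  have h2n := hn2 n (by omega)
  set η : ℝ := 1 / n with hη
  have hη0 : 0 < η := by positivity
  have hηn : η * n = 1 := by rw [hη]; field_simp
  -- upper bound
  have hfl2 : 2 ≤ ⌊n * y⌋₊ := Nat.le_floor (by push_cast; linarith)
  obtain ⟨r, hr⟩ : ∃ r, ⌊n * y⌋₊ = r + 2 := ⟨⌊n * y⌋₊ - 2, by omega⟩
  have hr1 : ((r : ℝ) + 2) ≤ n * y := by
    have h := Nat.floor_le (show 0 ≤ (n : ℝ) * y by positivity)
    rw [hr] at h
    push_cast at h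
    exact h
  have hr2 : (n : ℝ) * y < r + 2 + 1 := by
    have h := Nat.lt_floor_add_one ((n : ℝ) * y)
    rw [hr] at h
    push_cast at h
    exact h
  have hcl1 : 1 ≤ ⌈n * y⌉₊ := Nat.ceil_pos.2 (by positivity)
  obtain ⟨t, ht⟩ : ∃ t, ⌈n * y⌉₊ = t + 1 := ⟨⌈n * y⌉₊ - 1, by omega⟩
  have ht1 : (n : ℝ) * y ≤ t + 1 := by
    have h := Nat.le_ceil ((n : ℝ) * y)
    rw [ht] at h
    push_cast at h
    exact h
  have ht2 : (t : ℝ) + 1 < n * y + 1 := by
    have h := Nat.ceil_lt_add_one (show 0 ≤ (n : ℝ) * y by positivity)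
    rw [ht] at h
    push_cast at h
    exact h
  have hU := hnat n (by omega) r (fun x => ⌈x⌉₊) (fun x hx =>
    ⟨by have := Nat.le_ceil x; linarith, (Nat.ceil_lt_add_one hx.le).le⟩)
  have hLo := hnat n (by omega) t (fun x => ⌊x⌋₊) (fun x hx =>
    ⟨by have := Nat.lt_floor_add_one x; linarith, by have := Nat.floor_le hx.le; linarith⟩)
  -- the values of the limits
  have hdU : d n r * (1 / κ / (1 / n)) < Real.exp (-(κ * y)) + ε / 2 := by
    refine lt_of_le_of_lt ?_ h1n
    simp only [hd]
    rw [← hη]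
    have e1 : Real.exp (-(κ * η * (r + 1 + 1))) = Real.exp (-(κ * η * (r + 1))) * Real.exp (-(κ * η)) := by
      rw [← Real.exp_add]
      congr 1
      ring
    rw [e1]
    have h3 : 1 - Real.exp (-(κ * η)) ≤ κ * η := by
      have := Real.add_one_le_exp (-(κ * η))
      linarith
    have h4 : Real.exp (-(κ * η * (r + 1))) ≤ Real.exp (-(κ * (y - 2 * η))) := by
      apply Real.exp_le_exp.2
      have h5 : y - 2 * η ≤ η * (r + 1) := by
        have h6 : η * (n * y) ≤ η * (r + 2 + 1) := mul_le_mul_of_nonneg_left hr2.le hη0.le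
        have h7 : η * (n * y) = y := by rw [← mul_assoc, hηn, one_mul]
        rw [h7] at h6
        linarith
      have := mul_le_mul_of_nonneg_left h5 hκ.le
      linarith
    have h5 : (Real.exp (-(κ * η * (r + 1))) - Real.exp (-(κ * η * (r + 1))) * Real.exp (-(κ * η))) *
        (1 / κ / η) = Real.exp (-(κ * η * (r + 1))) * ((1 - Real.exp (-(κ * η))) / (κ * η)) := by
      field_simp
    rw [h5]
    have h6 : (1 - Real.exp (-(κ * η))) / (κ * η) ≤ 1 := by
      rw [div_le_one (by positivity)]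
      exact h3
    calc Real.exp (-(κ * η * (r + 1))) * ((1 - Real.exp (-(κ * η))) / (κ * η)) ≤
          Real.exp (-(κ * η * (r + 1))) * 1 := by gcongr
      _ ≤ _ := by rw [mul_one]; exact h4
  have hdL : Real.exp (-(κ * y)) - ε / 2 < d n t * (1 / κ / (1 / n)) := by
    refine lt_of_lt_of_le h2n ?_
    simp only [hd]
    rw [← hη]
    have e1 : Real.exp (-(κ * η * (t + 1 + 1))) = Real.exp (-(κ * η * (t + 1))) * Real.exp (-(κ * η)) := by
      rw [← Real.exp_add]
      congr 1
      ring
    rw [e1]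
    have h5 : (Real.exp (-(κ * η * (t + 1))) - Real.exp (-(κ * η * (t + 1))) * Real.exp (-(κ * η))) *
        (1 / κ / η) = Real.exp (-(κ * η * (t + 1))) * ((1 - Real.exp (-(κ * η))) / (κ * η)) := by
      field_simp
    rw [h5]
    have h4 : Real.exp (-(κ * (y + η))) ≤ Real.exp (-(κ * η * (t + 1))) := by
      apply Real.exp_le_exp.2
      have h5 : η * (t + 1) ≤ y + η := by
        have h6 : η * (t + 1) ≤ η * (n * y + 1) := mul_le_mul_of_nonneg_left ht2.le hη0.le
        have h7 : η * (n * y) = y := by rw [← mul_assoc, hηn, one_mul]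
        have h8 : η * (n * y + 1) = η * (n * y) + η := by ring
        rw [h8, h7] at h6
        exact h6
      have := mul_le_mul_of_nonneg_left h5 hκ.le
      linarith
    have h6 : 1 - κ * η ≤ (1 - Real.exp (-(κ * η))) / (κ * η) := by
      rw [le_div_iff₀ (by positivity)]
      -- `exp (-x) ≤ 1 - x + x ^ 2`
      have hx : 0 < κ * η := by positivity
      set x := κ * η with hxdef
      have h7 : Real.exp (-x) ≤ 1 - x + x ^ 2 := by
        rcases le_or_gt x 1 with h8 | h8
        · have h9 := Real.abs_exp_sub_one_sub_id_le (x := -x) (by rw [abs_neg, abs_of_pos hx]; exact h8)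
          have h10 := (abs_le.1 h9).2
          have e2 : (-x) ^ 2 = x ^ 2 := by ring
          rw [e2] at h10
          linarith
        · have h9 : Real.exp (-x) ≤ 1 := by
            rw [Real.exp_le_one_iff]
            linarith
          nlinarith
      nlinarith
    have h7 : 0 ≤ (1 - Real.exp (-(κ * η))) / (κ * η) := by
      apply div_nonneg _ (by positivity)
      have : Real.exp (-(κ * η)) ≤ 1 := by
        rw [Real.exp_le_one_iff, neg_nonpos]
        positivity
      linarith
    calc Real.exp (-(κ * (y + η))) * (1 - κ * η) ≤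
          Real.exp (-(κ * (y + η))) * ((1 - Real.exp (-(κ * η))) / (κ * η)) :=
          mul_le_mul_of_nonneg_left h6 (Real.exp_pos _).le
      _ ≤ _ := mul_le_mul_of_nonneg_right h4 h7
  have hKn : Tendsto (fun K : ℕ => (1 : ℝ) / K) atTop (𝓝 0) := tendsto_const_div_atTop_nhds_zero_nat 1
  have hLo' := hLo.sub hKn
  rw [sub_zero] at hLo'
  obtain ⟨K0, hK0⟩ := eventually_atTop.1 ((hU.eventually_lt_const hdU).and
    ((hLo'.eventually_const_lt hdL).and (eventually_ge_atTop 1)))
  refine ⟨K0, fun K hKK => ?_⟩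
  obtain ⟨u1, u2, u3⟩ := hK0 K hKK
  have hKp : (0 : ℝ) < K := by exact_mod_cast u3
  have h3 := gap_up hv hv0 hη0 r K
  have h4 := gap_lo hv hv0 hη0 htop t K
  have h5 : ((range K).filter (fun k => y < v (k + 1) - v k)).card ≤
      ((range K).filter (fun k => ((r : ℝ) + 2) * η ≤ v (k + 1) - v k)).card := by
    apply Finset.card_le_card
    intro k hk
    rw [Finset.mem_filter] at hk ⊢
    refine ⟨hk.1, ?_⟩
    have h6 : ((r : ℝ) + 2) * η ≤ n * y * η := mul_le_mul_of_nonneg_right hr1 hη0.le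
    have h7 : (n : ℝ) * y * η = y := by
      rw [mul_comm, ← mul_assoc, hηn, one_mul]
    rw [h7] at h6
    linarith [hk.2]
  have h6 : ((range K).filter (fun k => ((t : ℝ) + 1) * η < v (k + 1) - v k)).card ≤
      ((range K).filter (fun k => y < v (k + 1) - v k)).card := by
    apply Finset.card_le_card
    intro k hk
    rw [Finset.mem_filter] at hk ⊢
    refine ⟨hk.1, ?_⟩
    have h6 : n * y * η ≤ ((t : ℝ) + 1) * η := mul_le_mul_of_nonneg_right ht1 hη0.le
    have h7 : (n : ℝ) * y * η = y := by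
      rw [mul_comm, ← mul_assoc, hηn, one_mul]
    rw [h7] at h6
    linarith [hk.2]
  have h7 : (((range K).filter (fun k => y < v (k + 1) - v k)).card : ℝ) ≤
      (D n r (⌈v K / (1 / n)⌉₊ - (r + 1)) : ℝ) := by exact_mod_cast h5.trans h3
  have h8 : (D n t (⌊v K / (1 / n)⌋₊ - (t + 1)) : ℝ) ≤
      (((range K).filter (fun k => y < v (k + 1) - v k)).card : ℝ) + 1 := by
    have : D n t (⌊v K / (1 / n)⌋₊ - (t + 1)) ≤
      ((range K).filter (fun k => y < v (k + 1) - v k)).card + 1 := by
      refine h4.trans ?_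
      omega
    exact_mod_cast this
  rw [Real.dist_eq, abs_lt]
  have h9 : (((range K).filter (fun k => y < v (k + 1) - v k)).card : ℝ) / K ≤
      (D n r (⌈v K / (1 / n)⌉₊ - (r + 1)) : ℝ) / K := by gcongr
  have h10 : (D n t (⌊v K / (1 / n)⌋₊ - (t + 1)) : ℝ) / K - 1 / K ≤
      (((range K).filter (fun k => y < v (k + 1) - v k)).card : ℝ) / K := by
    rw [← sub_div]
    apply div_le_div_of_nonneg_right _ hKp.le
    linarith
  constructor <;> linarith

end Pool.Agent.K9h18.HS
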