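import Pool.Agent.K9h18.HS.Thin

set_option autoImplicit false

/-!
# Windows on the scale of the weight of a thin set
-/

open Finset Filter Topology MeasureTheory

namespace Pool.Agent.K9h18.HS

open Pool.Agent.TH888.R (wt wt_nonneg wt_le_one VS VS_mono VS_nonneg)

/-- thin sets of primes of infinite weight -/
structure ThinSet (S : Set ℕ) : Prop where
  top : Tendsto (VS S) atTop atTop
  thin : Tendsto (fun n : ℕ => VS S (2 * n) - VS S n) atTop (𝓝 0)
  gap : ∀ H : ℕ, ∃ P : ℕ, ∀ p q : ℕ, P ≤ p → p.Prime → q.Prime → p ∈ S → q ∈ S → p < q → p + H ≤ q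

/-- the first `n` with `x < V n` -/
noncomputable def Nx (S : Set ℕ) (x : ℝ) : ℕ := sInf {n : ℕ | x < VS S n}

open Classical in
/-- the primes in `S` with `x < V p ≤ y` -/
noncomputable def win (S : Set ℕ) (x y : ℝ) : Finset ℕ :=
  (Finset.Ico (Nx S x) (Nx S y)).filter (fun p => p.Prime ∧ p ∈ S)

section

variable {S : Set ℕ} (hS : ThinSet S)
include hS

lemma Nx_spec (x : ℝ) : x < VS S (Nx S x) := by
  have h : {n : ℕ | x < VS S n}.Nonempty := (hS.top.eventually_gt_atTop x).exists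
  exact Nat.sInf_mem h

lemma lt_Nx {x : ℝ} {n : ℕ} : n < Nx S x ↔ VS S n ≤ x := by
  constructor
  · intro h
    by_contra h1
    exact absurd (Nat.sInf_le (show n ∈ {n : ℕ | x < VS S n} from not_le.1 h1)) (not_le.2 h)
  · intro h
    by_contra h1
    have h2 := VS_mono S (not_lt.1 h1)
    have h3 := Nx_spec hS x
    linarith

lemma mem_win {x y : ℝ} {p : ℕ} : p ∈ win S x y ↔
    p.Prime ∧ p ∈ S ∧ x < VS S p ∧ VS S p ≤ y := by
  classical
  unfold win
  rw [mem_filter, mem_Ico]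
  have h1 : Nx S x ≤ p ↔ x < VS S p := by
    rw [← not_lt, lt_Nx hS, not_le]
  rw [h1, lt_Nx hS]
  tauto

end

lemma VS_zero (S : Set ℕ) : VS S 0 = 0 := by
  classical
  unfold VS
  rw [Finset.sum_range_one, if_neg]
  intro h
  exact Nat.not_prime_zero h.2

open Classical in
lemma VS_succ (S : Set ℕ) (n : ℕ) :
    VS S (n + 1) = VS S n + if n + 1 ∈ S ∧ (n + 1).Prime then wt (n + 1) else 0 := by
  unfold VS
  rw [Finset.sum_range_succ _ (n + 1)]

lemma VS_step (S : Set ℕ) (n : ℕ) : VS S (n + 1) ≤ VS S n + wt (n + 1) := by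
  classical
  rw [VS_succ]
  have := wt_nonneg (n + 1)
  split_ifs <;> linarith

open Classical in
lemma mass_Ioc (S : Set ℕ) (a b : ℕ) (hab : a ≤ b) :
    ∑ p ∈ (Finset.Ico (a + 1) (b + 1)).filter (fun p => p.Prime ∧ p ∈ S), wt p =
      VS S b - VS S a := by
  rw [Finset.sum_filter, Finset.sum_Ico_eq_sub _ (by omega : a + 1 ≤ b + 1)]
  unfold VS
  congr 1 <;>
  · refine Finset.sum_congr rfl fun p _ => ?_
    by_cases h : p.Prime ∧ p ∈ S
    · rw [if_pos h, if_pos ⟨h.2, h.1⟩]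
    · rw [if_neg h, if_neg fun h1 => h ⟨h1.2, h1.1⟩]

section

variable {S : Set ℕ} (hS : ThinSet S)
include hS

lemma Nx_pos {x : ℝ} (hx : 0 ≤ x) : 1 ≤ Nx S x := by
  have : 0 < Nx S x := (lt_Nx hS).2 (by rw [VS_zero]; exact hx)
  omega

lemma Nx_mono {x y : ℝ} (hxy : x ≤ y) : Nx S x ≤ Nx S y := by
  by_contra h
  have h1 := (lt_Nx hS).1 (not_le.1 h)
  have h2 := Nx_spec hS y
  linarith

lemma mass_win {x y : ℝ} (hx : 0 ≤ x) (hxy : x ≤ y) :
    |∑ p ∈ win S x y, wt p - (y - x)| ≤ wt (Nx S x) + wt (Nx S y) := by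
  obtain ⟨a, ha⟩ := Nat.exists_eq_add_of_le' (Nx_pos hS hx)
  obtain ⟨b, hb⟩ := Nat.exists_eq_add_of_le' (Nx_pos hS (hx.trans hxy))
  have hab : a ≤ b := by
    have := Nx_mono hS hxy
    omega
  have h1 : VS S a ≤ x := (lt_Nx hS).1 (by omega)
  have h2 : VS S b ≤ y := (lt_Nx hS).1 (by omega)
  have h3 := Nx_spec hS x
  have h4 := Nx_spec hS y
  rw [ha] at h3
  rw [hb] at h4
  have h5 := VS_step S a
  have h6 := VS_step S b
  have h7 := mass_Ioc S a b hab
  have h8 : ∑ p ∈ win S x y, wt p = VS S b - VS S a := by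
    rw [← h7]
    unfold win
    rw [ha, hb]
  rw [h8, ha, hb, abs_le]
  constructor <;> linarith

lemma Nx_top : Tendsto (fun x : ℝ => Nx S x) atTop atTop := by
  rw [tendsto_atTop_atTop]
  intro n
  refine ⟨VS S n, fun x hx => ?_⟩
  exact ((lt_Nx hS).2 hx).le

lemma mass_lim {L : ℝ} (hL : 0 < L) (i : ℕ) :
    Tendsto (fun m : ℕ => ∑ p ∈ win S (((m + i : ℕ) : ℝ) * L) (((m + i : ℕ) : ℝ) * L + L), wt p)
      atTop (𝓝 L) := by
  have h1 : Tendsto (fun m : ℕ => ((m + i : ℕ) : ℝ) * L) atTop atTop :=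
    (tendsto_natCast_atTop_atTop.comp (tendsto_add_atTop_nat i)).atTop_mul_const hL
  have h2 : Tendsto (fun m : ℕ => ((m + i : ℕ) : ℝ) * L + L) atTop atTop :=
    tendsto_atTop_add_const_right _ _ h1
  have h3 : Tendsto (fun m : ℕ => wt (Nx S (((m + i : ℕ) : ℝ) * L))) atTop (𝓝 0) :=
    wt_tendsto.comp ((Nx_top hS).comp h1)
  have h4 : Tendsto (fun m : ℕ => wt (Nx S (((m + i : ℕ) : ℝ) * L + L))) atTop (𝓝 0) :=
    wt_tendsto.comp ((Nx_top hS).comp h2)
  have h5 := h3.add h4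
  rw [add_zero] at h5
  rw [tendsto_iff_norm_sub_tendsto_zero]
  refine squeeze_zero (fun _ => norm_nonneg _) (fun m => ?_) h5
  have h6 := mass_win hS (x := ((m + i : ℕ) : ℝ) * L) (y := ((m + i : ℕ) : ℝ) * L + L)
    (by positivity) (by linarith)
  rw [Real.norm_eq_abs]
  have e : ((m + i : ℕ) : ℝ) * L + L - ((m + i : ℕ) : ℝ) * L = L := by ring
  rwa [e] at h6

lemma thin_iter (j : ℕ) : Tendsto (fun n : ℕ => VS S (2 ^ j * n) - VS S n) atTop (𝓝 0) := by
  induction j with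
  | zero => simp
  | succ j ih =>
    have h1 : Tendsto (fun n : ℕ => 2 ^ j * n) atTop atTop :=
      tendsto_id.const_mul_atTop' (by positivity)
    have h2 := (hS.thin.comp h1).add ih
    rw [zero_add] at h2
    refine h2.congr fun n => ?_
    simp only [Function.comp]
    have e : 2 * (2 ^ j * n) = 2 ^ (j + 1) * n := by ring
    rw [e]
    ring

lemma thin_cr {c ε : ℝ} (hc : 0 < c) (hε : 0 < ε) : ∃ Q : ℕ, ∀ q ≥ Q,
    VS S q - VS S ⌊c * q⌋₊ ≤ ε := by
  obtain ⟨j, hj⟩ := pow_unbounded_of_one_lt (2 / c) (show (1 : ℝ) < 2 by norm_num)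
  rw [div_lt_iff₀ hc] at hj
  have h1 := (thin_iter hS j).eventually_lt_const hε
  obtain ⟨N, hN⟩ := eventually_atTop.1 h1
  obtain ⟨Q, hQ⟩ := exists_nat_ge (((N : ℝ) + 1) / c + 2 ^ j)
  refine ⟨Q, fun q hq => ?_⟩
  have hqr : ((N : ℝ) + 1) / c + 2 ^ j ≤ q := hQ.trans (by exact_mod_cast hq)
  have h2j : (0 : ℝ) < 2 ^ j := by positivity
  have hNc : ((N : ℝ) + 1) / c ≤ q := by linarith
  rw [div_le_iff₀ hc] at hNc
  set n := ⌊c * q⌋₊ with hn
  have hn1 : c * q < n + 1 := Nat.lt_floor_add_one _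
  have hNn : N ≤ n := by
    have : (N : ℝ) < n + 1 := by linarith
    have h3 : N < n + 1 := by exact_mod_cast this
    omega
  have hqn : q ≤ 2 ^ j * n := by
    have h3 : (q : ℝ) ≤ ((2 ^ j * n : ℕ) : ℝ) := by
      push_cast
      have h4 : (2 : ℝ) ^ j * (c * q) ≤ 2 ^ j * (n + 1) := mul_le_mul_of_nonneg_left hn1.le h2j.le
      have h5 : (0 : ℝ) ≤ q := by positivity
      have h6 : 2 * (q : ℝ) ≤ 2 ^ j * c * q := mul_le_mul_of_nonneg_right hj.le h5
      have h7 : (2 : ℝ) ^ j ≤ q := by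
        have : 0 ≤ ((N : ℝ) + 1) / c := by positivity
        linarith
      linarith
    exact_mod_cast h3
  have h3 := VS_mono S hqn
  have h4 := hN n hNn
  linarith

end

/-- the windows of length `L` -/
noncomputable def wn (S : Set ℕ) (L : ℝ) (m : ℕ) : Finset ℕ := win S (m * L) (m * L + L)

lemma mem_wn {S : Set ℕ} (hS : ThinSet S) {L : ℝ} {m p : ℕ} : p ∈ wn S L m ↔
    p.Prime ∧ p ∈ S ∧ m * L < VS S p ∧ VS S p ≤ m * L + L := mem_win hS

/-- the number of the window -/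
noncomputable def bk (S : Set ℕ) (L : ℝ) (p : ℕ) : ℕ := ⌈VS S p / L⌉₊ - 1

lemma bk_eq {S : Set ℕ} (hS : ThinSet S) {L : ℝ} (hL : 0 < L) {m p : ℕ} (h : p ∈ wn S L m) :
    bk S L p = m := by
  rw [mem_wn hS] at h
  obtain ⟨-, -, h1, h2⟩ := h
  have h3 : ⌈VS S p / L⌉₊ = m + 1 := by
    rw [Nat.ceil_eq_iff (by omega)]
    constructor
    · rw [lt_div_iff₀ hL]
      simpa using h1
    · rw [div_le_iff₀ hL]
      push_cast
      linarith
  unfold bk
  omega

open Classical in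
/-- **The averages of the generating functions of the numbers of exponents in consecutive windows.** -/
theorem wn_avg (hPV : Pool.Agent.N176.OW.S_PV) (hSV : Pool.Agent.N136.OW.S_SV2) {δ : ℝ}
    (hδ0 : 0 ≤ δ) (hδ : δ < 1 / 4) {e A : ℕ → ℕ} (hD : Dig δ e A) {S : Set ℕ} (hS : ThinSet S)
    {L : ℝ} (hL : 0 < L) (r : ℕ) (s : ℕ → ℝ) (hs : ∀ i, 0 ≤ s i ∧ s i ≤ 1) :
    ∀ᵐ β ∂mu1, Tendsto (fun M : ℕ => (∑ m ∈ range M, ∏ i ∈ range (r + 1),
      s i ^ ((wn S L (m + i)).filter (fun p => fd e A p β = 1)).card) / M) atTop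
      (𝓝 (∏ i ∈ range (r + 1), Real.exp (-(kc * L * (1 - s i))))) := by
  have hcr := cr_pos hδ
  set T : ℕ → Finset ℕ := fun m => (range (r + 1)).biUnion fun i => wn S L (m + i) with hT
  set c : ℕ → ℕ → ℝ := fun m p => 1 - s (bk S L p - m) with hc
  have hTm : ∀ m p, p ∈ T m → p.Prime ∧ p ∈ S ∧ m * L < VS S p ∧ VS S p ≤ (m + r + 1) * L := by
    intro m p hp
    simp only [hT] at hp
    rw [mem_biUnion] at hp
    obtain ⟨i, hi, hp⟩ := hp
    rw [mem_range] at hi
    rw [mem_wn hS] at hp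
    obtain ⟨h1, h2, h3, h4⟩ := hp
    push_cast at h3 h4
    have hi0 : (0 : ℝ) ≤ i := by positivity
    have hir : (i : ℝ) ≤ r := by exact_mod_cast (by omega : i ≤ r)
    refine ⟨h1, h2, ?_, ?_⟩
    · have : (m : ℝ) * L ≤ (m + i) * L := mul_le_mul_of_nonneg_right (by linarith) hL.le
      linarith
    · have : ((m : ℝ) + i + 1) * L ≤ (m + r + 1) * L := mul_le_mul_of_nonneg_right (by linarith) hL.le
      linarith
  have hdisj : ∀ m : ℕ, Set.PairwiseDisjoint ((range (r + 1) : Finset ℕ) : Set ℕ)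
      (fun i => wn S L (m + i)) := by
    intro m i _ j _ hij
    rw [Function.onFun, Finset.disjoint_left]
    intro p hp hp'
    have h1 := bk_eq hS hL hp
    have h2 := bk_eq hS hL hp'
    omega
  have hbig : ∀ N : ℕ, ∀ᶠ m in atTop, ∀ p ∈ T m, N ≤ p := by
    intro N
    have h1 : Tendsto (fun m : ℕ => (m : ℝ) * L) atTop atTop :=
      tendsto_natCast_atTop_atTop.atTop_mul_const hL
    filter_upwards [h1.eventually_ge_atTop (VS S N)] with m hm p hp
    by_contra h2
    have h3 := VS_mono S (not_le.1 h2).le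
    have h4 := (hTm m p hp).2.2.1
    linarith
  have hmass : ∀ m : ℕ, ∑ p ∈ wn S L m, wt p ≤ L + 2 := by
    intro m
    have h1 := (abs_le.1 (mass_win hS (x := m * L) (y := m * L + L) (by positivity) (by linarith))).2
    have h2 := wt_le_one (Nx S (m * L))
    have h3 := wt_le_one (Nx S (m * L + L))
    unfold wn
    linarith
  have hcov : ∀ m, ∀ i ∈ range (r + 1), ∀ p ∈ wn S L (m + i), c m p = 1 - s i := by
    intro m i _ p hp
    simp only [hc]
    rw [bk_eq hS hL hp]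
    congr 2
    omega
  set R := r + 1 + ⌈1 / L⌉₊ with hR
  have hRL : 1 ≤ ((R : ℝ) - (r + 1)) * L := by
    rw [hR]
    push_cast
    have h1 : 1 / L ≤ (⌈1 / L⌉₊ : ℝ) := Nat.le_ceil _
    rw [div_le_iff₀ hL] at h1
    linarith
  obtain ⟨Q, hQ⟩ := thin_cr hS hcr (show (0 : ℝ) < 1 / 2 by norm_num)
  obtain ⟨m1, hm1⟩ := eventually_atTop.1 (hbig Q)
  have key := thin_avg hPV hSV hδ0 hδ hD (T := T) (c := c)
    (Λ := ∑ i ∈ range (r + 1), (1 - s i) * L) (L := ∑ i ∈ range (r + 1), (L + 2)) (R := R)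
    (m1 := m1)
    (fun m q => ⟨by simp only [hc]; linarith [(hs (bk S L q - m)).2],
      by simp only [hc]; linarith [(hs (bk S L q - m)).1]⟩)
    hbig
    (fun m => by
      simp only [hT]
      rw [Finset.sum_biUnion (hdisj m)]
      exact Finset.sum_le_sum fun i _ => hmass _)
    (fun ε hε => by
      obtain ⟨Q', hQ'⟩ := thin_cr hS hcr hε
      filter_upwards [hbig (Q' + 1)] with m hm q hq
      have h1 := hQ' q (by have := hm q hq; omega)
      refine le_trans ?_ h1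
      have hq1 : 1 ≤ q := by have := hm q hq; omega
      have hfl : ⌊cr δ * q⌋₊ ≤ q := by
        have h2 : cr δ * q ≤ 1 * q := by
          apply mul_le_mul_of_nonneg_right _ (by positivity)
          linarith [cr_le (δ := δ) hδ0]
        rw [one_mul] at h2
        exact_mod_cast (Nat.floor_le (by positivity)).trans h2
      rw [← mass_Ioc S ⌊cr δ * q⌋₊ q hfl]
      apply Finset.sum_le_sum_of_subset_of_nonneg
      · intro p hp
        rw [mem_filter] at hp
        rw [mem_filter, mem_Ico]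
        obtain ⟨h2, h3, -⟩ := hTm m p hp.1
        refine ⟨⟨?_, by omega⟩, h2, h3⟩
        have h4 : (⌊cr δ * q⌋₊ : ℝ) ≤ cr δ * q := Nat.floor_le (by positivity)
        have h5 : (⌊cr δ * q⌋₊ : ℝ) < p := by linarith [hp.2.2]
        have h6 : ⌊cr δ * q⌋₊ < p := by exact_mod_cast h5
        omega
      · intro p _ _
        exact wt_nonneg p)
    (fun H => by
      obtain ⟨P, hP⟩ := hS.gap H
      filter_upwards [hbig P] with m hm p hp q hq hpq
      obtain ⟨h1, h2, -⟩ := hTm m p hp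
      obtain ⟨h3, h4, -⟩ := hTm m q hq
      exact hP p q (hm p hp) h1 h3 h2 h4 hpq)
    (by
      have h1 : ∀ m, ∑ q ∈ T m, c m q * wt q =
          ∑ i ∈ range (r + 1), (1 - s i) * ∑ q ∈ wn S L (m + i), wt q := by
        intro m
        simp only [hT]
        rw [Finset.sum_biUnion (hdisj m)]
        refine Finset.sum_congr rfl fun i hi => ?_
        rw [Finset.mul_sum]
        refine Finset.sum_congr rfl fun p hp => ?_
        rw [hcov m i hi p hp]
      simp only [h1]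
      refine tendsto_finsetSum _ fun i _ => ?_
      exact (mass_lim hS hL i).const_mul _)
    (by omega)
    (fun m hm m' hmm p hp q hq => by
      by_contra h1
      rw [not_le] at h1
      obtain ⟨-, -, -, h2⟩ := hTm m' p hp
      obtain ⟨-, -, h3, -⟩ := hTm m q hq
      have hqQ := hm1 m hm q hq
      have h4 := hQ q hqQ
      have h5 : (⌊cr δ * q⌋₊ : ℝ) ≤ cr δ * q := Nat.floor_le (by positivity)
      have h6 : (⌊cr δ * q⌋₊ : ℝ) < p := by linarith
      have h7 := VS_mono S (by exact_mod_cast h6.le : ⌊cr δ * q⌋₊ ≤ p)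
      have h8 : ((m' : ℝ) + R) * L ≤ m * L := by
        apply mul_le_mul_of_nonneg_right _ hL.le
        exact_mod_cast hmm
      linarith)
  have hlim : Real.exp (-(kc * ∑ i ∈ range (r + 1), (1 - s i) * L)) =
      ∏ i ∈ range (r + 1), Real.exp (-(kc * L * (1 - s i))) := by
    rw [← Real.exp_sum]
    congr 1
    rw [Finset.mul_sum, ← Finset.sum_neg_distrib]
    exact Finset.sum_congr rfl fun i _ => by ring
  rw [hlim] at key
  filter_upwards [key] with β hβ
  refine hβ.congr fun M => ?_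
  congr 1
  refine Finset.sum_congr rfl fun m _ => ?_
  unfold GT
  simp only [hT]
  rw [Finset.prod_biUnion (hdisj m)]
  refine Finset.prod_congr rfl fun i hi => ?_
  rw [← Finset.prod_const, Finset.prod_filter]
  refine Finset.prod_congr rfl fun p hp => ?_
  unfold fac
  rw [hcov m i hi p hp]
  have h1 : fd e A p β = 0 ∨ fd e A p β = 1 := by
    unfold fd ind
    split_ifs
    · exact Or.inr rfl
    · exact Or.inl rfl
  rcases h1 with h1 | h1
  · rw [h1, if_neg (by norm_num)]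
    ring
  · rw [h1, if_pos rfl]
    ring

end Pool.Agent.K9h18.HS
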