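import Pool.Agent.K9h18.HS.Freq
import Pool.Agent.K9h18.HS.Gap
import Pool.Agent.K9h18.HS.Wnd
import Pool.Agent.K9h18.HS.DigFl

set_option autoImplicit false

/-!
# Poisson statistics for thin sets of exponents
-/

open Finset Filter Topology MeasureTheory

namespace Pool.Agent.K9h18.HS

open Pool.Agent.H305R2 (roughPart)
open Pool.Agent.TH888.R (wt wt_nonneg wt_le_one VS VS_univ_bound VS_nonneg VS_mono gr gr_small cS)

open Classical in
/-- the number of the events in the windows -/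
noncomputable def Nw (s : ℕ → ℕ) (S : Set ℕ) (L : ℝ) (m : ℕ) : ℕ :=
  ((wn S L m).filter (fun p => (roughPart p (s p)).Prime)).card

/-- the events -/
def Ev (s : ℕ → ℕ) (S : Set ℕ) (p : ℕ) : Prop := p.Prime ∧ p ∈ S ∧ (roughPart p (s p)).Prime

lemma wt_pos {p : ℕ} (hp : p.Prime) : 0 < wt p := by
  have h1 : (1 : ℝ) < p := by exact_mod_cast hp.one_lt
  exact div_pos (Real.log_pos h1) (by linarith)

lemma VS_lt {S : Set ℕ} {p q : ℕ} (hpq : p < q) (hq : q.Prime) (hqS : q ∈ S) : VS S p < VS S q := by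
  obtain ⟨n, rfl⟩ := Nat.exists_eq_add_of_lt hpq
  have h1 := VS_mono S (show p ≤ p + n by omega)
  have h2 := VS_succ S (p + n)
  rw [if_pos ⟨hqS, hq⟩] at h2
  have := wt_pos hq
  linarith

lemma Nw_zero {s : ℕ → ℕ} {S : Set ℕ} (hS : ThinSet S) (L : ℝ) (m : ℕ) :
    Nw s S L m = 0 ↔ ∀ p, Ev s S p → ¬ (m * L < VS S p ∧ VS S p ≤ m * L + L) := by
  classical
  unfold Nw
  rw [Finset.card_eq_zero, Finset.filter_eq_empty_iff]
  constructor
  · intro h p hp h1
    exact h ((mem_wn hS).2 ⟨hp.1, hp.2.1, h1.1, h1.2⟩) hp.2.2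
  · intro h p hp h1
    rw [mem_wn hS] at hp
    exact h p ⟨hp.1, hp.2.1, h1⟩ ⟨hp.2.2.1, hp.2.2.2⟩

lemma void_iff {s : ℕ → ℕ} {S : Set ℕ} (hS : ThinSet S) (hinf : (Set.ofPred (Ev s S)).Infinite)
    {η : ℝ} (hη : 0 < η) (r m : ℕ) :
    Void (fun k => VS S (Nat.nth (Ev s S) k)) η r m ↔ ∀ i < r + 1, Nw s S η (m + i) = 0 := by
  classical
  constructor
  · intro h i hi
    rw [Nw_zero hS]
    rintro p hp ⟨h1, h2⟩
    have h3 : Nat.nth (Ev s S) (Nat.count (Ev s S) p) = p := Nat.nth_count hp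
    apply h (Nat.count (Ev s S) p)
    simp only [h3]
    have hi0 : (0 : ℝ) ≤ i := Nat.cast_nonneg i
    have hir : (i : ℝ) ≤ r := by exact_mod_cast (by omega : i ≤ r)
    push_cast at h1 h2
    constructor
    · have : (m : ℝ) * η ≤ (m + i) * η := mul_le_mul_of_nonneg_right (by linarith) hη.le
      linarith
    · have : ((m : ℝ) + i + 1) * η ≤ (m + r + 1) * η := mul_le_mul_of_nonneg_right (by linarith) hη.le
      linarith
  · intro h k hk
    obtain ⟨h1, h2⟩ := hk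
    set x := VS S (Nat.nth (Ev s S) k) with hx
    have hE : Ev s S (Nat.nth (Ev s S) k) := Nat.nth_mem_of_infinite hinf k
    set c := ⌈x / η⌉₊ with hc
    have h3 : (m : ℝ) < x / η := by rw [lt_div_iff₀ hη]; exact h1
    have h4 : x / η ≤ ((m + r + 1 : ℕ) : ℝ) := by rw [div_le_iff₀ hη]; push_cast; exact h2
    have h5 : m < c := Nat.lt_ceil.2 h3
    have h6 : c ≤ m + r + 1 := Nat.ceil_le.2 h4
    have h7 := (Nw_zero (s := s) hS η (m + (c - 1 - m))).1 (h (c - 1 - m) (by omega)) _ hE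
    apply h7
    have h8 : m + (c - 1 - m) = c - 1 := by omega
    rw [h8, Nat.cast_sub (by omega)]
    have h9 : (c : ℝ) < x / η + 1 := Nat.ceil_lt_add_one ((Nat.cast_nonneg m).trans h3.le)
    have h10 : x / η ≤ c := Nat.le_ceil _
    rw [div_le_iff₀ hη] at h10
    have h11 : ((c : ℝ) - 1) * η < x := by
      rw [← lt_div_iff₀ hη]
      linarith
    constructor
    · push_cast
      exact h11
    · push_cast
      linarith

lemma cS_nth {s : ℕ → ℕ} {S : Set ℕ} (hinf : (Set.ofPred (Ev s S)).Infinite) (k : ℕ) :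
    cS S s (Nat.nth (Ev s S) k) = k + 1 := by
  classical
  have h1 : cS S s (Nat.nth (Ev s S) k) = Nat.count (Ev s S) (Nat.nth (Ev s S) k + 1) := by
    rw [Nat.count_eq_card_filter_range]
    unfold cS
    congr 1
    refine Finset.filter_congr fun p _ => Iff.rfl
  rw [h1, Nat.count_succ, if_pos (Nat.nth_mem_of_infinite hinf k), Nat.count_nth_of_infinite hinf]

open Classical in
/-- **The gap law at a point.** -/
theorem gap_pt {s : ℕ → ℕ} {S : Set ℕ} (hS : ThinSet S) {κ : ℝ} (hκ : 0 < κ) (hP : PtR s κ S)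
    (hfreq : ∀ n : ℕ, 1 ≤ n → ∀ r : ℕ, Tendsto (fun M : ℕ => (((range M).filter (fun m =>
      ∀ i < r + 1, Nw s S (1 / n) (m + i) = 0)).card : ℝ) / M) atTop
      (𝓝 (Real.exp (-(κ * (1 / n) * (r + 1))))))
    {y : ℝ} (hy : 0 < y) :
    Tendsto (fun K : ℕ => (((range K).filter (fun k =>
      y < VS S (Nat.nth (Ev s S) (k + 1)) - VS S (Nat.nth (Ev s S) k))).card : ℝ) / K) atTop
      (𝓝 (Real.exp (-(κ * y)))) := by
  have hinf : (Set.ofPred (Ev s S)).Infinite := hP.inf hκ hS.top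
  have hmono : StrictMono (fun k => VS S (Nat.nth (Ev s S) k)) := by
    refine strictMono_nat_of_lt_succ fun k => ?_
    have h1 : Nat.nth (Ev s S) k < Nat.nth (Ev s S) (k + 1) :=
      Nat.nth_strictMono hinf (Nat.lt_succ_self k)
    have h2 : Ev s S (Nat.nth (Ev s S) (k + 1)) := Nat.nth_mem_of_infinite hinf _
    exact VS_lt h1 h2.1 h2.2.1
  have hpos : ∀ k, 0 < VS S (Nat.nth (Ev s S) k) := by
    intro k
    have h2 : Ev s S (Nat.nth (Ev s S) k) := Nat.nth_mem_of_infinite hinf _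
    have := VS_lt (S := S) (p := 0) h2.1.pos h2.1 h2.2.1
    rwa [VS_zero] at this
  have hVk : Tendsto (fun k => VS S (Nat.nth (Ev s S) k)) atTop atTop :=
    hS.top.comp (Nat.nth_strictMono hinf).tendsto_atTop
  obtain ⟨B, hB, hn⟩ := hP.law hS.top
  have hlim : Tendsto (fun k : ℕ => VS S (Nat.nth (Ev s S) k) / k) atTop (𝓝 (1 / κ)) := by
    -- `(k + 1) / V → κ`
    have h1 : Tendsto (fun k : ℕ => ((k : ℝ) + 1) / VS S (Nat.nth (Ev s S) k)) atTop (𝓝 κ) := by
      rw [Metric.tendsto_atTop]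
      intro ε hε
      obtain ⟨N, hN⟩ := eventually_atTop.1 (hVk.eventually (gr_small hB (show 0 < ε / 2 by positivity)))
      refine ⟨N, fun k hk => ?_⟩
      have h2 := hN k hk
      have h3 := hn (Nat.nth (Ev s S) k)
      rw [cS_nth hinf] at h3
      push_cast at h3
      have h4 := hpos k
      rw [Real.dist_eq]
      have h5 : ((k : ℝ) + 1) / VS S (Nat.nth (Ev s S) k) - κ =
          (((k : ℝ) + 1) - κ * VS S (Nat.nth (Ev s S) k)) / VS S (Nat.nth (Ev s S) k) := by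
        field_simp
      rw [h5, abs_div, abs_of_pos h4, div_lt_iff₀ h4]
      nlinarith
    have h2 : Tendsto (fun k : ℕ => ((k : ℝ) + 1) / k) atTop (𝓝 1) := by
      have h3 : Tendsto (fun k : ℕ => 1 + 1 / (k : ℝ)) atTop (𝓝 (1 + 0)) :=
        tendsto_const_nhds.add (tendsto_const_div_atTop_nhds_zero_nat 1)
      rw [add_zero] at h3
      refine h3.congr' ?_
      filter_upwards [eventually_ge_atTop 1] with k hk
      have : (k : ℝ) ≠ 0 := by exact_mod_cast (by omega : k ≠ 0)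
      field_simp
    have h3 := h2.div h1 hκ.ne'
    refine h3.congr fun k => ?_
    have h4 := hpos k
    have h5 : (k : ℝ) + 1 ≠ 0 := by positivity
    rcases Nat.eq_zero_or_pos k with rfl | hk
    · simp
    · have : (k : ℝ) ≠ 0 := by exact_mod_cast (by omega : k ≠ 0)
      simp only [Pi.div_apply]
      field_simp
  refine gap_law hmono hpos hκ hlim ?_ hy
  intro n hn1 r
  have hn0 : (0 : ℝ) < n := by exact_mod_cast hn1
  refine (hfreq n hn1 r).congr fun M => ?_
  congr 3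
  refine Finset.filter_congr fun m _ => ?_
  exact (void_iff hS hinf (by positivity) r m).symm

open Classical in
/-- **Poisson statistics for thin sets of exponents.** -/
theorem thin_law {δ : ℝ} (hδ0 : 0 ≤ δ) (hδ : δ < 1 / 4) {A : ℕ → ℕ}
    (hA : ∀ p, p.Prime → 2 ^ (p - 1) ≤ A p ∧ A p + 2 ^ (ef δ p) ≤ 2 ^ p) {S : Set ℕ}
    (hS : ThinSet S) {L : ℝ} (hL : 0 < L) :
    ∀ᵐ β : ℝ, 0 < β → β ≤ 1 → ∀ (r : ℕ) (j : ℕ → ℕ), Tendsto (fun M : ℕ =>
      (((range M).filter (fun m => ∀ i < r + 1,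
        Nw (fun p => A p + (⌈β * 2 ^ (ef δ p)⌉₊ - 1)) S L (m + i) = j i)).card : ℝ) / M) atTop
      (𝓝 (∏ i ∈ range (r + 1), (Real.exp (-(kc * L)) * (kc * L) ^ (j i) / (j i).factorial))) := by
  set A' : ℕ → ℕ := fun p => if p.Prime then A p else 2 ^ (p - 1) with hA'
  have hD : Dig δ (ef δ) A' := by
    refine dig_ef hδ0 (by linarith) (fun p hp => ?_) (fun p hp => ?_)
    · simp only [hA']
      split_ifs with h
      · exact (hA p h).1
      · exact le_rfl
    · simp only [hA']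
      split_ifs with h
      · exact (hA p h).2
      · have h1 := ef_add hδ0 (by linarith) hp
        have h2 : 2 ^ ef δ p ≤ 2 ^ (p - 1) := Nat.pow_le_pow_right (by norm_num) (by omega)
        have h3 : 2 ^ p = 2 ^ (p - 1) + 2 ^ (p - 1) := by
          rw [← two_mul, ← pow_succ']
          congr 1
          omega
        omega
  have hall : ∀ᵐ β ∂mu1, ∀ x : (Σ r : ℕ, (Fin (r + 1) → ℚ)), (∀ i, 0 ≤ x.2 i ∧ x.2 i ≤ 1) →
      Tendsto (fun M : ℕ => (∑ m ∈ range M, ∏ i ∈ range (x.1 + 1),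
        (if h : i < x.1 + 1 then (x.2 ⟨i, h⟩ : ℝ) else 0) ^
          ((wn S L (m + i)).filter (fun p => fd (ef δ) A' p β = 1)).card) / M) atTop
      (𝓝 (∏ i ∈ range (x.1 + 1), Real.exp (-(kc * L * (1 -
        (if h : i < x.1 + 1 then (x.2 ⟨i, h⟩ : ℝ) else 0)))))) := by
    rw [ae_all_iff]
    rintro ⟨r, s⟩
    by_cases hs : ∀ i, 0 ≤ s i ∧ s i ≤ 1
    · filter_upwards [wn_avg Pool.Agent.N455.OW.pv (Pool.Agent.N136.OW.sv2 Pool.Agent.N75.OW.sg)
        hδ0 hδ hD hS hL r (fun i => if h : i < r + 1 then (s ⟨i, h⟩ : ℝ) else 0) (fun i => by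
          split_ifs with h
          · exact ⟨by exact_mod_cast (hs _).1, by exact_mod_cast (hs _).2⟩
          · exact ⟨le_rfl, zero_le_one⟩)] with β hβ _
      exact hβ
    · filter_upwards with β hs'
      exact absurd hs' hs
  rw [ae_restrict_iff' measurableSet_Ioc] at hall
  filter_upwards [hall] with β hβ h0 h1 r j
  have hb := hβ ⟨h0, h1⟩
  set s : ℕ → ℕ := fun p => A p + (⌈β * 2 ^ (ef δ p)⌉₊ - 1) with hs
  have hN : ∀ m, Nw s S L m = ((wn S L m).filter (fun p => fd (ef δ) A' p β = 1)).card := by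
    intro m
    unfold Nw
    congr 1
    refine Finset.filter_congr fun p hp => ?_
    rw [mem_wn hS] at hp
    unfold fd ind
    simp only [hA', if_pos hp.1, hs, jj]
    split_ifs with h
    · exact ⟨fun _ => rfl, fun _ => h⟩
    · exact ⟨fun h' => absurd h' h, fun h' => absurd h' (by norm_num)⟩
  have hG : ∀ t : ℕ → ℚ, (∀ i, 0 ≤ t i ∧ t i ≤ 1) →
      LimG (Nw s S L) r (fun i => pureE (kc * L) (t i)) := by
    intro t ht
    have h2 := hb ⟨r, fun i => t i⟩ (fun i => ht i)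
    unfold LimG pureE
    simp only
    refine Tendsto.congr' (Eventually.of_forall fun M => ?_) (h2.trans_eq ?_)
    · simp only
      congr 1
      refine Finset.sum_congr rfl fun m _ => Finset.prod_congr rfl fun i hi => ?_
      rw [mem_range] at hi
      rw [dif_pos hi, hN]
    · simp only
      congr 1
      refine Finset.prod_congr rfl fun i hi => ?_
      rw [mem_range] at hi
      rw [dif_pos hi]
  have hF := freq (N := Nw s S L) (lam := kc * L) (by have := kc_pos; positivity) r hG j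
  unfold LimG indE at hF
  simp only at hF
  refine hF.congr fun M => ?_
  congr 1
  rw [← Finset.sum_boole]
  refine Finset.sum_congr rfl fun m _ => ?_
  rw [Finset.prod_boole]
  simp only [mem_range]

open Classical in
/-- **The gap law for thin sets of exponents.** -/
theorem thin_gap {δ : ℝ} (hδ0 : 0 ≤ δ) (hδ : δ < 1 / 4) {A : ℕ → ℕ}
    (hA : ∀ p, p.Prime → 2 ^ (p - 1) ≤ A p ∧ A p + 2 ^ (ef δ p) ≤ 2 ^ p) {S : Set ℕ}
    (hS : ThinSet S) :
    ∀ᵐ β : ℝ, 0 < β → β ≤ 1 → ∀ y : ℝ, 0 < y → Tendsto (fun K : ℕ => (((range K).filter (fun k =>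
      y < VS S (Nat.nth (Ev (fun p => A p + (⌈β * 2 ^ (ef δ p)⌉₊ - 1)) S) (k + 1)) -
        VS S (Nat.nth (Ev (fun p => A p + (⌈β * 2 ^ (ef δ p)⌉₊ - 1)) S) k))).card : ℝ) / K) atTop
      (𝓝 (Real.exp (-(kc * y)))) := by
  have h1 : ∀ᵐ β : ℝ, ∀ n : ℕ, 0 < β → β ≤ 1 → ∀ (r : ℕ) (j : ℕ → ℕ), Tendsto (fun M : ℕ =>
      (((range M).filter (fun m => ∀ i < r + 1,
        Nw (fun p => A p + (⌈β * 2 ^ (ef δ p)⌉₊ - 1)) S (1 / ((n + 1 : ℕ) : ℝ)) (m + i) = j i)).card : ℝ) / M) atTop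
      (𝓝 (∏ i ∈ range (r + 1), (Real.exp (-(kc * (1 / ((n + 1 : ℕ) : ℝ)))) *
        (kc * (1 / ((n + 1 : ℕ) : ℝ))) ^ (j i) / (j i).factorial))) := by
    rw [ae_all_iff]
    intro n
    exact thin_law hδ0 hδ hA hS (by positivity)
  filter_upwards [h1, law_dig hδ0 hδ hA S] with β hβ hP h0 h1 y hy
  refine gap_pt hS kc_pos (hP h0 h1) ?_ hy
  intro n hn r
  obtain ⟨n', rfl⟩ := Nat.exists_eq_add_of_le' hn
  have h2 := hβ n' h0 h1 r (fun _ => 0)
  simp only [pow_zero, Nat.factorial_zero, Nat.cast_one, div_one, mul_one, Finset.prod_const,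
    Finset.card_range] at h2
  rw [← Real.exp_nat_mul] at h2
  refine h2.trans_eq ?_
  congr 2
  push_cast
  ring

end Pool.Agent.K9h18.HS
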