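import Pool.Agent.K9h18.HS.Lln

set_option autoImplicit false

/-!
# Thin sets of exponents
-/

open Finset Filter Topology MeasureTheory

namespace Pool.Agent.K9h18.HS

open Pool.Agent.TH888.R (wt wt_nonneg wt_le_one)

lemma geom_up (a : ℕ) (T : Finset ℕ) (hT : ∀ q ∈ T, a ≤ q) : ∑ q ∈ T, (3 / 4 : ℝ) ^ (q - a) ≤ 4 := by
  classical
  have hinj : Set.InjOn (fun q => q - a) (T : Set ℕ) := by
    intro x hx y hy hxy
    have h1 := hT x hx
    have h2 := hT y hy
    simp only at hxy
    omega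
  have h1 : ∑ q ∈ T, (3 / 4 : ℝ) ^ (q - a) = ∑ k ∈ T.image (fun q => q - a), (3 / 4 : ℝ) ^ k := by
    rw [Finset.sum_image hinj]
  rw [h1]
  have h2 : ∑ k ∈ T.image (fun q => q - a), (3 / 4 : ℝ) ^ k ≤
      ∑ k ∈ Finset.range ((T.image (fun q => q - a)).sup id + 1), (3 / 4 : ℝ) ^ k := by
    apply Finset.sum_le_sum_of_subset_of_nonneg
    · intro k hk
      rw [Finset.mem_range]
      have : k ≤ (T.image (fun q => q - a)).sup id := Finset.le_sup (f := id) hk
      omega
    · intro k _ _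
      positivity
  refine h2.trans ?_
  rw [geom_sum_eq (by norm_num)]
  have h4 : (0 : ℝ) ≤ (3 / 4) ^ ((T.image (fun q => q - a)).sup id + 1) := by positivity
  rw [div_le_iff_of_neg (by norm_num)]
  linarith

lemma er_le {δ : ℝ} {T : Finset ℕ} {L ε : ℝ} {N H : ℕ} (hN : 3 ≤ N) (hT : ∀ p ∈ T, N ≤ p)
    (hL : ∑ p ∈ T, wt p ≤ L) (hε : 0 ≤ ε)
    (hthin : ∀ q ∈ T, ∑ p ∈ T.filter (fun p => p < q ∧ cr δ * q < p), wt p ≤ ε)
    (hgap : ∀ p ∈ T, ∀ q ∈ T, p < q → p + H ≤ q) :
    er δ T ≤ 2 * (L / Real.log N) + 2 * (ε * L) + 4 * ((3 / 4) ^ H * L) := by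
  classical
  have hlN := log_ge_one hN
  have hL0 : 0 ≤ L := (Finset.sum_nonneg fun p _ => wt_nonneg p).trans hL
  -- the reciprocals
  have h1 : ∑ q ∈ T, 1 / (q : ℝ) ≤ L / Real.log N := by
    have h2 : ∀ q ∈ T, 1 / (q : ℝ) ≤ wt q / Real.log N := by
      intro q hq
      have hq3 : 3 ≤ q := hN.trans (hT q hq)
      have hq0 : (0 : ℝ) < q := by exact_mod_cast (by omega : 0 < q)
      have h3 : Real.log N ≤ Real.log q :=
        Real.log_le_log (by exact_mod_cast (by omega : 0 < N)) (by exact_mod_cast hT q hq)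
      unfold wt
      rw [le_div_iff₀ (by linarith), one_div_mul_eq_div]
      gcongr
    refine (Finset.sum_le_sum h2).trans ?_
    rw [← Finset.sum_div]
    gcongr
  -- one term
  have h2 : ∀ q ∈ T, ∑ p ∈ T.filter (fun p => p < q ∧ cr δ * q < p), (nb p q + wt q * wt p) ≤
      2 * (ε * wt q) + 1 / (q : ℝ) +
        ∑ p ∈ T.filter (fun p => p < q), (3 / 4 : ℝ) ^ (q - p) * wt p := by
    intro q hq
    have hq3 : 3 ≤ q := hN.trans (hT q hq)
    have hq0 : (0 : ℝ) < q := by exact_mod_cast (by omega : 0 < q)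
    have hwq := wt_nonneg q
    set nr := T.filter (fun p => p < q ∧ cr δ * q < p) with hnr
    have h3 : ∀ p ∈ nr, nb p q + wt q * wt p ≤ 2 * (wt q * wt p) + 1 / (q : ℝ) ^ 2 +
        (3 / 4 : ℝ) ^ (q - p) * wt p := by
      intro p hp
      rw [hnr, mem_filter] at hp
      have h4 : wt q ≤ wt p := wt_anti (hN.trans (hT p hp.1)) hp.2.1.le
      have h5 : wt q ^ 2 ≤ wt q * wt p := by
        rw [sq]
        exact mul_le_mul_of_nonneg_left h4 hwq
      unfold nb
      linarith
    refine (Finset.sum_le_sum h3).trans ?_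
    rw [Finset.sum_add_distrib, Finset.sum_add_distrib, ← Finset.mul_sum, ← Finset.mul_sum,
      Finset.sum_const, nsmul_eq_mul]
    have h4 : 2 * (wt q * ∑ p ∈ nr, wt p) ≤ 2 * (ε * wt q) := by
      have := mul_le_mul_of_nonneg_left (hthin q hq) hwq
      linarith
    have h5 : (nr.card : ℝ) * (1 / (q : ℝ) ^ 2) ≤ 1 / q := by
      have h6 : nr.card ≤ (Finset.range q).card := Finset.card_le_card fun p hp => by
        rw [hnr, mem_filter] at hp
        exact Finset.mem_range.2 hp.2.1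
      rw [Finset.card_range] at h6
      have h7 : (nr.card : ℝ) ≤ q := by exact_mod_cast h6
      calc (nr.card : ℝ) * (1 / (q : ℝ) ^ 2) ≤ q * (1 / (q : ℝ) ^ 2) :=
            mul_le_mul_of_nonneg_right h7 (by positivity)
        _ = 1 / q := by field_simp
    have h6 : ∑ p ∈ nr, (3 / 4 : ℝ) ^ (q - p) * wt p ≤
        ∑ p ∈ T.filter (fun p => p < q), (3 / 4 : ℝ) ^ (q - p) * wt p := by
      apply Finset.sum_le_sum_of_subset_of_nonneg
      · intro p hp
        rw [hnr, mem_filter] at hp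
        rw [mem_filter]
        exact ⟨hp.1, hp.2.1⟩
      · intro p _ _
        have := wt_nonneg p
        positivity
    linarith
  -- the close pairs
  have h3 : ∑ q ∈ T, ∑ p ∈ T.filter (fun p => p < q), (3 / 4 : ℝ) ^ (q - p) * wt p ≤
      4 * ((3 / 4) ^ H * L) := by
    have h4 : ∑ q ∈ T, ∑ p ∈ T.filter (fun p => p < q), (3 / 4 : ℝ) ^ (q - p) * wt p =
        ∑ p ∈ T, ∑ q ∈ T.filter (fun q => p < q), (3 / 4 : ℝ) ^ (q - p) * wt p := by
      simp only [Finset.sum_filter]
      rw [Finset.sum_comm]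
    rw [h4]
    have h5 : ∀ p ∈ T, ∑ q ∈ T.filter (fun q => p < q), (3 / 4 : ℝ) ^ (q - p) * wt p ≤
        4 * (3 / 4) ^ H * wt p := by
      intro p hp
      rw [← Finset.sum_mul]
      apply mul_le_mul_of_nonneg_right _ (wt_nonneg p)
      have h6 : ∀ q ∈ T.filter (fun q => p < q), (3 / 4 : ℝ) ^ (q - p) =
          (3 / 4) ^ H * (3 / 4) ^ (q - (p + H)) := by
        intro q hq
        rw [mem_filter] at hq
        have := hgap p hp q hq.1 hq.2
        rw [← pow_add]
        congr 1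
        omega
      rw [Finset.sum_congr rfl h6, ← Finset.mul_sum, mul_comm 4]
      apply mul_le_mul_of_nonneg_left _ (by positivity)
      apply geom_up
      intro q hq
      rw [mem_filter] at hq
      exact hgap p hp q hq.1 hq.2
    refine (Finset.sum_le_sum h5).trans ?_
    rw [← Finset.mul_sum]
    calc 4 * (3 / 4 : ℝ) ^ H * ∑ p ∈ T, wt p ≤ 4 * (3 / 4) ^ H * L :=
          mul_le_mul_of_nonneg_left hL (by positivity)
      _ = _ := by ring
  unfold er
  rw [Finset.sum_add_distrib]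
  have h4 := Finset.sum_le_sum h2
  rw [Finset.sum_add_distrib, Finset.sum_add_distrib, ← Finset.mul_sum, ← Finset.mul_sum] at h4
  have h5 : 2 * (ε * ∑ p ∈ T, wt p) ≤ 2 * (ε * L) := by
    have := mul_le_mul_of_nonneg_left hL hε
    linarith
  linarith

lemma prod_exp (T : Finset ℕ) (x : ℕ → ℝ) (hx : ∀ q ∈ T, 0 ≤ x q ∧ x q ≤ 1) :
    |∏ q ∈ T, (1 - x q) - Real.exp (-∑ q ∈ T, x q)| ≤ ∑ q ∈ T, x q ^ 2 := by
  classical
  induction T using Finset.induction_on with
  | empty => simp
  | insert a s ha ih =>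
    have ih' := ih fun q hq => hx q (Finset.mem_insert_of_mem hq)
    obtain ⟨h1, h2⟩ := hx a (Finset.mem_insert_self _ _)
    rw [Finset.prod_insert ha, Finset.sum_insert ha, Finset.sum_insert ha, neg_add, Real.exp_add]
    set P := ∏ q ∈ s, (1 - x q) with hP
    set E := Real.exp (-∑ q ∈ s, x q) with hE
    have hE0 : 0 < E := Real.exp_pos _
    have hE1 : E ≤ 1 := by
      rw [hE, Real.exp_le_one_iff, neg_nonpos]
      exact Finset.sum_nonneg fun q hq => (hx q (Finset.mem_insert_of_mem hq)).1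
    have h3 : |1 - x a - Real.exp (-x a)| ≤ x a ^ 2 := by
      have h4 := Real.abs_exp_sub_one_sub_id_le (x := -x a) (by rw [abs_neg, abs_of_nonneg h1]; exact h2)
      rw [abs_sub_comm]
      calc |Real.exp (-x a) - (1 - x a)| = |Real.exp (-x a) - 1 - -x a| := by congr 1; ring
        _ ≤ (-x a) ^ 2 := h4
        _ = x a ^ 2 := by ring
    have e1 : (1 - x a) * P - Real.exp (-x a) * E = (1 - x a) * (P - E) +
        (1 - x a - Real.exp (-x a)) * E := by ring
    rw [e1]
    refine (abs_add_le _ _).trans ?_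
    rw [abs_mul, abs_mul, abs_of_nonneg (by linarith : 0 ≤ 1 - x a), abs_of_pos hE0]
    have h5 : (1 - x a) * |P - E| ≤ 1 * |P - E| :=
      mul_le_mul_of_nonneg_right (by linarith) (abs_nonneg _)
    have h6 : |1 - x a - Real.exp (-x a)| * E ≤ x a ^ 2 * 1 :=
      mul_le_mul h3 hE1 hE0.le (sq_nonneg _)
    linarith

lemma Dig.le' {δ : ℝ} {e A : ℕ → ℕ} (hD : Dig δ e A) (p : ℕ) : e p ≤ p := by
  rcases Nat.eq_zero_or_pos p with h | h
  · subst h
    have h1 := hD.mono 0 1 (by norm_num)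
    have h2 := hD.le 1 le_rfl
    omega
  · have := hD.le p h
    omega

lemma wt_tendsto : Tendsto wt atTop (𝓝 0) := by
  have h := Real.isLittleO_log_id_atTop.tendsto_div_nhds_zero
  exact h.comp tendsto_natCast_atTop_atTop

/-- **Averages of products over thin windows.** -/
theorem thin_avg (hPV : Pool.Agent.N176.OW.S_PV) (hSV : Pool.Agent.N136.OW.S_SV2) {δ : ℝ}
    (hδ0 : 0 ≤ δ) (hδ : δ < 1 / 4) {e A : ℕ → ℕ} (hD : Dig δ e A) {T : ℕ → Finset ℕ}
    {c : ℕ → ℕ → ℝ} {Λ L : ℝ} {R m1 : ℕ} (hc : ∀ m q, 0 ≤ c m q ∧ c m q ≤ 1)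
    (hfar : ∀ N : ℕ, ∀ᶠ m in atTop, ∀ p ∈ T m, N ≤ p) (hL : ∀ m, ∑ p ∈ T m, wt p ≤ L)
    (hthin : ∀ ε : ℝ, 0 < ε → ∀ᶠ m in atTop, ∀ q ∈ T m,
      ∑ p ∈ (T m).filter (fun p => p < q ∧ cr δ * q < p), wt p ≤ ε)
    (hgap : ∀ H : ℕ, ∀ᶠ m in atTop, ∀ p ∈ T m, ∀ q ∈ T m, p < q → p + H ≤ q)
    (hΛ : Tendsto (fun m => ∑ q ∈ T m, c m q * wt q) atTop (𝓝 Λ)) (hR : 1 ≤ R)
    (hsep : ∀ m ≥ m1, ∀ m' : ℕ, m' + R ≤ m → ∀ p ∈ T m', ∀ q ∈ T m, (p : ℝ) ≤ cr δ * q) :
    ∀ᵐ β ∂mu1, Tendsto (fun M : ℕ => (∑ m ∈ range M, GT e A (c m) (T m) β) / M) atTop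
      (𝓝 (Real.exp (-(kc * Λ)))) := by
  classical
  obtain ⟨K, hK, P, hP1, hkw, hprod⟩ := prod_L hPV hSV hδ0 hδ hD
  have hcr := cr_pos hδ
  have hkc := kc_pos
  have hΛ0 : 0 ≤ Λ := ge_of_tendsto' hΛ fun m => Finset.sum_nonneg fun q _ =>
    mul_nonneg (hc m q).1 (wt_nonneg q)
  have hL0 : 0 ≤ L := (Finset.sum_nonneg fun p _ => wt_nonneg p).trans (hL 0)
  have hE0 : 0 < Real.exp (-(kc * Λ)) := Real.exp_pos _
  have hE1 : Real.exp (-(kc * Λ)) ≤ 1 := by
    rw [Real.exp_le_one_iff, neg_nonpos]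
    positivity
  set X : ℕ → ℝ → ℝ := fun m β => GT e A (c m) (T m) β - Real.exp (-(kc * Λ)) with hX
  set k : ℕ → ℕ := fun m => ((range (m + 1)).filter (fun m' => m' + R ≤ m)).sup
    (fun m' => (T m').sup id) with hk
  have hmain := lln (X := X) (fun m => (GT_meas e A (c m) (T m)).sub_const _) (fun m β => by
      have h1 := GT_nonneg (hc m) (e := e) (A := A) (T m) β
      have h2 := GT_le_one (hc m) (e := e) (A := A) (T m) β
      simp only [hX]
      rw [abs_le]
      constructor <;> linarith) k hR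
    (fun m m' hmm g hg => by
      have h1 : Lv (k m) (GT e A (c m') (T m')) := by
        refine Lv.prod (T m') fun p hp => (fac_Lv (hc m') p).mono ?_
        refine (hD.le' p).trans ?_
        have h2 : m' ∈ (range (m + 1)).filter (fun m' => m' + R ≤ m) := by
          rw [mem_filter, mem_range]
          omega
        have h3 : (T m').sup id ≤ k m := Finset.le_sup (f := fun m' => (T m').sup id) h2
        have h4 : p ≤ (T m').sup id := Finset.le_sup (f := id) hp
        exact h4.trans h3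
      exact h1.comp (g := fun x => g (x - Real.exp (-(kc * Λ)))) fun x => hg _)
    (fun ε hε => by
      -- the error terms
      have hLK : 0 < 16 * K * (L + 1) := by positivity
      have hlog : Tendsto (fun n : ℕ => Real.log n) atTop atTop :=
        Real.tendsto_log_atTop.comp tendsto_natCast_atTop_atTop
      obtain ⟨N1, hN1⟩ := (hlog.eventually_ge_atTop (16 * K * (L + 1) / ε)).exists_forall_of_atTop
      obtain ⟨H, hH⟩ := exists_pow_lt_of_lt_one (show (0 : ℝ) < ε / (32 * K * (L + 1)) by positivity)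
        (show (3 / 4 : ℝ) < 1 by norm_num)
      obtain ⟨N2, hN2⟩ := (wt_tendsto.eventually_lt_const
        (show (0 : ℝ) < ε / (8 * kc ^ 2 * (L + 1)) by positivity)).exists_forall_of_atTop
      have hexp : ∀ᶠ m in atTop, |Real.exp (-(kc * ∑ q ∈ T m, c m q * wt q)) -
          Real.exp (-(kc * Λ))| < ε / 8 := by
        have h1 : Tendsto (fun m => Real.exp (-(kc * ∑ q ∈ T m, c m q * wt q))) atTop
            (𝓝 (Real.exp (-(kc * Λ)))) :=
          (Real.continuous_exp.tendsto _).comp ((hΛ.const_mul kc).neg)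
        have h2 := Metric.tendsto_nhds.1 h1 (ε / 8) (by positivity)
        filter_upwards [h2] with m hm
        rwa [Real.dist_eq] at hm
      obtain ⟨m0, hm0⟩ := eventually_atTop.1 ((hfar (N1 + N2 + P + 3)).and
        ((hthin (ε / (16 * K * (L + 1))) (by positivity)).and ((hgap H).and hexp)))
      refine ⟨m0 + m1, fun m hm φ hφ => ?_⟩
      obtain ⟨g1, g2, g3, g4⟩ := hm0 m (by omega)
      have hI0 : 0 ≤ ∫ β, φ β ∂mu1 := setIntegral_nonneg measurableSet_Ioc fun β hβ => hφ.nonneg hβ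
      set I0 := ∫ β, φ β ∂mu1 with hI0def
      have hkm : ∀ p ∈ T m, ((k m : ℕ) : ℝ) ≤ cr δ * p := by
        intro p hp
        have h1 : k m ≤ ⌊cr δ * p⌋₊ := by
          refine Finset.sup_le fun m' hm' => Finset.sup_le fun p' hp' => ?_
          rw [mem_filter] at hm'
          exact Nat.le_floor (hsep m (by omega) m' hm'.2 p' hp' p hp)
        have h2 : (⌊cr δ * p⌋₊ : ℝ) ≤ cr δ * p := Nat.floor_le (by positivity)
        have h3 : ((k m : ℕ) : ℝ) ≤ ⌊cr δ * p⌋₊ := by exact_mod_cast h1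
        linarith
      have h1 := hprod (T m) (fun p hp => by have := g1 p hp; omega) (c m) (hc m) (k m) hkm φ hφ
      have her := er_le (δ := δ) (N := N1 + N2 + P + 3) (H := H) (by omega) g1 (hL m)
        (by positivity) g2 g3
      -- bound for the error term
      have her2 : K * er δ (T m) ≤ ε / 2 := by
        have hlN : 16 * K * (L + 1) / ε ≤ Real.log ((N1 + N2 + P + 3 : ℕ) : ℝ) := hN1 _ (by omega)
        have hlN0 : 0 < Real.log ((N1 + N2 + P + 3 : ℕ) : ℝ) := lt_of_lt_of_le (by positivity) hlN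
        have a1 : K * (2 * (L / Real.log ((N1 + N2 + P + 3 : ℕ) : ℝ))) ≤ ε / 8 := by
          have h2 : L / Real.log ((N1 + N2 + P + 3 : ℕ) : ℝ) ≤ L / (16 * K * (L + 1) / ε) :=
            div_le_div_of_nonneg_left hL0 (by positivity) hlN
          have h3 : L / (16 * K * (L + 1) / ε) = ε / (16 * K) * (L / (L + 1)) := by
            field_simp
          have h4 : L / (L + 1) ≤ 1 := by rw [div_le_one (by linarith)]; linarith
          calc K * (2 * (L / Real.log ((N1 + N2 + P + 3 : ℕ) : ℝ))) ≤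
                K * (2 * (ε / (16 * K) * (L / (L + 1)))) := by
                rw [h3] at h2
                gcongr
            _ ≤ K * (2 * (ε / (16 * K) * 1)) := by gcongr
            _ = ε / 8 := by field_simp; norm_num
        have a2 : K * (2 * (ε / (16 * K * (L + 1)) * L)) ≤ ε / 8 := by
          have h4 : L / (L + 1) ≤ 1 := by rw [div_le_one (by linarith)]; linarith
          have h5 : K * (2 * (ε / (16 * K * (L + 1)) * L)) = ε / 8 * (L / (L + 1)) := by
            field_simp
            ring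
          rw [h5]
          calc ε / 8 * (L / (L + 1)) ≤ ε / 8 * 1 := by gcongr
            _ = ε / 8 := mul_one _
        have a3 : K * (4 * ((3 / 4) ^ H * L)) ≤ ε / 8 := by
          have h4 : L / (L + 1) ≤ 1 := by rw [div_le_one (by linarith)]; linarith
          calc K * (4 * ((3 / 4) ^ H * L)) ≤ K * (4 * (ε / (32 * K * (L + 1)) * L)) := by gcongr
            _ = ε / 8 * (L / (L + 1)) := by field_simp; ring
            _ ≤ ε / 8 * 1 := by gcongr
            _ = ε / 8 := mul_one _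
        have a4 := mul_le_mul_of_nonneg_left her hK.le
        linarith
      have hpe := prod_exp (T m) (fun q => c m q * (kc * wt q)) (fun q hq => by
        have h2 := wt_nonneg q
        exact ⟨mul_nonneg (hc m q).1 (by positivity),
          mul_le_one₀ (hc m q).2 (by positivity) (hkw q (by have := g1 q hq; omega))⟩)
      have hsq : ∑ q ∈ T m, (c m q * (kc * wt q)) ^ 2 ≤ ε / 8 := by
        have h2 : ∀ q ∈ T m, (c m q * (kc * wt q)) ^ 2 ≤ kc ^ 2 * (ε / (8 * kc ^ 2 * (L + 1))) *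
            wt q := by
          intro q hq
          have h3 := wt_nonneg q
          have h4 := (hN2 q (by have := g1 q hq; omega)).le
          have h5 : (c m q * (kc * wt q)) ^ 2 ≤ (1 * (kc * wt q)) ^ 2 := by
            apply pow_le_pow_left₀ (mul_nonneg (hc m q).1 (by positivity))
            exact mul_le_mul_of_nonneg_right (hc m q).2 (by positivity)
          refine h5.trans ?_
          calc (1 * (kc * wt q)) ^ 2 = kc ^ 2 * wt q * wt q := by ring
            _ ≤ kc ^ 2 * (ε / (8 * kc ^ 2 * (L + 1))) * wt q := by gcongr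
        refine (Finset.sum_le_sum h2).trans ?_
        rw [← Finset.mul_sum]
        have h4 : L / (L + 1) ≤ 1 := by rw [div_le_one (by linarith)]; linarith
        calc kc ^ 2 * (ε / (8 * kc ^ 2 * (L + 1))) * ∑ q ∈ T m, wt q ≤
              kc ^ 2 * (ε / (8 * kc ^ 2 * (L + 1))) * L :=
              mul_le_mul_of_nonneg_left (hL m) (by positivity)
          _ = ε / 8 * (L / (L + 1)) := by field_simp
          _ ≤ ε / 8 * 1 := by gcongr
          _ = ε / 8 := mul_one _
      have hsum : ∑ q ∈ T m, c m q * (kc * wt q) = kc * ∑ q ∈ T m, c m q * wt q := by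
        rw [Finset.mul_sum]
        exact Finset.sum_congr rfl fun q _ => by ring
      rw [hsum] at hpe
      have hXI : ∫ β, φ β * X m β ∂mu1 =
          ∫ β, φ β * GT e A (c m) (T m) β ∂mu1 - Real.exp (-(kc * Λ)) * I0 := by
        have h2 : ∀ β, φ β * X m β = φ β * GT e A (c m) (T m) β - Real.exp (-(kc * Λ)) * φ β := by
          intro β
          simp only [hX]
          ring
        simp only [h2]
        rw [integral_sub (hφ.int_mul (GT_meas e A (c m) (T m)) (B := 1) fun x => by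
          rw [abs_of_nonneg (GT_nonneg (hc m) _ _)]
          exact GT_le_one (hc m) _ _) (hφ.int.const_mul _), integral_const_mul]
      rw [hXI]
      set PP := ∏ q ∈ T m, (1 - c m q * (kc * wt q)) with hPP
      have h2 : ∫ β, φ β * GT e A (c m) (T m) β ∂mu1 - Real.exp (-(kc * Λ)) * I0 =
          (∫ β, φ β * GT e A (c m) (T m) β ∂mu1 - PP * I0) +
            (PP - Real.exp (-(kc * Λ))) * I0 := by ring
      rw [h2]
      refine (abs_add_le _ _).trans ?_
      rw [abs_mul, abs_of_nonneg hI0]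
      have h3 : |PP - Real.exp (-(kc * Λ))| ≤ ε / 4 := by
        have h4 := abs_sub_le PP (Real.exp (-(kc * ∑ q ∈ T m, c m q * wt q)))
          (Real.exp (-(kc * Λ)))
        linarith
      have h5 := mul_le_mul_of_nonneg_right h3 hI0
      have h6 := mul_le_mul_of_nonneg_right her2 hI0
      have h7 : 0 ≤ ε * I0 := by positivity
      linarith)
  filter_upwards [hmain] with β hβ
  have h1 : ∀ᶠ M : ℕ in atTop, (∑ m ∈ range M, X m β) / M + Real.exp (-(kc * Λ)) =
      (∑ m ∈ range M, GT e A (c m) (T m) β) / M := by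
    filter_upwards [eventually_ge_atTop 1] with M hM
    have hM0 : (0 : ℝ) < M := by exact_mod_cast hM
    simp only [hX]
    rw [Finset.sum_sub_distrib, Finset.sum_const, Finset.card_range, nsmul_eq_mul]
    field_simp
    ring
  have h2 := hβ.add_const (Real.exp (-(kc * Λ)))
  rw [zero_add] at h2
  exact h2.congr' h1

end Pool.Agent.K9h18.HS
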