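import Pool.Agent.K9h18.HS.Lvl
import Pool.Agent.TH888.R.Inv

set_option autoImplicit false

/-!
# Far pairs
-/

open Filter Topology Set MeasureTheory
open scoped Real

namespace Pool.Agent.K9h18.HS

open Pool.Agent.H305R2 (roughPart)
open Pool.Agent.TH888.R (wt wt_nonneg)

/-- prescribed leading digits: `A p` is prescribed, `e p` digits are free -/
structure Dig (δ : ℝ) (e A : ℕ → ℕ) : Prop where
  le : ∀ p, 1 ≤ p → e p + 1 ≤ p
  mono : ∀ p q, p ≤ q → e p ≤ e q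
  slope : ∀ p q, p ≤ q → e q + p ≤ e p + q
  low : ∀ p : ℕ, (1 - δ) * p - 2 ≤ e p
  grow : ∀ p q : ℕ, p ≤ q → (1 - δ) * (q - p) - 1 ≤ (e q : ℝ) - e p
  Alow : ∀ p, 1 ≤ p → 2 ^ (p - 1) ≤ A p
  Aup : ∀ p, 1 ≤ p → A p + 2 ^ (e p) ≤ 2 ^ p

/-- the indicator of prime `p`-rough part -/
noncomputable def ind (p m : ℕ) : ℝ := if (roughPart p m).Prime then 1 else 0

lemma ind_nonneg (p m : ℕ) : 0 ≤ ind p m := by unfold ind; split_ifs <;> norm_num

lemma ind_le_one (p m : ℕ) : ind p m ≤ 1 := by unfold ind; split_ifs <;> norm_num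

/-- the constant of the law -/
noncomputable def kc : ℝ := Real.exp Real.eulerMascheroniConstant / Real.log 2

lemma kc_pos : 0 < kc := div_pos (Real.exp_pos _) (Real.log_pos (by norm_num))

lemma block_count (q A' g : ℕ) (hA : 1 ≤ A') :
    ∑ t ∈ Finset.range (2 ^ g), ind q (A' + t) =
      (((Finset.Ioc (A' - 1) (A' - 1 + 2 ^ g)).filter (fun m => (roughPart q m).Prime)).card : ℝ) := by
  have h1 : (((Finset.Ioc (A' - 1) (A' - 1 + 2 ^ g)).filter
      (fun m => (roughPart q m).Prime)).card : ℝ) =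
      ∑ m ∈ Finset.Ioc (A' - 1) (A' - 1 + 2 ^ g), ind q m := by
    unfold ind
    rw [← Finset.sum_filter, Finset.sum_const, nsmul_eq_mul, mul_one]
  rw [h1]
  refine Finset.sum_bij (fun t _ => A' + t) ?_ ?_ ?_ ?_
  · intro t ht
    rw [Finset.mem_range] at ht
    rw [Finset.mem_Ioc]
    omega
  · intro a _ b _ h
    omega
  · intro m hm
    rw [Finset.mem_Ioc] at hm
    refine ⟨m - A', ?_, ?_⟩
    · rw [Finset.mem_range]
      omega
    · omega
  · intro t _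
    rfl

theorem block_est (hPV : Pool.Agent.N176.OW.S_PV) {δ : ℝ} (hδ0 : 0 ≤ δ) (hδ : δ < 1 / 4)
    {e A : ℕ → ℕ} (hD : Dig δ e A) :
    ∃ K : ℝ, 0 < K ∧ ∃ P : ℕ, 1 ≤ P ∧ ∀ q ≥ P, ⌊(1 / 4 - δ) / 2 * q⌋₊ ≤ e q ∧
      ∀ i < 2 ^ ⌊(1 / 4 - δ) / 2 * q⌋₊,
      |∑ t ∈ Finset.range (2 ^ (e q - ⌊(1 / 4 - δ) / 2 * q⌋₊)),
        ind q (A q + (i * 2 ^ (e q - ⌊(1 / 4 - δ) / 2 * q⌋₊) + t)) -
        kc * wt q * 2 ^ (e q - ⌊(1 / 4 - δ) / 2 * q⌋₊)| ≤
        K / q * 2 ^ (e q - ⌊(1 / 4 - δ) / 2 * q⌋₊) := by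
  set ε := (1 / 4 - δ) / 4 with hε
  have hε0 : 0 < ε := by rw [hε]; linarith
  have hε1 : ε < 1 / 4 := by rw [hε]; linarith
  have hκε : (1 / 4 - δ) / 2 = 2 * ε := by rw [hε]; ring
  rw [hκε]
  obtain ⟨K, hK, P1, hcnt⟩ := rough_count hPV hε0 hε1
  have hl2 : 0 < Real.log 2 := Real.log_pos (by norm_num)
  -- eventual conditions
  have hq : Tendsto (fun q : ℕ => (q : ℝ)) atTop atTop := tendsto_natCast_atTop_atTop
  have ev1 : ∀ᶠ q : ℕ in atTop, (q : ℝ) * 4 ≤ 2 ^ (2 * ε * q) := by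
    have h1 : Tendsto (fun x : ℝ => x ^ (1 : ℕ) * Real.exp (-(x))) atTop (𝓝 0) :=
      Real.tendsto_pow_mul_exp_neg_atTop_nhds_zero 1
    have h0 : Tendsto (fun q : ℕ => 2 * ε * Real.log 2 * q) atTop atTop :=
      hq.const_mul_atTop (by positivity)
    have h2 := (h1.comp h0).eventually_lt_const (show (0 : ℝ) < 2 * ε * Real.log 2 / 4 by positivity)
    filter_upwards [h2] with q h3
    simp only [Function.comp, pow_one] at h3
    have h4 : (2 : ℝ) ^ (2 * ε * q) = Real.exp (2 * ε * Real.log 2 * q) := by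
      rw [Real.rpow_def_of_pos (by norm_num)]
      congr 1
      ring
    rw [h4]
    rw [Real.exp_neg, ← div_eq_mul_inv, div_lt_div_iff₀ (Real.exp_pos _) (by norm_num)] at h3
    have h5 : 0 < 2 * ε * Real.log 2 := by positivity
    have h6 : 2 * ε * Real.log 2 * (q * 4) < 2 * ε * Real.log 2 *
        Real.exp (2 * ε * Real.log 2 * q) := by linarith
    exact (lt_of_mul_lt_mul_left h6 h5.le).le
  obtain ⟨P2, hP2⟩ := (ev1.and ((hq.eventually_ge_atTop (2 / ε)).and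
    (eventually_ge_atTop 4))).exists_forall_of_atTop
  refine ⟨K, hK, max (P1 + P2) 1, le_max_right _ _, fun q hqP => ?_⟩
  have hqP1 : P1 ≤ q := by omega
  obtain ⟨h1, h2, h3⟩ := hP2 q (by omega)
  have hq0 : (0 : ℝ) < q := by exact_mod_cast (by omega : 0 < q)
  set k := ⌊2 * ε * q⌋₊ with hk
  have hk1 : (k : ℝ) ≤ 2 * ε * q := Nat.floor_le (by positivity)
  have hk2 : 2 * ε * q < k + 1 := Nat.lt_floor_add_one _
  have hlow := hD.low q
  have hεq : 2 ≤ ε * q := by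
    rw [div_le_iff₀ hε0] at h2
    linarith
  have hδε : (1 - δ) = 3 / 4 + 4 * ε := by rw [hε]; ring
  have hke : (k : ℝ) ≤ e q := by
    rw [hδε] at hlow
    have : 0 ≤ 3 / 4 * (q : ℝ) := by positivity
    linarith
  have hke' : k ≤ e q := by exact_mod_cast hke
  refine ⟨hke', fun i hi => ?_⟩
  set g := e q - k with hg
  have hgk : g + k = e q := by omega
  have hgr : (g : ℝ) = e q - k := by
    rw [eq_sub_iff_add_eq]
    exact_mod_cast hgk
  have hAlow := hD.Alow q (by omega)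
  have hAup := hD.Aup q (by omega)
  have hle := hD.le q (by omega)
  have hig : (i + 1) * 2 ^ g ≤ 2 ^ (e q) := by
    have h4 : 2 ^ (e q) = 2 ^ k * 2 ^ g := by rw [← pow_add]; congr 1; omega
    rw [h4]
    exact Nat.mul_le_mul_right _ hi
  set A' := A q + i * 2 ^ g with hA'
  have h2q : 1 ≤ 2 ^ (q - 1) := Nat.one_le_two_pow
  have hA'1 : 1 ≤ A' := by omega
  have hsum : ∑ t ∈ Finset.range (2 ^ g), ind q (A q + (i * 2 ^ g + t)) =
      ∑ t ∈ Finset.range (2 ^ g), ind q (A' + t) := by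
    refine Finset.sum_congr rfl fun t _ => ?_
    rw [hA', add_assoc]
  rw [hsum, block_count q A' g hA'1]
  have hpow : 2 ^ (q - 1) = 2 * 2 ^ (q - 2) := by
    rw [← pow_succ']
    congr 1
    omega
  have hp2 : 1 ≤ 2 ^ (q - 2) := Nat.one_le_two_pow
  have c1 : 2 ^ (q - 2) ≤ A' - 1 := by omega
  have c2 : A' - 1 ≤ 2 ^ (q + 1) := by
    have h5 : 2 ^ q ≤ 2 ^ (q + 1) := Nat.pow_le_pow_right (by norm_num) (by omega)
    have h6 : A' + 2 ^ g ≤ 2 ^ q := by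
      calc A' + 2 ^ g = A q + (i + 1) * 2 ^ g := by rw [hA']; ring
        _ ≤ A q + 2 ^ (e q) := Nat.add_le_add_left hig _
        _ ≤ 2 ^ q := hAup
    exact (Nat.sub_le _ _).trans ((Nat.le_add_right A' (2 ^ g)).trans (h6.trans h5))
  have c3 : A' - 1 ≤ A' - 1 + 2 ^ g := Nat.le_add_right _ _
  have hdiff : ((A' - 1 + 2 ^ g : ℕ) : ℝ) - ((A' - 1 : ℕ) : ℝ) = 2 ^ g := by
    push_cast
    ring
  have c4 : (((A' - 1 + 2 ^ g : ℕ) : ℝ) - ((A' - 1 : ℕ) : ℝ)) * q ≤ ((A' - 1 : ℕ) : ℝ) := by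
    rw [hdiff]
    have h5 : ((2 ^ (q - 2) : ℕ) : ℝ) ≤ ((A' - 1 : ℕ) : ℝ) := by exact_mod_cast c1
    refine le_trans ?_ h5
    have h6 : (q : ℝ) * 2 ≤ 2 ^ k := by
      have h7 : (2 : ℝ) ^ (2 * ε * q) ≤ 2 ^ (k + 1) := by
        rw [← Real.rpow_natCast]
        apply Real.rpow_le_rpow_of_exponent_le (by norm_num)
        push_cast
        exact hk2.le
      rw [pow_succ] at h7
      linarith
    have h8 : (2 : ℝ) ^ g * 2 ^ k * 2 ≤ ((2 ^ q : ℕ) : ℝ) := by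
      rw [← pow_add, hgk, ← pow_succ]
      push_cast
      exact pow_le_pow_right₀ (by norm_num) hle
    have h9 : ((2 ^ q : ℕ) : ℝ) = 4 * ((2 ^ (q - 2) : ℕ) : ℝ) := by
      have : 2 ^ q = 4 * 2 ^ (q - 2) := by
        have h10 : q = (q - 2) + 2 := by omega
        conv_lhs => rw [h10, pow_add]
        ring
      exact_mod_cast this
    have h11 : (0 : ℝ) < 2 ^ g := by positivity
    nlinarith [mul_le_mul_of_nonneg_left h6 h11.le]
  have c5 : Real.exp ((3 / 4 + ε) * (q * Real.log 2)) ≤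
      ((A' - 1 + 2 ^ g : ℕ) : ℝ) - ((A' - 1 : ℕ) : ℝ) := by
    rw [hdiff]
    have h5 : (2 : ℝ) ^ g = Real.exp (g * Real.log 2) := by
      rw [Real.exp_nat_mul, Real.exp_log (by norm_num)]
    rw [h5]
    apply Real.exp_le_exp.2
    rw [← mul_assoc]
    apply mul_le_mul_of_nonneg_right _ hl2.le
    rw [hgr]
    rw [hδε] at hlow
    linarith
  have hfin := hcnt q hqP1 (A' - 1) (A' - 1 + 2 ^ g) c1 c2 c3 c4 c5
  rw [hdiff] at hfin
  have e1 : (2 : ℝ) ^ g * (Real.exp Real.eulerMascheroniConstant / Real.log 2 *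
      (Real.log q / q)) = kc * wt q * 2 ^ g := by
    unfold kc wt
    ring
  have e2 : K * ((2 : ℝ) ^ g / q) = K / q * 2 ^ g := by ring
  rw [e1, e2] at hfin
  exact hfin

/-- **Means and far pairs.** -/
theorem far_pairs (hPV : Pool.Agent.N176.OW.S_PV) {δ : ℝ} (hδ0 : 0 ≤ δ) (hδ : δ < 1 / 4)
    {e A : ℕ → ℕ} (hD : Dig δ e A) :
    ∃ K : ℝ, 0 < K ∧ ∃ P : ℕ, 1 ≤ P ∧ ∀ q ≥ P,
      |avg (e q) (fun j => ind q (A q + j)) - kc * wt q| ≤ K / q ∧
      ∀ p : ℕ, p ≤ q → (p : ℝ) ≤ (1 / 4 - δ) / 2 * q → 1 ≤ p →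
      |avg (e q) (fun j => ind p (A p + j / 2 ^ (e q - e p)) * ind q (A q + j)) -
        kc * wt q * avg (e p) (fun j => ind p (A p + j))| ≤
        K / q * avg (e p) (fun j => ind p (A p + j)) := by
  obtain ⟨K, hK, P, hP1, hest⟩ := block_est hPV hδ0 hδ hD
  refine ⟨K, hK, P, hP1, fun q hq => ?_⟩
  obtain ⟨hke, hG⟩ := hest q hq
  constructor
  · have h1 := avg_far (e := 0) (Nat.zero_le _) hke (fun _ => 1) (fun j => ind q (A q + j))
      (fun _ => zero_le_one) hG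
    simp only [one_mul, avg_const, mul_one] at h1
    exact h1
  · intro p hpq hp hp1
    have hep : e p ≤ ⌊(1 / 4 - δ) / 2 * q⌋₊ := by
      apply Nat.le_floor
      have h1 := hD.le p hp1
      have h2 : (e p : ℝ) ≤ p := by exact_mod_cast (by omega : e p ≤ p)
      linarith
    exact avg_far hep hke (fun j => ind p (A p + j)) (fun j => ind q (A q + j))
      (fun _ => ind_nonneg _ _) hG

end Pool.Agent.K9h18.HS
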