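import Pool.Agent.K9h18.HS.BoxF

set_option autoImplicit false

/-!
# Counting primes in short intervals
-/

open Filter Topology Set MeasureTheory Metric
open scoped Real

namespace Pool.Agent.K9h18.HS

open Pool.Agent.W66

/-- the proper prime powers are negligible -/
lemma prime_part (m k : ℕ) (hm : 1 ≤ m) (hmk : m ≤ k) :
    |∑ n ∈ Finset.Ioc m k, ArithmeticFunction.vonMangoldt n / n -
      ∑ l ∈ (Finset.Ioc m k).filter Nat.Prime, Real.log l / l| ≤
      2 * √k * Real.log k / m := by
  have hm0 : (0 : ℝ) < m := by exact_mod_cast hm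
  have h0 : ∑ l ∈ (Finset.Ioc m k).filter Nat.Prime, Real.log l / l =
      ∑ l ∈ (Finset.Ioc m k).filter Nat.Prime, ArithmeticFunction.vonMangoldt l / l := by
    refine Finset.sum_congr rfl fun l hl => ?_
    rw [ArithmeticFunction.vonMangoldt_apply_prime (Finset.mem_filter.1 hl).2]
  rw [h0, ← Finset.sum_filter_add_sum_filter_not (Finset.Ioc m k) Nat.Prime, add_sub_cancel_left]
  have h1 : 0 ≤ ∑ n ∈ (Finset.Ioc m k).filter (fun n => ¬ n.Prime),
      ArithmeticFunction.vonMangoldt n / (n : ℝ) :=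
    Finset.sum_nonneg fun n _ => div_nonneg ArithmeticFunction.vonMangoldt_nonneg (by positivity)
  rw [abs_of_nonneg h1]
  have h2 : ∑ n ∈ (Finset.Ioc m k).filter (fun n => ¬ n.Prime),
      ArithmeticFunction.vonMangoldt n / (n : ℝ) ≤
      ∑ n ∈ (Finset.Ioc m k).filter (fun n => ¬ n.Prime),
        ArithmeticFunction.vonMangoldt n / (m : ℝ) := by
    refine Finset.sum_le_sum fun n hn => ?_
    rw [Finset.mem_filter, Finset.mem_Ioc] at hn
    have : (m : ℝ) ≤ n := by exact_mod_cast hn.1.1.le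
    exact div_le_div_of_nonneg_left ArithmeticFunction.vonMangoldt_nonneg hm0 this
  refine h2.trans ?_
  rw [← Finset.sum_div]
  apply div_le_div_of_nonneg_right _ hm0.le
  have h3 : ∑ n ∈ (Finset.Ioc m k).filter (fun n => ¬ n.Prime), ArithmeticFunction.vonMangoldt n ≤
      ∑ n ∈ (Finset.Ioc 0 k).filter (fun n => ¬ n.Prime), ArithmeticFunction.vonMangoldt n := by
    apply Finset.sum_le_sum_of_subset_of_nonneg
    · exact Finset.filter_subset_filter _ (Finset.Ioc_subset_Ioc_left (Nat.zero_le m))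
    · intro _ _ _
      exact ArithmeticFunction.vonMangoldt_nonneg
  refine h3.trans ?_
  have h4 := Chebyshev.abs_psi_sub_theta_le_sqrt_mul_log (x := (k : ℝ)) (by exact_mod_cast hm.trans hmk)
  have h5 : Chebyshev.psi (k : ℝ) - Chebyshev.theta (k : ℝ) =
      ∑ n ∈ (Finset.Ioc 0 k).filter (fun n => ¬ n.Prime), ArithmeticFunction.vonMangoldt n := by
    unfold Chebyshev.psi Chebyshev.theta
    rw [Nat.floor_natCast, ← Finset.sum_filter_add_sum_filter_not (Finset.Ioc 0 k) Nat.Prime
      (fun n => ArithmeticFunction.vonMangoldt n)]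
    have h6 : ∑ l ∈ (Finset.Ioc 0 k).filter Nat.Prime, Real.log l =
        ∑ l ∈ (Finset.Ioc 0 k).filter Nat.Prime, ArithmeticFunction.vonMangoldt l := by
      refine Finset.sum_congr rfl fun l hl => ?_
      rw [ArithmeticFunction.vonMangoldt_apply_prime (Finset.mem_filter.1 hl).2]
    rw [h6]
    ring
  rw [← h5]
  exact (le_abs_self _).trans h4

/-- **Counting primes in short intervals** `(e^a, e^b]`, `b - a ≤ 1/a`, with relative error
`O(1/a)`. -/
theorem short_count (hPV : Pool.Agent.N176.OW.S_PV) {e : ℝ} (he : 0 < e) (he1 : e < 1 / 4) :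
    ∃ Z0 : ℝ, 20 ≤ Z0 ∧ ∀ a b : ℝ, Z0 ≤ a → a ≤ b → b ≤ a + 1 / a →
      Real.exp (-((1 / 4 - e) * a)) ≤ b - a →
      |(((Finset.Ioc ⌊Real.exp a⌋₊ ⌊Real.exp b⌋₊).filter Nat.Prime).card : ℝ) -
        (Real.exp b - Real.exp a) / a| ≤ 16 * ((Real.exp b - Real.exp a) / a) / a := by
  obtain ⟨Z1, hZ1, hLa⟩ := short_La hPV 1 he he1
  have hlim : ∀ᶠ a : ℝ in atTop, 64 * (a ^ 2 * Real.exp (-(1 / 4 * a))) ≤ 1 := by
    have h0 : Tendsto (fun a : ℝ => 1 / 4 * a) atTop atTop :=
      tendsto_id.const_mul_atTop (by norm_num)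
    have h1 := (Real.tendsto_pow_mul_exp_neg_atTop_nhds_zero 2).comp h0
    have h2 : ∀ᶠ a : ℝ in atTop, (1 / 4 * a) ^ 2 * Real.exp (-(1 / 4 * a)) < (1 / 4) ^ 2 / 64 :=
      h1.eventually_lt_const (by positivity)
    filter_upwards [h2] with a h3
    rw [mul_pow, lt_div_iff₀ (by norm_num)] at h3
    linarith
  obtain ⟨Z2, hZ2⟩ := hlim.exists_forall_of_atTop
  refine ⟨max Z1 Z2, hZ1.trans (le_max_left _ _), fun a b ha hab hb hlen => ?_⟩
  have ha1 : Z1 ≤ a := (le_max_left _ _).trans ha
  have hE := hZ2 a ((le_max_right _ _).trans ha)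
  have ha20 : 20 ≤ a := hZ1.trans ha1
  have ha0 : 0 < a := by linarith
  have h1a : 1 / a ≤ 1 / 20 := one_div_le_one_div_of_le (by norm_num) ha20
  have h1a0 : 0 < 1 / a := by positivity
  have hba : 0 < b - a := lt_of_lt_of_le (Real.exp_pos _) hlen
  have hmain := hLa a b ha1 hab (by linarith) hlen
  rw [pow_one] at hmain
  set x := Real.exp a with hx
  set x' := Real.exp b with hx'
  have hx0 : 0 < x := Real.exp_pos _
  have hx'0 : 0 < x' := Real.exp_pos _
  have hx1 : 4 ≤ x := by
    have := Real.add_one_le_exp a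
    linarith
  set m := ⌊x⌋₊ with hm
  set k := ⌊x'⌋₊ with hk
  have hm1 : 1 ≤ m := by
    rw [hm]
    apply Nat.le_floor
    push_cast
    linarith
  have hmx : (m : ℝ) ≤ x := Nat.floor_le hx0.le
  have hmx2 : x < m + 1 := Nat.lt_floor_add_one x
  have hm2 : x / 2 ≤ m := by linarith
  have hkx : (k : ℝ) ≤ x' := Nat.floor_le hx'0.le
  have hmk : m ≤ k := Nat.floor_le_floor (Real.exp_le_exp.2 hab)
  -- comparison of `x'` and `x`
  have hr1 : x * (b - a) ≤ x' - x := by
    have h1 := Real.add_one_le_exp (b - a)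
    have h2 : x' = x * Real.exp (b - a) := by rw [hx, hx', ← Real.exp_add]; congr 1; ring
    rw [h2]
    nlinarith
  have hr2 : x' - x ≤ x' * (b - a) := by
    have h1 := Real.add_one_le_exp (-(b - a))
    have h2 : x = x' * Real.exp (-(b - a)) := by rw [hx, hx', ← Real.exp_add]; congr 1; ring
    rw [h2]
    nlinarith
  have hr3 : x' ≤ x * (1 + 2 / a) := by
    have h2 : x' = x * Real.exp (b - a) := by rw [hx, hx', ← Real.exp_add]; congr 1; ring
    rw [h2]
    apply mul_le_mul_of_nonneg_left _ hx0.le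
    have h3 : Real.exp (b - a) ≤ Real.exp (1 / a) := Real.exp_le_exp.2 (by linarith)
    have h4 : Real.exp (1 / a) ≤ 1 + 2 * (1 / a) := by
      have := Real.abs_exp_sub_one_le (x := 1 / a) (by rw [abs_of_pos h1a0]; linarith)
      rw [abs_of_pos h1a0] at this
      linarith [(abs_le.1 this).2]
    have e1 : 2 / a = 2 * (1 / a) := by ring
    rw [e1]
    linarith
  have hx'2 : x' ≤ 2 * x := by
    have : 2 / a ≤ 1 := by rw [div_le_one ha0]; linarith
    nlinarith
  -- prime powers
  have hpp := prime_part m k hm1 hmk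
  set Wp := ∑ l ∈ (Finset.Ioc m k).filter Nat.Prime, Real.log l / (l : ℝ) with hWp
  set Wa := ∑ n ∈ Finset.Ioc m k, ArithmeticFunction.vonMangoldt n / (n : ℝ) with hWa
  have hppb : 2 * √k * Real.log k / m ≤ (b - a) / a := by
    have h1 : √(k : ℝ) ≤ √(2 * x) := Real.sqrt_le_sqrt (hkx.trans hx'2)
    have h2 : Real.log k ≤ 2 * a := by
      have h3 : Real.log k ≤ b := by
        rw [Real.log_le_iff_le_exp (by exact_mod_cast hm1.trans hmk)]
        exact hkx
      linarith
    have h2' : 0 ≤ Real.log k := Real.log_nonneg (by exact_mod_cast hm1.trans hmk)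
    have h4 : √(2 * x) ≤ 2 * Real.exp (a / 2) := by
      rw [Real.sqrt_le_left (by positivity)]
      have : (2 * Real.exp (a / 2)) ^ 2 = 4 * x := by
        rw [mul_pow, ← Real.exp_nat_mul, hx]
        push_cast
        rw [show 2 * (a / 2) = a by ring]
        norm_num
      rw [this]
      linarith
    have h5 : 2 * √k * Real.log k / m ≤ 2 * (2 * Real.exp (a / 2)) * (2 * a) / (x / 2) := by
      apply div_le_div₀ (by positivity) _ (by positivity) hm2
      apply mul_le_mul _ h2 h2' (by positivity)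
      apply mul_le_mul_of_nonneg_left (h1.trans h4) (by norm_num)
    refine h5.trans ?_
    have h6 : 2 * (2 * Real.exp (a / 2)) * (2 * a) / (x / 2) = 16 * a * Real.exp (-(a / 2)) := by
      have : Real.exp (a / 2) = x * Real.exp (-(a / 2)) := by
        rw [hx, ← Real.exp_add]; congr 1; ring
      rw [this]
      field_simp
      ring
    rw [h6]
    have h7 : Real.exp (-(a / 2)) ≤ Real.exp (-(1 / 4 * a)) * (b - a) := by
      calc Real.exp (-(a / 2)) = Real.exp (-(1 / 4 * a)) * Real.exp (-(1 / 4 * a)) := by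
            rw [← Real.exp_add]; congr 1; ring
        _ ≤ Real.exp (-(1 / 4 * a)) * (b - a) := by
            apply mul_le_mul_of_nonneg_left _ (Real.exp_pos _).le
            refine le_trans (Real.exp_le_exp.2 ?_) hlen
            nlinarith
    have h8 : 16 * a * Real.exp (-(1 / 4 * a)) ≤ 1 / a := by
      rw [le_div_iff₀ ha0]
      have : 0 ≤ a ^ 2 * Real.exp (-(1 / 4 * a)) := by positivity
      nlinarith
    calc 16 * a * Real.exp (-(a / 2)) ≤ 16 * a * (Real.exp (-(1 / 4 * a)) * (b - a)) := by gcongr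
      _ = 16 * a * Real.exp (-(1 / 4 * a)) * (b - a) := by ring
      _ ≤ 1 / a * (b - a) := mul_le_mul_of_nonneg_right h8 hba.le
      _ = _ := by ring
  have hWb : |Wp - (b - a)| ≤ 2 * ((b - a) / a) := by
    have e1 : Wp - (b - a) = (Wa - (b - a)) - (Wa - Wp) := by ring
    rw [e1]
    refine (abs_sub _ _).trans ?_
    linarith
  obtain ⟨hW1, hW2⟩ := abs_le.1 hWb
  -- from the weights to the count
  set P := (Finset.Ioc m k).filter Nat.Prime with hP
  have hPmem : ∀ l ∈ P, a < Real.log l ∧ Real.log l ≤ b ∧ x < (l : ℝ) ∧ (l : ℝ) ≤ x' := by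
    intro l hl
    rw [hP, Finset.mem_filter, Finset.mem_Ioc, hm, hk, Nat.floor_lt hx0.le,
      Nat.le_floor_iff hx'0.le] at hl
    have hl0 : (0 : ℝ) < l := by exact_mod_cast hl.2.pos
    refine ⟨?_, ?_, hl.1.1, hl.1.2⟩
    · rw [Real.lt_log_iff_exp_lt hl0]; exact hl.1.1
    · rw [Real.log_le_iff_le_exp hl0]; exact hl.1.2
  have hup : (P.card : ℝ) * (a / x') ≤ Wp := by
    rw [hWp, ← nsmul_eq_mul, ← Finset.sum_const]
    refine Finset.sum_le_sum fun l hl => ?_
    obtain ⟨h1, h2, h3, h4⟩ := hPmem l hl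
    have hl0 : (0 : ℝ) < l := hx0.trans h3
    exact div_le_div₀ (by linarith) h1.le hl0 h4
  have hlow : Wp ≤ (P.card : ℝ) * (b / x) := by
    rw [hWp, ← nsmul_eq_mul, ← Finset.sum_const]
    refine Finset.sum_le_sum fun l hl => ?_
    obtain ⟨h1, h2, h3, h4⟩ := hPmem l hl
    exact div_le_div₀ (by linarith) h2 hx0 h3.le
  set c : ℝ := (P.card : ℝ) with hc
  have hc0 : 0 ≤ c := by positivity
  set D := x' - x with hD
  have hD0 : 0 < D := lt_of_lt_of_le (mul_pos hx0 hba) hr1
  set i := 1 / a with hi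
  have e2 : (b - a) / a = (b - a) * i := by rw [hi]; ring
  have e3 : D / a = D * i := by rw [hi]; ring
  have hia : i * a = 1 := by rw [hi]; field_simp
  -- upper bound
  have hcu : c ≤ D * i * (1 + 16 * i) := by
    have h1 : c * a ≤ Wp * x' := by
      rw [mul_div_assoc', div_le_iff₀ hx'0] at hup
      exact hup
    have h2 : Wp ≤ (b - a) * (1 + 2 * i) := by rw [e2] at hW2; linarith
    have h3 : c * a ≤ (b - a) * (1 + 2 * i) * (x * (1 + 2 * i)) := by
      refine h1.trans ?_
      apply mul_le_mul h2 _ hx'0.le (by positivity)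
      have : 2 / a = 2 * i := by rw [hi]; ring
      rw [← this]
      exact hr3
    have h4 : (b - a) * (1 + 2 * i) * (x * (1 + 2 * i)) ≤ D * (1 + 16 * i) := by
      calc (b - a) * (1 + 2 * i) * (x * (1 + 2 * i)) = x * (b - a) * (1 + 2 * i) ^ 2 := by ring
        _ ≤ D * (1 + 2 * i) ^ 2 := mul_le_mul_of_nonneg_right hr1 (by positivity)
        _ ≤ D * (1 + 16 * i) := by
            apply mul_le_mul_of_nonneg_left _ hD0.le
            nlinarith
    have h5 : c = c * a * i := by rw [mul_assoc, mul_comm a i, hia, mul_one]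
    rw [h5]
    calc c * a * i ≤ D * (1 + 16 * i) * i := mul_le_mul_of_nonneg_right (h3.trans h4) h1a0.le
      _ = _ := by ring
  have hcl : D * i * (1 - 16 * i) ≤ c := by
    have h1 : Wp * x ≤ c * b := by
      rw [mul_div_assoc', le_div_iff₀ hx0] at hlow
      exact hlow
    have h2 : (b - a) * (1 - 2 * i) ≤ Wp := by rw [e2] at hW1; linarith
    have h3 : (b - a) * (1 - 2 * i) * x ≤ c * (a * (1 + i)) := by
      have h4 : b ≤ a * (1 + i) := by
        have : a * (1 + i) = a + a * i := by ring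
        have h5 : a * i = 1 := by rw [mul_comm]; exact hia
        rw [this, h5]
        linarith
      calc (b - a) * (1 - 2 * i) * x ≤ Wp * x := mul_le_mul_of_nonneg_right h2 hx0.le
        _ ≤ c * b := h1
        _ ≤ _ := mul_le_mul_of_nonneg_left h4 hc0
    have h4 : D * (1 - 2 * i) ≤ (b - a) * x * (1 + 2 * i) := by
      calc D * (1 - 2 * i) ≤ D * 1 := mul_le_mul_of_nonneg_left (by linarith) hD0.le
        _ = D := mul_one _
        _ ≤ x' * (b - a) := hr2
        _ ≤ x * (1 + 2 * i) * (b - a) := by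
            apply mul_le_mul_of_nonneg_right _ hba.le
            have : 2 / a = 2 * i := by rw [hi]; ring
            rw [← this]
            exact hr3
        _ = _ := by ring
    have h4' : D ≤ (b - a) * x * (1 + 2 * i) := by
      calc D ≤ x' * (b - a) := hr2
        _ ≤ x * (1 + 2 * i) * (b - a) := by
            apply mul_le_mul_of_nonneg_right _ hba.le
            have : 2 / a = 2 * i := by rw [hi]; ring
            rw [← this]
            exact hr3
        _ = _ := by ring
    have h5 : D * (1 - 2 * i) ≤ c * a * ((1 + i) * (1 + 2 * i)) := by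
      calc D * (1 - 2 * i) ≤ (b - a) * x * (1 + 2 * i) * (1 - 2 * i) :=
            mul_le_mul_of_nonneg_right h4' (by linarith)
        _ = (b - a) * (1 - 2 * i) * x * (1 + 2 * i) := by ring
        _ ≤ c * (a * (1 + i)) * (1 + 2 * i) := mul_le_mul_of_nonneg_right h3 (by positivity)
        _ = _ := by ring
    have h6 : (1 + i) * (1 + 2 * i) ≤ 1 + 4 * i := by nlinarith
    have h7 : D * (1 - 2 * i) ≤ c * a * (1 + 4 * i) :=
      h5.trans (mul_le_mul_of_nonneg_left h6 (by positivity))
    have h8 : (1 - 16 * i) * (1 + 4 * i) ≤ 1 - 2 * i := by nlinarith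
    have h9 : D * ((1 - 16 * i) * (1 + 4 * i)) ≤ c * a * (1 + 4 * i) :=
      (mul_le_mul_of_nonneg_left h8 hD0.le).trans h7
    have h10 : D * (1 - 16 * i) ≤ c * a := by
      have : 0 < 1 + 4 * i := by positivity
      refine le_of_mul_le_mul_right ?_ this
      linarith
    calc D * i * (1 - 16 * i) = D * (1 - 16 * i) * i := by ring
      _ ≤ c * a * i := mul_le_mul_of_nonneg_right h10 h1a0.le
      _ = c * (i * a) := by ring
      _ = c := by rw [hia, mul_one]
  have e4 : 16 * (D / a) / a = D * i * (16 * i) := by rw [hi]; ring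
  rw [e4, e3, abs_le]
  constructor <;> linarith

end Pool.Agent.K9h18.HS
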