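import Pool.Agent.W66.PH

set_option autoImplicit false

/-!
# Sums over integers with the box kernel

The box versions of `riemann`, `riemann_log`, `typeI`, `gg_small` of `Pool/Agent/W66/PF.lean`.
-/

open Filter Topology Set MeasureTheory Metric
open scoped Real

namespace Pool.Agent.K9h18.HS

open Pool.Agent.W66

/-- harmonic sums -/
lemma harm_near {n : ℕ} (hn : 0 < n) {t : ℝ} (h1 : Real.log n ≤ t)
    (h2 : t ≤ Real.log ((n + 1 : ℕ) : ℝ)) :
    |∑ d ∈ Finset.Ioc 0 n, 1 / (d : ℝ) - t - Real.eulerMascheroniConstant| ≤ 2 / n := by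
  have h3 := harm_asym n hn
  obtain ⟨_, g2, _⟩ := log_gap hn
  have e : ∑ d ∈ Finset.Ioc 0 n, 1 / (d : ℝ) - t - Real.eulerMascheroniConstant =
      (∑ d ∈ Finset.Ioc 0 n, 1 / (d : ℝ) - Real.log n - Real.eulerMascheroniConstant) -
        (t - Real.log n) := by ring
  rw [e]
  refine (abs_sub _ _).trans ?_
  rw [abs_of_nonneg (by linarith : 0 ≤ t - Real.log n)]
  have : (2 : ℝ) / n = 1 / n + 1 / n := by ring
  linarith

theorem riemann_box {h x : ℝ} (hh : 0 < h) (hh1 : h ≤ 1) (hx : 2 ≤ x) (N : ℕ)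
    (hN : Real.exp (x + h) ≤ N) :
    |∑ m ∈ Finset.Ioc 0 N, 1 / (m : ℝ) * box h (x - Real.log m) - 1| ≤
      16 * Real.exp (-x) / h := by
  set n1 := ⌈Real.exp (x - h / 2)⌉₊ - 1 with hn1
  set n2 := ⌊Real.exp (x + h / 2)⌋₊ with hn2
  have he1 : Real.exp x / 4 + 1 ≤ Real.exp (x - h / 2) := by
    have e1 : Real.exp (x - 1 / 2) ≤ Real.exp (x - h / 2) := Real.exp_le_exp.2 (by linarith)
    have e2 : Real.exp (x - 1 / 2) * Real.exp (1 / 2) = Real.exp x := by
      rw [← Real.exp_add]; congr 1; ring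
    have e3 : Real.exp (1 / 2) ≤ 2 := by
      have h4 : Real.exp (1 / 2) ^ 2 = Real.exp 1 := by
        rw [← Real.exp_nat_mul]; congr 1; norm_num
      have h5 := Real.exp_one_lt_d9
      have h6 := Real.exp_pos (1 / 2 : ℝ)
      nlinarith
    have e4 : Real.exp 2 ≤ Real.exp x := Real.exp_le_exp.2 hx
    have e5 : (4 : ℝ) ≤ Real.exp 2 := by
      have h4 : Real.exp 2 = Real.exp 1 ^ 2 := by rw [← Real.exp_nat_mul]; norm_num
      rw [h4]
      have := Real.exp_one_gt_d9
      nlinarith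
    have e6 := Real.exp_pos (x - 1 / 2)
    nlinarith
  have hex : 0 < Real.exp x := Real.exp_pos x
  have hc1 : Real.exp (x - h / 2) ≤ (⌈Real.exp (x - h / 2)⌉₊ : ℝ) := Nat.le_ceil _
  have hcpos : 0 < ⌈Real.exp (x - h / 2)⌉₊ := Nat.ceil_pos.2 (Real.exp_pos _)
  have hn1c : (n1 : ℝ) + 1 = (⌈Real.exp (x - h / 2)⌉₊ : ℝ) := by
    rw [hn1]
    exact_mod_cast Nat.sub_add_cancel hcpos
  have hn1a : Real.exp x / 4 ≤ n1 := by linarith
  have hn1b : (n1 : ℝ) < Real.exp (x - h / 2) := by
    have := Nat.ceil_lt_add_one (Real.exp_pos (x - h / 2)).le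
    linarith
  have hn10 : 0 < n1 := by
    have : (0 : ℝ) < n1 := by linarith [show 0 < Real.exp x / 4 by positivity]
    exact_mod_cast this
  have hn10' : (0 : ℝ) < n1 := by exact_mod_cast hn10
  have hn2a : (n2 : ℝ) ≤ Real.exp (x + h / 2) := Nat.floor_le (Real.exp_pos _).le
  have hn2b : Real.exp (x + h / 2) < n2 + 1 := Nat.lt_floor_add_one _
  have hn12 : n1 ≤ n2 := by
    apply Nat.le_floor
    exact hn1b.le.trans (Real.exp_le_exp.2 (by linarith))
  have hn20 : 0 < n2 := lt_of_lt_of_le hn10 hn12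
  have hn2N : n2 ≤ N := by
    have : (n2 : ℝ) ≤ N := hn2a.trans (le_trans (Real.exp_le_exp.2 (by linarith)) hN)
    exact_mod_cast this
  have hsum : ∑ m ∈ Finset.Ioc 0 N, 1 / (m : ℝ) * box h (x - Real.log m) =
      1 / h * (∑ d ∈ Finset.Ioc 0 n2, 1 / (d : ℝ) - ∑ d ∈ Finset.Ioc 0 n1, 1 / (d : ℝ)) := by
    have h1 : ∑ d ∈ Finset.Ioc 0 n2, 1 / (d : ℝ) - ∑ d ∈ Finset.Ioc 0 n1, 1 / (d : ℝ) =
        ∑ d ∈ Finset.Ioc n1 n2, 1 / (d : ℝ) := by
      rw [← Finset.sum_Ioc_consecutive _ (Nat.zero_le n1) hn12]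
      ring
    rw [h1, Finset.mul_sum]
    have h2 : Finset.Ioc n1 n2 ⊆ Finset.Ioc 0 N := by
      intro m hm
      rw [Finset.mem_Ioc] at hm ⊢
      omega
    rw [← Finset.sum_subset h2]
    · refine Finset.sum_congr rfl fun m hm => ?_
      rw [Finset.mem_Ioc] at hm
      have hm0 : (0 : ℝ) < m := by exact_mod_cast (by omega : 0 < m)
      have h3 : x - h / 2 ≤ Real.log m := by
        rw [Real.le_log_iff_exp_le hm0]
        refine hc1.trans ?_
        rw [← hn1c]
        exact_mod_cast hm.1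
      have h4 : Real.log m ≤ x + h / 2 := by
        rw [Real.log_le_iff_le_exp hm0]
        exact le_trans (by exact_mod_cast hm.2) hn2a
      unfold box
      rw [if_pos (by rw [abs_le]; constructor <;> linarith)]
      ring
    · intro m hm hm2
      rw [Finset.mem_Ioc] at hm hm2
      have hm0 : (0 : ℝ) < m := by exact_mod_cast hm.1
      unfold box
      rw [if_neg, mul_zero]
      intro h5
      rw [abs_le] at h5
      apply hm2
      constructor
      · have h6 : Real.exp (x - h / 2) ≤ m := by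
          rw [← Real.le_log_iff_exp_le hm0]
          linarith
        have h7 : ((n1 : ℕ) : ℝ) < m := lt_of_lt_of_le hn1b h6
        exact_mod_cast h7
      · apply Nat.le_floor
        rw [← Real.log_le_iff_le_exp hm0]
        linarith
  rw [hsum]
  have a1 := harm_near hn10 (t := x - h / 2) (by
    rw [Real.log_le_iff_le_exp hn10']; exact hn1b.le) (by
    rw [Real.le_log_iff_exp_le (by positivity)]
    push_cast
    linarith)
  have a2 := harm_near hn20 (t := x + h / 2) (by
    rw [Real.log_le_iff_le_exp (by exact_mod_cast hn20)]; exact hn2a) (by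
    rw [Real.le_log_iff_exp_le (by positivity)]
    push_cast
    linarith)
  have b1 : 2 / (n1 : ℝ) ≤ 8 * Real.exp (-x) := by
    rw [div_le_iff₀ hn10', Real.exp_neg]
    have : 8 * (Real.exp x)⁻¹ * (Real.exp x / 4) ≤ 8 * (Real.exp x)⁻¹ * n1 := by gcongr
    have e : 8 * (Real.exp x)⁻¹ * (Real.exp x / 4) = 2 := by field_simp; norm_num
    linarith
  have b2 : 2 / (n2 : ℝ) ≤ 2 / (n1 : ℝ) := by
    have : (n1 : ℝ) ≤ n2 := by exact_mod_cast hn12
    gcongr
  have e : 1 / h * (∑ d ∈ Finset.Ioc 0 n2, 1 / (d : ℝ) - ∑ d ∈ Finset.Ioc 0 n1, 1 / (d : ℝ)) - 1 =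
      1 / h * ((∑ d ∈ Finset.Ioc 0 n2, 1 / (d : ℝ) - (x + h / 2) - Real.eulerMascheroniConstant) -
        (∑ d ∈ Finset.Ioc 0 n1, 1 / (d : ℝ) - (x - h / 2) - Real.eulerMascheroniConstant)) := by
    field_simp
    ring
  rw [e, abs_mul, abs_of_pos (by positivity : 0 < 1 / h)]
  calc 1 / h * |(∑ d ∈ Finset.Ioc 0 n2, 1 / (d : ℝ) - (x + h / 2) -
        Real.eulerMascheroniConstant) -
        (∑ d ∈ Finset.Ioc 0 n1, 1 / (d : ℝ) - (x - h / 2) - Real.eulerMascheroniConstant)| ≤
        1 / h * (16 * Real.exp (-x)) := by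
        apply mul_le_mul_of_nonneg_left _ (by positivity)
        refine (abs_sub _ _).trans ?_
        linarith
    _ = _ := by ring

theorem riemann_log_box {h x : ℝ} (hh : 0 < h) (hh1 : h ≤ 1) (hx : 2 ≤ x) (N : ℕ)
    (hN : Real.exp (x + h) ≤ N) :
    |∑ m ∈ Finset.Ioc 0 N, Real.log m / m * box h (x - Real.log m) - x| ≤
      h + (h + x) * (16 * Real.exp (-x) / h) := by
  have hR := riemann_box hh hh1 hx N hN
  set S := ∑ m ∈ Finset.Ioc 0 N, 1 / (m : ℝ) * box h (x - Real.log m) with hS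
  set R := 16 * Real.exp (-x) / h with hRdef
  have h1 : ∑ m ∈ Finset.Ioc 0 N, Real.log m / m * box h (x - Real.log m) - x =
      ∑ m ∈ Finset.Ioc 0 N, (Real.log m - x) * (1 / (m : ℝ) * box h (x - Real.log m)) +
        x * (S - 1) := by
    rw [mul_sub, mul_one, hS, Finset.mul_sum, add_sub, ← Finset.sum_add_distrib]
    congr 1
    refine Finset.sum_congr rfl fun m _ => ?_
    ring
  rw [h1]
  refine (abs_add_le _ _).trans ?_
  have h2 : |∑ m ∈ Finset.Ioc 0 N, (Real.log m - x) * (1 / (m : ℝ) * box h (x - Real.log m))| ≤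
      h * S := by
    refine (Finset.abs_sum_le_sum_abs _ _).trans ?_
    rw [hS, Finset.mul_sum]
    refine Finset.sum_le_sum fun m _ => ?_
    have h3 : 0 ≤ 1 / (m : ℝ) * box h (x - Real.log m) :=
      mul_nonneg (by positivity) (box_nonneg hh _)
    rw [abs_mul, abs_of_nonneg h3]
    rcases le_or_gt |Real.log m - x| h with h4 | h4
    · exact mul_le_mul_of_nonneg_right h4 h3
    · have h5 : box h (x - Real.log m) = 0 := by
        unfold box
        rw [if_neg]
        rw [abs_sub_comm]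
        linarith
      rw [h5]
      simp
  have h3 : |x * (S - 1)| ≤ x * R := by
    rw [abs_mul, abs_of_nonneg (by linarith)]
    gcongr
  have h4 : S ≤ 1 + R := by
    have := (abs_le.1 hR).2
    linarith
  have h5 : h * S ≤ h * (1 + R) := by gcongr
  linarith

/-- the convolution rearrangement for a general kernel -/
lemma conv_sum_gen (f g : ArithmeticFunction ℝ) (k : ℝ → ℝ) {h z : ℝ} (hk : ∀ y, y ≤ -h → k y = 0)
    (N : ℕ) (hN : Real.exp (z + h) ≤ N) :
    ∑ n ∈ Finset.Ioc 0 N, (f * g) n / n * k (z - Real.log n) =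
      ∑ m ∈ Finset.Ioc 0 N, f m / m * ∑ l ∈ Finset.Ioc 0 N, g l / l *
        k (z - Real.log m - Real.log l) := by
  have h1 : ∀ n ∈ Finset.Ioc 0 N, (f * g) n / n * k (z - Real.log n) =
      ∑ p ∈ n.divisorsAntidiagonal, f p.1 / p.1 * (g p.2 / p.2) *
        k (z - Real.log p.1 - Real.log p.2) := by
    intro n hn
    rw [Finset.mem_Ioc] at hn
    rw [ArithmeticFunction.mul_apply, Finset.sum_div, Finset.sum_mul]
    refine Finset.sum_congr rfl fun p hp => ?_
    rw [Nat.mem_divisorsAntidiagonal] at hp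
    have h2 : (p.1 : ℝ) ≠ 0 := by
      have : p.1 ≠ 0 := by
        rintro h0
        rw [h0, zero_mul] at hp
        omega
      exact_mod_cast this
    have h3 : (p.2 : ℝ) ≠ 0 := by
      have : p.2 ≠ 0 := by
        rintro h0
        rw [h0, mul_zero] at hp
        omega
      exact_mod_cast this
    rw [← hp.1]
    push_cast
    rw [Real.log_mul h2 h3, sub_sub]
    field_simp
  rw [Finset.sum_congr rfl h1,
    hyper_eq (fun a b => f a / a * (g b / b) * k (z - Real.log a - Real.log b))]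
  · refine Finset.sum_congr rfl fun m _ => ?_
    rw [Finset.mul_sum]
    refine Finset.sum_congr rfl fun l _ => ?_
    ring
  · intro a b ha hb hab
    have ha0 : (a : ℝ) ≠ 0 := by exact_mod_cast ha.ne'
    have hb0 : (b : ℝ) ≠ 0 := by exact_mod_cast hb.ne'
    have h2 : z + h ≤ Real.log a + Real.log b := by
      rw [← Real.log_mul ha0 hb0, Real.le_log_iff_exp_le (by positivity)]
      refine hN.trans ?_
      exact_mod_cast hab.le
    rw [hk _ (by linarith), mul_zero]

lemma box_zero_of {h x : ℝ} (hx : h / 2 < |x|) : box h x = 0 := by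
  unfold box
  rw [if_neg (not_le.2 hx)]

lemma box_neg_zero {h : ℝ} (hh : 0 < h) : ∀ y, y ≤ -h → box h y = 0 := by
  intro y hy
  apply box_zero_of
  rw [abs_of_nonpos (by linarith)]
  linarith

/-- the function `Σ (μ_w * log)(n) / n box (y - log n)` -/
noncomputable def VB (h : ℝ) (w N : ℕ) (y : ℝ) : ℝ :=
  bb h (Finset.Ioc 0 N) (fun n => (muw w * ArithmeticFunction.log) n / n) y

/-- the function `Σ a_w(l) / l box (y - log l)` -/
noncomputable def AB (h : ℝ) (w N : ℕ) (y : ℝ) : ℝ :=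
  bb h (Finset.Ioc 0 N) (fun l => aw w l / l) y

/-- the type I sum with the box kernel -/
theorem typeI_box {h z : ℝ} (hh : 0 < h) (hh1 : h ≤ 1) (w N : ℕ) (hw : 1 ≤ w)
    (hz : Real.log w + 2 ≤ z) (hN : Real.exp (z + h) ≤ N) :
    |VB h w N z - (z * mz w - ml w)| ≤
      h * (1 + Real.log w) + (1 + z) * (w * (16 * Real.exp (-z) / h)) := by
  have hw0 : (0 : ℝ) < w := by exact_mod_cast hw
  have hlw : 0 ≤ Real.log w := Real.log_nonneg (by exact_mod_cast hw)
  have hwN : w ≤ N := by
    have h1 : (w : ℝ) ≤ N := by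
      refine le_trans ?_ hN
      rw [← Real.log_le_iff_le_exp hw0]
      linarith
    exact_mod_cast h1
  have e0 : VB h w N z = ∑ d ∈ Finset.Ioc 0 N, muw w d / d * ∑ m ∈ Finset.Ioc 0 N,
      ArithmeticFunction.log m / m * box h (z - Real.log d - Real.log m) := by
    unfold VB bb
    exact conv_sum_gen (muw w) ArithmeticFunction.log (box h) (box_neg_zero hh) N hN
  rw [e0, muw_sum w N hwN (fun d => ∑ m ∈ Finset.Ioc 0 N,
      ArithmeticFunction.log m / m * box h (z - Real.log d - Real.log m))]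
  have h1 : z * mz w - ml w = ∑ d ∈ Finset.Ioc 0 w, ((ArithmeticFunction.moebius d : ℤ) : ℝ) / d *
      (z - Real.log d) := by
    unfold mz ml
    rw [Finset.mul_sum, ← Finset.sum_sub_distrib]
    refine Finset.sum_congr rfl fun d _ => ?_
    ring
  rw [h1, ← Finset.sum_sub_distrib]
  refine (Finset.abs_sum_le_sum_abs _ _).trans ?_
  have h2 : ∀ d ∈ Finset.Ioc 0 w, |((ArithmeticFunction.moebius d : ℤ) : ℝ) / d *
      ∑ m ∈ Finset.Ioc 0 N, ArithmeticFunction.log m / m * box h (z - Real.log d - Real.log m) -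
      ((ArithmeticFunction.moebius d : ℤ) : ℝ) / d * (z - Real.log d)| ≤
      h * (1 / (d : ℝ)) + (1 + z) * (16 * Real.exp (-z) / h) := by
    intro d hd
    rw [Finset.mem_Ioc] at hd
    have hd0 : (0 : ℝ) < d := by exact_mod_cast hd.1
    have hd1 : (1 : ℝ) ≤ d := by exact_mod_cast hd.1
    have hld : Real.log d ≤ Real.log w := Real.log_le_log hd0 (by exact_mod_cast hd.2)
    have hld0 : 0 ≤ Real.log d := Real.log_nonneg hd1
    have h3 := riemann_log_box hh hh1 (x := z - Real.log d) (by linarith) N (by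
      refine le_trans (Real.exp_le_exp.2 ?_) hN
      linarith)
    rw [← mul_sub, abs_mul, abs_div, abs_of_pos hd0]
    have h4 := mu_abs d
    have h5 : Real.exp (-(z - Real.log d)) = d * Real.exp (-z) := by
      rw [neg_sub, sub_eq_add_neg, Real.exp_add, Real.exp_log hd0]
    rw [h5] at h3
    calc |((ArithmeticFunction.moebius d : ℤ) : ℝ)| / d *
          |∑ m ∈ Finset.Ioc 0 N, ArithmeticFunction.log m / m *
            box h (z - Real.log d - Real.log m) - (z - Real.log d)| ≤
          1 / d * (h + (h + (z - Real.log d)) * (16 * (d * Real.exp (-z)) / h)) := by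
          gcongr
          exact h3
      _ = h * (1 / d) + (h + (z - Real.log d)) * (16 * Real.exp (-z) / h) := by
          field_simp
      _ ≤ _ := by gcongr; linarith
  refine (Finset.sum_le_sum h2).trans ?_
  rw [Finset.sum_add_distrib, ← Finset.mul_sum, Finset.sum_const, Nat.card_Ioc, nsmul_eq_mul,
    Nat.sub_zero]
  have h3 := harm_le w hw
  have h4 : h * ∑ d ∈ Finset.Ioc 0 w, 1 / (d : ℝ) ≤ h * (1 + Real.log w) := by gcongr
  have h5 : (w : ℝ) * ((1 + z) * (16 * Real.exp (-z) / h)) =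
      (1 + z) * (w * (16 * Real.exp (-z) / h)) := by ring
  linarith

/-- the second factor is small, box kernel -/
theorem AB_small {h x : ℝ} (hh : 0 < h) (hh1 : h ≤ 1) (w N : ℕ) (hw : 1 ≤ w)
    (hx : Real.log w + 2 ≤ x) (hN : Real.exp (x + h) ≤ N) :
    |AB h w N x| ≤ |mz w| + w * (16 * Real.exp (-x) / h) := by
  have hw0 : (0 : ℝ) < w := by exact_mod_cast hw
  have hlw : 0 ≤ Real.log w := Real.log_nonneg (by exact_mod_cast hw)
  have hwN : w ≤ N := by
    have h1 : (w : ℝ) ≤ N := by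
      refine le_trans ?_ hN
      rw [← Real.log_le_iff_le_exp hw0]
      linarith
    exact_mod_cast h1
  have h0 : AB h w N x =
      ∑ l ∈ Finset.Ioc 0 N, (if l = 1 then (1 : ℝ) else 0) / l * box h (x - Real.log l) -
      ∑ l ∈ Finset.Ioc 0 N, (muw w * ((ArithmeticFunction.zeta : ArithmeticFunction ℕ) :
        ArithmeticFunction ℝ)) l / l * box h (x - Real.log l) := by
    unfold AB bb
    rw [← Finset.sum_sub_distrib]
    refine Finset.sum_congr rfl fun l _ => ?_
    simp only []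
    rw [aw_apply, ArithmeticFunction.coe_mul_zeta_apply]
    ring
  have h1 : ∑ l ∈ Finset.Ioc 0 N, (if l = 1 then (1 : ℝ) else 0) / l *
      box h (x - Real.log l) = 0 := by
    apply Finset.sum_eq_zero
    intro l _
    split_ifs with h2
    · rw [h2]
      simp only [Nat.cast_one, Real.log_one, sub_zero]
      rw [box_zero_of, mul_zero]
      rw [abs_of_nonneg (by linarith)]
      linarith
    · simp
  rw [h0, h1, zero_sub, abs_neg, conv_sum_gen _ _ (box h) (box_neg_zero hh) N hN,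
    muw_sum w N hwN]
  have h2 : ∑ d ∈ Finset.Ioc 0 w, ((ArithmeticFunction.moebius d : ℤ) : ℝ) / d *
      ∑ l ∈ Finset.Ioc 0 N, ((ArithmeticFunction.zeta : ArithmeticFunction ℕ) :
        ArithmeticFunction ℝ) l / l * box h (x - Real.log d - Real.log l) =
      mz w + ∑ d ∈ Finset.Ioc 0 w, ((ArithmeticFunction.moebius d : ℤ) : ℝ) / d *
        (∑ l ∈ Finset.Ioc 0 N, 1 / (l : ℝ) * box h (x - Real.log d - Real.log l) - 1) := by
    unfold mz
    rw [← Finset.sum_add_distrib]
    refine Finset.sum_congr rfl fun d _ => ?_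
    have h3 : ∑ l ∈ Finset.Ioc 0 N, ((ArithmeticFunction.zeta : ArithmeticFunction ℕ) :
        ArithmeticFunction ℝ) l / l * box h (x - Real.log d - Real.log l) =
        ∑ l ∈ Finset.Ioc 0 N, 1 / (l : ℝ) * box h (x - Real.log d - Real.log l) := by
      refine Finset.sum_congr rfl fun l hl => ?_
      rw [Finset.mem_Ioc] at hl
      rw [ArithmeticFunction.natCoe_apply, ArithmeticFunction.zeta_apply, if_neg (by omega)]
      simp
    rw [h3]
    ring
  rw [h2]
  refine (abs_add_le _ _).trans (add_le_add le_rfl ?_)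
  refine (Finset.abs_sum_le_sum_abs _ _).trans ?_
  have h3 : ∀ d ∈ Finset.Ioc 0 w, |((ArithmeticFunction.moebius d : ℤ) : ℝ) / d *
        (∑ l ∈ Finset.Ioc 0 N, 1 / (l : ℝ) * box h (x - Real.log d - Real.log l) - 1)| ≤
        16 * Real.exp (-x) / h := by
    intro d hd
    rw [Finset.mem_Ioc] at hd
    have hd0 : (0 : ℝ) < d := by exact_mod_cast hd.1
    have hd1 : (1 : ℝ) ≤ d := by exact_mod_cast hd.1
    have hld : Real.log d ≤ Real.log w := Real.log_le_log hd0 (by exact_mod_cast hd.2)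
    have hld0 : 0 ≤ Real.log d := Real.log_nonneg hd1
    have h3 := riemann_box hh hh1 (x := x - Real.log d) (by linarith) N (by
      refine le_trans (Real.exp_le_exp.2 ?_) hN
      linarith)
    rw [abs_mul, abs_div, abs_of_pos hd0]
    have h4 := mu_abs d
    have h5 : Real.exp (-(x - Real.log d)) = d * Real.exp (-x) := by
      rw [neg_sub, sub_eq_add_neg, Real.exp_add, Real.exp_log hd0]
    rw [h5] at h3
    calc _ ≤ 1 / (d : ℝ) * (16 * (d * Real.exp (-x)) / h) := by gcongr
      _ = _ := by field_simp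
  refine (Finset.sum_le_sum h3).trans ?_
  rw [Finset.sum_const, Nat.card_Ioc, nsmul_eq_mul, Nat.sub_zero]

end Pool.Agent.K9h18.HS
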