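import Pool.Agent.K9h18.HS.BoxA

set_option autoImplicit false

/-!
# Convolutions of sums with the box kernel
-/

open Filter Topology Set MeasureTheory Metric
open scoped Real

namespace Pool.Agent.K9h18.HS

open Pool.Agent.W66

/-- the hyperbola bound -/
lemma hyperb (α : ℕ → ℝ) (M : ℕ) (G : ℝ)
    (hG : ∀ m, Nat.sqrt M ≤ m → m ≤ M → |∑ l ∈ Finset.Ioc 0 m, α l| ≤ G) :
    |∑ a ∈ Finset.Ioc 0 M, ∑ b ∈ Finset.Ioc 0 (M / a), α a * α b| ≤
      3 * G * ∑ a ∈ Finset.Ioc 0 M, |α a| := by
  set R := Nat.sqrt M with hR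
  have hRM : R ≤ M := Nat.sqrt_le_self M
  have hG0 : 0 ≤ G := (abs_nonneg _).trans (hG M hRM le_rfl)
  have hRR : R * R ≤ M := Nat.sqrt_le M
  have hRR1 : M < (R + 1) * (R + 1) := Nat.lt_succ_sqrt M
  set S : ℕ → ℝ := fun m => ∑ l ∈ Finset.Ioc 0 m, α l with hS
  have h1 : ∑ a ∈ Finset.Ioc 0 M, ∑ b ∈ Finset.Ioc 0 (M / a), α a * α b =
      ∑ a ∈ Finset.Ioc 0 R, α a * S (M / a) + ∑ b ∈ Finset.Ioc 0 R, α b * (S (M / b) - S R) := by
    rw [← Finset.sum_Ioc_consecutive _ (Nat.zero_le R) hRM]
    congr 1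
    · refine Finset.sum_congr rfl fun a _ => ?_
      rw [hS, Finset.mul_sum]
    · have h2 : ∑ a ∈ Finset.Ioc R M, ∑ b ∈ Finset.Ioc 0 (M / a), α a * α b =
          ∑ b ∈ Finset.Ioc 0 R, ∑ a ∈ Finset.Ioc R (M / b), α a * α b := by
        apply Finset.sum_comm'
        intro a b
        simp only [Finset.mem_Ioc]
        constructor
        · rintro ⟨⟨h3, h4⟩, h5, h6⟩
          have ha0 : 0 < a := by omega
          have h7 : b * a ≤ M := (Nat.le_div_iff_mul_le ha0).1 h6
          have h8 : a ≤ M / b := (Nat.le_div_iff_mul_le h5).2 (by rw [mul_comm]; exact h7)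
          refine ⟨⟨h3, h8⟩, h5, ?_⟩
          by_contra h9
          have h10 : (R + 1) * (R + 1) ≤ b * a := Nat.mul_le_mul (by omega) (by omega)
          omega
        · rintro ⟨⟨h3, h4⟩, h5, h6⟩
          have ha0 : 0 < a := by omega
          have h7 : a * b ≤ M := (Nat.le_div_iff_mul_le h5).1 h4
          have h8 : b ≤ M / a := (Nat.le_div_iff_mul_le ha0).2 (by rw [mul_comm]; exact h7)
          exact ⟨⟨h3, h4.trans (Nat.div_le_self _ _)⟩, h5, h8⟩
      rw [h2]
      refine Finset.sum_congr rfl fun b hb => ?_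
      rw [Finset.mem_Ioc] at hb
      have h3 : R ≤ M / b := (Nat.le_div_iff_mul_le hb.1).2
        ((Nat.mul_le_mul_left R hb.2).trans hRR)
      rw [hS]
      simp only
      rw [← sum_Ioc_zero_split α h3, Finset.mul_sum]
      refine Finset.sum_congr rfl fun a _ => ?_
      ring
  have hSd : ∀ a ∈ Finset.Ioc 0 R, |S (M / a)| ≤ G := by
    intro a ha
    rw [Finset.mem_Ioc] at ha
    exact hG _ ((Nat.le_div_iff_mul_le ha.1).2 ((Nat.mul_le_mul_left R ha.2).trans hRR))
      (Nat.div_le_self _ _)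
  rw [h1]
  have hsub : ∑ a ∈ Finset.Ioc 0 R, |α a| ≤ ∑ a ∈ Finset.Ioc 0 M, |α a| :=
    Finset.sum_le_sum_of_subset_of_nonneg (Finset.Ioc_subset_Ioc_right hRM)
      fun _ _ _ => abs_nonneg _
  calc |∑ a ∈ Finset.Ioc 0 R, α a * S (M / a) + ∑ b ∈ Finset.Ioc 0 R, α b * (S (M / b) - S R)| ≤
        ∑ a ∈ Finset.Ioc 0 R, |α a| * G + ∑ b ∈ Finset.Ioc 0 R, |α b| * (2 * G) := by
        refine (abs_add_le _ _).trans (add_le_add ?_ ?_)
        · refine (Finset.abs_sum_le_sum_abs _ _).trans (Finset.sum_le_sum fun a ha => ?_)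
          rw [abs_mul]
          exact mul_le_mul_of_nonneg_left (hSd a ha) (abs_nonneg _)
        · refine (Finset.abs_sum_le_sum_abs _ _).trans (Finset.sum_le_sum fun a ha => ?_)
          rw [abs_mul]
          apply mul_le_mul_of_nonneg_left _ (abs_nonneg _)
          refine (abs_sub _ _).trans ?_
          linarith [hSd a ha, hG R le_rfl hRM]
    _ = 3 * G * ∑ a ∈ Finset.Ioc 0 R, |α a| := by
        rw [← Finset.sum_mul, ← Finset.sum_mul]
        ring
    _ ≤ _ := mul_le_mul_of_nonneg_left hsub (by linarith)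

/-- the smooth part for a general kernel -/
theorem smooth_gen {k : ℝ → ℝ} {h z : ℝ} (hk0 : ∀ x, 0 ≤ k x) (hki : Integrable k)
    (hk1 : ∫ x, k x = 1) (hks : ∀ x, h ≤ |x| → k x = 0) (N M1 : ℕ) (u0 : ℝ) (c : ℕ → ℝ)
    (hM : M1 ≤ N) (hM1 : 0 < M1) (hz : u0 + h ≤ z - Real.log M1) (G : ℝ)
    (hG : ∀ m, M1 ≤ m → m ≤ N → |∑ l ∈ Finset.Ioc 0 m, c l| ≤ G) :
    |∫ v : ℝ, rp u0 v * ∑ l ∈ Finset.Ioc 0 N, c l * k (z - v - Real.log l)| ≤ 3 * G := by
  have hG0 : 0 ≤ G := (abs_nonneg _).trans (hG M1 le_rfl hM)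
  set φ : ℕ → ℝ := fun l => ∫ t : ℝ, rp u0 (z - Real.log l - t) * k t with hφ
  have hint : ∀ y : ℝ, Integrable fun t : ℝ => rp u0 (y - t) * k t := by
    intro y
    refine hki.bdd_mul (c := 1)
      ((rp_continuous u0).comp (by fun_prop)).aestronglyMeasurable
      (Eventually.of_forall fun v => ?_)
    rw [Real.norm_of_nonneg (rp_nonneg _ _)]
    exact rp_le_one _ _
  have h1 : ∫ v : ℝ, rp u0 v * ∑ l ∈ Finset.Ioc 0 N, c l * k (z - v - Real.log l) =
      ∑ l ∈ Finset.Ioc 0 N, c l * φ l := by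
    have e : ∀ v : ℝ, rp u0 v * ∑ l ∈ Finset.Ioc 0 N, c l * k (z - v - Real.log l) =
        ∑ l ∈ Finset.Ioc 0 N, c l * (rp u0 v * k (z - v - Real.log l)) := by
      intro v
      rw [Finset.mul_sum]
      refine Finset.sum_congr rfl fun l _ => ?_
      ring
    simp only [e]
    have hi : ∀ l : ℕ, Integrable fun v : ℝ => rp u0 v * k (z - v - Real.log l) := by
      intro l
      have := (hint (z - Real.log l)).comp_sub_left (z - Real.log l)
      refine this.congr (Eventually.of_forall fun v => ?_)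
      simp only
      congr 2 <;> ring
    rw [integral_finsetSum _ fun (l : ℕ) _ => (hi l).const_mul (c l)]
    refine Finset.sum_congr rfl fun l _ => ?_
    rw [integral_const_mul]
    congr 1
    simp only [hφ]
    rw [← integral_sub_left_eq_self _ volume (z - Real.log l)]
    congr 1
    ext v
    congr 2 <;> ring
  rw [h1, ← Finset.sum_Ioc_consecutive _ (Nat.zero_le M1) hM]
  have hφ1 : ∀ l, 0 < l → l ≤ M1 → φ l = 1 := by
    intro l hl hl2
    simp only [hφ]
    rw [← hk1]
    congr 1
    ext t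
    rcases le_or_gt h |t| with h2 | h2
    · rw [hks t h2, mul_zero]
    · rw [rp_one, one_mul]
      rw [abs_lt] at h2
      have : Real.log l ≤ Real.log M1 :=
        Real.log_le_log (by exact_mod_cast hl) (by exact_mod_cast hl2)
      linarith
  have h2 : ∑ l ∈ Finset.Ioc 0 M1, c l * φ l = ∑ l ∈ Finset.Ioc 0 M1, c l := by
    refine Finset.sum_congr rfl fun l hl => ?_
    rw [Finset.mem_Ioc] at hl
    rw [hφ1 l hl.1 hl.2, mul_one]
  rw [h2]
  have h3 := abel_anti c φ M1 N (2 * G) (by positivity) (by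
    intro m hm hm2
    rw [sum_Ioc_zero_split c hm]
    refine (abs_sub _ _).trans ?_
    linarith [hG m hm hm2, hG M1 le_rfl hM]) (by
    intro n hn _
    simp only [hφ]
    apply integral_mono (hint _) (hint _)
    intro t
    simp only
    apply mul_le_mul_of_nonneg_right _ (hk0 _)
    apply rp_mono
    have hn0 : (0 : ℝ) < n := by exact_mod_cast (by omega : 0 < n)
    have := Real.log_le_log hn0 (show (n : ℝ) ≤ ((n + 1 : ℕ) : ℝ) by push_cast; linarith)
    linarith) 1 zero_le_one (by
    intro n _ _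
    simp only [hφ]
    exact integral_nonneg fun t => mul_nonneg (rp_nonneg _ _) (hk0 _)) (by
    intro n _ _
    simp only [hφ]
    rw [← hk1]
    apply integral_mono (hint _) hki
    intro t
    simp only
    calc rp u0 (z - Real.log n - t) * k t ≤ 1 * k t :=
          mul_le_mul_of_nonneg_right (rp_le_one _ _) (hk0 _)
      _ = _ := one_mul _)
  refine (abs_add_le _ _).trans ?_
  linarith [hG M1 le_rfl hM]

lemma bb_integrable (h : ℝ) (L : Finset ℕ) (c : ℕ → ℝ) : Integrable (bb h L c) :=
  integrable_finsetSum _ fun l _ => ((box_integrable h).comp_sub_right (Real.log l)).const_mul _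

lemma bb_abs {h : ℝ} (hh : 0 < h) (L : Finset ℕ) (c : ℕ → ℝ) :
    ∫ x, |bb h L c x| ≤ ∑ l ∈ L, |c l| := by
  have h1 : ∀ x, |bb h L c x| ≤ ∑ l ∈ L, |c l| * box h (x - Real.log l) := by
    intro x
    unfold bb
    refine (Finset.abs_sum_le_sum_abs _ _).trans (Finset.sum_le_sum fun l _ => ?_)
    rw [abs_mul, abs_of_nonneg (box_nonneg hh _)]
  have hi : ∀ l : ℕ, Integrable fun x : ℝ => |c l| * box h (x - Real.log l) := fun l =>
    ((box_integrable h).comp_sub_right (Real.log l)).const_mul _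
  calc ∫ x, |bb h L c x| ≤ ∫ x, ∑ l ∈ L, |c l| * box h (x - Real.log l) :=
        integral_mono (bb_integrable h L c).abs (integrable_finsetSum _ fun l _ => hi l) h1
    _ = ∑ l ∈ L, |c l| := by
        rw [integral_finsetSum _ fun (l : ℕ) _ => hi l]
        refine Finset.sum_congr rfl fun l _ => ?_
        rw [integral_const_mul, integral_sub_right_eq_self (fun x => box h x), integral_box hh,
          mul_one]

lemma bb_zero {h : ℝ} (hh : 0 < h) (L : Finset ℕ) (hL : ∀ l ∈ L, 0 < l) (c : ℕ → ℝ) {x : ℝ}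
    (hx : x ≤ -h) : bb h L c x = 0 := by
  unfold bb
  apply Finset.sum_eq_zero
  intro l hl
  have h1 : 0 ≤ Real.log l := Real.log_nonneg (by exact_mod_cast hL l hl)
  rw [box_neg_zero hh _ (by linarith), mul_zero]

lemma bb_bdd {h : ℝ} (hh : 0 < h) (L : Finset ℕ) (c : ℕ → ℝ) (x : ℝ) :
    |bb h L c x| ≤ (∑ l ∈ L, |c l|) * (1 / h) := by
  unfold bb
  refine (Finset.abs_sum_le_sum_abs _ _).trans ?_
  rw [Finset.sum_mul]
  refine Finset.sum_le_sum fun l _ => ?_
  rw [abs_mul, abs_of_nonneg (box_nonneg hh _)]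
  exact mul_le_mul_of_nonneg_left (box_le hh _) (abs_nonneg _)

lemma box_meas (h : ℝ) : Measurable (box h) := by
  rw [box_eq]
  exact measurable_const.indicator measurableSet_Icc

lemma bb_meas (h : ℝ) (L : Finset ℕ) (c : ℕ → ℝ) : Measurable (bb h L c) := by
  unfold bb
  apply Finset.measurable_fun_sum
  intro l _
  exact ((box_meas h).comp (by fun_prop)).const_mul _

lemma bb_mul_int {h : ℝ} (hh : 0 < h) (L : Finset ℕ) (c d : ℕ → ℝ) (z : ℝ) :
    Integrable fun y => bb h L c y * bb h L d (z - y) := by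
  refine ((bb_integrable h L d).comp_sub_left z).bdd_mul (c := (∑ l ∈ L, |c l|) * (1 / h))
    (bb_meas h L c).aestronglyMeasurable (Eventually.of_forall fun x => ?_)
  exact bb_bdd hh L c x

/-- box convolved with box -/
lemma bb_conv {h : ℝ} (hh : 0 < h) (L : Finset ℕ) (c d : ℕ → ℝ) (z : ℝ) :
    ∫ y, bb h L c y * bb h L d (z - y) = ∑ m ∈ L, c m * ∑ l ∈ L, d l *
      tri h (z - Real.log m - Real.log l) := by
  have hint : ∀ a b : ℝ, Integrable fun y : ℝ => box h (y - a) * box h (y - b) := by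
    intro a b
    refine ((box_integrable h).comp_sub_right b).bdd_mul (c := 1 / h)
      ((box_integrable h).comp_sub_right a).aestronglyMeasurable (Eventually.of_forall fun x => ?_)
    rw [Real.norm_of_nonneg (box_nonneg hh _)]
    exact box_le hh _
  have e : ∀ y, bb h L c y * bb h L d (z - y) = ∑ m ∈ L, ∑ l ∈ L, c m * d l *
      (box h (y - Real.log m) * box h (y - (z - Real.log l))) := by
    intro y
    unfold bb
    rw [Finset.sum_mul_sum]
    refine Finset.sum_congr rfl fun m _ => Finset.sum_congr rfl fun l _ => ?_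
    rw [← box_neg h (y - (z - Real.log l)),
      show -(y - (z - Real.log l)) = z - y - Real.log l by ring]
    ring
  simp only [e]
  rw [integral_finsetSum _ fun (m : ℕ) _ => integrable_finsetSum _ fun (l : ℕ) _ =>
    (hint (Real.log m) (z - Real.log l)).const_mul (c m * d l)]
  refine Finset.sum_congr rfl fun m _ => ?_
  rw [integral_finsetSum _ fun (l : ℕ) _ =>
    (hint (Real.log m) (z - Real.log l)).const_mul (c m * d l), Finset.mul_sum]
  refine Finset.sum_congr rfl fun l _ => ?_
  rw [integral_const_mul, box_conv_gen hh, ← tri_neg,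
    show -(Real.log (m : ℝ) - (z - Real.log l)) = z - Real.log m - Real.log l by ring]
  ring

/-- box convolved with tri -/
lemma bb_gg {h : ℝ} (hh : 0 < h) (L : Finset ℕ) (c d : ℕ → ℝ) (z : ℝ) :
    ∫ y, bb h L c y * gg h L d (z - y) = ∑ m ∈ L, c m * ∑ l ∈ L, d l *
      ∫ t, box h t * tri h (z - Real.log m - Real.log l - t) := by
  have hint : ∀ a b : ℝ, Integrable fun y : ℝ => box h (y - a) * tri h (b - y) := by
    intro a b
    refine ((tri_integrable hh).comp_sub_left b).bdd_mul (c := 1 / h)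
      ((box_integrable h).comp_sub_right a).aestronglyMeasurable (Eventually.of_forall fun x => ?_)
    rw [Real.norm_of_nonneg (box_nonneg hh _)]
    exact box_le hh _
  have e : ∀ y, bb h L c y * gg h L d (z - y) = ∑ m ∈ L, ∑ l ∈ L, c m * d l *
      (box h (y - Real.log m) * tri h (z - Real.log l - y)) := by
    intro y
    unfold bb gg
    rw [Finset.sum_mul_sum]
    refine Finset.sum_congr rfl fun m _ => Finset.sum_congr rfl fun l _ => ?_
    rw [show z - y - Real.log l = z - Real.log l - y by ring]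
    ring
  simp only [e]
  rw [integral_finsetSum _ fun (m : ℕ) _ => integrable_finsetSum _ fun (l : ℕ) _ =>
    (hint (Real.log m) (z - Real.log l)).const_mul (c m * d l)]
  refine Finset.sum_congr rfl fun m _ => ?_
  rw [integral_finsetSum _ fun (l : ℕ) _ =>
    (hint (Real.log m) (z - Real.log l)).const_mul (c m * d l), Finset.mul_sum]
  refine Finset.sum_congr rfl fun l _ => ?_
  rw [integral_const_mul, mul_assoc]
  congr 2
  rw [← integral_add_right_eq_self (fun y => box h (y - Real.log m) * tri h (z - Real.log l - y))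
    (Real.log m)]
  congr 1
  ext t
  congr 2 <;> ring

/-- the averaged kernel sum of a convolution -/
lemma box_gg {h : ℝ} (hh : 0 < h) (f g : ArithmeticFunction ℝ) (N : ℕ) {x : ℝ}
    (hN : Real.exp (x + 2 * h) ≤ N) :
    ∫ t, box h t * gg h (Finset.Ioc 0 N) (fun l => (f * g) l / l) (x - t) =
      ∫ y, bb h (Finset.Ioc 0 N) (fun l => f l / l) y *
        gg h (Finset.Ioc 0 N) (fun l => g l / l) (x - y) := by
  set L := Finset.Ioc 0 N with hL
  rw [bb_gg hh]
  have hint : ∀ b : ℝ, Integrable fun t : ℝ => box h t * tri h (b - t) := by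
    intro b
    refine ((tri_integrable hh).comp_sub_left b).bdd_mul (c := 1 / h)
      (box_integrable h).aestronglyMeasurable (Eventually.of_forall fun x => ?_)
    rw [Real.norm_of_nonneg (box_nonneg hh _)]
    exact box_le hh _
  have e : ∀ t, box h t * gg h L (fun l => (f * g) l / l) (x - t) =
      ∑ m ∈ L, ∑ l ∈ L, f m / m * (g l / l) *
        (box h t * tri h (x - Real.log m - Real.log l - t)) := by
    intro t
    rcases le_or_gt |t| h with h1 | h1
    · unfold gg
      rw [abs_le] at h1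
      rw [conv_sum f g h (x - t) hh N (le_trans (Real.exp_le_exp.2 (by linarith)) hN),
        Finset.mul_sum]
      refine Finset.sum_congr rfl fun m _ => ?_
      rw [Finset.mul_sum, Finset.mul_sum]
      refine Finset.sum_congr rfl fun l _ => ?_
      rw [show x - t - Real.log m - Real.log l = x - Real.log m - Real.log l - t by ring]
      ring
    · rw [box_zero_of (by linarith : h / 2 < |t|)]
      simp
  simp only [e]
  rw [integral_finsetSum _ fun (m : ℕ) _ => integrable_finsetSum _ fun (l : ℕ) _ =>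
    (hint (x - Real.log m - Real.log l)).const_mul _]
  refine Finset.sum_congr rfl fun m _ => ?_
  rw [integral_finsetSum _ fun (l : ℕ) _ =>
    (hint (x - Real.log m - Real.log l)).const_mul _, Finset.mul_sum]
  refine Finset.sum_congr rfl fun l _ => ?_
  rw [integral_const_mul, mul_assoc]

/-- Fubini -/
lemma swap3 {f g k : ℝ → ℝ} (hf : Integrable f) (hg : Integrable g) (hk : Continuous k) {B : ℝ}
    (hB : ∀ x, |k x| ≤ B) (z : ℝ) :
    ∫ t, f t * ∫ v, g v * k (z - t - v) = ∫ v, g v * ∫ t, f t * k (z - v - t) := by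
  have hprod : Integrable (fun p : ℝ × ℝ => f p.1 * (g p.2 * k (z - p.1 - p.2)))
      (volume.prod volume) := by
    have h1 : Integrable (fun p : ℝ × ℝ => f p.1 * g p.2) (volume.prod volume) := hf.mul_prod hg
    have h2 : Integrable (fun p : ℝ × ℝ => k (z - p.1 - p.2) * (f p.1 * g p.2))
        (volume.prod volume) := by
      refine h1.bdd_mul (c := B) ?_ (Eventually.of_forall fun p => hB _)
      exact (hk.comp (by fun_prop)).aestronglyMeasurable
    refine h2.congr (Eventually.of_forall fun p => ?_)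
    simp only
    ring
  have e1 : ∀ t, f t * ∫ v, g v * k (z - t - v) = ∫ v, f t * (g v * k (z - t - v)) := by
    intro t
    rw [integral_const_mul]
  have e2 : ∀ v, g v * ∫ t, f t * k (z - v - t) = ∫ t, f t * (g v * k (z - t - v)) := by
    intro v
    rw [← integral_const_mul]
    congr 1
    ext t
    rw [show z - v - t = z - t - v by ring]
    ring
  simp only [e1, e2]
  exact integral_integral_swap hprod

end Pool.Agent.K9h18.HS
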