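import Pool.Agent.K9h18.HS.BoxB

set_option autoImplicit false

/-!
# The iterated decomposition of the smoothed prime sum
-/

open Filter Topology Set MeasureTheory Metric
open scoped Real FourierTransform

namespace Pool.Agent.K9h18.HS

open Pool.Agent.W66

lemma aw_l1 (w N : ℕ) (hN : 1 ≤ N) :
    ∑ l ∈ Finset.Ioc 0 N, |aw w l / l| ≤ (1 + Real.log N) ^ 2 := by
  refine le_trans (Finset.sum_le_sum fun l _ => ?_) (tau_sum N hN)
  rw [abs_div, Nat.abs_cast]
  gcongr
  exact aw_abs_le w l

open ArithmeticFunction in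
lemma vb_abs_le (w m : ℕ) : |(muw w * log) m| ≤ m.divisors.card * Real.log m := by
  rcases Nat.eq_zero_or_pos m with rfl | hm
  · simp
  rw [ArithmeticFunction.mul_apply]
  refine (Finset.abs_sum_le_sum_abs _ _).trans ?_
  have h1 : ∀ p ∈ m.divisorsAntidiagonal, |muw w p.1 * log p.2| ≤ Real.log m := by
    intro p hp
    rw [Nat.mem_divisorsAntidiagonal] at hp
    rw [abs_mul, log_apply]
    have h2 : 0 < p.2 := by
      rcases Nat.eq_zero_or_pos p.2 with h3 | h3
      · rw [h3, mul_zero] at hp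
        omega
      · exact h3
    have h3 : 0 < p.1 := by
      rcases Nat.eq_zero_or_pos p.1 with h3 | h3
      · rw [h3, zero_mul] at hp
        omega
      · exact h3
    have h4 : 0 ≤ Real.log p.2 := Real.log_nonneg (by exact_mod_cast h2)
    have h5 : Real.log p.2 ≤ Real.log m := by
      apply Real.log_le_log (by exact_mod_cast h2)
      have : p.2 ≤ m := by
        rw [← hp.1]
        exact Nat.le_mul_of_pos_left _ h3
      exact_mod_cast this
    rw [abs_of_nonneg h4]
    calc |muw w p.1| * Real.log p.2 ≤ 1 * Real.log p.2 := by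
          apply mul_le_mul_of_nonneg_right (muw_abs_le w p.1) h4
      _ ≤ _ := by linarith
  refine (Finset.sum_le_sum h1).trans ?_
  rw [Finset.sum_const, nsmul_eq_mul, ← Nat.map_div_right_divisors, Finset.card_map]

open ArithmeticFunction in
lemma vb_l1 (w N : ℕ) (hN : 1 ≤ N) :
    ∑ m ∈ Finset.Ioc 0 N, |(muw w * log) m / m| ≤ Real.log N * (1 + Real.log N) ^ 2 := by
  have hN0 : 0 ≤ Real.log N := Real.log_nonneg (by exact_mod_cast hN)
  calc ∑ m ∈ Finset.Ioc 0 N, |(muw w * log) m / m| ≤
        ∑ m ∈ Finset.Ioc 0 N, Real.log N * ((m.divisors.card : ℝ) / m) := by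
        refine Finset.sum_le_sum fun m hm => ?_
        rw [Finset.mem_Ioc] at hm
        have hm0 : (0 : ℝ) < m := by exact_mod_cast hm.1
        rw [abs_div, Nat.abs_cast]
        have h1 := vb_abs_le w m
        have h2 : Real.log m ≤ Real.log N := Real.log_le_log hm0 (by exact_mod_cast hm.2)
        rw [← mul_div_assoc]
        apply div_le_div_of_nonneg_right _ hm0.le
        refine h1.trans ?_
        rw [mul_comm]
        exact mul_le_mul_of_nonneg_right h2 (by positivity)
    _ ≤ _ := by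
        rw [← Finset.mul_sum]
        exact mul_le_mul_of_nonneg_left (tau_sum N hN) hN0

/-- the middle term -/
lemma two_small {h z : ℝ} (hh : 0 < h) (hh1 : h ≤ 1) (w N M1 : ℕ) {s κ κ' G : ℝ}
    (hκ' : 0 ≤ κ') (hz : 2 * s + 1 ≤ z)
    (hA : ∀ x, s ≤ x → x ≤ z + h → |AB h w N x| ≤ κ)
    (hV : ∀ x, s ≤ x → x ≤ z + h → |VB h w N x - 1| ≤ κ')
    (hM : M1 ≤ N) (hM1 : 0 < M1) (hz1 : z / 2 + 1 / 2 + h ≤ z - Real.log M1)
    (hG : ∀ m, M1 ≤ m → m ≤ N → |∑ l ∈ Finset.Ioc 0 m, aw w l / l| ≤ G) :
    |∫ y, VB h w N y * AB h w N (z - y)| ≤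
      κ * ∑ m ∈ Finset.Ioc 0 N, |(muw w * ArithmeticFunction.log) m / m| +
      κ' * ∑ l ∈ Finset.Ioc 0 N, |aw w l / l| + 3 * G := by
  set L := Finset.Ioc 0 N with hL
  have hLpos : ∀ l ∈ L, 0 < l := fun l hl => (Finset.mem_Ioc.1 hl).1
  have hκ : 0 ≤ κ := by
    have hs : s ≤ z + h := by
      rcases le_or_gt 0 s with h1 | h1 <;> nlinarith [Real.log_nonneg (show (1 : ℝ) ≤ M1 by
        exact_mod_cast hM1)]
    exact (abs_nonneg _).trans (hA s le_rfl hs)
  set a := z / 2 + 1 / 2 with ha
  have hVi : Integrable (VB h w N) := bb_integrable _ _ _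
  have hAi : Integrable fun y => AB h w N (z - y) := (bb_integrable _ _ _).comp_sub_left z
  have hVm : Measurable (VB h w N) := bb_meas _ _ _
  have hAm : Measurable (AB h w N) := bb_meas _ _ _
  have hrm : Measurable (rp a) := (rp_continuous a).measurable
  have hr : ∀ y, |rp a y| ≤ 1 := fun y => by
    rw [abs_of_nonneg (rp_nonneg _ _)]; exact rp_le_one _ _
  have hr' : ∀ y, |1 - rp a y| ≤ 1 := fun y => by
    rw [abs_of_nonneg (by linarith [rp_le_one a y])]; linarith [rp_nonneg a y]
  have b1 : ∀ y, |(1 - rp a y) * (VB h w N y * AB h w N (z - y))| ≤ κ * |VB h w N y| := by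
    intro y
    rw [abs_mul, abs_mul]
    rcases le_or_gt a y with h1 | h1
    · rw [rp_one h1, sub_self, abs_zero, zero_mul]
      exact mul_nonneg hκ (abs_nonneg _)
    · rcases le_or_gt y (-h) with h2 | h2
      · have : VB h w N y = 0 := bb_zero hh L hLpos _ h2
        rw [this]
        simp
      · have h3 := hA (z - y) (by linarith) (by linarith)
        calc |1 - rp a y| * (|VB h w N y| * |AB h w N (z - y)|) ≤ 1 * (|VB h w N y| * κ) := by
              apply mul_le_mul (hr' y) _ (by positivity) zero_le_one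
              exact mul_le_mul_of_nonneg_left h3 (abs_nonneg _)
          _ = _ := by ring
  have b2 : ∀ y, |rp a y * ((VB h w N y - 1) * AB h w N (z - y))| ≤ κ' * |AB h w N (z - y)| := by
    intro y
    rw [abs_mul, abs_mul]
    rcases le_or_gt y (a - 1) with h1 | h1
    · rw [rp_zero h1, abs_zero, zero_mul]
      exact mul_nonneg hκ' (abs_nonneg _)
    · rcases le_or_gt (z + h) y with h2 | h2
      · have : AB h w N (z - y) = 0 := bb_zero hh L hLpos _ (by linarith)
        rw [this]
        simp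
      · have h3 := hV y (by linarith) h2.le
        calc |rp a y| * (|VB h w N y - 1| * |AB h w N (z - y)|) ≤ 1 * (κ' * |AB h w N (z - y)|) := by
              apply mul_le_mul (hr y) _ (by positivity) zero_le_one
              exact mul_le_mul_of_nonneg_right h3 (abs_nonneg _)
          _ = _ := by ring
  have i1 : Integrable fun y => (1 - rp a y) * (VB h w N y * AB h w N (z - y)) := by
    refine (hVi.abs.const_mul κ).mono' ?_ (Eventually.of_forall fun y => ?_)
    · exact ((measurable_const.sub hrm).mul (hVm.mul (hAm.comp (by fun_prop)))).aestronglyMeasurable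
    · rw [Real.norm_eq_abs]
      exact b1 y
  have i2 : Integrable fun y => rp a y * ((VB h w N y - 1) * AB h w N (z - y)) := by
    refine (hAi.abs.const_mul κ').mono' ?_ (Eventually.of_forall fun y => ?_)
    · exact (hrm.mul ((hVm.sub measurable_const).mul (hAm.comp (by fun_prop)))).aestronglyMeasurable
    · rw [Real.norm_eq_abs]
      exact b2 y
  have i3 : Integrable fun y => rp a y * AB h w N (z - y) := by
    refine hAi.bdd_mul (c := 1) hrm.aestronglyMeasurable (Eventually.of_forall fun y => ?_)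
    rw [Real.norm_eq_abs]
    exact hr y
  have e : ∀ y, VB h w N y * AB h w N (z - y) = ((1 - rp a y) * (VB h w N y * AB h w N (z - y)) +
      rp a y * ((VB h w N y - 1) * AB h w N (z - y))) + rp a y * AB h w N (z - y) := by
    intro y
    ring
  have e2 : ∫ y, VB h w N y * AB h w N (z - y) =
      ((∫ y, (1 - rp a y) * (VB h w N y * AB h w N (z - y))) +
      ∫ y, rp a y * ((VB h w N y - 1) * AB h w N (z - y))) + ∫ y, rp a y * AB h w N (z - y) := by
    have i12 : Integrable fun y => (1 - rp a y) * (VB h w N y * AB h w N (z - y)) +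
        rp a y * ((VB h w N y - 1) * AB h w N (z - y)) := i1.add i2
    rw [← integral_add i1 i2, ← integral_add i12 i3]
    exact integral_congr_ae (Eventually.of_forall fun y => e y)
  rw [e2]
  have c1 : |∫ y, (1 - rp a y) * (VB h w N y * AB h w N (z - y))| ≤
      κ * ∑ m ∈ L, |(muw w * ArithmeticFunction.log) m / m| := by
    refine (abs_integral_le_integral_abs).trans ?_
    refine (integral_mono i1.abs (hVi.abs.const_mul κ) b1).trans ?_
    rw [integral_const_mul]
    exact mul_le_mul_of_nonneg_left (bb_abs hh L _) hκ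
  have c2 : |∫ y, rp a y * ((VB h w N y - 1) * AB h w N (z - y))| ≤
      κ' * ∑ l ∈ L, |aw w l / l| := by
    refine (abs_integral_le_integral_abs).trans ?_
    refine (integral_mono i2.abs (hAi.abs.const_mul κ') b2).trans ?_
    rw [integral_const_mul, integral_sub_left_eq_self (fun y => |AB h w N y|)]
    exact mul_le_mul_of_nonneg_left (bb_abs hh L _) hκ'
  have c3 : |∫ y, rp a y * AB h w N (z - y)| ≤ 3 * G := by
    have := smooth_gen (k := box h) (h := h) (z := z) (box_nonneg hh) (box_integrable h)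
      (integral_box hh) (fun x hx => box_zero_of (by linarith)) N M1 a (fun l => aw w l / l) hM hM1
      hz1 G hG
    exact this
  refine (abs_add_le _ _).trans (add_le_add ((abs_add_le _ _).trans (add_le_add c1 c2)) c3)

/-- the convolution of the second factor with itself is small -/
lemma gg2_small {h x : ℝ} (hh : 0 < h) (w N : ℕ) {κ : ℝ} (hκ : 0 ≤ κ)
    (hN : Real.exp (x + h) ≤ N)
    (hA : ∀ y, x / 2 ≤ y → y ≤ x + h → |AB h w N y| ≤ κ) :
    |gg h (Finset.Ioc 0 N) (fun l => (aw w * aw w) l / l) x| ≤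
      2 * κ * ∑ l ∈ Finset.Ioc 0 N, |aw w l / l| := by
  set L := Finset.Ioc 0 N with hL
  have hLpos : ∀ l ∈ L, 0 < l := fun l hl => (Finset.mem_Ioc.1 hl).1
  have e : gg h L (fun l => (aw w * aw w) l / l) x = ∫ y, AB h w N y * AB h w N (x - y) := by
    unfold gg AB
    rw [conv_sum (aw w) (aw w) h x hh N hN, bb_conv hh]
  rw [e]
  have hAi : Integrable (AB h w N) := bb_integrable _ _ _
  have hAi2 : Integrable fun y => AB h w N (x - y) := hAi.comp_sub_left x
  have b : ∀ y, |AB h w N y * AB h w N (x - y)| ≤ κ * |AB h w N (x - y)| + κ * |AB h w N y| := by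
    intro y
    rw [abs_mul]
    rcases le_or_gt (x / 2) y with h1 | h1
    · rcases le_or_gt y (x + h) with h2 | h2
      · have h3 := hA y h1 h2
        have h4 : |AB h w N y| * |AB h w N (x - y)| ≤ κ * |AB h w N (x - y)| :=
          mul_le_mul_of_nonneg_right h3 (abs_nonneg _)
        have h5 : 0 ≤ κ * |AB h w N y| := mul_nonneg hκ (abs_nonneg _)
        linarith
      · have : AB h w N (x - y) = 0 := bb_zero hh L hLpos _ (by linarith)
        rw [this]
        simp only [abs_zero, mul_zero, zero_add]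
        exact mul_nonneg hκ (abs_nonneg _)
    · rcases le_or_gt (-h) y with h2 | h2
      · have h3 := hA (x - y) (by linarith) (by linarith)
        have h4 : |AB h w N y| * |AB h w N (x - y)| ≤ |AB h w N y| * κ :=
          mul_le_mul_of_nonneg_left h3 (abs_nonneg _)
        have h5 : 0 ≤ κ * |AB h w N (x - y)| := mul_nonneg hκ (abs_nonneg _)
        linarith
      · have : AB h w N y = 0 := bb_zero hh L hLpos _ h2.le
        rw [this]
        simp only [abs_zero, mul_zero, zero_mul, add_zero]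
        exact mul_nonneg hκ (abs_nonneg _)
  refine (abs_integral_le_integral_abs).trans ?_
  refine (integral_mono (bb_mul_int hh L _ _ x).abs
    ((hAi2.abs.const_mul κ).add (hAi.abs.const_mul κ)) b).trans ?_
  simp only [Pi.add_apply]
  rw [integral_add (hAi2.abs.const_mul κ) (hAi.abs.const_mul κ), integral_const_mul,
    integral_const_mul, integral_sub_left_eq_self (fun y => |AB h w N y|)]
  have h1 := bb_abs hh L (fun l => aw w l / l)
  have h2 : κ * ∫ y, |AB h w N y| ≤ κ * ∑ l ∈ L, |aw w l / l| :=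
    mul_le_mul_of_nonneg_left h1 hκ
  linarith

/-- partial sums of the squared factor -/
lemma Gsum2 (w M : ℕ) (G : ℝ)
    (hG : ∀ m, Nat.sqrt M ≤ m → m ≤ M → |∑ l ∈ Finset.Ioc 0 m, aw w l / l| ≤ G) :
    |∑ l ∈ Finset.Ioc 0 M, (aw w * aw w) l / l| ≤ 3 * G * ∑ l ∈ Finset.Ioc 0 M, |aw w l / l| := by
  have e : ∑ l ∈ Finset.Ioc 0 M, (aw w * aw w) l / l =
      ∑ a ∈ Finset.Ioc 0 M, ∑ b ∈ Finset.Ioc 0 (M / a), (aw w a / a) * (aw w b / b) := by
    rw [← hyper_floor (fun a b => (aw w a / a) * (aw w b / b))]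
    refine Finset.sum_congr rfl fun n hn => ?_
    rw [Finset.mem_Ioc] at hn
    rw [ArithmeticFunction.mul_apply, Finset.sum_div]
    refine Finset.sum_congr rfl fun p hp => ?_
    rw [Nat.mem_divisorsAntidiagonal] at hp
    rw [← hp.1]
    push_cast
    rw [div_mul_div_comm]
  rw [e]
  exact hyperb (fun l => aw w l / l) M G hG

theorem PI_ineq {h z : ℝ} (hh : 0 < h) (hh1 : h ≤ 1) (w N u0 U : ℕ) (hw : 1 ≤ w)
    (hu : u0 ≤ U) (hU : z + 2 ≤ U) (hN : Real.exp (U + 1) ≤ N) {s : ℝ}
    (hs : Real.log w + 2 ≤ s) (hz : 2 * s + u0 + 6 ≤ z) {δ κ Lg : ℝ} (hδ1 : |mz w| ≤ δ)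
    (hδ2 : |ml w + 1| ≤ δ) (hκ : δ + h + w * (16 * Real.exp (-s) / h) ≤ κ) (hκ1 : κ ≤ 1)
    (hLg : 2 + Real.log N ≤ Lg) :
    |TT h N z - 1 - ∑ u ∈ Finset.Icc u0 U, FF u h N (Finset.Ioc 0 N)
      (fun l => (aw w * aw w) l / l) z| ≤ 20 * (Lg ^ 4 * κ) := by
  have hδ0 : 0 ≤ δ := (abs_nonneg _).trans hδ1
  have hw0 : (0 : ℝ) < w := by exact_mod_cast hw
  have hw1 : (1 : ℝ) ≤ w := by exact_mod_cast hw
  have hlw : 0 ≤ Real.log w := Real.log_nonneg hw1
  have hu0' : (0 : ℝ) ≤ u0 := by positivity
  have huU : (u0 : ℝ) ≤ U := by exact_mod_cast hu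
  have hN0 : (0 : ℝ) < N := lt_of_lt_of_le (Real.exp_pos _) hN
  have hlogN : (U : ℝ) + 1 ≤ Real.log N := by rw [Real.le_log_iff_exp_le hN0]; exact hN
  have hNn : 1 ≤ N := by exact_mod_cast hN0
  have hzN : Real.exp (z + h) ≤ N := le_trans (Real.exp_le_exp.2 (by linarith)) hN
  have hzN2 : Real.exp (z + h + h) ≤ N := le_trans (Real.exp_le_exp.2 (by linarith)) hN
  set ε := w * (16 * Real.exp (-s) / h) with hε
  have hε0 : 0 < ε := by positivity
  have hκ0 : 0 < κ := by linarith
  have hε1 : ε ≤ 1 := by linarith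
  have hs2 : 2 ≤ s := by linarith
  have hLg5 : 5 ≤ Lg := by linarith
  have hLg1 : 1 ≤ Lg := by linarith
  set L := Finset.Ioc 0 N with hL
  have hLpos : ∀ l ∈ L, 0 < l := fun l hl => (Finset.mem_Ioc.1 hl).1
  set c : ℕ → ℝ := fun l => (aw w * aw w) l / l with hc
  -- the norms
  set A1 := ∑ l ∈ L, |aw w l / l| with hA1
  set V1 := ∑ m ∈ L, |(muw w * ArithmeticFunction.log) m / m| with hV1
  have hA10 : 0 ≤ A1 := Finset.sum_nonneg fun _ _ => abs_nonneg _
  have hA1b : A1 ≤ Lg ^ 2 := by
    refine (aw_l1 w N hNn).trans ?_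
    have h0 : 0 ≤ 1 + Real.log N := by linarith
    have h1 : 1 + Real.log N ≤ Lg := by linarith
    exact pow_le_pow_left₀ h0 h1 2
  have hV1b : V1 ≤ Lg ^ 3 := by
    refine (vb_l1 w N hNn).trans ?_
    have h0 : 0 ≤ Real.log N := by linarith
    calc Real.log N * (1 + Real.log N) ^ 2 ≤ Lg * Lg ^ 2 := by
          apply mul_le_mul (by linarith) _ (by positivity) (by linarith)
          exact pow_le_pow_left₀ (by linarith) (by linarith) 2
      _ = _ := by ring
  -- pointwise bounds
  have hAB : ∀ x, s ≤ x → x ≤ z + h → |AB h w N x| ≤ κ := by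
    intro x hx1 hx2
    refine (AB_small hh hh1 w N hw (by linarith)
      (le_trans (Real.exp_le_exp.2 (by linarith)) hzN2)).trans ?_
    have h1 : w * (16 * Real.exp (-x) / h) ≤ ε := by
      rw [hε]
      have : Real.exp (-x) ≤ Real.exp (-s) := Real.exp_le_exp.2 (by linarith)
      gcongr
    linarith
  have hVB : ∀ x, s ≤ x → x ≤ z + h → |VB h w N x - 1| ≤ Lg * κ := by
    intro x hx1 hx2
    have h1 := typeI_box hh hh1 w N hw (z := x) (by linarith)
      (le_trans (Real.exp_le_exp.2 (by linarith)) hzN2)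
    have h2 : w * (16 * Real.exp (-x) / h) ≤ ε := by
      rw [hε]
      have : Real.exp (-x) ≤ Real.exp (-s) := Real.exp_le_exp.2 (by linarith)
      gcongr
    have h3 : |x * mz w - ml w - 1| ≤ (x + 1) * δ := by
      have e : x * mz w - ml w - 1 = x * mz w - (ml w + 1) := by ring
      rw [e]
      refine (abs_sub _ _).trans ?_
      rw [abs_mul, abs_of_nonneg (by linarith : 0 ≤ x)]
      have : x * |mz w| ≤ x * δ := mul_le_mul_of_nonneg_left hδ1 (by linarith)
      linarith
    have h4 : |VB h w N x - 1| ≤ h * (1 + Real.log w) + (1 + x) * ε + (x + 1) * δ := by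
      have e : VB h w N x - 1 = (VB h w N x - (x * mz w - ml w)) + (x * mz w - ml w - 1) := by ring
      rw [e]
      refine (abs_add_le _ _).trans (add_le_add (h1.trans ?_) h3)
      have : (1 + x) * (w * (16 * Real.exp (-x) / h)) ≤ (1 + x) * ε :=
        mul_le_mul_of_nonneg_left h2 (by linarith)
      linarith
    refine h4.trans ?_
    have h5 : h * (1 + Real.log w) ≤ h * Lg := mul_le_mul_of_nonneg_left (by linarith) hh.le
    have h6 : (1 + x) * ε ≤ Lg * ε := mul_le_mul_of_nonneg_right (by linarith) hε0.le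
    have h7 : (x + 1) * δ ≤ Lg * δ := mul_le_mul_of_nonneg_right (by linarith) hδ0
    have h8 : Lg * (δ + h + ε) ≤ Lg * κ := mul_le_mul_of_nonneg_left hκ (by linarith)
    linarith
  -- partial sums
  set M1 := ⌈Real.exp s⌉₊ with hM1
  have hM1a : Real.exp s ≤ M1 := Nat.le_ceil _
  have hM1pos : 0 < M1 := Nat.ceil_pos.2 (Real.exp_pos _)
  have hM1pos' : (0 : ℝ) < M1 := by exact_mod_cast hM1pos
  have hM1b : Real.log M1 ≤ s + 1 := by
    rw [Real.log_le_iff_le_exp hM1pos', Real.exp_add]
    have h1 : (M1 : ℝ) < Real.exp s + 1 := Nat.ceil_lt_add_one (Real.exp_pos _).le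
    have h2 : 1 ≤ Real.exp s := Real.one_le_exp (by linarith)
    have h3 : (2 : ℝ) ≤ Real.exp 1 := by linarith [Real.exp_one_gt_d9]
    nlinarith
  have hwM1 : w ≤ M1 := by
    have : (w : ℝ) ≤ M1 := by
      refine le_trans ?_ hM1a
      rw [← Real.log_le_iff_le_exp hw0]
      linarith
    exact_mod_cast this
  have hM1N : M1 * M1 ≤ N := by
    have : ((M1 * M1 : ℕ) : ℝ) ≤ N := by
      push_cast
      rw [← Real.log_le_log_iff (by positivity) hN0, Real.log_mul hM1pos'.ne' hM1pos'.ne']
      linarith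
    exact_mod_cast this
  have hM1N' : M1 ≤ N := (Nat.le_mul_of_pos_left M1 hM1pos).trans hM1N
  have hG : ∀ m, M1 ≤ m → m ≤ N → |∑ l ∈ Finset.Ioc 0 m, aw w l / l| ≤ Lg * κ := by
    intro m hm hm2
    have hm0 : (0 : ℝ) < m := by exact_mod_cast (by omega : 0 < m)
    refine (Gsum hw (hwM1.trans hm)).trans ?_
    have h1 : Real.log m ≤ Real.log N := Real.log_le_log hm0 (by exact_mod_cast hm2)
    have h2 : 0 ≤ Real.log m := Real.log_nonneg (by exact_mod_cast (by omega : 1 ≤ m))
    have h3 : (Real.log m + 1) * |mz w| ≤ (Real.log N + 1) * δ := by gcongr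
    have h4 : 4 * (w : ℝ) / m ≤ ε := by
      have h5 : Real.exp s ≤ m := hM1a.trans (by exact_mod_cast hm)
      calc 4 * (w : ℝ) / m ≤ 4 * w / Real.exp s := by gcongr
        _ = w * (4 * Real.exp (-s) / 1) := by rw [Real.exp_neg]; field_simp
        _ ≤ ε := by
          rw [hε]
          gcongr
          norm_num
    have h5 : (Real.log N + 1) * δ + δ ≤ Lg * δ := by
      have : (Real.log N + 2) * δ ≤ Lg * δ := mul_le_mul_of_nonneg_right (by linarith) hδ0
      linarith
    have h6 : ε ≤ Lg * ε := le_mul_of_one_le_left hε0.le hLg1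
    have h7 : 0 ≤ Lg * h := by positivity
    have h8 : Lg * (δ + h + ε) ≤ Lg * κ := mul_le_mul_of_nonneg_left hκ (by linarith)
    linarith
  -- the identity
  have hT : TT h N z = ∑ d ∈ L, muw w d / d * ∑ m ∈ L,
      ArithmeticFunction.log m / m * tri h (z - Real.log d - Real.log m) +
      (∫ y, VB h w N y * AB h w N (z - y)) +
      ∑ m ∈ L, ArithmeticFunction.vonMangoldt m / m * gg h L c (z - Real.log m) := by
    have h1 : TT h N z = ∑ n ∈ L, (muw w * ArithmeticFunction.log) n / n * tri h (z - Real.log n) +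
        ∑ n ∈ L, ((muw w * ArithmeticFunction.log) * aw w) n / n * tri h (z - Real.log n) +
        ∑ n ∈ L, (ArithmeticFunction.vonMangoldt * (aw w * aw w)) n / n *
          tri h (z - Real.log n) := by
      unfold TT
      rw [← Finset.sum_add_distrib, ← Finset.sum_add_distrib]
      refine Finset.sum_congr rfl fun n _ => ?_
      have h2 : ArithmeticFunction.vonMangoldt = muw w * ArithmeticFunction.log +
          (muw w * ArithmeticFunction.log) * aw w +
          ArithmeticFunction.vonMangoldt * (aw w * aw w) := by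
        have h3 := La_identity w
        calc ArithmeticFunction.vonMangoldt = muw w * ArithmeticFunction.log +
              ArithmeticFunction.vonMangoldt * aw w := h3
          _ = muw w * ArithmeticFunction.log + (muw w * ArithmeticFunction.log +
              ArithmeticFunction.vonMangoldt * aw w) * aw w := by rw [← h3]; exact h3
          _ = _ := by ring
      conv_lhs => rw [h2]
      rw [ArithmeticFunction.add_apply, ArithmeticFunction.add_apply]
      ring
    rw [h1, conv_sum _ _ h z hh N hzN, conv_sum _ _ h z hh N hzN, conv_sum _ _ h z hh N hzN]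
    unfold VB AB
    rw [bb_conv hh]
    rfl
  rw [typeII hh N u0 U hu (by linarith) L hLpos c] at hT
  -- type I
  have hI := typeI hh hh1 w N hw (z := z) (by linarith) hzN
  have hε2 : w * (32 * Real.exp (-z) / h ^ 2) ≤ ε := by
    have h1 : ε ^ 2 ≤ ε := by
      rw [sq]
      exact mul_le_of_le_one_left hε0.le hε1
    refine le_trans ?_ h1
    have h2 : Real.exp (-z) ≤ Real.exp (-s) ^ 2 := by
      rw [← Real.exp_nat_mul]
      apply Real.exp_le_exp.2
      push_cast
      linarith
    calc w * (32 * Real.exp (-z) / h ^ 2) ≤ w * (32 * Real.exp (-s) ^ 2 / h ^ 2) := by gcongr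
      _ ≤ w * (w * (256 * Real.exp (-s) ^ 2 / h ^ 2)) := by
          apply mul_le_mul_of_nonneg_left _ hw0.le
          have h3 : 32 * Real.exp (-s) ^ 2 / h ^ 2 ≤ 256 * Real.exp (-s) ^ 2 / h ^ 2 := by
            gcongr
            norm_num
          have h4 : 0 ≤ 256 * Real.exp (-s) ^ 2 / h ^ 2 := by positivity
          exact h3.trans (le_mul_of_one_le_left h4 hw1)
      _ = ε ^ 2 := by
          rw [hε]
          ring
  have hI2 : |z * mz w - ml w - 1| ≤ (z + 1) * δ := by
    have e : z * mz w - ml w - 1 = z * mz w - (ml w + 1) := by ring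
    rw [e]
    refine (abs_sub _ _).trans ?_
    rw [abs_mul, abs_of_nonneg (by linarith : 0 ≤ z)]
    have : z * |mz w| ≤ z * δ := mul_le_mul_of_nonneg_left hδ1 (by linarith)
    linarith
  set TI := ∑ d ∈ L, muw w d / d * ∑ m ∈ L,
      ArithmeticFunction.log m / m * tri h (z - Real.log d - Real.log m) with hTI
  have hI3 : |TI - 1| ≤ Lg * κ := by
    have e : TI - 1 = (TI - (z * mz w - ml w)) + (z * mz w - ml w - 1) := by ring
    rw [e]
    refine (abs_add_le _ _).trans ((add_le_add hI hI2).trans ?_)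
    have h5 : h * (1 + Real.log w) ≤ h * Lg := mul_le_mul_of_nonneg_left (by linarith) hh.le
    have h6 : (1 + z) * (w * (32 * Real.exp (-z) / h ^ 2)) ≤ Lg * ε :=
      mul_le_mul (by linarith) hε2 (by positivity) (by linarith)
    have h7 : (z + 1) * δ ≤ Lg * δ := mul_le_mul_of_nonneg_right (by linarith) hδ0
    have h8 : Lg * (δ + h + ε) ≤ Lg * κ := mul_le_mul_of_nonneg_left hκ (by linarith)
    linarith
  -- the middle term
  have hII := two_small hh hh1 w N M1 (s := s) (κ := κ) (κ' := Lg * κ) (G := Lg * κ) (z := z)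
    (by positivity) (by linarith) hAB hVB hM1N' hM1pos (by linarith) hG
  -- the first part
  have hP1 : |∑ m ∈ L, ArithmeticFunction.vonMangoldt m / m *
        ((1 - rp u0 (Real.log m)) * gg h L c (z - Real.log m))| ≤
        u0 * (1 + u0) * (2 * κ * A1) := by
    refine (Finset.abs_sum_le_sum_abs _ _).trans ?_
    have h1 : ∀ m ∈ L, |ArithmeticFunction.vonMangoldt m / m *
        ((1 - rp u0 (Real.log m)) * gg h L c (z - Real.log m))| ≤
        if Real.log m < u0 then ArithmeticFunction.vonMangoldt m / m * (2 * κ * A1) else 0 := by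
      intro m hm
      have hm0 := hLpos m hm
      have h2 : 0 ≤ ArithmeticFunction.vonMangoldt m / (m : ℝ) :=
        div_nonneg ArithmeticFunction.vonMangoldt_nonneg (by positivity)
      have h5 : 0 ≤ Real.log m := Real.log_nonneg (by exact_mod_cast hm0)
      split_ifs with h3
      · rw [abs_mul, abs_of_nonneg h2]
        apply mul_le_mul_of_nonneg_left _ h2
        rw [abs_mul, abs_of_nonneg (by linarith [rp_le_one (u0 : ℝ) (Real.log m)])]
        have h4 : |gg h L c (z - Real.log m)| ≤ 2 * κ * A1 := by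
          apply gg2_small hh w N hκ0.le
          · exact le_trans (Real.exp_le_exp.2 (by linarith)) hzN
          · intro y hy1 hy2
            exact hAB y (by linarith) (by linarith)
        calc (1 - rp u0 (Real.log m)) * |gg h L c (z - Real.log m)| ≤ 1 * (2 * κ * A1) := by
              apply mul_le_mul _ h4 (abs_nonneg _) zero_le_one
              linarith [rp_nonneg (u0 : ℝ) (Real.log m)]
          _ = _ := one_mul _
      · rw [rp_one (not_lt.1 h3)]
        simp
    refine (Finset.sum_le_sum h1).trans ?_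
    rw [← Finset.sum_filter, ← Finset.sum_mul]
    apply mul_le_mul_of_nonneg_right _ (by positivity)
    exact La_sum_le N (by positivity)
  -- the smooth part
  have hS := smooth_part hh N (M1 * M1) u0 c hM1N (Nat.mul_pos hM1pos hM1pos) (z := z) (by
    push_cast
    rw [Real.log_mul hM1pos'.ne' hM1pos'.ne']
    linarith) (3 * (Lg * κ) * A1) (by
    intro m hm hm2
    refine (Gsum2 w m (Lg * κ) (fun m' h1 h2 => ?_)).trans ?_
    · exact hG m' ((Nat.le_sqrt.2 hm).trans h1) (h2.trans hm2)
    · apply mul_le_mul_of_nonneg_left _ (by positivity)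
      exact Finset.sum_le_sum_of_subset_of_nonneg (Finset.Ioc_subset_Ioc_right hm2)
        fun _ _ _ => abs_nonneg _)
  -- assembly
  rw [hT]
  set X1 := ∑ m ∈ L, ArithmeticFunction.vonMangoldt m / m *
        ((1 - rp u0 (Real.log m)) * gg h L c (z - Real.log m)) with hX1
  set X2 := ∫ v : ℝ, rp u0 v * gg h L c (z - v) with hX2
  set X3 := ∫ y, VB h w N y * AB h w N (z - y) with hX3
  set X4 := ∑ u ∈ Finset.Icc u0 U, FF u h N L c z with hX4
  have e : TI + X3 + (X1 + (X4 + X2)) - 1 - X4 = (TI - 1) + X3 + X1 + X2 := by ring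
  rw [e]
  refine (abs_add_le _ _).trans ((add_le_add ((abs_add_le _ _).trans (add_le_add
    ((abs_add_le _ _).trans (add_le_add hI3 hII)) hP1)) hS).trans ?_)
  have hL2 : 1 ≤ Lg ^ 2 := one_le_pow₀ hLg1
  have hL3 : Lg ^ 3 * κ ≤ Lg ^ 4 * κ := by
    apply mul_le_mul_of_nonneg_right _ hκ0.le
    exact pow_le_pow_right₀ hLg1 (by norm_num)
  have hL1 : Lg * κ ≤ Lg ^ 4 * κ := by
    apply mul_le_mul_of_nonneg_right _ hκ0.le
    calc Lg = Lg ^ 1 := (pow_one _).symm
      _ ≤ _ := pow_le_pow_right₀ hLg1 (by norm_num)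
  have f1 : κ * V1 ≤ Lg ^ 4 * κ := by
    calc κ * V1 ≤ κ * Lg ^ 3 := mul_le_mul_of_nonneg_left hV1b hκ0.le
      _ = Lg ^ 3 * κ := by ring
      _ ≤ _ := hL3
  have f2 : Lg * κ * A1 ≤ Lg ^ 4 * κ := by
    calc Lg * κ * A1 ≤ Lg * κ * Lg ^ 2 := mul_le_mul_of_nonneg_left hA1b (by positivity)
      _ = Lg ^ 3 * κ := by ring
      _ ≤ _ := hL3
  have f3 : u0 * (1 + u0) * (2 * κ * A1) ≤ 2 * (Lg ^ 4 * κ) := by
    have h1 : (u0 : ℝ) * (1 + u0) ≤ Lg * Lg := by
      apply mul_le_mul (by linarith) (by linarith) (by positivity) (by linarith)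
    calc u0 * (1 + u0) * (2 * κ * A1) ≤ Lg * Lg * (2 * κ * Lg ^ 2) := by
          apply mul_le_mul h1 _ (by positivity) (by positivity)
          exact mul_le_mul_of_nonneg_left hA1b (by positivity)
      _ = _ := by ring
  have f4 : 3 * (3 * (Lg * κ) * A1) = 9 * (Lg * κ * A1) := by ring
  rw [f4]
  have f5 : 0 ≤ Lg ^ 4 * κ := by positivity
  linarith

end Pool.Agent.K9h18.HS
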