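import Pool.Agent.K9h18.HS.BoxC
import Pool.Agent.N176.OW.Stm2

set_option autoImplicit false

/-!
# Averaging the discrepancy
-/

open Filter Topology Set MeasureTheory Metric
open scoped Real FourierTransform

namespace Pool.Agent.K9h18.HS

open Pool.Agent.W66

lemma gg_bdd {h : ℝ} (hh : 0 < h) (L : Finset ℕ) (c : ℕ → ℝ) (x : ℝ) :
    |gg h L c x| ≤ (∑ l ∈ L, |c l|) * (1 / h) := by
  unfold gg
  refine (Finset.abs_sum_le_sum_abs _ _).trans ?_
  rw [Finset.sum_mul]
  refine Finset.sum_le_sum fun l _ => ?_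
  rw [abs_mul, abs_of_nonneg (tri_nonneg hh _)]
  exact mul_le_mul_of_nonneg_left (tri_le hh _) (abs_nonneg _)

lemma FF_avg_gen {u h : ℝ} (hh : 0 < h) (N : ℕ) (L : Finset ℕ) (c : ℕ → ℝ) {f : ℝ → ℝ}
    (hf : Integrable f) (z : ℝ) :
    ∫ t, f t * FF u h N L c (z - t) =
      ∑ n ∈ Finset.Ioc 0 N, ArithmeticFunction.vonMangoldt n / n * hat (u - Real.log n) *
        (∫ t, f t * gg h L c (z - Real.log n - t)) -
      ∫ v : ℝ, hat (u - v) * ∫ t, f t * gg h L c (z - v - t) := by
  have hgi : ∀ b : ℝ, Integrable fun t => f t * gg h L c (b - t) := by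
    intro b
    have h1 : Integrable fun t => gg h L c (b - t) * f t := by
      refine hf.bdd_mul (c := (∑ l ∈ L, |c l|) * (1 / h))
        (((gg_continuous h L c).comp (by fun_prop)).aestronglyMeasurable)
        (Eventually.of_forall fun x => ?_)
      exact gg_bdd hh L c _
    exact h1.congr (Eventually.of_forall fun t => mul_comm _ _)
  have hsw := swap3 hf (hatu_integrable u) (gg_continuous h L c) (gg_bdd hh L c) z
  have hi1 : Integrable fun t => f t * ∑ n ∈ Finset.Ioc 0 N,
      ArithmeticFunction.vonMangoldt n / n * hat (u - Real.log n) *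
        gg h L c (z - t - Real.log n) := by
    have e : ∀ t, f t * ∑ n ∈ Finset.Ioc 0 N,
        ArithmeticFunction.vonMangoldt n / n * hat (u - Real.log n) *
          gg h L c (z - t - Real.log n) = ∑ n ∈ Finset.Ioc 0 N,
        ArithmeticFunction.vonMangoldt n / n * hat (u - Real.log n) *
          (f t * gg h L c (z - Real.log n - t)) := by
      intro t
      rw [Finset.mul_sum]
      refine Finset.sum_congr rfl fun n _ => ?_
      rw [show z - t - Real.log n = z - Real.log n - t by ring]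
      ring
    simp only [e]
    exact integrable_finsetSum _ fun n _ => (hgi _).const_mul _
  have hi2 : Integrable fun t => f t * ∫ v : ℝ, hat (u - v) * gg h L c (z - t - v) := by
    have hprod : Integrable (fun p : ℝ × ℝ => f p.1 * (hat (u - p.2) * gg h L c (z - p.1 - p.2)))
        (volume.prod volume) := by
      have h1 : Integrable (fun p : ℝ × ℝ => f p.1 * hat (u - p.2)) (volume.prod volume) :=
        hf.mul_prod (hatu_integrable u)
      have h2 : Integrable (fun p : ℝ × ℝ => gg h L c (z - p.1 - p.2) * (f p.1 * hat (u - p.2)))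
          (volume.prod volume) := by
        refine h1.bdd_mul (c := (∑ l ∈ L, |c l|) * (1 / h)) ?_
          (Eventually.of_forall fun p => gg_bdd hh L c _)
        exact ((gg_continuous h L c).comp (by fun_prop)).aestronglyMeasurable
      refine h2.congr (Eventually.of_forall fun p => ?_)
      simp only
      ring
    refine hprod.integral_prod_left.congr (Eventually.of_forall fun t => ?_)
    simp only
    rw [integral_const_mul]
  have e : ∀ t, f t * FF u h N L c (z - t) = f t * ∑ n ∈ Finset.Ioc 0 N,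
      ArithmeticFunction.vonMangoldt n / n * hat (u - Real.log n) *
        gg h L c (z - t - Real.log n) - f t * ∫ v : ℝ, hat (u - v) * gg h L c (z - t - v) := by
    intro t
    unfold FF
    ring
  simp only [e]
  rw [integral_sub hi1 hi2, hsw]
  congr 1
  have e : ∀ t, f t * ∑ n ∈ Finset.Ioc 0 N,
      ArithmeticFunction.vonMangoldt n / n * hat (u - Real.log n) *
        gg h L c (z - t - Real.log n) = ∑ n ∈ Finset.Ioc 0 N,
      ArithmeticFunction.vonMangoldt n / n * hat (u - Real.log n) *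
        (f t * gg h L c (z - Real.log n - t)) := by
    intro t
    rw [Finset.mul_sum]
    refine Finset.sum_congr rfl fun n _ => ?_
    rw [show z - t - Real.log n = z - Real.log n - t by ring]
    ring
  simp only [e]
  rw [integral_finsetSum _ fun (n : ℕ) _ => (hgi _).const_mul _]
  refine Finset.sum_congr rfl fun n _ => ?_
  rw [integral_const_mul]

lemma FF_avg_eq {u h : ℝ} (hu : 1 ≤ u) (hh : 0 < h) (w N : ℕ) {z : ℝ}
    (hz : Real.exp (z + 2 * h) ≤ N) :
    ∫ t, box h t * FF u h N (Finset.Ioc 0 N) (fun l => (aw w * aw w) l / l) (z - t) =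
      ∫ y, AB h w N y * FF u h N (Finset.Ioc 0 N) (fun l => aw w l / l) (z - y) := by
  have hABi : Integrable (AB h w N) := bb_integrable h _ _
  rw [FF_avg_gen hh N _ _ (box_integrable h), FF_avg_gen hh N _ _ hABi]
  congr 1
  · refine Finset.sum_congr rfl fun n hn => ?_
    rw [Finset.mem_Ioc] at hn
    have h1 : 0 ≤ Real.log n := Real.log_nonneg (by exact_mod_cast hn.1)
    rw [box_gg hh (aw w) (aw w) N (x := z - Real.log n)
      (le_trans (Real.exp_le_exp.2 (by linarith)) hz)]
    rfl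
  · congr 1
    ext v
    rcases le_or_gt v (u - 1) with h1 | h1
    · rw [hat_zero_of, zero_mul, zero_mul]
      rw [abs_of_nonneg (by linarith)]
      linarith
    · rw [box_gg hh (aw w) (aw w) N (x := z - v)
        (le_trans (Real.exp_le_exp.2 (by linarith)) hz)]
      rfl

theorem FF_avg {u h : ℝ} (hu : 1 ≤ u) (hh : 0 < h) (hh1 : h ≤ 1) (w N : ℕ)
    (hN : Real.exp (u + 1) ≤ N) {z : ℝ} (hz : Real.exp (z + 2 * h) ≤ N) (hwh : 1 ≤ h * w)
    {M : ℝ} (hM0 : 0 < M)
    (hM : ∀ ξ : ℝ, ‖PS u (2 * π * ξ) - PT u (2 * π * ξ)‖ * ‖𝓕 (boxC h) ξ‖ ≤ M) :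
    |∫ t, box h t * FF u h N (Finset.Ioc 0 N) (fun l => (aw w * aw w) l / l) (z - t)| ≤
      M * (7 * (1 + Real.log N) ^ 4) := by
  rw [FF_avg_eq hu hh w N hz]
  set L := Finset.Ioc 0 N with hL
  set α : ℕ → ℝ := fun l => aw w l / l with hα
  have hNn : 1 ≤ N := by
    have : (0 : ℝ) < N := lt_of_lt_of_le (Real.exp_pos _) hN
    exact_mod_cast this
  have hABm : Measurable (AB h w N) := bb_meas _ _ _
  have hABi : Integrable (AB h w N) := bb_integrable _ _ _
  have hAB2 : Integrable fun y => AB h w N y ^ 2 := by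
    have h1 : Integrable fun y => AB h w N y * AB h w N y := by
      refine hABi.bdd_mul (c := (∑ l ∈ L, |α l|) * (1 / h)) hABm.aestronglyMeasurable
        (Eventually.of_forall fun x => ?_)
      exact bb_bdd hh L α x
    refine h1.congr (Eventually.of_forall fun y => ?_)
    simp only
    ring
  have hFF2 : Integrable fun y => FF u h N L α (z - y) ^ 2 :=
    (FF_sq_integrable hh u N L α).comp_sub_left z
  have hAB3 : ∫ y, AB h w N y ^ 2 ≤ 7 * (1 + Real.log N) ^ 4 := by
    have h1 := bb_sq_le hh hh1 L α (fun l hl => (Finset.mem_Ioc.1 hl).1) (by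
      intro l hl hne
      have h2 : w < l := by
        by_contra h3
        exact hne (by
          simp only [hα]
          rw [aw_zero_of (Finset.mem_Ioc.1 hl).1 (not_lt.1 h3), zero_div])
      have h3 : (w : ℝ) ≤ l := by exact_mod_cast h2.le
      calc (1 : ℝ) ≤ h * w := hwh
        _ ≤ h * l := mul_le_mul_of_nonneg_left h3 hh.le)
    refine h1.trans ?_
    exact mul_le_mul_of_nonneg_left (aw_sum w N hNn) (by norm_num)
  have hFF3 : ∫ y, FF u h N L α (z - y) ^ 2 ≤ M ^ 2 * ∫ y, AB h w N y ^ 2 := by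
    rw [integral_sub_left_eq_self (fun y => FF u h N L α y ^ 2)]
    exact dispersion hu hh N hN L α hM0.le hM
  have hpt : ∀ y, |AB h w N y * FF u h N L α (z - y)| ≤
      M / 2 * AB h w N y ^ 2 + 1 / (2 * M) * FF u h N L α (z - y) ^ 2 := by
    intro y
    set a := AB h w N y
    set b := FF u h N L α (z - y)
    have h1 : 0 ≤ (M * |a| - |b|) ^ 2 := sq_nonneg _
    have h2 : M / 2 * a ^ 2 + 1 / (2 * M) * b ^ 2 - |a * b| = (M * |a| - |b|) ^ 2 / (2 * M) := by
      rw [abs_mul, ← sq_abs a, ← sq_abs b]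
      field_simp
      ring
    have h3 : 0 ≤ (M * |a| - |b|) ^ 2 / (2 * M) := by positivity
    linarith
  have hdom : Integrable fun y => M / 2 * AB h w N y ^ 2 + 1 / (2 * M) * FF u h N L α (z - y) ^ 2 :=
    (hAB2.const_mul _).add (hFF2.const_mul _)
  have hint : Integrable fun y => AB h w N y * FF u h N L α (z - y) := by
    refine hdom.mono' ?_ (Eventually.of_forall fun y => ?_)
    · exact (hABm.mul ((FF_continuous hh u N L α).measurable.comp (by fun_prop))).aestronglyMeasurable
    · rw [Real.norm_eq_abs]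
      exact hpt y
  refine (abs_integral_le_integral_abs).trans ((integral_mono hint.abs hdom hpt).trans ?_)
  rw [integral_add (hAB2.const_mul _) (hFF2.const_mul _), integral_const_mul, integral_const_mul]
  have h0 : 0 ≤ ∫ y, AB h w N y ^ 2 := integral_nonneg fun y => by positivity
  calc (M / 2 * ∫ y, AB h w N y ^ 2) + 1 / (2 * M) * ∫ y, FF u h N L α (z - y) ^ 2 ≤
        (M / 2 * ∫ y, AB h w N y ^ 2) + 1 / (2 * M) * (M ^ 2 * ∫ y, AB h w N y ^ 2) := by
        gcongr
    _ = M * ∫ y, AB h w N y ^ 2 := by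
        field_simp
        ring
    _ ≤ _ := mul_le_mul_of_nonneg_left hAB3 hM0.le

/-- uniform bound of the transform of the discrepancy in the range `u ≥ ε Z` -/
theorem M_bound3 (hPV : Pool.Agent.N176.OW.S_PV) (D : ℕ) {e : ℝ} (he : 0 < e) :
    ∃ K : ℝ, 0 < K ∧ ∀ Z lam h u : ℝ, 20 ≤ Z →
    11 * (Z ^ D * Real.exp (-√Z)) ≤ 1 → √Z ≤ lam → lam ≤ Z → h = Real.exp (-lam) →
    1 ≤ u → e * Z ≤ u → u ≤ Z + 5 → ∀ ξ : ℝ,
    ‖PS u (2 * π * ξ) - PT u (2 * π * ξ)‖ * ‖𝓕 (boxC h) ξ‖ ≤ K * (Z ^ 2 / Z ^ D) := by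
  obtain ⟨C, hC⟩ := hPV ⌈2 / e⌉₊ D
  refine ⟨max C 0 * (1 / e) ^ D + 2, by positivity,
    fun Z lam h u hZ hZD hlam1 hlam2 hh hu1 hu2 hu3 ξ => ?_⟩
  have hZ0 : 0 < Z := by linarith
  have hh0 : 0 < h := by rw [hh]; exact Real.exp_pos _
  have hsq1 : 1 ≤ √Z := by rw [Real.one_le_sqrt]; linarith
  have hlam0 : 1 ≤ lam := hsq1.trans hlam1
  have hZD0 : 0 < Z ^ D := by positivity
  have hZD1 : 1 ≤ Z ^ D := one_le_pow₀ (by linarith)
  rcases le_or_gt |ξ| (Z ^ D / h) with hξ | hξ
  · have e2 : 11 * Z ^ D ≤ Real.exp lam := by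
      have e3 : 11 * Z ^ D ≤ Real.exp (√Z) := by
        rw [Real.exp_neg, ← div_eq_mul_inv, ← mul_div_assoc, div_le_one (Real.exp_pos _)] at hZD
        exact hZD
      exact e3.trans (Real.exp_le_exp.2 hlam1)
    have e4 : |ξ| ≤ Real.exp ((⌈2 / e⌉₊ : ℝ) * u) := by
      have e5 : Z ^ D / h = Z ^ D * Real.exp lam := by
        rw [hh, Real.exp_neg]; field_simp
      rw [e5] at hξ
      calc |ξ| ≤ Z ^ D * Real.exp lam := hξ
        _ ≤ Real.exp lam * Real.exp lam := by
            apply mul_le_mul_of_nonneg_right _ (Real.exp_pos _).le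
            linarith
        _ = Real.exp (2 * lam) := by rw [← Real.exp_add]; congr 1; ring
        _ ≤ _ := by
            apply Real.exp_le_exp.2
            have h1 : 2 / e ≤ (⌈2 / e⌉₊ : ℝ) := Nat.le_ceil _
            calc 2 * lam ≤ 2 * Z := by linarith
              _ = 2 / e * (e * Z) := by field_simp
              _ ≤ ⌈2 / e⌉₊ * u := by
                apply mul_le_mul h1 hu2 (by positivity) (by positivity)
    have h1 := hC u ξ hu1 e4
    have h2 : C / u ^ D ≤ max C 0 * (1 / e) ^ D * (Z ^ 2 / Z ^ D) := by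
      have hu0 : 0 < u := by linarith
      calc C / u ^ D ≤ max C 0 / u ^ D := by
            gcongr
            exact le_max_left _ _
        _ ≤ max C 0 / (e * Z) ^ D := by gcongr
        _ = max C 0 * (1 / e) ^ D * (1 / Z ^ D) := by rw [mul_pow, div_pow, one_pow]; field_simp
        _ ≤ _ := by
            gcongr
            nlinarith
    have h3 := norm_four_box_le_one hh0 ξ
    have h4 : 0 ≤ Z ^ 2 / Z ^ D := by positivity
    calc ‖PS u (2 * π * ξ) - PT u (2 * π * ξ)‖ * ‖𝓕 (boxC h) ξ‖ ≤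
          (max C 0 * (1 / e) ^ D * (Z ^ 2 / Z ^ D)) * 1 := by
          apply mul_le_mul (h1.trans h2) h3 (norm_nonneg _) (by positivity)
      _ = max C 0 * (1 / e) ^ D * (Z ^ 2 / Z ^ D) := by ring
      _ ≤ _ := by
          apply mul_le_mul_of_nonneg_right _ h4
          linarith
  · have hξ0 : ξ ≠ 0 := by
      intro h0
      rw [h0, abs_zero] at hξ
      have : 0 < Z ^ D / h := by positivity
      linarith
    have h1 := norm_four_box_le hh0 hξ0
    have h2 : 1 / (h * |ξ|) ≤ 1 / Z ^ D := by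
      apply one_div_le_one_div_of_le hZD0
      rw [div_lt_iff₀ hh0] at hξ
      linarith
    have h3 := PE_triv hu1 ξ
    have h4 : (u + 1) * (u + 2) + 1 ≤ 2 * Z ^ 2 := by nlinarith
    have h5 : 0 ≤ Z ^ 2 / Z ^ D := by positivity
    calc ‖PS u (2 * π * ξ) - PT u (2 * π * ξ)‖ * ‖𝓕 (boxC h) ξ‖ ≤ (2 * Z ^ 2) * (1 / Z ^ D) := by
          apply mul_le_mul (h3.trans h4) (h1.trans h2) (norm_nonneg _) (by positivity)
      _ = 2 * (Z ^ 2 / Z ^ D) := by ring
      _ ≤ _ := by
          apply mul_le_mul_of_nonneg_right _ h5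
          have : 0 ≤ max C 0 * (1 / e) ^ D := by positivity
          linarith

end Pool.Agent.K9h18.HS
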