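import Pool.Agent.K9h18.HS.BoxD

set_option autoImplicit false

/-!
# The prime number theorem in short intervals, smooth form
-/

open Filter Topology Set MeasureTheory Metric
open scoped Real FourierTransform

namespace Pool.Agent.K9h18.HS

open Pool.Agent.W66

lemma box_mul_cont_int (h : ℝ) {g : ℝ → ℝ} (hg : Continuous g) : Integrable fun t => box h t * g t := by
  rw [box_eq]
  have h1 : (fun t => (Icc (-(h / 2)) (h / 2)).indicator (fun _ => 1 / h) t * g t) =
      (Icc (-(h / 2)) (h / 2)).indicator (fun t => 1 / h * g t) := by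
    ext t
    by_cases ht : t ∈ Icc (-(h / 2)) (h / 2)
    · rw [indicator_of_mem ht, indicator_of_mem ht]
    · rw [indicator_of_notMem ht, indicator_of_notMem ht, zero_mul]
  rw [h1, integrable_indicator_iff measurableSet_Icc]
  exact (continuous_const.mul hg).continuousOn.integrableOn_compact isCompact_Icc

/-- **The prime number theorem in short intervals**, relative length `exp (-lam)`,
`lam ≤ (1/4 - e) Z`, in a smoothed form. -/
theorem box_pnt (hPV : Pool.Agent.N176.OW.S_PV) (A : ℕ) {e : ℝ} (he : 0 < e) (he1 : e ≤ 1 / 4) :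
    ∃ Z0 : ℝ, 20 ≤ Z0 ∧ ∀ Z lam h : ℝ, Z0 ≤ Z → h = Real.exp (-lam) → √Z ≤ lam →
      lam ≤ (1 / 4 - e) * Z → ∀ N : ℕ, Real.exp (Z + 2) ≤ N →
      |(∫ t, box h t * TT h N (Z - t)) - 1| ≤ 1 / Z ^ A := by
  set D := A + 8 with hD
  obtain ⟨K, hK, hM⟩ := M_bound3 hPV D he
  obtain ⟨Cz, hCz, hmz⟩ := m0_bound (2 * D)
  obtain ⟨Cl, hCl, hml⟩ := m1_bound (2 * D)
  set Cd := max Cz Cl with hCd
  have hCd0 : 0 < Cd := lt_of_lt_of_le hCz (le_max_left _ _)
  set K3 : ℝ := 320 * (Cd + 2) + 224 * K with hK3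
  have hlim1 : ∀ᶠ Z : ℝ in atTop, 11 * (Z ^ D * Real.exp (-√Z)) ≤ 1 := by
    have h1 := (Real.tendsto_pow_mul_exp_neg_atTop_nhds_zero (2 * D)).comp Real.tendsto_sqrt_atTop
    have h2 : ∀ᶠ Z : ℝ in atTop, (√Z) ^ (2 * D) * Real.exp (-√Z) < 1 / 11 :=
      h1.eventually_lt_const (by norm_num)
    filter_upwards [h2, eventually_ge_atTop 0] with Z h3 h4
    rw [pow_mul, Real.sq_sqrt h4] at h3
    linarith
  have hlim2 : ∀ᶠ Z : ℝ in atTop, 3000 * (Z ^ D * Real.exp (-(e * Z))) ≤ 1 := by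
    have h0 : Tendsto (fun Z : ℝ => e * Z) atTop atTop := tendsto_id.const_mul_atTop he
    have h1 := (Real.tendsto_pow_mul_exp_neg_atTop_nhds_zero D).comp h0
    have h2 : ∀ᶠ Z : ℝ in atTop, (e * Z) ^ D * Real.exp (-(e * Z)) < e ^ D / 3000 :=
      h1.eventually_lt_const (by positivity)
    filter_upwards [h2] with Z h3
    rw [mul_pow, lt_div_iff₀ (by norm_num)] at h3
    have h4 : 0 < e ^ D := by positivity
    have h5 : e ^ D * (3000 * (Z ^ D * Real.exp (-(e * Z)))) ≤ e ^ D * 1 := by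
      have : e ^ D * (3000 * (Z ^ D * Real.exp (-(e * Z)))) =
        e ^ D * Z ^ D * Real.exp (-(e * Z)) * 3000 := by ring
      linarith
    exact le_of_mul_le_mul_left h5 h4
  have hlim3 : ∀ᶠ Z : ℝ in atTop, Cd + 2 ≤ Z ^ D := by
    have h1 : Tendsto (fun Z : ℝ => Z ^ D) atTop atTop := tendsto_pow_atTop (by omega)
    exact h1.eventually_ge_atTop _
  obtain ⟨Z1, hZ1⟩ := ((hlim1.and hlim2).and hlim3).exists_forall_of_atTop
  refine ⟨max (max Z1 K3) 100, by
    refine le_trans ?_ (le_max_right _ _); norm_num, fun Z lam h hZ hh hlam1 hlam2 N hN => ?_⟩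
  have hZ20 : 100 ≤ Z := (le_max_right _ _).trans hZ
  have hZK : K3 ≤ Z := ((le_max_right _ _).trans (le_max_left _ _)).trans hZ
  obtain ⟨⟨hE1, hE2⟩, hE3⟩ := hZ1 Z (((le_max_left _ _).trans (le_max_left _ _)).trans hZ)
  have hZ0 : 0 < Z := by linarith
  have hZD0 : 0 < Z ^ D := by positivity
  have hh0 : 0 < h := by rw [hh]; exact Real.exp_pos _
  have hsq1 : 1 ≤ √Z := by rw [Real.one_le_sqrt]; linarith
  have hlam0 : 1 ≤ lam := hsq1.trans hlam1
  have hh1 : h ≤ 1 := by rw [hh]; exact Real.exp_le_one_iff.2 (by linarith)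
  have heZ : 0 < e * Z := by positivity
  have heZ1 : e * Z ≤ Z / 4 := by nlinarith
  have hlamZ : lam ≤ Z / 4 - e * Z := by linarith
  -- parameters
  set w := ⌈Real.exp lam⌉₊ with hw
  have hw1 : Real.exp lam ≤ w := Nat.le_ceil _
  have hw2 : (w : ℝ) ≤ 2 * Real.exp lam := by
    have h1 : (w : ℝ) < Real.exp lam + 1 := Nat.ceil_lt_add_one (Real.exp_pos _).le
    have h2 : 1 ≤ Real.exp lam := Real.one_le_exp (by linarith)
    linarith
  have hw0 : (0 : ℝ) < w := lt_of_lt_of_le (Real.exp_pos _) hw1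
  have hwn : 2 ≤ w := by
    have h2 : (2 : ℝ) ≤ w := by
      refine le_trans ?_ hw1
      have := Real.add_one_le_exp lam
      linarith
    exact_mod_cast h2
  have hlw1 : lam ≤ Real.log w := by rw [Real.le_log_iff_exp_le hw0]; exact hw1
  have hlw2 : Real.log w ≤ lam + 1 := by
    rw [Real.log_le_iff_le_exp hw0, Real.exp_add]
    have h1 : (2 : ℝ) ≤ Real.exp 1 := by linarith [Real.exp_one_gt_d9]
    have h2 := mul_le_mul_of_nonneg_left h1 (Real.exp_pos lam).le
    linarith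
  have hwh : 1 ≤ h * w := by
    calc (1 : ℝ) = h * Real.exp lam := by rw [hh, ← Real.exp_add, neg_add_cancel, Real.exp_zero]
      _ ≤ h * w := mul_le_mul_of_nonneg_left hw1 hh0.le
  set u0 := ⌈e * Z⌉₊ with hu0
  have hu0a : e * Z ≤ u0 := Nat.le_ceil _
  have hu0b : (u0 : ℝ) ≤ e * Z + 1 := (Nat.ceil_lt_add_one heZ.le).le
  have hu01 : 1 ≤ u0 := Nat.ceil_pos.2 heZ
  set U := ⌈Z + 3⌉₊ with hU
  have hU1 : Z + 3 ≤ U := Nat.le_ceil _
  have hU2 : (U : ℝ) ≤ Z + 4 := by
    have := Nat.ceil_lt_add_one (show 0 ≤ Z + 3 by linarith)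
    linarith
  have hu0U : u0 ≤ U := by
    have : (u0 : ℝ) ≤ U := by linarith
    exact_mod_cast this
  set N' := ⌈Real.exp ((U : ℝ) + 1)⌉₊ with hN'
  have hN'1 : Real.exp ((U : ℝ) + 1) ≤ N' := Nat.le_ceil _
  have hN'0 : (0 : ℝ) < N' := lt_of_lt_of_le (Real.exp_pos _) hN'1
  have hN'n : 1 ≤ N' := by exact_mod_cast (Nat.ceil_pos.2 (Real.exp_pos _))
  have hN'3 : (0 : ℝ) ≤ Real.log N' := Real.log_nonneg (by exact_mod_cast hN'n)
  have hN'2 : Real.log N' ≤ Z + 6 := by
    rw [Real.log_le_iff_le_exp hN'0]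
    have h1 : (N' : ℝ) < Real.exp ((U : ℝ) + 1) + 1 := Nat.ceil_lt_add_one (Real.exp_pos _).le
    have h2 : Real.exp ((U : ℝ) + 1) ≤ Real.exp (Z + 5) := Real.exp_le_exp.2 (by linarith)
    have h3 : Real.exp (Z + 6) = Real.exp (Z + 5) * Real.exp 1 := by
      rw [← Real.exp_add]; congr 1; ring
    have h4 : 1 ≤ Real.exp (Z + 5) := Real.one_le_exp (by linarith)
    have h5 : (2 : ℝ) ≤ Real.exp 1 := by linarith [Real.exp_one_gt_d9]
    have h6 := mul_le_mul_of_nonneg_left h5 (Real.exp_pos (Z + 5)).le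
    rw [h3]
    linarith
  -- smallness of the Moebius sums
  set δ := Cd / Z ^ D with hδ
  have hpowD : Z ^ D ≤ Real.log w ^ (2 * D) := by
    rw [pow_mul]
    have h1 : Z ≤ Real.log w ^ 2 := by
      have h2 : √Z ≤ Real.log w := hlam1.trans hlw1
      calc Z = √Z ^ 2 := (Real.sq_sqrt hZ0.le).symm
        _ ≤ _ := by gcongr
    gcongr
  have hδ1 : |mz w| ≤ δ := by
    refine (hmz w hwn).trans ?_
    have : Cz ≤ Cd := le_max_left _ _
    rw [hδ]
    gcongr
  have hδ2 : |ml w + 1| ≤ δ := by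
    refine (hml w hwn).trans ?_
    have : Cl ≤ Cd := le_max_right _ _
    rw [hδ]
    gcongr
  have hhD : h ≤ 1 / Z ^ D := by
    rw [hh, le_div_iff₀ hZD0]
    have h1 : Real.exp (-lam) ≤ Real.exp (-√Z) := Real.exp_le_exp.2 (by linarith)
    have h2 : Real.exp (-lam) * Z ^ D ≤ Real.exp (-√Z) * Z ^ D :=
      mul_le_mul_of_nonneg_right h1 hZD0.le
    have h3 : 0 ≤ Z ^ D * Real.exp (-√Z) := by positivity
    linarith
  set s := (Z - u0) / 2 - 4 with hs
  have hεD : w * (16 * Real.exp (-s) / h) ≤ 1 / Z ^ D := by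
    rw [le_div_iff₀ hZD0]
    have h1 : w * (16 * Real.exp (-s) / h) ≤ 3000 * Real.exp (-(e * Z)) := by
      have e1 : w * (16 * Real.exp (-s) / h) = w * 16 * Real.exp (-s) * Real.exp lam := by
        rw [hh, div_eq_mul_inv, ← Real.exp_neg, neg_neg]
        ring
      rw [e1]
      calc w * 16 * Real.exp (-s) * Real.exp lam ≤
            (2 * Real.exp lam) * 16 * Real.exp (-s) * Real.exp lam := by gcongr
        _ = 32 * (Real.exp lam * Real.exp (-s) * Real.exp lam) := by ring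
        _ = 32 * Real.exp (2 * lam - s) := by
            rw [← Real.exp_add, ← Real.exp_add]
            congr 2
            ring
        _ ≤ 32 * Real.exp (-(e * Z) + 4.5) := by
            apply mul_le_mul_of_nonneg_left (Real.exp_le_exp.2 _) (by norm_num)
            rw [hs]
            linarith
        _ = 32 * Real.exp 4.5 * Real.exp (-(e * Z)) := by rw [Real.exp_add]; ring
        _ ≤ 3000 * Real.exp (-(e * Z)) := by
            have h2 : Real.exp 4.5 ≤ 93 := by
              have h3 : Real.exp 4.5 ^ 2 = Real.exp 1 ^ 9 := by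
                rw [← Real.exp_nat_mul, ← Real.exp_nat_mul]
                norm_num
              have h4 : Real.exp 1 ^ 9 ≤ 2.7182818286 ^ 9 :=
                pow_le_pow_left₀ (Real.exp_pos 1).le Real.exp_one_lt_d9.le 9
              have h5 : (2.7182818286 : ℝ) ^ 9 ≤ 93 ^ 2 := by norm_num
              exact le_of_sq_le_sq (by rw [h3]; linarith) (by norm_num)
            gcongr
            linarith
    calc w * (16 * Real.exp (-s) / h) * Z ^ D ≤ 3000 * Real.exp (-(e * Z)) * Z ^ D := by gcongr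
      _ = 3000 * (Z ^ D * Real.exp (-(e * Z))) := by ring
      _ ≤ 1 := hE2
  set κ := (Cd + 2) / Z ^ D with hκ
  have hκ1 : δ + h + w * (16 * Real.exp (-s) / h) ≤ κ := by
    have e1 : κ = δ + 1 / Z ^ D + 1 / Z ^ D := by rw [hκ, hδ]; ring
    rw [e1]
    linarith
  have hκ2 : κ ≤ 1 := by
    rw [hκ, div_le_one hZD0]
    exact hE3
  -- the pointwise part
  set c : ℕ → ℝ := fun l => (aw w * aw w) l / l with hc
  set F := fun z : ℝ => ∑ u ∈ Finset.Icc u0 U, FF u h N' (Finset.Ioc 0 N') c z with hF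
  have hFc : Continuous F := by
    apply continuous_finsetSum
    intro u _
    exact FF_continuous hh0 u N' _ _
  have hpt : ∀ t, |t| ≤ h / 2 → |TT h N' (Z - t) - 1 - F (Z - t)| ≤ 20 * ((2 * Z) ^ 4 * κ) := by
    intro t ht
    rw [abs_le] at ht
    exact PI_ineq hh0 hh1 w N' u0 U (by omega) hu0U (by linarith) hN'1 (s := s) (by
      rw [hs]
      linarith) (by rw [hs]; linarith) hδ1 hδ2 hκ1 hκ2 (by linarith)
  -- the mean
  have hTN : ∫ t, box h t * TT h N (Z - t) = ∫ t, box h t * TT h N' (Z - t) := by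
    congr 1
    ext t
    rcases le_or_gt |t| (h / 2) with h1 | h1
    · rw [abs_le] at h1
      rw [TT_indep hh0 (N := N') (N' := N) (le_trans (Real.exp_le_exp.2 (by linarith)) hN'1)
        (le_trans (Real.exp_le_exp.2 (by linarith)) hN)]
    · rw [box_zero_of h1, zero_mul, zero_mul]
  rw [hTN]
  have i1 : Integrable fun t => box h t * TT h N' (Z - t) :=
    box_mul_cont_int h ((TT_continuous h N').comp (by fun_prop))
  have i2 : Integrable fun t => box h t * F (Z - t) := box_mul_cont_int h (hFc.comp (by fun_prop))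
  have i3 : Integrable fun t => box h t * (TT h N' (Z - t) - 1 - F (Z - t)) :=
    box_mul_cont_int h ((((TT_continuous h N').comp (by fun_prop)).sub continuous_const).sub
      (hFc.comp (by fun_prop)))
  have e1 : (∫ t, box h t * TT h N' (Z - t)) - 1 =
      (∫ t, box h t * (TT h N' (Z - t) - 1 - F (Z - t))) + ∫ t, box h t * F (Z - t) := by
    have e2 : ∀ t, box h t * (TT h N' (Z - t) - 1 - F (Z - t)) =
        box h t * TT h N' (Z - t) - box h t - box h t * F (Z - t) := fun t => by ring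
    simp only [e2]
    have i4 : Integrable fun t => box h t * TT h N' (Z - t) - box h t :=
      i1.sub (box_integrable h)
    rw [integral_sub i4 i2, integral_sub i1 (box_integrable h), integral_box hh0]
    ring
  rw [e1]
  have b1 : |∫ t, box h t * (TT h N' (Z - t) - 1 - F (Z - t))| ≤ 20 * ((2 * Z) ^ 4 * κ) := by
    refine (abs_integral_le_integral_abs).trans ?_
    have h1 : ∀ t, |box h t * (TT h N' (Z - t) - 1 - F (Z - t))| ≤
        20 * ((2 * Z) ^ 4 * κ) * box h t := by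
      intro t
      rw [abs_mul, abs_of_nonneg (box_nonneg hh0 t)]
      rcases le_or_gt |t| (h / 2) with h2 | h2
      · rw [mul_comm]
        exact mul_le_mul_of_nonneg_right (hpt t h2) (box_nonneg hh0 t)
      · rw [box_zero_of h2, zero_mul, mul_zero]
    refine (integral_mono i3.abs ((box_integrable h).const_mul _) h1).trans ?_
    rw [integral_const_mul, integral_box hh0, mul_one]
  have b2 : |∫ t, box h t * F (Z - t)| ≤ 2 * Z * (K * (Z ^ 2 / Z ^ D) * (7 * (2 * Z) ^ 4)) := by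
    have e2 : ∫ t, box h t * F (Z - t) = ∑ u ∈ Finset.Icc u0 U,
        ∫ t, box h t * FF u h N' (Finset.Ioc 0 N') c (Z - t) := by
      have i5 : ∀ u : ℕ, Integrable fun t => box h t * FF u h N' (Finset.Ioc 0 N') c (Z - t) :=
        fun u => box_mul_cont_int h ((FF_continuous hh0 u N' _ _).comp (by fun_prop))
      rw [← integral_finsetSum _ fun (u : ℕ) _ => i5 u]
      congr 1
      ext t
      rw [hF, Finset.mul_sum]
    rw [e2]
    refine (Finset.abs_sum_le_sum_abs _ _).trans ?_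
    have h1 : ∀ u ∈ Finset.Icc u0 U,
        |∫ t, box h t * FF u h N' (Finset.Ioc 0 N') c (Z - t)| ≤
        K * (Z ^ 2 / Z ^ D) * (7 * (2 * Z) ^ 4) := by
      intro u hu
      rw [Finset.mem_Icc] at hu
      have hu1 : (u0 : ℝ) ≤ u := by exact_mod_cast hu.1
      have hu2 : (u : ℝ) ≤ U := by exact_mod_cast hu.2
      have hu3 : (1 : ℝ) ≤ u := by exact_mod_cast hu01.trans hu.1
      have hM0 : 0 < K * (Z ^ 2 / Z ^ D) := by positivity
      have h2 := FF_avg (u := (u : ℝ)) hu3 hh0 hh1 w N' (le_trans (Real.exp_le_exp.2 (by linarith))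
        hN'1) (z := Z) (le_trans (Real.exp_le_exp.2 (by linarith)) hN'1) hwh hM0
        (hM Z lam h u (by linarith) hE1 hlam1 (by linarith) hh hu3 (hu0a.trans hu1) (by linarith))
      refine h2.trans ?_
      apply mul_le_mul_of_nonneg_left _ hM0.le
      have h3 : (1 + Real.log N') ^ 4 ≤ (2 * Z) ^ 4 :=
        pow_le_pow_left₀ (by linarith) (by linarith) 4
      linarith
    refine (Finset.sum_le_sum h1).trans ?_
    rw [Finset.sum_const, nsmul_eq_mul, Nat.card_Icc]
    apply mul_le_mul_of_nonneg_right _ (by positivity)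
    have h2 : ((U + 1 - u0 : ℕ) : ℝ) ≤ U + 1 := by
      have : U + 1 - u0 ≤ U + 1 := Nat.sub_le _ _
      exact_mod_cast this
    linarith
  refine (abs_add_le _ _).trans ((add_le_add b1 b2).trans ?_)
  have hZZ : Z ^ 4 / Z ^ D ≤ Z ^ 7 / Z ^ D := by
    apply div_le_div_of_nonneg_right _ hZD0.le
    exact pow_le_pow_right₀ (by linarith) (by norm_num)
  have e3 : 20 * ((2 * Z) ^ 4 * κ) = 320 * (Cd + 2) * (Z ^ 4 / Z ^ D) := by rw [hκ]; ring
  have e4 : 2 * Z * (K * (Z ^ 2 / Z ^ D) * (7 * (2 * Z) ^ 4)) = 224 * K * (Z ^ 7 / Z ^ D) := by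
    ring
  rw [e3, e4]
  have h5 : 320 * (Cd + 2) * (Z ^ 4 / Z ^ D) ≤ 320 * (Cd + 2) * (Z ^ 7 / Z ^ D) :=
    mul_le_mul_of_nonneg_left hZZ (by positivity)
  have e5 : Z ^ 7 / Z ^ D = 1 / Z ^ (A + 1) := by
    rw [hD, div_eq_div_iff (by positivity) (by positivity)]
    ring
  calc 320 * (Cd + 2) * (Z ^ 4 / Z ^ D) + 224 * K * (Z ^ 7 / Z ^ D) ≤
        K3 * (Z ^ 7 / Z ^ D) := by rw [hK3]; linarith
    _ ≤ Z * (Z ^ 7 / Z ^ D) := mul_le_mul_of_nonneg_right hZK (by positivity)
    _ = 1 / Z ^ A := by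
        rw [e5, pow_succ]
        field_simp

end Pool.Agent.K9h18.HS
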