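import Pool.Agent.K9h18.HS.BoxE

set_option autoImplicit false

/-!
# The prime number theorem in short intervals, sharp cutoff
-/

open Filter Topology Set MeasureTheory Metric
open scoped Real FourierTransform Convolution

namespace Pool.Agent.K9h18.HS

open Pool.Agent.W66

/-- box convolved with tri -/
noncomputable def K3 (h x : ℝ) : ℝ := ∫ t, box h t * tri h (x - t)

lemma K3_nonneg {h : ℝ} (hh : 0 < h) (x : ℝ) : 0 ≤ K3 h x :=
  integral_nonneg fun _ => mul_nonneg (box_nonneg hh _) (tri_nonneg hh _)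

lemma K3_eq (h : ℝ) : K3 h = (box h) ⋆[ContinuousLinearMap.mul ℝ ℝ] (tri h) := by
  ext x
  rw [MeasureTheory.convolution_def]
  rfl

lemma K3_integrable {h : ℝ} (hh : 0 < h) : Integrable (K3 h) := by
  rw [K3_eq]
  exact (box_integrable h).integrable_convolution _ (tri_integrable hh)

lemma K3_integral {h : ℝ} (hh : 0 < h) : ∫ x, K3 h x = 1 := by
  rw [K3_eq, integral_convolution _ (box_integrable h) (tri_integrable hh), integral_box hh,
    integral_tri hh]
  simp

lemma K3_zero {h x : ℝ} (hh : 0 < h) (hx : 2 * h ≤ |x|) : K3 h x = 0 := by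
  unfold K3
  have : ∀ t, box h t * tri h (x - t) = 0 := by
    intro t
    rcases le_or_gt |t| (h / 2) with h1 | h1
    · rw [tri_zero_of hh, mul_zero]
      have := abs_sub_abs_le_abs_sub x t
      linarith
    · rw [box_zero_of h1, zero_mul]
  simp only [this, integral_zero]

/-- the averaged sum -/
noncomputable def TB (h : ℝ) (N : ℕ) (z : ℝ) : ℝ := ∫ t, box h t * TT h N (z - t)

lemma TB_eq {h : ℝ} (N : ℕ) (z : ℝ) : TB h N z =
    ∑ n ∈ Finset.Ioc 0 N, ArithmeticFunction.vonMangoldt n / n * K3 h (z - Real.log n) := by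
  unfold TB TT K3
  have hi : ∀ n : ℕ, Integrable fun t => box h t * tri h (z - Real.log n - t) := fun n =>
    box_mul_cont_int h ((tri_continuous h).comp (by fun_prop))
  have e : ∀ t, box h t * ∑ n ∈ Finset.Ioc 0 N, ArithmeticFunction.vonMangoldt n / n *
      tri h (z - t - Real.log n) = ∑ n ∈ Finset.Ioc 0 N, ArithmeticFunction.vonMangoldt n / n *
      (box h t * tri h (z - Real.log n - t)) := by
    intro t
    rw [Finset.mul_sum]
    refine Finset.sum_congr rfl fun n _ => ?_
    rw [show z - t - Real.log n = z - Real.log n - t by ring]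
    ring
  simp only [e]
  rw [integral_finsetSum _ fun (n : ℕ) _ => (hi n).const_mul _]
  refine Finset.sum_congr rfl fun n _ => ?_
  rw [integral_const_mul]

lemma K3_shift_int {h : ℝ} (hh : 0 < h) (a : ℝ) : Integrable fun z => K3 h (z - a) :=
  (K3_integrable hh).comp_sub_right a

lemma K3_le_one {h : ℝ} (hh : 0 < h) (a c d : ℝ) (hcd : c ≤ d) :
    ∫ z in c..d, K3 h (z - a) ≤ 1 := by
  rw [intervalIntegral.integral_of_le hcd]
  have h1 : ∫ z in Set.Ioc c d, K3 h (z - a) ≤ ∫ z, K3 h (z - a) :=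
    setIntegral_le_integral (K3_shift_int hh a) (Eventually.of_forall fun z => K3_nonneg hh _)
  have h2 : ∫ z, K3 h (z - a) = 1 := by
    rw [integral_sub_right_eq_self (fun z => K3 h z) a, K3_integral hh]
  rw [h2] at h1
  exact h1

lemma K3_eq_one {h : ℝ} (hh : 0 < h) {a c d : ℝ} (h1 : c + 2 * h ≤ a) (h2 : a + 2 * h ≤ d) :
    ∫ z in c..d, K3 h (z - a) = 1 := by
  rw [intervalIntegral.integral_of_le (by linarith), ← K3_integral hh,
    ← integral_sub_right_eq_self (fun z => K3 h z) a]
  apply setIntegral_eq_integral_of_forall_compl_eq_zero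
  intro z hz
  apply K3_zero hh
  rw [Set.mem_Ioc, not_and_or] at hz
  rcases hz with h3 | h3
  · rw [abs_of_nonpos (by linarith)]
    linarith
  · rw [abs_of_nonneg (by linarith)]
    linarith

/-- the sum between two sharp cutoffs -/
lemma sandwich {h a b ε : ℝ} (hh : 0 < h) (hab : a ≤ b) (N : ℕ) (hN : Real.exp b ≤ N)
    (hε1 : ε ≤ 1) (hT : ∀ z, a - 2 * h ≤ z → z ≤ b + 2 * h → |TB h N z - 1| ≤ ε) :
    |∑ n ∈ Finset.Ioc ⌊Real.exp a⌋₊ ⌊Real.exp b⌋₊, ArithmeticFunction.vonMangoldt n / n -
      (b - a)| ≤ ε * (b - a) + 8 * h := by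
  have hε0 : 0 ≤ ε := (abs_nonneg _).trans (hT a (by linarith) (by linarith))
  set I := Finset.Ioc ⌊Real.exp a⌋₊ ⌊Real.exp b⌋₊ with hI
  have hIN : I ⊆ Finset.Ioc 0 N := by
    apply Finset.Ioc_subset_Ioc (Nat.zero_le _)
    have h1 : ((⌊Real.exp b⌋₊ : ℕ) : ℝ) ≤ N := (Nat.floor_le (Real.exp_pos _).le).trans hN
    exact_mod_cast h1
  have hmem : ∀ n ∈ Finset.Ioc 0 N, (n ∈ I ↔ a < Real.log n ∧ Real.log n ≤ b) := by
    intro n hn
    rw [Finset.mem_Ioc] at hn
    have hn0 : (0 : ℝ) < n := by exact_mod_cast hn.1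
    rw [hI, Finset.mem_Ioc, Nat.floor_lt (Real.exp_pos _).le, Nat.le_floor_iff (Real.exp_pos _).le,
      Real.lt_log_iff_exp_lt hn0, Real.log_le_iff_le_exp hn0]
  have hLa : ∀ n : ℕ, 0 ≤ ArithmeticFunction.vonMangoldt n / (n : ℝ) := fun n =>
    div_nonneg ArithmeticFunction.vonMangoldt_nonneg (by positivity)
  have hii : ∀ (n : ℕ) (c d : ℝ), IntervalIntegrable (fun z => K3 h (z - Real.log n)) volume c d :=
    fun n c d => (K3_shift_int hh _).intervalIntegrable
  have hTBint : ∀ c d : ℝ, ∫ z in c..d, TB h N z = ∑ n ∈ Finset.Ioc 0 N,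
      ArithmeticFunction.vonMangoldt n / n * ∫ z in c..d, K3 h (z - Real.log n) := by
    intro c d
    simp only [TB_eq]
    rw [intervalIntegral.integral_finsetSum fun n _ => (hii n c d).const_mul _]
    refine Finset.sum_congr rfl fun n _ => ?_
    rw [intervalIntegral.integral_const_mul]
  have hTBii : ∀ c d : ℝ, IntervalIntegrable (TB h N) volume c d := by
    intro c d
    have : TB h N = fun z => ∑ n ∈ Finset.Ioc 0 N,
        ArithmeticFunction.vonMangoldt n / n * K3 h (z - Real.log n) := by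
      ext z
      exact TB_eq N z
    rw [this]
    exact (integrable_finsetSum _ fun n _ => (K3_shift_int hh _).const_mul _).intervalIntegrable
  set W := ∑ n ∈ I, ArithmeticFunction.vonMangoldt n / (n : ℝ) with hW
  have hW0 : 0 ≤ W := Finset.sum_nonneg fun n _ => hLa n
  -- upper bound
  have up : W ≤ (b - a + 4 * h) * (1 + ε) := by
    have h1 : W ≤ ∫ z in (a - 2 * h)..(b + 2 * h), TB h N z := by
      rw [hTBint]
      calc W = ∑ n ∈ I, ArithmeticFunction.vonMangoldt n / n *
            ∫ z in (a - 2 * h)..(b + 2 * h), K3 h (z - Real.log n) := by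
            refine Finset.sum_congr rfl fun n hn => ?_
            have h2 := (hmem n (hIN hn)).1 hn
            rw [K3_eq_one hh (by linarith) (by linarith), mul_one]
        _ ≤ _ := by
            apply Finset.sum_le_sum_of_subset_of_nonneg hIN
            intro n _ _
            apply mul_nonneg (hLa n)
            apply intervalIntegral.integral_nonneg (by linarith)
            intro z _
            exact K3_nonneg hh _
    refine h1.trans ?_
    have h2 : ∫ z in (a - 2 * h)..(b + 2 * h), TB h N z ≤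
        ∫ _z in (a - 2 * h)..(b + 2 * h), (1 + ε) := by
      apply intervalIntegral.integral_mono_on (by linarith) (hTBii _ _) (by simp)
      intro z hz
      have := (abs_le.1 (hT z hz.1 hz.2)).2
      linarith
    refine h2.trans (le_of_eq ?_)
    rw [intervalIntegral.integral_const, smul_eq_mul]
    ring
  -- lower bound
  have low : (b - a - 4 * h) * (1 - ε) ≤ W := by
    rcases le_or_gt (b - 2 * h) (a + 2 * h) with h0 | h0
    · have : (b - a - 4 * h) * (1 - ε) ≤ 0 :=
        mul_nonpos_of_nonpos_of_nonneg (by linarith) (by linarith)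
      linarith
    · have h1 : ∫ z in (a + 2 * h)..(b - 2 * h), TB h N z ≤ W := by
        rw [hTBint, hW, ← Finset.sum_subset hIN (f := fun n : ℕ =>
          ArithmeticFunction.vonMangoldt n / (n : ℝ) *
            ∫ z in (a + 2 * h)..(b - 2 * h), K3 h (z - Real.log n))]
        · refine Finset.sum_le_sum fun n _ => ?_
          calc _ ≤ ArithmeticFunction.vonMangoldt n / (n : ℝ) * 1 :=
                mul_le_mul_of_nonneg_left (K3_le_one hh _ _ _ h0.le) (hLa n)
            _ = _ := mul_one _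
        · intro n hn hnI
          have h2 : ¬ (a < Real.log n ∧ Real.log n ≤ b) := fun h => hnI ((hmem n hn).2 h)
          have h3 : ∫ z in (a + 2 * h)..(b - 2 * h), K3 h (z - Real.log n) = 0 := by
            rw [intervalIntegral.integral_of_le h0.le]
            apply setIntegral_eq_zero_of_forall_eq_zero
            intro z hz
            rw [Set.mem_Ioc] at hz
            apply K3_zero hh
            rw [not_and_or] at h2
            rcases h2 with h3 | h3
            · rw [abs_of_nonneg (by linarith)]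
              linarith
            · rw [abs_of_nonpos (by linarith)]
              linarith
          rw [h3, mul_zero]
      refine le_trans ?_ h1
      have h2 : ∫ _z in (a + 2 * h)..(b - 2 * h), (1 - ε) ≤
          ∫ z in (a + 2 * h)..(b - 2 * h), TB h N z := by
        apply intervalIntegral.integral_mono_on h0.le (by simp) (hTBii _ _)
        intro z hz
        have := (abs_le.1 (hT z (by linarith [hz.1]) (by linarith [hz.2]))).1
        linarith
      refine le_trans (le_of_eq ?_) h2
      rw [intervalIntegral.integral_const, smul_eq_mul]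
      ring
  rw [abs_le]
  have h5 : h * ε ≤ h * 1 := mul_le_mul_of_nonneg_left hε1 hh.le
  constructor
  · have e1 : (b - a - 4 * h) * (1 - ε) = (b - a) - ε * (b - a) - 4 * h + 4 * (h * ε) := by ring
    have h6 : 0 ≤ h * ε := by positivity
    linarith
  · have e1 : (b - a + 4 * h) * (1 + ε) = (b - a) + ε * (b - a) + 4 * h + 4 * (h * ε) := by ring
    linarith

/-- **The prime number theorem in short intervals**: intervals around `X` of length
`≥ X ^ (3 / 4 + e)`, error term `1 / (log X) ^ A`. -/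
theorem short_La (hPV : Pool.Agent.N176.OW.S_PV) (A : ℕ) {e : ℝ} (he : 0 < e) (he1 : e < 1 / 4) :
    ∃ Z0 : ℝ, 20 ≤ Z0 ∧ ∀ a b : ℝ, Z0 ≤ a → a ≤ b → b ≤ a + 1 →
      Real.exp (-((1 / 4 - e) * a)) ≤ b - a →
      |∑ n ∈ Finset.Ioc ⌊Real.exp a⌋₊ ⌊Real.exp b⌋₊, ArithmeticFunction.vonMangoldt n / n -
        (b - a)| ≤ (b - a) / a ^ A := by
  obtain ⟨Z1, hZ1, hbp⟩ := box_pnt hPV (A + 1) (e := e / 2) (by linarith) (by linarith)
  have hlim : ∀ᶠ a : ℝ in atTop, 48 * (a ^ A * Real.exp (-(e / 2 * a))) ≤ 1 := by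
    have h0 : Tendsto (fun a : ℝ => e / 2 * a) atTop atTop :=
      tendsto_id.const_mul_atTop (by linarith)
    have h1 := (Real.tendsto_pow_mul_exp_neg_atTop_nhds_zero A).comp h0
    have h2 : ∀ᶠ a : ℝ in atTop, (e / 2 * a) ^ A * Real.exp (-(e / 2 * a)) < (e / 2) ^ A / 48 :=
      h1.eventually_lt_const (by positivity)
    filter_upwards [h2] with a h3
    rw [mul_pow, lt_div_iff₀ (by norm_num)] at h3
    have h4 : 0 < (e / 2) ^ A := by positivity
    have h5 : (e / 2) ^ A * (48 * (a ^ A * Real.exp (-(e / 2 * a)))) ≤ (e / 2) ^ A * 1 := by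
      have : (e / 2) ^ A * (48 * (a ^ A * Real.exp (-(e / 2 * a)))) =
        (e / 2) ^ A * a ^ A * Real.exp (-(e / 2 * a)) * 48 := by ring
      linarith
    exact le_of_mul_le_mul_left h5 h4
  have hlim3 : ∀ᶠ a : ℝ in atTop, √(a + 3) ≤ (1 / 4 - e / 2) * (a - 3) := by
    have h1 : Tendsto (fun a : ℝ => (1 / 4 - e / 2) ^ 2 * a) atTop atTop :=
      tendsto_id.const_mul_atTop (pow_pos (by linarith) 2)
    filter_upwards [h1.eventually_ge_atTop 16, eventually_ge_atTop 9] with a h2 h3
    have hc : 0 < 1 / 4 - e / 2 := by linarith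
    rw [Real.sqrt_le_left (mul_nonneg hc.le (by linarith))]
    rw [mul_pow]
    have h4 : (a - 3) ^ 2 ≥ a * a / 4 := by nlinarith
    have h5 : (1 / 4 - e / 2) ^ 2 * (a - 3) ^ 2 ≥ (1 / 4 - e / 2) ^ 2 * (a * a / 4) :=
      mul_le_mul_of_nonneg_left h4 (by positivity)
    have h6 : (1 / 4 - e / 2) ^ 2 * (a * a / 4) = (1 / 4 - e / 2) ^ 2 * a * (a / 4) := by ring
    have h7 : 16 * (a / 4) ≤ (1 / 4 - e / 2) ^ 2 * a * (a / 4) :=
      mul_le_mul_of_nonneg_right h2 (by linarith)
    linarith
  obtain ⟨Z2, hZ2⟩ := (hlim.and hlim3).exists_forall_of_atTop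
  have hlim4 : ∀ᶠ a : ℝ in atTop, a ^ A ≤ (1 / 2) * (a - 3) ^ (A + 1) := by
    filter_upwards [eventually_ge_atTop (2 ^ (A + 2) : ℝ), eventually_ge_atTop 6] with a h1 h2
    have h3 : a / 2 ≤ a - 3 := by linarith
    have h4 : (a / 2) ^ (A + 1) ≤ (a - 3) ^ (A + 1) := pow_le_pow_left₀ (by linarith) h3 _
    have h5 : (a / 2) ^ (A + 1) = a ^ A * (a / 2 ^ (A + 1)) := by
      rw [div_pow, pow_succ]
      ring
    have h6 : 2 ≤ a / 2 ^ (A + 1) := by
      rw [le_div_iff₀ (by positivity)]
      calc (2 : ℝ) * 2 ^ (A + 1) = 2 ^ (A + 2) := by ring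
        _ ≤ a := h1
    have h7 : 0 ≤ a ^ A := by positivity
    have h8 : a ^ A * 2 ≤ a ^ A * (a / 2 ^ (A + 1)) := mul_le_mul_of_nonneg_left h6 h7
    linarith
  obtain ⟨Z3, hZ3⟩ := hlim4.exists_forall_of_atTop
  refine ⟨max (max Z1 Z2) (max Z3 20) + 3, by
    have := le_max_right (max Z1 Z2) (max Z3 20)
    have := le_max_right Z3 20
    linarith, fun a b ha hab hb hlen => ?_⟩
  have ha1 : Z1 + 3 ≤ a := by
    have := (le_max_left Z1 Z2).trans (le_max_left (max Z1 Z2) (max Z3 20))
    linarith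
  have ha2 : Z2 ≤ a := by
    have := (le_max_right Z1 Z2).trans (le_max_left (max Z1 Z2) (max Z3 20))
    linarith
  have ha3 : Z3 ≤ a := by
    have := (le_max_left Z3 20).trans (le_max_right (max Z1 Z2) (max Z3 20))
    linarith
  have ha4 : 23 ≤ a := by
    have := (le_max_right Z3 20).trans (le_max_right (max Z1 Z2) (max Z3 20))
    linarith
  obtain ⟨hE1, hE2⟩ := hZ2 a ha2
  have hE3 := hZ3 a ha3
  have ha0 : 0 < a := by linarith
  set lam := (1 / 4 - e / 2) * (a - 3) with hlam
  set h := Real.exp (-lam) with hh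
  have hh0 : 0 < h := Real.exp_pos _
  have hlam0 : 0 ≤ lam := mul_nonneg (by linarith) (by linarith)
  have hh1 : h ≤ 1 := Real.exp_le_one_iff.2 (by linarith)
  set N := ⌈Real.exp (a + 6)⌉₊ with hN
  have hNe : Real.exp (a + 6) ≤ N := Nat.le_ceil _
  have hpow : 0 < a ^ A := by positivity
  have hT : ∀ z, a - 2 * h ≤ z → z ≤ b + 2 * h → |TB h N z - 1| ≤ 1 / 2 / a ^ A := by
    intro z hz1 hz2
    have hz3 : a - 3 ≤ z := by linarith
    have hz4 : z ≤ a + 3 := by linarith
    have h1 := hbp z lam h (by linarith) rfl ((Real.sqrt_le_sqrt hz4).trans hE2) (by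
      rw [hlam]
      exact mul_le_mul_of_nonneg_left hz3 (by linarith)) N
      (le_trans (Real.exp_le_exp.2 (by linarith)) hNe)
    refine h1.trans ?_
    have h2 : (a - 3) ^ (A + 1) ≤ z ^ (A + 1) := pow_le_pow_left₀ (by linarith) hz3 _
    rw [div_div, div_le_div_iff₀ (pow_pos (by linarith) _) (by positivity)]
    linarith
  have hs := sandwich hh0 hab N (le_trans (Real.exp_le_exp.2 (by linarith)) hNe) (by
    rw [div_div, div_le_one (by positivity)]
    have : 1 ≤ a ^ A := one_le_pow₀ (by linarith)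
    linarith) hT
  refine hs.trans ?_
  have hba : 0 < b - a := lt_of_lt_of_le (Real.exp_pos _) hlen
  have h3 : 8 * h ≤ 1 / 2 / a ^ A * (b - a) := by
    have h4 : h ≤ 3 * Real.exp (-(e / 2 * a)) * (b - a) := by
      calc h = Real.exp (3 * (1 / 4 - e / 2)) * (Real.exp (-(e / 2 * a)) *
            Real.exp (-((1 / 4 - e) * a))) := by
            rw [hh, hlam, ← Real.exp_add, ← Real.exp_add]
            congr 1
            ring
        _ ≤ 3 * (Real.exp (-(e / 2 * a)) * (b - a)) := by
            apply mul_le_mul _ _ (by positivity) (by norm_num)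
            · have h5 : Real.exp (3 * (1 / 4 - e / 2)) ≤ Real.exp (3 / 4) :=
                Real.exp_le_exp.2 (by linarith)
              have h6 : Real.exp (3 / 4) ≤ 2.2 := by
                have h7 : Real.exp (3 / 4) ^ 4 = Real.exp 1 ^ 3 := by
                  rw [← Real.exp_nat_mul, ← Real.exp_nat_mul]
                  norm_num
                have h8 : Real.exp 1 ^ 3 ≤ 2.7182818286 ^ 3 :=
                  pow_le_pow_left₀ (Real.exp_pos 1).le Real.exp_one_lt_d9.le 3
                have h9 : (2.7182818286 : ℝ) ^ 3 ≤ 2.2 ^ 4 := by norm_num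
                exact (pow_le_pow_iff_left₀ (Real.exp_pos _).le (by norm_num)
                  (by norm_num : (4 : ℕ) ≠ 0)).1 (by rw [h7]; linarith)
              have h10 := h5.trans h6
              linarith
            · exact mul_le_mul_of_nonneg_left hlen (Real.exp_pos _).le
        _ = _ := by ring
    have h5 : 24 * Real.exp (-(e / 2 * a)) ≤ 1 / 2 / a ^ A := by
      rw [div_div, le_div_iff₀ (by positivity)]
      linarith
    calc 8 * h ≤ 8 * (3 * Real.exp (-(e / 2 * a)) * (b - a)) := by linarith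
      _ = 24 * Real.exp (-(e / 2 * a)) * (b - a) := by ring
      _ ≤ _ := mul_le_mul_of_nonneg_right h5 hba.le
  have h6 : 1 / 2 / a ^ A * (b - a) + 1 / 2 / a ^ A * (b - a) = (b - a) / a ^ A := by
    field_simp
    ring
  linarith

end Pool.Agent.K9h18.HS
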