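import Pool.Agent.K9h18.HS.BoxG
import Pool.Agent.H305R2.Rough
import Pool.Agent.TH888.R.VV
import Pool.Agent.TH888.R.Mean

set_option autoImplicit false

/-!
# Counting the integers with prime rough part in short intervals
-/

open Filter Topology Set MeasureTheory Metric
open scoped Real

namespace Pool.Agent.K9h18.HS

open Pool.Agent.H305R2 (roughPart SM SMz SM_pos mem_SMz ZZ VV VV_le tail_le sum_rough_eq
  roughPart_mul roughPart_prime ZZ_nonneg VV_nonneg sum_le_VV)

/-- a smooth number has a divisor in a short range -/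
lemma smooth_div (q : ℕ) (hq : 1 ≤ q) {S : ℝ} (hS : 1 ≤ S) : ∀ s : ℕ, s ∈ SM q → S < s →
    ∃ d ∈ SM q, d ∣ s ∧ S < (d : ℝ) ∧ (d : ℝ) ≤ S * q := by
  intro s
  induction s using Nat.strong_induction_on with
  | _ s ih =>
    intro hs hSs
    rcases le_or_gt (s : ℝ) (S * q) with h1 | h1
    · exact ⟨s, hs, dvd_rfl, hSs, h1⟩
    · have hs0 : s ≠ 0 := (SM_pos hs).ne'
      have hs1 : s ≠ 1 := by
        rintro rfl
        push_cast at hSs
        linarith
      have hr : (s.minFac).Prime := Nat.minFac_prime hs1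
      have hrd : s.minFac ∣ s := Nat.minFac_dvd s
      have hrq : s.minFac ≤ q := by
        have := hs.2 s.minFac ((Nat.mem_primeFactorsList hs0).2 ⟨hr, hrd⟩)
        omega
      obtain ⟨t, ht⟩ := hrd
      have ht0 : 0 < t := by
        rcases Nat.eq_zero_or_pos t with h2 | h2
        · rw [h2, mul_zero] at ht
          exact absurd ht hs0
        · exact h2
      have htd : t ∣ s := ⟨s.minFac, by rw [mul_comm]; exact ht⟩
      have hts : t ∈ SM q := Nat.mem_smoothNumbers_of_dvd hs htd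
      have htlt : t < s := by
        conv_rhs => rw [ht]
        exact (Nat.lt_mul_iff_one_lt_left ht0).2 hr.one_lt
      have hSt : S < t := by
        have h2 : (s : ℝ) ≤ q * t := by
          have h3 : s ≤ q * t := by
            conv_lhs => rw [ht]
            exact Nat.mul_le_mul_right t hrq
          exact_mod_cast h3
        have hq0 : (0 : ℝ) < q := by exact_mod_cast hq
        have h4 : q * S < q * (t : ℝ) := by
          calc (q : ℝ) * S = S * q := mul_comm _ _
            _ < s := h1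
            _ ≤ _ := h2
        exact lt_of_mul_lt_mul_left h4 hq0.le
      obtain ⟨d, hd1, hd2, hd3, hd4⟩ := ih t htlt hts hSt
      exact ⟨d, hd1, hd2.trans htd, hd3, hd4⟩

lemma dvd_card (A B d : ℕ) (hd : 0 < d) (hAB : A ≤ B) :
    (((Finset.Ioc A B).filter (fun m => d ∣ m)).card : ℝ) ≤ ((B : ℝ) - A) / d + 1 := by
  have h1 : (Finset.Ioc 0 B).filter (fun m => d ∣ m) =
      (Finset.Ioc 0 A).filter (fun m => d ∣ m) ∪ (Finset.Ioc A B).filter (fun m => d ∣ m) := by
    ext m
    simp only [Finset.mem_filter, Finset.mem_Ioc, Finset.mem_union]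
    constructor
    · rintro ⟨⟨h2, h3⟩, h4⟩
      by_cases h5 : m ≤ A
      · exact Or.inl ⟨⟨h2, h5⟩, h4⟩
      · exact Or.inr ⟨⟨by omega, h3⟩, h4⟩
    · rintro (⟨⟨h2, h3⟩, h4⟩ | ⟨⟨h2, h3⟩, h4⟩)
      · exact ⟨⟨h2, by omega⟩, h4⟩
      · exact ⟨⟨by omega, h3⟩, h4⟩
  have h2 : Disjoint ((Finset.Ioc 0 A).filter (fun m => d ∣ m))
      ((Finset.Ioc A B).filter (fun m => d ∣ m)) := by
    rw [Finset.disjoint_left]
    intro m h3 h4
    simp only [Finset.mem_filter, Finset.mem_Ioc] at h3 h4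
    omega
  have h3 := congrArg Finset.card h1
  rw [Finset.card_union_of_disjoint h2, Nat.Ioc_filter_dvd_card_eq_div,
    Nat.Ioc_filter_dvd_card_eq_div] at h3
  have hd0 : (0 : ℝ) < d := by exact_mod_cast hd
  have h4 : ((B / d : ℕ) : ℝ) ≤ (B : ℝ) / d := Nat.cast_div_le
  have h5 : (A : ℝ) / d < ((A / d : ℕ) : ℝ) + 1 := by
    rw [div_lt_iff₀ hd0]
    have h6 : A < (A / d + 1) * d := by
      have := Nat.div_add_mod A d
      have h7 := Nat.mod_lt A hd
      nlinarith
    exact_mod_cast h6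
  have h6 : ((B / d : ℕ) : ℝ) = ((A / d : ℕ) : ℝ) +
      (((Finset.Ioc A B).filter (fun m => d ∣ m)).card : ℝ) := by exact_mod_cast h3
  have h7 : ((B : ℝ) - A) / d = (B : ℝ) / d - A / d := sub_div _ _ _
  linarith

/-- integers with prime rough part and large smooth part -/
noncomputable def bigS (q A B : ℕ) (S : ℝ) : Finset ℕ :=
  (Finset.Ioc A B).filter (fun m => (roughPart q m).Prime ∧ S < ((m / roughPart q m : ℕ) : ℝ))

/-- integers with prime rough part and small smooth part -/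
noncomputable def smallS (q A B : ℕ) (S : ℝ) : Finset ℕ :=
  (Finset.Ioc A B).filter (fun m => (roughPart q m).Prime ∧ ((m / roughPart q m : ℕ) : ℝ) ≤ S)

lemma big_count (q A B : ℕ) (hq : 1 ≤ q) (hAB : A ≤ B) {S : ℝ} (hS : 1 ≤ S) :
    ((bigS q A B S).card : ℝ) ≤ ((B : ℝ) - A) * (S ^ (-(1 / 2) : ℝ) * ZZ q) + S * q := by
  classical
  set D := (SMz q (S * q)).filter (fun d : ℕ => S < (d : ℝ)) with hD
  have hSq : 0 ≤ S * q := by positivity
  have h1 : bigS q A B S ⊆ D.biUnion (fun d => (Finset.Ioc A B).filter (fun m => d ∣ m)) := by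
    intro m hm
    unfold bigS at hm
    rw [Finset.mem_filter] at hm
    obtain ⟨hm1, hm2, hm3⟩ := hm
    obtain ⟨_, s, hs, he⟩ := roughPart_prime hm2
    have hdiv : m / roughPart q m = s := by
      conv_lhs =>
        lhs
        rw [he]
      exact Nat.mul_div_cancel s hm2.pos
    rw [hdiv] at hm3
    obtain ⟨d, hd1, hd2, hd3, hd4⟩ := smooth_div q hq hS s hs hm3
    rw [Finset.mem_biUnion]
    refine ⟨d, ?_, ?_⟩
    · rw [hD, Finset.mem_filter, mem_SMz hSq]
      exact ⟨⟨hd1, hd4⟩, hd3⟩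
    · rw [Finset.mem_filter]
      exact ⟨hm1, hd2.trans ⟨roughPart q m, he⟩⟩
  have h2 : ((bigS q A B S).card : ℝ) ≤ ∑ d ∈ D, (((B : ℝ) - A) / d + 1) := by
    have h3 : (bigS q A B S).card ≤
        ∑ d ∈ D, ((Finset.Ioc A B).filter (fun m => d ∣ m)).card :=
      (Finset.card_le_card h1).trans Finset.card_biUnion_le
    calc ((bigS q A B S).card : ℝ) ≤
          ((∑ d ∈ D, ((Finset.Ioc A B).filter (fun m => d ∣ m)).card : ℕ) : ℝ) := by
          exact_mod_cast h3
      _ = ∑ d ∈ D, (((Finset.Ioc A B).filter (fun m => d ∣ m)).card : ℝ) := by push_cast; rfl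
      _ ≤ _ := by
          refine Finset.sum_le_sum fun d hd => ?_
          rw [hD, Finset.mem_filter, mem_SMz hSq] at hd
          exact dvd_card A B d (SM_pos hd.1.1) hAB
  refine h2.trans ?_
  rw [Finset.sum_add_distrib]
  apply add_le_add
  · have h3 : ∑ d ∈ D, ((B : ℝ) - A) / d = ((B : ℝ) - A) * ∑ d ∈ D, (d : ℝ)⁻¹ := by
      rw [Finset.mul_sum]
      exact Finset.sum_congr rfl fun d _ => div_eq_mul_inv _ _
    rw [h3]
    apply mul_le_mul_of_nonneg_left
    · apply tail_le q (by linarith)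
      intro n hn
      rw [hD, Finset.mem_filter, mem_SMz hSq] at hn
      exact ⟨hn.1.1, hn.2.le⟩
    · have : (A : ℝ) ≤ B := by exact_mod_cast hAB
      linarith
  · rw [Finset.sum_const, nsmul_eq_mul, mul_one]
    have h3 : D ⊆ Finset.Ioc 0 ⌊S * q⌋₊ := by
      intro d hd
      rw [hD, Finset.mem_filter, mem_SMz hSq] at hd
      rw [Finset.mem_Ioc, Nat.le_floor_iff hSq]
      exact ⟨SM_pos hd.1.1, hd.1.2⟩
    have h4 := Finset.card_le_card h3
    rw [Nat.card_Ioc, Nat.sub_zero] at h4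
    calc (D.card : ℝ) ≤ (⌊S * q⌋₊ : ℝ) := by exact_mod_cast h4
      _ ≤ _ := Nat.floor_le hSq

lemma small_eq (q A B : ℕ) {S : ℝ} (hS : 0 ≤ S) (hSB : S ≤ B)
    (hq : ∀ s ∈ SMz q S, q ≤ A / s) :
    ((smallS q A B S).card : ℝ) =
      ∑ s ∈ SMz q S, (((Finset.Ioc (A / s) (B / s)).filter Nat.Prime).card : ℝ) := by
  classical
  have h1 := sum_rough_eq q A B (fun m => if ((m / roughPart q m : ℕ) : ℝ) ≤ S then 1 else 0)
  have h2 : ((smallS q A B S).card : ℝ) =
      ∑ m ∈ (Finset.Ioc A B).filter (fun m => (roughPart q m).Prime),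
        (if ((m / roughPart q m : ℕ) : ℝ) ≤ S then (1 : ℝ) else 0) := by
    rw [← Finset.sum_filter, Finset.filter_filter, Finset.sum_const, nsmul_eq_mul, mul_one]
    rfl
  rw [h2, h1]
  have hB : (0 : ℝ) ≤ B := by positivity
  have hsub : SMz q S ⊆ SMz q B := by
    intro s hs
    rw [mem_SMz hS] at hs
    rw [mem_SMz hB]
    exact ⟨hs.1, hs.2.trans hSB⟩
  rw [← Finset.sum_subset hsub]
  · refine Finset.sum_congr rfl fun s hs => ?_
    have hs' := (mem_SMz hS).1 hs
    have hs0 := SM_pos hs'.1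
    have h3 : (Finset.Ioc (A / s) (B / s)).filter (fun l => l.Prime ∧ q < l) =
        (Finset.Ioc (A / s) (B / s)).filter Nat.Prime := by
      apply Finset.filter_congr
      intro l hl
      rw [Finset.mem_Ioc] at hl
      constructor
      · exact fun h => h.1
      · exact fun h => ⟨h, lt_of_le_of_lt (hq s hs) hl.1⟩
    have h4 : ∀ l ∈ (Finset.Ioc (A / s) (B / s)).filter (fun l => l.Prime ∧ q < l),
        (if ((s * l / roughPart q (s * l) : ℕ) : ℝ) ≤ S then (1 : ℝ) else 0) = 1 := by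
      intro l hl
      rw [Finset.mem_filter] at hl
      rw [roughPart_mul hs'.1 hl.2.1 hl.2.2, Nat.mul_div_cancel s hl.2.1.pos, if_pos hs'.2]
    rw [Finset.sum_congr rfl h4, Finset.sum_const, nsmul_eq_mul, mul_one, h3]
  · intro s hs hs2
    apply Finset.sum_eq_zero
    intro l hl
    rw [Finset.mem_filter] at hl
    have hs' := (mem_SMz hB).1 hs
    rw [roughPart_mul hs'.1 hl.2.1 hl.2.2, Nat.mul_div_cancel s hl.2.1.pos, if_neg]
    intro h5
    exact hs2 ((mem_SMz hS).2 ⟨hs'.1, h5⟩)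

end Pool.Agent.K9h18.HS
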