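import Pool.Agent.K9h18.HS.Cnt

set_option autoImplicit false

/-!
# Counting the integers with prime rough part in short intervals: the asymptotics
-/

open Filter Topology Set MeasureTheory Metric
open scoped Real

namespace Pool.Agent.K9h18.HS

open Pool.Agent.H305R2 (roughPart SM SMz SM_pos mem_SMz ZZ VV VV_le tail_le sum_rough_eq
  roughPart_mul roughPart_prime ZZ_nonneg VV_nonneg sum_le_VV)

/-- eventual inequalities used below -/
lemma ev_ineq (C D0 e : ℝ) (hD0 : 0 < D0) (he : 0 < e) (he1 : e < 1 / 4) (Z0 : ℝ) :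
    ∀ᶠ q : ℕ in atTop, 4 ≤ q ∧ 2 * D0 ≤ Real.log q ∧ Real.log q ^ 2 ≤ q ∧ 16 * Z0 ≤ q ∧
      64 ≤ (q : ℝ) ∧ C ≤ Real.log q ∧
      (D0 / Real.log q) * (q + 1) * Real.log 2 + 2 * Real.log q + Real.log q ≤
        3 / 4 * q * Real.log 2 ∧
      (1 / 4 - e) * (q * Real.log 2) + 2 * Real.log 2 ≤
        (1 / 4 - e / 2) * ((1 - D0 / Real.log q) * ((q - 2) * Real.log 2)) := by
  have hl2 : 0 < Real.log 2 := Real.log_pos (by norm_num)
  have hlog : Tendsto (fun q : ℕ => Real.log q) atTop atTop :=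
    Real.tendsto_log_atTop.comp tendsto_natCast_atTop_atTop
  have hq : Tendsto (fun q : ℕ => (q : ℝ)) atTop atTop := tendsto_natCast_atTop_atTop
  have e6 : ∀ᶠ p : ℕ in atTop, Real.log p ^ 2 ≤ (p : ℝ) := by
    have h1 := (Real.isLittleO_pow_log_id_atTop (n := 2)).bound (show (0 : ℝ) < 1 by norm_num)
    have h2 : ∀ᶠ x : ℝ in atTop, Real.log x ^ 2 ≤ x := by
      filter_upwards [h1, eventually_ge_atTop 1] with x hx hx1
      rw [Real.norm_of_nonneg (by positivity), id, Real.norm_of_nonneg (by linarith), one_mul] at hx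
      exact hx
    exact tendsto_natCast_atTop_atTop.eventually h2
  have e7 : ∀ᶠ p : ℕ in atTop, 12 * Real.log p ≤ (p : ℝ) * Real.log 2 := by
    have h1 := (Real.isLittleO_log_id_atTop).bound (show (0 : ℝ) < Real.log 2 / 12 by positivity)
    have h2 : ∀ᶠ x : ℝ in atTop, 12 * Real.log x ≤ x * Real.log 2 := by
      filter_upwards [h1, eventually_ge_atTop 1] with x hx hx1
      rw [Real.norm_of_nonneg (Real.log_nonneg hx1), id, Real.norm_of_nonneg (by linarith)] at hx
      linarith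
    exact tendsto_natCast_atTop_atTop.eventually h2
  filter_upwards [eventually_ge_atTop 4, hlog.eventually_ge_atTop (2 * D0), e6, e7,
    hq.eventually_ge_atTop (16 * Z0), hq.eventually_ge_atTop 64, hlog.eventually_ge_atTop C,
    hlog.eventually_ge_atTop (8 * D0), hlog.eventually_ge_atTop (8 * D0 / e),
    hq.eventually_ge_atTop (32 / e)] with q h1 h2 h3 h4 h5 h6 h7 h8 h9 h10
  refine ⟨h1, h2, h3, h5, h6, h7, ?_, ?_⟩
  · have hl0 : 0 < Real.log q := by linarith
    have h11 : D0 / Real.log q ≤ 1 / 8 := by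
      rw [div_le_iff₀ hl0]
      linarith
    have h12 : D0 / Real.log q * (q + 1) * Real.log 2 ≤ 1 / 8 * (q + 1) * Real.log 2 := by
      apply mul_le_mul_of_nonneg_right _ hl2.le
      apply mul_le_mul_of_nonneg_right h11 (by positivity)
    have h13 : 1 * Real.log 2 ≤ q * Real.log 2 := mul_le_mul_of_nonneg_right (by linarith) hl2.le
    nlinarith
  · have hl0 : 0 < Real.log q := by linarith
    set δ := D0 / Real.log q with hδ
    have hδ0 : 0 < δ := by positivity
    have h11 : δ ≤ e / 8 := by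
      rw [hδ, div_le_iff₀ hl0]
      rw [div_le_iff₀ he] at h9
      linarith
    have h12 : 32 ≤ e * q := by
      rw [div_le_iff₀ he] at h10
      linarith
    have e1 : (1 / 4 - e) * (q * Real.log 2) + 2 * Real.log 2 =
      ((1 / 4 - e) * q + 2) * Real.log 2 := by ring
    have e2 : (1 / 4 - e / 2) * ((1 - δ) * ((q - 2) * Real.log 2)) =
      ((1 / 4 - e / 2) * ((1 - δ) * (q - 2))) * Real.log 2 := by ring
    rw [e1, e2]
    apply mul_le_mul_of_nonneg_right _ hl2.le
    have hq0 : (0 : ℝ) ≤ q := by positivity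
    have h13 : (1 - δ) * ((q : ℝ) - 2) ≥ (q : ℝ) - 2 - δ * q := by nlinarith
    have h14 : δ * q ≤ e / 8 * q := mul_le_mul_of_nonneg_right h11 hq0
    have h15 : (1 / 4 - e / 2) * ((1 - δ) * ((q : ℝ) - 2)) ≥
        (1 / 4 - e / 2) * ((q : ℝ) - 2 - e / 8 * q) :=
      mul_le_mul_of_nonneg_left (by linarith) (by linarith)
    nlinarith

lemma fin_up {T η G l C1 V D0 sm : ℝ} (hT : 0 ≤ T) (hη0 : 0 ≤ η) (hη3 : η ≤ 3)
    (hηl : η * l ≤ 2 * D0 + 128) (hG : 0 ≤ G) (hC : 0 ≤ C1) (hV : V ≤ G * l + C1)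
    (hsm : sm ≤ T * (1 + η) * V) :
    sm ≤ T * (G * l) + T * ((2 * D0 + 128) * G + 4 * (C1 + 1) + 64 * G) := by
  refine hsm.trans ?_
  have h2 : T * (1 + η) * V ≤ T * (1 + η) * (G * l + C1) :=
    mul_le_mul_of_nonneg_left hV (by positivity)
  refine h2.trans ?_
  have e1 : T * (1 + η) * (G * l + C1) = T * (G * l) + T * ((η * l) * G + (1 + η) * C1) := by
    ring
  rw [e1]
  have h3 : (η * l) * G ≤ (2 * D0 + 128) * G := mul_le_mul_of_nonneg_right hηl hG
  have h3' : (1 + η) * C1 ≤ 4 * C1 := mul_le_mul_of_nonneg_right (by linarith) hC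
  have h4 : T * ((η * l) * G + (1 + η) * C1) ≤
      T * ((2 * D0 + 128) * G + 4 * (C1 + 1) + 64 * G) := by
    apply mul_le_mul_of_nonneg_left _ hT
    linarith
  linarith

lemma fin_low {T x G l C1 V D0 sm : ℝ} (hT : 0 ≤ T) (hx0 : 0 ≤ x) (hx1 : x ≤ 1)
    (hxG : x * (G * l) ≤ 64 * G) (hG : 0 ≤ G) (hC : 0 ≤ C1) (hD : 0 ≤ D0)
    (hV : G * l - C1 - 1 ≤ V) (hsm : T * (1 - x) * V ≤ sm) :
    T * (G * l) - T * ((2 * D0 + 128) * G + 4 * (C1 + 1) + 64 * G) ≤ sm := by
  refine le_trans ?_ hsm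
  have h2 : T * (1 - x) * (G * l - C1 - 1) ≤ T * (1 - x) * V :=
    mul_le_mul_of_nonneg_left hV (mul_nonneg hT (by linarith))
  refine le_trans ?_ h2
  have h4 : 0 ≤ x * (C1 + 1) := by positivity
  have e1 : T * (1 - x) * (G * l - C1 - 1) =
      T * (G * l) - T * (x * (G * l) + (C1 + 1) - x * (C1 + 1)) := by ring
  rw [e1]
  have h5 : T * (x * (G * l) + (C1 + 1) - x * (C1 + 1)) ≤
      T * ((2 * D0 + 128) * G + 4 * (C1 + 1) + 64 * G) := by
    apply mul_le_mul_of_nonneg_left _ hT
    have : 0 ≤ (2 * D0 + 128) * G := by positivity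
    linarith
  linarith

lemma fin_tot {sm bg R TG M TK K1 G r : ℝ} (h1 : sm ≤ TG + TK) (h2 : TG - TK ≤ sm)
    (hTK : TK ≤ 2 * K1 * r) (hb0 : 0 ≤ bg) (hb : bg ≤ 2 * r) (hR : R = sm + bg)
    (hm : |TG - M| ≤ 4 * G * r) : |R - M| ≤ (2 * K1 + 4 * G + 2) * r := by
  obtain ⟨hm1, hm2⟩ := abs_le.1 hm
  have e : (2 * K1 + 4 * G + 2) * r = 2 * K1 * r + 4 * G * r + 2 * r := by ring
  rw [hR, e, abs_le]
  constructor <;> linarith

/-- **The number of integers with prime `q`-rough part in a short interval** around `2 ^ q`. -/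
theorem rough_count (hPV : Pool.Agent.N176.OW.S_PV) {e : ℝ} (he : 0 < e) (he1 : e < 1 / 4) :
    ∃ K : ℝ, 0 < K ∧ ∃ P : ℕ, ∀ q ≥ P, ∀ A B : ℕ, 2 ^ (q - 2) ≤ A → A ≤ 2 ^ (q + 1) → A ≤ B →
      ((B : ℝ) - A) * q ≤ A → Real.exp ((3 / 4 + e) * (q * Real.log 2)) ≤ (B : ℝ) - A →
      |(((Finset.Ioc A B).filter (fun m => (roughPart q m).Prime)).card : ℝ) -
        ((B : ℝ) - A) * (Real.exp Real.eulerMascheroniConstant / Real.log 2 *
          (Real.log q / q))| ≤ K * (((B : ℝ) - A) / q) := by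
  obtain ⟨Z0, hZ0, hcnt⟩ := short_count hPV (e := e / 2) (by linarith) (by linarith)
  obtain ⟨C1, hC1, hV⟩ := Pool.Agent.TH888.R.VV_rate
  obtain ⟨C2, hC2, hZ⟩ := Pool.Agent.TH888.R.ZZ_rate
  set G := Real.exp Real.eulerMascheroniConstant with hG
  have hG0 : 0 < G := Real.exp_pos _
  set D0 := 4 * (C2 + 2) with hD0
  have hD0p : 0 < D0 := by positivity
  have hl2 : 0 < Real.log 2 := Real.log_pos (by norm_num)
  have hl2a : 0.69 < Real.log 2 := by linarith [Real.log_two_gt_d9]
  have hl2b : Real.log 2 < 0.7 := by linarith [Real.log_two_lt_d9]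
  obtain ⟨P, hP⟩ := (ev_ineq (C1 + 1) D0 e hD0p he he1 Z0).exists_forall_of_atTop
  set K1 := (2 * D0 + 128) * G + 4 * (C1 + 1) + 64 * G with hK1
  refine ⟨2 * K1 + 4 * G + 2, by positivity, P, fun q hq A B hA1 hA2 hAB hH1 hH2 => ?_⟩
  obtain ⟨hq4, c2, c3, c4, c5, c6, c7, c8⟩ := hP q hq
  have hq0 : (0 : ℝ) < q := by linarith
  have hq4' : (4 : ℝ) ≤ q := by exact_mod_cast hq4
  set l := Real.log q with hl
  have hl0 : 0 < l := by linarith
  have hlq : l ≤ q := (Real.log_le_sub_one_of_pos hq0).trans (by linarith)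
  set H := (B : ℝ) - A with hH
  have hH0 : 0 < H := lt_of_lt_of_le (Real.exp_pos _) hH2
  have hA0 : (0 : ℝ) < A := by
    have : 0 < A := lt_of_lt_of_le (by positivity) hA1
    exact_mod_cast this
  have hB0 : (0 : ℝ) < B := by rw [hH] at hH0; linarith
  have hA1' : Real.exp ((q - 2) * Real.log 2) ≤ A := by
    have h1 : ((2 ^ (q - 2) : ℕ) : ℝ) ≤ A := by exact_mod_cast hA1
    have h2 : ((2 ^ (q - 2) : ℕ) : ℝ) = Real.exp ((q - 2) * Real.log 2) := by
      have h3 : ((q : ℝ) - 2) = ((q - 2 : ℕ) : ℝ) := by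
        rw [Nat.cast_sub (by omega), Nat.cast_ofNat]
      rw [h3, Real.exp_nat_mul, Real.exp_log (by norm_num)]
      push_cast
      rfl
    rw [← h2]
    exact h1
  have hA2' : (A : ℝ) ≤ Real.exp ((q + 1) * Real.log 2) := by
    have h1 : (A : ℝ) ≤ ((2 ^ (q + 1) : ℕ) : ℝ) := by exact_mod_cast hA2
    have h2 : ((2 ^ (q + 1) : ℕ) : ℝ) = Real.exp ((q + 1) * Real.log 2) := by
      have h3 : ((q : ℝ) + 1) = ((q + 1 : ℕ) : ℝ) := by push_cast; ring
      rw [h3, Real.exp_nat_mul, Real.exp_log (by norm_num)]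
      push_cast
      rfl
    rw [← h2]
    exact h1
  set y := Real.log A with hy
  have hy1 : (q - 2) * Real.log 2 ≤ y := by rw [hy, Real.le_log_iff_exp_le hA0]; exact hA1'
  have hy2 : y ≤ (q + 1) * Real.log 2 := by rw [hy, Real.log_le_iff_le_exp hA0]; exact hA2'
  have hyq : (q : ℝ) / 2 ≤ y := by
    have h1 : ((q : ℝ) - 2) * 0.69 ≤ (q - 2) * Real.log 2 :=
      mul_le_mul_of_nonneg_left hl2a.le (by linarith only [c5])
    linarith only [h1, hy1, c5]
  have hyq2 : y ≤ q := by
    have h1 : ((q : ℝ) + 1) * Real.log 2 ≤ (q + 1) * 0.7 :=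
      mul_le_mul_of_nonneg_left hl2b.le (by linarith only [c5])
    linarith only [h1, hy2, c5]
  have hy0 : 0 < y := by linarith
  set δ := D0 / l with hδ
  have hδ0 : 0 < δ := by positivity
  have hδh : δ ≤ 1 / 2 := by
    rw [hδ, div_le_iff₀ hl0]
    linarith
  set S := Real.exp (δ * y) with hS
  have hS0 : 0 < S := Real.exp_pos _
  have hS1 : 1 ≤ S := Real.one_le_exp (by positivity)
  have hexpA : Real.exp y = A := Real.exp_log hA0
  have hSA : S ≤ A := by
    rw [← hexpA, hS]
    apply Real.exp_le_exp.2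
    have h1 := mul_le_mul_of_nonneg_right hδh hy0.le
    linarith only [h1, hy0]
  have hSB : S ≤ B := by
    have : (A : ℝ) ≤ B := by exact_mod_cast hAB
    linarith
  -- the ratio
  set ρ := Real.log B - y with hρ
  have hratio : ρ = Real.log (1 + H / A) := by
    rw [hρ, hy, ← Real.log_div hB0.ne' hA0.ne']
    congr 1
    rw [hH]
    field_simp
    ring
  have hHA : H / A ≤ 1 / q := by
    rw [div_le_div_iff₀ hA0 hq0]
    linarith
  have hHA0 : 0 < H / A := by positivity
  have h1q : 1 / (q : ℝ) ≤ 1 / 64 := one_div_le_one_div_of_le (by norm_num) c5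
  have hρ1 : ρ ≤ 1 / q := by
    rw [hratio]
    have := Real.log_le_sub_one_of_pos (show 0 < 1 + H / A by positivity)
    linarith
  have hρ2 : H / A / 2 ≤ ρ := by
    rw [hratio, Real.le_log_iff_exp_le (by positivity)]
    have h2 : |H / A / 2| ≤ 1 := by rw [abs_of_pos (by positivity)]; linarith
    have := (abs_le.1 (Real.abs_exp_sub_one_le h2)).2
    rw [abs_of_pos (by positivity)] at this
    linarith
  have hρ0 : 0 < ρ := by linarith [half_pos hHA0]
  -- the individual terms
  have hterm : ∀ s ∈ SMz q S, q ≤ A / s ∧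
      |(((Finset.Ioc (A / s) (B / s)).filter Nat.Prime).card : ℝ) - H / s / (y - Real.log s)| ≤
        16 * (H / s / (y - Real.log s)) / (y - Real.log s) ∧ (1 - δ) * y ≤ y - Real.log s ∧
        y - Real.log s ≤ y := by
    intro s hs
    rw [mem_SMz hS0.le] at hs
    have hs0 := SM_pos hs.1
    have hs0' : (0 : ℝ) < s := by exact_mod_cast hs0
    have hls0 : 0 ≤ Real.log s := Real.log_nonneg (by exact_mod_cast hs0)
    have hls : Real.log s ≤ δ * y := by
      rw [Real.log_le_iff_le_exp hs0']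
      exact hs.2
    set a := y - Real.log s with ha
    set b := Real.log B - Real.log s with hb
    have hab : b - a = ρ := by rw [ha, hb, hρ]; ring
    have ha1 : (1 - δ) * y ≤ a := by rw [ha]; linarith
    have ha2 : a ≤ y := by rw [ha]; linarith
    have ha3 : y / 2 ≤ a := by
      have h1 := mul_le_mul_of_nonneg_right hδh hy0.le
      linarith only [h1, ha1]
    have ha4 : q / 4 ≤ a := by linarith only [ha3, hyq]
    have ha0 : 0 < a := by linarith only [ha4, hq0]
    have hea : Real.exp a = A / s := by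
      rw [ha, Real.exp_sub, Real.exp_log hs0', hexpA]
    have heb : Real.exp b = B / s := by
      rw [hb, Real.exp_sub, Real.exp_log hs0', Real.exp_log hB0]
    have hfa : ⌊Real.exp a⌋₊ = A / s := by rw [hea, Nat.floor_div_eq_div]
    have hfb : ⌊Real.exp b⌋₊ = B / s := by rw [heb, Nat.floor_div_eq_div]
    have hqA : q ≤ A / s := by
      rw [← hfa]
      apply Nat.le_floor
      have h2 : (q : ℝ) ≤ Real.exp (q / 4) := by
        have h3 := Real.quadratic_le_exp_of_nonneg (show 0 ≤ (q : ℝ) / 4 by positivity)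
        have h4 : 64 * (q : ℝ) ≤ q * q := mul_le_mul_of_nonneg_right c5 hq0.le
        have e1 : ((q : ℝ) / 4) ^ 2 / 2 = q * q / 32 := by ring
        rw [e1] at h3
        linarith only [h3, h4, hq0]
      exact h2.trans (Real.exp_le_exp.2 ha4)
    refine ⟨hqA, ?_, ha1, ha2⟩
    have h3 := hcnt a b (by linarith only [c4, ha4]) (by linarith only [hab, hρ0]) (by
      have h4 : 1 / (q : ℝ) ≤ 1 / a := by
        apply one_div_le_one_div_of_le ha0
        linarith only [ha2, hyq2]
      linarith only [h4, hab, hρ1]) (by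
      rw [hab]
      refine le_trans ?_ hρ2
      rw [le_div_iff₀ (by norm_num), le_div_iff₀ hA0]
      have h5 : Real.exp (-((1 / 4 - e / 2) * a)) * 2 * A ≤
          Real.exp (-((1 / 4 - e / 2) * a) + 1 * Real.log 2 + (q + 1) * Real.log 2) := by
        rw [Real.exp_add, Real.exp_add, one_mul, Real.exp_log (by norm_num : (0 : ℝ) < 2)]
        exact mul_le_mul_of_nonneg_left hA2' (by positivity)
      refine h5.trans (le_trans (Real.exp_le_exp.2 ?_) hH2)
      have h6 : (1 / 4 - e / 2) * ((1 - δ) * ((q - 2) * Real.log 2)) ≤ (1 / 4 - e / 2) * a := by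
        apply mul_le_mul_of_nonneg_left _ (by linarith only [he1])
        refine le_trans ?_ ha1
        exact mul_le_mul_of_nonneg_left hy1 (by linarith only [hδh])
      linarith only [h6, c8])
    rw [hfa, hfb, hea, heb] at h3
    have h4 : (B : ℝ) / s - A / s = H / s := by rw [hH]; ring
    rw [h4] at h3
    exact h3
  have hsmall := small_eq q A B hS0.le hSB fun s hs => (hterm s hs).1
  -- the Euler products
  obtain ⟨hVa, hVb⟩ := abs_le.1 (hV q (by omega))
  rw [← hl] at hVa hVb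
  have hZq := hZ q (by omega)
  rw [← hl] at hZq
  have hSZ : S ^ (-(1 / 2) : ℝ) * ZZ q ≤ 1 / q := by
    have h8 : (C2 + 2) * (q / l) ≤ δ * y / 2 := by
      have h9 : δ * (q / 2) ≤ δ * y := mul_le_mul_of_nonneg_left hyq hδ0.le
      have e1 : δ * (q / 2) = 2 * ((C2 + 2) * (q / l)) := by
        rw [hδ, hD0]
        field_simp
        norm_num
      linarith
    have h10 : S ^ (-(1 / 2) : ℝ) = Real.exp (-(δ * y / 2)) := by
      rw [hS, ← Real.exp_mul]
      congr 1
      ring
    rw [h10]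
    calc Real.exp (-(δ * y / 2)) * ZZ q ≤
          Real.exp (-((C2 + 2) * (q / l))) * Real.exp (C2 * (q / l)) :=
          mul_le_mul (Real.exp_le_exp.2 (neg_le_neg h8)) hZq (ZZ_nonneg q) (Real.exp_pos _).le
      _ = Real.exp (-(2 * (q / l))) := by rw [← Real.exp_add]; congr 1; ring
      _ ≤ Real.exp (-l) := by
          refine Real.exp_le_exp.2 (neg_le_neg ?_)
          have : l ≤ q / l := by
            rw [le_div_iff₀ hl0, ← sq]
            exact c3
          have h11 : 0 ≤ q / l := by positivity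
          linarith
      _ = 1 / q := by rw [Real.exp_neg, hl, Real.exp_log hq0, one_div]
  have hSZ0 : 0 ≤ S ^ (-(1 / 2) : ℝ) * ZZ q := mul_nonneg (by positivity) (ZZ_nonneg q)
  -- sums over the smooth numbers
  set V1 := ∑ s ∈ SMz q S, (s : ℝ)⁻¹ with hV1
  have hW1u : V1 ≤ VV q := sum_le_VV q _ fun n hn => ((mem_SMz hS0.le).1 hn).1
  have hW1l : VV q ≤ V1 + S ^ (-(1 / 2) : ℝ) * ZZ q := VV_le q hS0
  have hW10 : 0 ≤ V1 := Finset.sum_nonneg fun _ _ => by positivity
  set T := H / y with hT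
  have hT0 : 0 < T := by positivity
  have hTq : T ≤ 2 * (H / q) := by
    rw [hT]
    calc H / y ≤ H / (q / 2) := by gcongr
      _ = _ := by field_simp
  set η := 2 * δ + 64 / y with hη
  have hη0 : 0 < η := by positivity
  have h32 : 32 / y ≤ 1 := by rw [div_le_one hy0]; linarith
  have hηl : η * l ≤ 2 * D0 + 128 := by
    have h1 : δ * l = D0 := by rw [hδ]; field_simp
    have h2 : 64 / y * l ≤ 128 := by
      rw [div_mul_eq_mul_div, div_le_iff₀ hy0]
      linarith
    calc η * l = 2 * (δ * l) + 64 / y * l := by rw [hη]; ring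
      _ ≤ _ := by rw [h1]; linarith
  have hη3 : η ≤ 3 := by
    have : 64 / y ≤ 2 := by rw [div_le_iff₀ hy0]; linarith
    linarith
  have hsu : ((smallS q A B S).card : ℝ) ≤ T * (1 + η) * V1 := by
    rw [hsmall, hV1, Finset.mul_sum]
    refine Finset.sum_le_sum fun s hs => ?_
    obtain ⟨_, h1, h2, h3⟩ := hterm s hs
    rw [mem_SMz hS0.le] at hs
    have hs0' : (0 : ℝ) < s := by exact_mod_cast SM_pos hs.1
    set a := y - Real.log s with ha
    have ha3 : y / 2 ≤ a := by
      have h1 := mul_le_mul_of_nonneg_right hδh hy0.le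
      linarith only [h1, h2]
    have ha0 : 0 < a := by linarith only [ha3, hy0]
    have h4 := (abs_le.1 h1).2
    have h5 : 1 / a ≤ (1 + 2 * δ) / y := by
      rw [div_le_div_iff₀ ha0 hy0, one_mul]
      have h6 : y ≤ (1 + 2 * δ) * ((1 - δ) * y) := by
        have h7 : 0 ≤ δ * (1 / 2 - δ) := mul_nonneg hδ0.le (by linarith only [hδh])
        have h8 : 1 ≤ (1 + 2 * δ) * (1 - δ) := by linarith only [h7]
        have h9 := mul_le_mul_of_nonneg_right h8 hy0.le
        linarith only [h9]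
      exact h6.trans (mul_le_mul_of_nonneg_left h2 (by positivity))
    have h6 : 16 / a ≤ 32 / y := by
      rw [div_le_div_iff₀ ha0 hy0]
      linarith only [ha3]
    have h7 : (((Finset.Ioc (A / s) (B / s)).filter Nat.Prime).card : ℝ) ≤
        H / s * (1 / a) * (1 + 16 / a) := by
      have e1 : H / s * (1 / a) * (1 + 16 / a) = H / s / a + 16 * (H / s / a) / a := by ring
      rw [e1]
      linarith only [h4]
    refine h7.trans ?_
    have h8 : (1 + 2 * δ) * (1 + 32 / y) ≤ 1 + η := by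
      have h9 : 2 * δ * (32 / y) ≤ 1 * (32 / y) :=
        mul_le_mul_of_nonneg_right (by linarith) (by positivity)
      have e2 : (1 + 2 * δ) * (1 + 32 / y) = 1 + 2 * δ + 32 / y + 2 * δ * (32 / y) := by ring
      have e3 : 64 / y = 32 / y + 32 / y := by ring
      rw [e2, hη, e3]
      linarith
    calc H / s * (1 / a) * (1 + 16 / a) ≤ H / s * ((1 + 2 * δ) / y) * (1 + 32 / y) := by gcongr
      _ = T * ((1 + 2 * δ) * (1 + 32 / y)) * (s : ℝ)⁻¹ := by rw [hT]; ring
      _ ≤ T * (1 + η) * (s : ℝ)⁻¹ := by gcongr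
  have hsl : T * (1 - 32 / y) * V1 ≤ ((smallS q A B S).card : ℝ) := by
    rw [hsmall, hV1, Finset.mul_sum]
    refine Finset.sum_le_sum fun s hs => ?_
    obtain ⟨_, h1, h2, h3⟩ := hterm s hs
    rw [mem_SMz hS0.le] at hs
    have hs0' : (0 : ℝ) < s := by exact_mod_cast SM_pos hs.1
    set a := y - Real.log s with ha
    have ha3 : y / 2 ≤ a := by
      have h1 := mul_le_mul_of_nonneg_right hδh hy0.le
      linarith only [h1, h2]
    have ha0 : 0 < a := by linarith only [ha3, hy0]
    have h4 := (abs_le.1 h1).1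
    have h5 : 1 / y ≤ 1 / a := one_div_le_one_div_of_le ha0 h3
    have h6 : 16 / a ≤ 32 / y := by
      rw [div_le_div_iff₀ ha0 hy0]
      linarith only [ha3]
    have h7 : H / s * (1 / a) * (1 - 16 / a) ≤
        (((Finset.Ioc (A / s) (B / s)).filter Nat.Prime).card : ℝ) := by
      have e1 : H / s * (1 / a) * (1 - 16 / a) = H / s / a - 16 * (H / s / a) / a := by ring
      rw [e1]
      linarith only [h4]
    refine le_trans ?_ h7
    have h8 : 0 ≤ 1 - 32 / y := by linarith
    calc T * (1 - 32 / y) * (s : ℝ)⁻¹ = H / s * (1 / y) * (1 - 32 / y) := by rw [hT]; ring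
      _ ≤ H / s * (1 / a) * (1 - 32 / y) := by gcongr
      _ ≤ H / s * (1 / a) * (1 - 16 / a) := by gcongr
  -- large smooth parts
  have hbig := big_count q A B (by omega) hAB hS1
  rw [← hH] at hbig
  have hbig2 : ((bigS q A B S).card : ℝ) ≤ 2 * (H / q) := by
    refine hbig.trans ?_
    have h1 : H * (S ^ (-(1 / 2) : ℝ) * ZZ q) ≤ H * (1 / q) := mul_le_mul_of_nonneg_left hSZ hH0.le
    have h2 : S * q ≤ H / q := by
      rw [le_div_iff₀ hq0]
      have h3 : S * q * q ≤ Real.exp (δ * ((q + 1) * Real.log 2) + l + l) := by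
        rw [Real.exp_add, Real.exp_add, hl, Real.exp_log hq0]
        have : S ≤ Real.exp (δ * ((q + 1) * Real.log 2)) :=
          Real.exp_le_exp.2 (mul_le_mul_of_nonneg_left hy2 hδ0.le)
        gcongr
      refine h3.trans (le_trans (Real.exp_le_exp.2 ?_) hH2)
      have h4 : 0 ≤ e * (q * Real.log 2) := by positivity
      linarith only [c7, h4, hl0]
    have e1 : H * (1 / q) = H / q := by ring
    rw [e1] at h1
    linarith only [h1, h2]
  -- the total
  set R := (Finset.Ioc A B).filter (fun m => (roughPart q m).Prime) with hR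
  have hRsplit : (R.card : ℝ) = ((smallS q A B S).card : ℝ) + ((bigS q A B S).card : ℝ) := by
    have h1 := Finset.card_filter_add_card_filter_not (s := R)
      (fun m => ((m / roughPart q m : ℕ) : ℝ) ≤ S)
    have h2 : R.filter (fun m => ((m / roughPart q m : ℕ) : ℝ) ≤ S) = smallS q A B S := by
      rw [hR, Finset.filter_filter]
      rfl
    have h3 : R.filter (fun m => ¬ ((m / roughPart q m : ℕ) : ℝ) ≤ S) = bigS q A B S := by
      rw [hR, Finset.filter_filter]
      unfold bigS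
      simp only [not_le]
    rw [h2, h3] at h1
    exact_mod_cast h1.symm
  have hmain : |T * (G * l) - H * (G / Real.log 2 * (l / q))| ≤ 4 * G * (H / q) := by
    have e1 : T * (G * l) - H * (G / Real.log 2 * (l / q)) =
        H * (G * l) * ((q * Real.log 2 - y) / (y * (q * Real.log 2))) := by
      rw [hT]
      field_simp
    rw [e1, abs_mul, abs_of_pos (by positivity), abs_div, abs_of_pos (by positivity : 0 < y * (q * Real.log 2))]
    have h1 : |q * Real.log 2 - y| ≤ 2 * Real.log 2 := by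
      rw [abs_le]
      constructor <;> linarith only [hy1, hy2, hl2]
    calc H * (G * l) * (|q * Real.log 2 - y| / (y * (q * Real.log 2))) ≤
          H * (G * l) * (2 * Real.log 2 / (q / 2 * (q * Real.log 2))) := by gcongr
      _ = 4 * G * (H / q) * (l / q) := by field_simp; norm_num
      _ ≤ 4 * G * (H / q) * 1 := by
          apply mul_le_mul_of_nonneg_left _ (by positivity)
          rw [div_le_one hq0]
          exact hlq
      _ = _ := mul_one _
  have hVu : V1 ≤ G * l + C1 := by linarith only [hW1u, hVb]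
  have hVl : G * l - C1 - 1 ≤ V1 := by linarith only [hW1l, hVa, hSZ, h1q]
  have hup := fin_up (D0 := D0) hT0.le hη0.le hη3 hηl hG0.le hC1.le hVu hsu
  have h3 : 32 / y * (G * l) ≤ 64 * G := by
    rw [div_mul_eq_mul_div, div_le_iff₀ hy0]
    have h4 : G * l ≤ G * (2 * y) := mul_le_mul_of_nonneg_left (by linarith only [hlq, hyq]) hG0.le
    linarith only [h4]
  have hlow := fin_low (D0 := D0) hT0.le (by positivity) h32 h3 hG0.le hC1.le hD0p.le hVl hsl
  rw [← hK1] at hup hlow
  have hTK : T * K1 ≤ 2 * K1 * (H / q) := by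
    calc T * K1 ≤ 2 * (H / q) * K1 := mul_le_mul_of_nonneg_right hTq (by positivity)
      _ = _ := by ring
  have hb0 : (0 : ℝ) ≤ ((bigS q A B S).card : ℝ) := by positivity
  exact fin_tot hup hlow hTK hb0 hbig2 hRsplit hmain

/-- large smooth parts are rare -/
theorem big_rare : ∃ P : ℕ, ∀ q ≥ P, ∀ A B : ℕ, A ≤ B → Real.exp (q / 4) ≤ (B : ℝ) - A →
    ((bigS q A B (Real.exp (q / 16))).card : ℝ) ≤ ((B : ℝ) - A) / q ^ 2 := by
  obtain ⟨C2, hC2, hZ⟩ := Pool.Agent.TH888.R.ZZ_rate
  have hsm2 : ∀ᶠ q : ℕ in atTop, Real.exp (q / 16) * q ≤ Real.exp (q / 4) / (2 * q ^ 2) ∧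
      Real.exp (-(q / 32)) * Real.exp (C2 * (q / Real.log q)) ≤ 1 / (2 * (q : ℝ) ^ 2) := by
    have hlog : Tendsto (fun q : ℕ => Real.log q) atTop atTop :=
      Real.tendsto_log_atTop.comp tendsto_natCast_atTop_atTop
    have e7 : ∀ᶠ p : ℕ in atTop, 256 * (3 * Real.log p + 1) ≤ (p : ℝ) := by
      have h1 := (Real.isLittleO_log_id_atTop).bound (show (0 : ℝ) < 1 / 2000 by positivity)
      have h2 : ∀ᶠ x : ℝ in atTop, 256 * (3 * Real.log x + 1) ≤ x := by
        filter_upwards [h1, eventually_ge_atTop 1000] with x hx hx1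
        rw [Real.norm_of_nonneg (Real.log_nonneg (by linarith)), id,
          Real.norm_of_nonneg (by linarith)] at hx
        linarith
      exact tendsto_natCast_atTop_atTop.eventually h2
    filter_upwards [e7, hlog.eventually_ge_atTop (64 * C2), eventually_ge_atTop 2] with q h1 h2 h3
    have hq2 : (2 : ℝ) ≤ q := by exact_mod_cast h3
    have hq0 : (0 : ℝ) < q := by linarith
    have hlq : 0 < Real.log q := Real.log_pos (by linarith)
    have hee : Real.exp 1 ≥ 2 := by linarith [Real.exp_one_gt_d9]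
    constructor
    · rw [le_div_iff₀ (by positivity)]
      have e1 : Real.exp (q / 16) * q * (2 * q ^ 2) ≤ Real.exp (q / 16 + 3 * Real.log q + 1) := by
        rw [Real.exp_add, Real.exp_add]
        have : Real.exp (3 * Real.log q) = (q : ℝ) ^ 3 := by
          rw [show 3 * Real.log (q : ℝ) = ((3 : ℕ) : ℝ) * Real.log q by norm_num,
            Real.exp_nat_mul, Real.exp_log hq0]
        rw [this]
        calc Real.exp (q / 16) * q * (2 * q ^ 2) = Real.exp (q / 16) * (q : ℝ) ^ 3 * 2 := by ring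
          _ ≤ _ := mul_le_mul_of_nonneg_left hee (by positivity)
      refine e1.trans (Real.exp_le_exp.2 ?_)
      linarith
    · rw [le_div_iff₀ (by positivity)]
      have h4 : C2 * (q / Real.log q) ≤ q / 64 := by
        rw [mul_div_assoc', div_le_iff₀ hlq]
        nlinarith
      have e1 : Real.exp (-(q / 32)) * Real.exp (C2 * (q / Real.log q)) * (2 * q ^ 2) ≤
          Real.exp (-(q / 32) + C2 * (q / Real.log q) + 2 * Real.log q + 1) := by
        rw [Real.exp_add, Real.exp_add, Real.exp_add]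
        have : Real.exp (2 * Real.log q) = (q : ℝ) ^ 2 := by
          rw [show 2 * Real.log (q : ℝ) = ((2 : ℕ) : ℝ) * Real.log q by norm_num,
            Real.exp_nat_mul, Real.exp_log hq0]
        rw [this]
        calc Real.exp (-(q / 32)) * Real.exp (C2 * (q / Real.log q)) * (2 * q ^ 2) =
              Real.exp (-(q / 32)) * Real.exp (C2 * (q / Real.log q)) * (q : ℝ) ^ 2 * 2 := by ring
          _ ≤ _ := mul_le_mul_of_nonneg_left hee (by positivity)
      refine e1.trans (Real.exp_le_one_iff.2 ?_)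
      linarith
  obtain ⟨P, hP⟩ := (hsm2.and (eventually_ge_atTop 2)).exists_forall_of_atTop
  refine ⟨P, fun q hq A B hAB hH2 => ?_⟩
  obtain ⟨⟨hsm2, hsm3⟩, hq2⟩ := hP q hq
  have hq0 : (0 : ℝ) < q := by exact_mod_cast (by omega : 0 < q)
  set H := (B : ℝ) - A with hH
  have hH0 : 0 < H := lt_of_lt_of_le (Real.exp_pos _) hH2
  have h1 := big_count q A B (by omega) hAB (S := Real.exp (q / 16))
    (Real.one_le_exp (by positivity))
  rw [← hH] at h1
  refine h1.trans ?_
  have h2 : Real.exp (q / 16) ^ (-(1 / 2) : ℝ) * ZZ q ≤ 1 / (2 * q ^ 2) := by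
    have h10 : Real.exp (q / 16) ^ (-(1 / 2) : ℝ) = Real.exp (-(q / 32)) := by
      rw [← Real.exp_mul]
      congr 1
      ring
    rw [h10]
    exact (mul_le_mul_of_nonneg_left (hZ q hq2) (Real.exp_pos _).le).trans hsm3
  have h3 : H * (Real.exp (q / 16) ^ (-(1 / 2) : ℝ) * ZZ q) ≤ H * (1 / (2 * q ^ 2)) :=
    mul_le_mul_of_nonneg_left h2 hH0.le
  have h4 : Real.exp (q / 16) * q ≤ H / (2 * q ^ 2) := by
    refine hsm2.trans ?_
    gcongr
  have e1 : H / q ^ 2 = H * (1 / (2 * q ^ 2)) + H / (2 * q ^ 2) := by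
    field_simp
    ring
  rw [e1]
  linarith

end Pool.Agent.K9h18.HS
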