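import Pool.Agent.K9h18.HS.NearC

set_option autoImplicit false

/-!
# Far and near pairs, conditionally on the first digits
-/

open Filter Topology Set MeasureTheory
open scoped Real

namespace Pool.Agent.K9h18.HS

open Pool.Agent.H305R2 (roughPart)
open Pool.Agent.TH888.R (wt wt_nonneg)

lemma div_block {g i t : ℕ} (ht : t < 2 ^ g) : (i * 2 ^ g + t) / 2 ^ g = i := by
  rw [Nat.add_comm, Nat.add_mul_div_right _ _ (by positivity), Nat.div_eq_of_lt ht, zero_add]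

lemma avg_split {k e : ℕ} (hke : k ≤ e) (F G : ℕ → ℝ) :
    avg e (fun j => F (j / 2 ^ (e - k)) * G j) =
      avg k (fun i => F i * avg (e - k) (fun t => G (i * 2 ^ (e - k) + t))) := by
  set g := e - k with hg
  have h1 : 2 ^ e = 2 ^ k * 2 ^ g := by rw [← pow_add]; congr 1; omega
  have h1' : (2 : ℝ) ^ e = 2 ^ k * 2 ^ g := by exact_mod_cast h1
  unfold avg
  rw [h1, sum_block, h1', mul_comm ((2 : ℝ) ^ k), ← div_div, Finset.sum_div]
  congr 1
  refine Finset.sum_congr rfl fun i _ => ?_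
  simp only
  rw [mul_div_assoc', Finset.mul_sum]
  congr 1
  refine Finset.sum_congr rfl fun t ht => ?_
  rw [div_block (Finset.mem_range.1 ht)]

lemma avg_ind {k e : ℕ} (hke : k ≤ e) (G : ℕ → ℝ) {i : ℕ} (hi : i < 2 ^ k) :
    avg e (fun j => (if j / 2 ^ (e - k) = i then 1 else 0) * G j) =
      (2 ^ k)⁻¹ * avg (e - k) (fun t => G (i * 2 ^ (e - k) + t)) := by
  have h := avg_split hke (fun l => if l = i then (1 : ℝ) else 0) G
  rw [h]
  conv_lhs => unfold avg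
  have h2 : ∑ l ∈ Finset.range (2 ^ k), (if l = i then (1 : ℝ) else 0) *
      ((∑ j ∈ Finset.range (2 ^ (e - k)), G (l * 2 ^ (e - k) + j)) / 2 ^ (e - k)) =
      (∑ j ∈ Finset.range (2 ^ (e - k)), G (i * 2 ^ (e - k) + j)) / 2 ^ (e - k) := by
    rw [Finset.sum_eq_single i]
    · rw [if_pos rfl, one_mul]
    · intro l _ hl
      rw [if_neg hl, zero_mul]
    · intro h
      exact absurd (Finset.mem_range.2 hi) h
  simp only at h2 ⊢
  rw [h2]
  unfold avg
  rw [div_eq_inv_mul]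

/-- the ratio of far pairs -/
noncomputable def cr (δ : ℝ) : ℝ := (1 / 4 - δ) / 2

lemma cr_pos {δ : ℝ} (hδ : δ < 1 / 4) : 0 < cr δ := by unfold cr; linarith

lemma cr_le {δ : ℝ} (hδ0 : 0 ≤ δ) : cr δ ≤ 1 / 8 := by unfold cr; linarith

/-- **Equidistribution conditionally on the first digits.** -/
theorem far_F (hPV : Pool.Agent.N176.OW.S_PV) {δ : ℝ} (hδ0 : 0 ≤ δ) (hδ : δ < 1 / 4)
    {e A : ℕ → ℕ} (hD : Dig δ e A) :
    ∃ K : ℝ, 0 < K ∧ ∃ P : ℕ, 1 ≤ P ∧ ∀ q ≥ P, ∀ k : ℕ, (k : ℝ) ≤ cr δ * q → k ≤ e q ∧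
      ∀ F : ℕ → ℝ, (∀ j, 0 ≤ F j) →
      |avg (e q) (fun j => F (j / 2 ^ (e q - k)) * ind q (A q + j)) - kc * wt q * avg k F| ≤
        K / q * avg k F := by
  obtain ⟨K, hK, P, hP1, hest⟩ := block_est hPV hδ0 hδ hD
  refine ⟨K, hK, P, hP1, fun q hq k hk => ?_⟩
  obtain ⟨hke, hG⟩ := hest q hq
  have hk' : k ≤ ⌊(1 / 4 - δ) / 2 * q⌋₊ := Nat.le_floor hk
  exact ⟨hk'.trans hke, fun F hF => avg_far hk' hke F (fun j => ind q (A q + j)) hF hG⟩

/-- the bound for near pairs -/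
noncomputable def nb (p q : ℕ) : ℝ := wt q ^ 2 + (3 / 4) ^ (q - p) * wt p + 1 / (q : ℝ) ^ 2

lemma nb_nonneg (p q : ℕ) : 0 ≤ nb p q := by
  have := wt_nonneg p
  unfold nb
  positivity

/-- **Near pairs conditionally on the first digits.** -/
theorem near_F (hPV : Pool.Agent.N176.OW.S_PV) (hSV : Pool.Agent.N136.OW.S_SV2) {δ : ℝ}
    (hδ0 : 0 ≤ δ) (hδ : δ < 1 / 4) {e A : ℕ → ℕ} (hD : Dig δ e A) :
    ∃ K : ℝ, 0 < K ∧ ∃ P : ℕ, 1 ≤ P ∧ ∀ q ≥ P, ∀ p : ℕ, p < q → cr δ * q ≤ p →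
      ∀ k : ℕ, (k : ℝ) ≤ cr δ * p → ∀ F : ℕ → ℝ, (∀ j, 0 ≤ F j) →
      avg (e q) (fun j => F (j / 2 ^ (e q - k)) *
        (ind p (A p + j / 2 ^ (e q - e p)) * ind q (A q + j))) ≤ K * nb p q * avg k F := by
  obtain ⟨K1, hK1, P1, hP11, hfar⟩ := far_F hPV hδ0 hδ hD
  have hcr := cr_pos hδ
  have hδ' : δ + cr δ < 1 / 4 := by unfold cr; linarith
  obtain ⟨K2, hK2, P2, hP21, hnear⟩ := near_loc hSV hδ' hcr
  have hq : Tendsto (fun q : ℕ => (q : ℝ)) atTop atTop := tendsto_natCast_atTop_atTop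
  obtain ⟨P3, hP3⟩ := (hq.eventually_ge_atTop ((P1 + 20) / cr δ)).exists_forall_of_atTop
  have hkc := kc_pos
  refine ⟨K2 + 2 * (kc + K1) + (1 / cr δ ^ 2 + 1), by positivity, P2 + P3, by omega,
    fun q hqP p hpq hp k hk F hF => ?_⟩
  have hqr := hP3 q (by omega)
  rw [div_le_iff₀ hcr] at hqr
  have hpr : (P1 : ℝ) + 20 ≤ p := by linarith
  have hpP1 : P1 + 20 ≤ p := by exact_mod_cast hpr
  have hq0 : (0 : ℝ) < q := by exact_mod_cast (by omega : 0 < q)
  have hp0 : (0 : ℝ) < p := by exact_mod_cast (by omega : 0 < p)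
  obtain ⟨hkp, hfp⟩ := hfar p (by omega) k hk
  have hmono := hD.mono p q hpq.le
  have hslope := hD.slope p q hpq.le
  have hkq : k ≤ e q := hkp.trans hmono
  rw [avg_split hkq F (fun j => ind p (A p + j / 2 ^ (e q - e p)) * ind q (A q + j)),
    ← avg_const_mul]
  apply avg_mono
  intro i hi
  rw [mul_comm (_ * _) (F i)]
  apply mul_le_mul_of_nonneg_left _ (hF i)
  have hpow1 : (i + 1) * 2 ^ (e p - k) ≤ 2 ^ e p := by
    have h4 : 2 ^ (e p) = 2 ^ k * 2 ^ (e p - k) := by rw [← pow_add]; congr 1; omega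
    rw [h4]
    exact Nat.mul_le_mul_right _ hi
  have hpow2 : (i + 1) * 2 ^ (e q - k) ≤ 2 ^ e q := by
    have h4 : 2 ^ (e q) = 2 ^ k * 2 ^ (e q - k) := by rw [← pow_add]; congr 1; omega
    rw [h4]
    exact Nat.mul_le_mul_right _ hi
  have hlowp := hD.low p
  have hlowq := hD.low q
  have hupp := hD.Aup p (by omega)
  have hupq := hD.Aup q (by omega)
  have hmain := hnear q (by omega) p hpq hp (e p - k) (e q - k) (A p + i * 2 ^ (e p - k))
    (A q + i * 2 ^ (e q - k)) (by omega) (by omega) (by have := hD.le p (by omega); omega)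
    (by have := hD.le q (by omega); omega)
    (by
      rw [Nat.cast_sub hkp]
      linarith)
    (by
      rw [Nat.cast_sub hkq]
      have : cr δ * p ≤ cr δ * q := mul_le_mul_of_nonneg_left (by exact_mod_cast hpq.le) hcr.le
      linarith)
    ((hD.Alow p (by omega)).trans (Nat.le_add_right _ _))
    (by
      calc A p + i * 2 ^ (e p - k) + 2 ^ (e p - k) = A p + (i + 1) * 2 ^ (e p - k) := by ring
        _ ≤ A p + 2 ^ e p := Nat.add_le_add_left hpow1 _
        _ ≤ 2 ^ p := hupp)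
    ((hD.Alow q (by omega)).trans (Nat.le_add_right _ _))
    (by
      calc A q + i * 2 ^ (e q - k) + 2 ^ (e q - k) = A q + (i + 1) * 2 ^ (e q - k) := by ring
        _ ≤ A q + 2 ^ e q := Nat.add_le_add_left hpow2 _
        _ ≤ 2 ^ q := hupq)
  have hsub : e q - k - (e p - k) = e q - e p := by omega
  rw [hsub] at hmain
  have hcongr : avg (e q - k) (fun t => ind p (A p + (i * 2 ^ (e q - k) + t) / 2 ^ (e q - e p)) *
      ind q (A q + (i * 2 ^ (e q - k) + t))) =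
      avg (e q - k) (fun j => ind p (A p + i * 2 ^ (e p - k) + j / 2 ^ (e q - e p)) *
        ind q (A q + i * 2 ^ (e q - k) + j)) := by
    congr 1
    ext t
    have h4 : 2 ^ (e q - k) = 2 ^ (e p - k) * 2 ^ (e q - e p) := by
      rw [← pow_add]; congr 1; omega
    have h5 : (i * 2 ^ (e q - k) + t) / 2 ^ (e q - e p) =
        i * 2 ^ (e p - k) + t / 2 ^ (e q - e p) := by
      rw [h4, ← mul_assoc, Nat.add_comm, Nat.add_mul_div_right _ _ (by positivity), Nat.add_comm]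
    rw [h5, add_assoc, add_assoc]
  rw [hcongr]
  refine hmain.trans ?_
  -- the mean of the first factor in the cell
  have hcell : avg (e p - k) (fun j => ind p (A p + i * 2 ^ (e p - k) + j)) ≤ (kc + K1) * wt p := by
    have h4 := (abs_le.1 (hfp (fun l => if l = i then 1 else 0) (fun j => by
      split_ifs <;> norm_num))).2
    have h5 := avg_ind hkp (fun j => ind p (A p + j)) hi
    have h6 : avg k (fun l => if l = i then (1 : ℝ) else 0) = (2 ^ k)⁻¹ := by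
      unfold avg
      rw [Finset.sum_ite_eq' (Finset.range (2 ^ k)) i, if_pos (Finset.mem_range.2 hi), one_div]
    rw [h5, h6] at h4
    have h7 : avg (e p - k) (fun j => ind p (A p + i * 2 ^ (e p - k) + j)) =
        avg (e p - k) (fun t => ind p (A p + (i * 2 ^ (e p - k) + t))) := by
      congr 1
      ext t
      rw [add_assoc]
    rw [h7]
    set a := avg (e p - k) (fun t => ind p (A p + (i * 2 ^ (e p - k) + t))) with ha
    have h8 : (0 : ℝ) < (2 ^ k)⁻¹ := by positivity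
    have h9 : (2 ^ k : ℝ)⁻¹ * a ≤ (2 ^ k)⁻¹ * (kc * wt p + K1 / p) := by linarith
    have h10 := le_of_mul_le_mul_left h9 h8
    have h11 : K1 / p ≤ K1 * wt p := by
      rw [div_eq_mul_one_div]
      exact mul_le_mul_of_nonneg_left (inv_le_wt (by omega)) hK1.le
    linarith
  have hpow := inv_pow_le hδ hD hpq.le
  have hwp := wt_nonneg p
  have hcell0 : 0 ≤ avg (e p - k) (fun j => ind p (A p + i * 2 ^ (e p - k) + j)) :=
    avg_nonneg fun _ _ => ind_nonneg _ _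
  have h1 : ((2 : ℝ) ^ (e q - e p))⁻¹ * avg (e p - k) (fun j => ind p (A p + i * 2 ^ (e p - k) + j)) ≤
      2 * (kc + K1) * ((3 / 4) ^ (q - p) * wt p) := by
    calc _ ≤ (2 * (3 / 4) ^ (q - p)) * ((kc + K1) * wt p) :=
          mul_le_mul hpow hcell hcell0 (by positivity)
      _ = _ := by ring
  have h2 : 1 / (p : ℝ) ^ 2 + 1 / (q : ℝ) ^ 2 ≤ (1 / cr δ ^ 2 + 1) * (1 / (q : ℝ) ^ 2) := by
    have h6 : 1 / (p : ℝ) ^ 2 ≤ 1 / (cr δ * q) ^ 2 := by gcongr
    have h7 : 1 / (cr δ * (q : ℝ)) ^ 2 = 1 / cr δ ^ 2 * (1 / q ^ 2) := by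
      rw [mul_pow]
      field_simp
    rw [h7] at h6
    linarith
  have h3 : 0 ≤ (3 / 4 : ℝ) ^ (q - p) * wt p := by positivity
  have h4 : 0 ≤ wt q ^ 2 := by positivity
  have h5 : 0 ≤ 1 / (q : ℝ) ^ 2 := by positivity
  have h6 : 0 ≤ 1 / cr δ ^ 2 := by positivity
  unfold nb
  set x := (3 / 4 : ℝ) ^ (q - p) * wt p with hx
  set y := wt q ^ 2 with hy
  set z := 1 / (q : ℝ) ^ 2 with hz
  set w := 1 / cr δ ^ 2 with hw
  have e1 : (K2 + 2 * (kc + K1) + (w + 1)) * (y + x + z) =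
      K2 * y + 2 * (kc + K1) * x + (w + 1) * z + (K2 * (x + z) + 2 * (kc + K1) * (y + z) +
        (w + 1) * (y + x)) := by ring
  have e2 : 0 ≤ K2 * (x + z) + 2 * (kc + K1) * (y + z) + (w + 1) * (y + x) := by positivity
  rw [e1]
  linarith

end Pool.Agent.K9h18.HS
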