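import Mathlib

set_option autoImplicit false

/-!
# From generating functions to frequencies
-/

open Finset Filter Topology

namespace Pool.Agent.K9h18.HS

/-- the functions `s ^ x` and their means for a Poisson variable -/
noncomputable def pureE (lam : ℝ) (s : ℚ) : (ℕ → ℝ) × ℝ :=
  (fun x => (s : ℝ) ^ x, Real.exp (-(lam * (1 - s))))

/-- the indicator of `j` and its mean for a Poisson variable -/
noncomputable def indE (lam : ℝ) (j : ℕ) : (ℕ → ℝ) × ℝ :=
  (fun x => if x = j then 1 else 0, Real.exp (-lam) * lam ^ j / j.factorial)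

/-- the span of the pure elements -/
noncomputable def Sp (lam : ℝ) : Submodule ℝ ((ℕ → ℝ) × ℝ) :=
  Submodule.span ℝ {x | ∃ s : ℚ, 0 ≤ s ∧ s ≤ 1 ∧ x = pureE lam s}

lemma poisson_tail {lam s : ℝ} (hl : 0 ≤ lam) (hs0 : 0 ≤ s) (hs1 : s ≤ 1) (j : ℕ) :
    |Real.exp (-(lam * (1 - s))) - ∑ i ∈ range (j + 1), s ^ i * (indE lam i).2| ≤ s ^ (j + 1) := by
  have h1 : HasSum (fun i : ℕ => (lam * s) ^ i / (i.factorial : ℝ)) (Real.exp (lam * s)) := by
    rw [Real.exp_eq_exp_ℝ]
    exact NormedSpace.expSeries_div_hasSum_exp (lam * s)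
  have h2 : HasSum (fun i : ℕ => s ^ i * (indE lam i).2) (Real.exp (-(lam * (1 - s)))) := by
    have h3 := h1.mul_left (Real.exp (-lam))
    have h4 : Real.exp (-lam) * Real.exp (lam * s) = Real.exp (-(lam * (1 - s))) := by
      rw [← Real.exp_add]
      congr 1
      ring
    rw [h4] at h3
    have h5 : (fun i : ℕ => s ^ i * (indE lam i).2) =
        fun i : ℕ => Real.exp (-lam) * ((lam * s) ^ i / (i.factorial : ℝ)) := by
      funext i
      unfold indE
      simp only
      rw [mul_pow]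
      ring
    rw [h5]
    exact h3
  have h0 : HasSum (fun i : ℕ => (indE lam i).2) 1 := by
    have h3 : HasSum (fun i : ℕ => lam ^ i / (i.factorial : ℝ)) (Real.exp lam) := by
      rw [Real.exp_eq_exp_ℝ]
      exact NormedSpace.expSeries_div_hasSum_exp lam
    have h4 := h3.mul_left (Real.exp (-lam))
    rw [← Real.exp_add, neg_add_cancel, Real.exp_zero] at h4
    have h5 : (fun i : ℕ => (indE lam i).2) =
        fun i : ℕ => Real.exp (-lam) * (lam ^ i / (i.factorial : ℝ)) := by
      funext i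
      unfold indE
      simp only
      ring
    rw [h5]
    exact h4
  have hnn : ∀ i, 0 ≤ (indE lam i).2 := fun i => by
    unfold indE
    simp only
    positivity
  have h3 := (hasSum_nat_add_iff' (j + 1)).2 h2
  have h30 := (hasSum_nat_add_iff' (j + 1)).2 h0
  have h4 : 0 ≤ Real.exp (-(lam * (1 - s))) - ∑ i ∈ range (j + 1), s ^ i * (indE lam i).2 :=
    h3.nonneg fun i => mul_nonneg (by positivity) (hnn _)
  rw [abs_of_nonneg h4]
  have h5 := h30.mul_left (s ^ (j + 1))
  have h6 : Real.exp (-(lam * (1 - s))) - ∑ i ∈ range (j + 1), s ^ i * (indE lam i).2 ≤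
      s ^ (j + 1) * (1 - ∑ i ∈ range (j + 1), (indE lam i).2) := by
    refine hasSum_le (fun i => ?_) h3 h5
    apply mul_le_mul_of_nonneg_right _ (hnn _)
    exact pow_le_pow_of_le_one hs0 hs1 (by omega)
  have h7 : s ^ (j + 1) * (1 - ∑ i ∈ range (j + 1), (indE lam i).2) ≤ s ^ (j + 1) * 1 := by
    apply mul_le_mul_of_nonneg_left _ (by positivity)
    have := Finset.sum_nonneg fun i (_ : i ∈ range (j + 1)) => hnn i
    linarith
  linarith

lemma approx_ind {lam : ℝ} (hl : 0 ≤ lam) (j : ℕ) : ∀ ε : ℝ, 0 < ε → ∃ y ∈ Sp lam,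
    (∀ x, |(indE lam j).1 x - y.1 x| ≤ ε) ∧ |(indE lam j).2 - y.2| ≤ ε := by
  induction j using Nat.strong_induction_on with
  | _ j ih =>
    intro ε hε
    obtain ⟨n, hn⟩ := exists_nat_one_div_lt (show 0 < ε / 2 by positivity)
    set s : ℚ := 1 / (n + 1) with hs
    have hsr : (s : ℝ) = 1 / ((n : ℝ) + 1) := by rw [hs]; push_cast; rfl
    have hs0 : (0 : ℝ) < s := by rw [hsr]; positivity
    have hs1 : (s : ℝ) ≤ 1 := by
      rw [hsr, div_le_one (by positivity)]
      have : (0 : ℝ) ≤ n := by positivity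
      linarith
    have hse : (s : ℝ) ≤ ε / 2 := by rw [hsr]; exact hn.le
    have hsj : (0 : ℝ) < (s : ℝ) ^ j := by positivity
    set ε' := ε * (s : ℝ) ^ j / (2 * (j + 1)) with hε'
    have hε'0 : 0 < ε' := by positivity
    have h1 : ∀ i : ℕ, ∃ y ∈ Sp lam, i < j →
        (∀ x, |(indE lam i).1 x - y.1 x| ≤ ε') ∧ |(indE lam i).2 - y.2| ≤ ε' := by
      intro i
      by_cases hi : i < j
      · obtain ⟨y, hy, h2⟩ := ih i hi ε' hε'0
        exact ⟨y, hy, fun _ => h2⟩
      · exact ⟨0, Submodule.zero_mem _, fun h => absurd h hi⟩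
    choose y hy hyb using h1
    set z : (ℕ → ℝ) × ℝ := ((s : ℝ) ^ j)⁻¹ • (pureE lam s - ∑ i ∈ range j, ((s : ℝ) ^ i) • y i)
      with hz
    have hz1 : ∀ x, z.1 x = ((s : ℝ) ^ j)⁻¹ * ((s : ℝ) ^ x - ∑ i ∈ range j, (s : ℝ) ^ i * (y i).1 x) := by
      intro x
      rw [hz]
      simp [pureE, Prod.fst_sum, Finset.sum_apply]
    have hz2 : z.2 = ((s : ℝ) ^ j)⁻¹ * (Real.exp (-(lam * (1 - s))) -
        ∑ i ∈ range j, (s : ℝ) ^ i * (y i).2) := by
      rw [hz]
      simp [pureE, Prod.snd_sum]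
    have hsp : (s : ℝ) ^ (j + 1) = s ^ j * s := pow_succ _ _
    -- the error of the approximations
    have herr : ∀ (u w : ℕ → ℝ), (∀ i < j, |u i - w i| ≤ ε') →
        |∑ i ∈ range j, (s : ℝ) ^ i * u i - ∑ i ∈ range j, (s : ℝ) ^ i * w i| ≤
          (s : ℝ) ^ j * (ε / 2) := by
      intro u w huw
      rw [← Finset.sum_sub_distrib]
      refine (Finset.abs_sum_le_sum_abs _ _).trans ?_
      have h2 : ∀ i ∈ range j, |(s : ℝ) ^ i * u i - (s : ℝ) ^ i * w i| ≤ ε' := by
        intro i hi
        rw [← mul_sub, abs_mul, abs_of_pos (by positivity : 0 < (s : ℝ) ^ i)]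
        have h3 := huw i (Finset.mem_range.1 hi)
        have h4 : (s : ℝ) ^ i ≤ 1 := pow_le_one₀ hs0.le hs1
        calc (s : ℝ) ^ i * |u i - w i| ≤ 1 * ε' :=
              mul_le_mul h4 h3 (abs_nonneg _) zero_le_one
          _ = ε' := one_mul _
      refine (Finset.sum_le_sum h2).trans ?_
      rw [Finset.sum_const, Finset.card_range, nsmul_eq_mul, hε']
      rw [mul_div_assoc', div_le_iff₀ (by positivity)]
      have h3 : 0 ≤ ε * (s : ℝ) ^ j := by positivity
      have h4 : (0 : ℝ) ≤ j := by positivity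
      nlinarith
    refine ⟨z, ?_, fun x => ?_, ?_⟩
    · refine Submodule.smul_mem _ _ (Submodule.sub_mem _ (Submodule.subset_span ⟨s, ?_, ?_, rfl⟩) ?_)
      · exact_mod_cast hs0.le
      · exact_mod_cast hs1
      · exact Submodule.sum_mem _ fun i _ => Submodule.smul_mem _ _ (hy i)
    · rw [hz1]
      have h2 := herr (fun i => (indE lam i).1 x) (fun i => (y i).1 x) fun i hi => (hyb i hi).1 x
      have h3 : |(s : ℝ) ^ j * (indE lam j).1 x - ((s : ℝ) ^ x -
          ∑ i ∈ range j, (s : ℝ) ^ i * (indE lam i).1 x)| ≤ (s : ℝ) ^ j * (ε / 2) := by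
        have h4 : ∑ i ∈ range j, (s : ℝ) ^ i * (indE lam i).1 x = if x < j then (s : ℝ) ^ x else 0 := by
          unfold indE
          simp only [mul_ite, mul_one, mul_zero]
          rw [Finset.sum_ite_eq (range j) x]
          simp only [Finset.mem_range]
        rw [h4]
        unfold indE
        simp only
        by_cases h5 : x < j
        · rw [if_pos h5, if_neg (by omega), mul_zero, sub_self, sub_zero, abs_zero]
          positivity
        · rw [if_neg h5, sub_zero]
          by_cases h6 : x = j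
          · rw [if_pos h6, h6, mul_one, sub_self, abs_zero]
            positivity
          · rw [if_neg h6, mul_zero, zero_sub, abs_neg, abs_of_pos (by positivity)]
            calc (s : ℝ) ^ x ≤ (s : ℝ) ^ (j + 1) := pow_le_pow_of_le_one hs0.le hs1 (by omega)
              _ = (s : ℝ) ^ j * s := hsp
              _ ≤ (s : ℝ) ^ j * (ε / 2) := by gcongr
      have h4 : (indE lam j).1 x - ((s : ℝ) ^ j)⁻¹ * ((s : ℝ) ^ x -
          ∑ i ∈ range j, (s : ℝ) ^ i * (y i).1 x) = ((s : ℝ) ^ j)⁻¹ *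
          (((s : ℝ) ^ j * (indE lam j).1 x - ((s : ℝ) ^ x -
          ∑ i ∈ range j, (s : ℝ) ^ i * (indE lam i).1 x)) -
          (∑ i ∈ range j, (s : ℝ) ^ i * (indE lam i).1 x -
            ∑ i ∈ range j, (s : ℝ) ^ i * (y i).1 x)) := by
        field_simp
        ring
      rw [h4, abs_mul, abs_of_pos (by positivity : 0 < ((s : ℝ) ^ j)⁻¹)]
      have h5 := abs_sub ((s : ℝ) ^ j * (indE lam j).1 x - ((s : ℝ) ^ x -
          ∑ i ∈ range j, (s : ℝ) ^ i * (indE lam i).1 x)) (∑ i ∈ range j, (s : ℝ) ^ i * (indE lam i).1 x -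
            ∑ i ∈ range j, (s : ℝ) ^ i * (y i).1 x)
      rw [inv_mul_le_iff₀ hsj]
      linarith
    · rw [hz2]
      have h2 := herr (fun i => (indE lam i).2) (fun i => (y i).2) fun i hi => (hyb i hi).2
      have h3 := poisson_tail hl hs0.le hs1 j
      rw [Finset.sum_range_succ, hsp] at h3
      have h4 : (indE lam j).2 - ((s : ℝ) ^ j)⁻¹ * (Real.exp (-(lam * (1 - s))) -
          ∑ i ∈ range j, (s : ℝ) ^ i * (y i).2) = ((s : ℝ) ^ j)⁻¹ *
          (-(Real.exp (-(lam * (1 - s))) - (∑ i ∈ range j, (s : ℝ) ^ i * (indE lam i).2 +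
            (s : ℝ) ^ j * (indE lam j).2)) -
          (∑ i ∈ range j, (s : ℝ) ^ i * (indE lam i).2 - ∑ i ∈ range j, (s : ℝ) ^ i * (y i).2)) := by
        field_simp
        ring
      rw [h4, abs_mul, abs_of_pos (by positivity : 0 < ((s : ℝ) ^ j)⁻¹), inv_mul_le_iff₀ hsj]
      refine (abs_sub _ _).trans ?_
      rw [abs_neg]
      have h5 : (s : ℝ) ^ j * s ≤ (s : ℝ) ^ j * (ε / 2) := by gcongr
      linarith

/-- convergence of the averages -/
def LimG (N : ℕ → ℕ) (r : ℕ) (G : ℕ → (ℕ → ℝ) × ℝ) : Prop :=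
  Tendsto (fun M : ℕ => (∑ m ∈ range M, ∏ i ∈ range (r + 1), (G i).1 (N (m + i))) / M) atTop
    (𝓝 (∏ i ∈ range (r + 1), (G i).2))

lemma indE_bd {lam : ℝ} (hl : 0 ≤ lam) (j : ℕ) : (∀ x, |(indE lam j).1 x| ≤ 1) ∧ |(indE lam j).2| ≤ 1 := by
  constructor
  · intro x
    unfold indE
    simp only
    split_ifs <;> norm_num
  · unfold indE
    simp only
    rw [abs_of_nonneg (by positivity)]
    have h1 : lam ^ j / j.factorial ≤ Real.exp lam := Real.pow_div_factorial_le_exp lam hl j
    calc Real.exp (-lam) * lam ^ j / j.factorial = Real.exp (-lam) * (lam ^ j / j.factorial) := by ring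
      _ ≤ Real.exp (-lam) * Real.exp lam := by gcongr
      _ = 1 := by rw [← Real.exp_add, neg_add_cancel, Real.exp_zero]

lemma pureE_bd {lam : ℝ} (hl : 0 ≤ lam) {s : ℚ} (h0 : 0 ≤ s) (h1 : s ≤ 1) :
    (∀ x, |(pureE lam s).1 x| ≤ 1) ∧ |(pureE lam s).2| ≤ 1 := by
  have h0' : (0 : ℝ) ≤ s := by exact_mod_cast h0
  have h1' : (s : ℝ) ≤ 1 := by exact_mod_cast h1
  constructor
  · intro x
    unfold pureE
    simp only
    rw [abs_of_nonneg (by positivity)]
    exact pow_le_one₀ h0' h1'
  · unfold pureE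
    simp only
    rw [abs_of_pos (Real.exp_pos _), Real.exp_le_one_iff, neg_nonpos]
    exact mul_nonneg hl (by linarith)

lemma replace {N : ℕ → ℕ} {r t : ℕ} (ht : t < r + 1) {lam : ℝ} (hl : 0 ≤ lam) {G : ℕ → (ℕ → ℝ) × ℝ}
    (hb : ∀ i, (∀ x, |(G i).1 x| ≤ 1) ∧ |(G i).2| ≤ 1)
    (hp : ∀ s : ℚ, 0 ≤ s → s ≤ 1 → LimG N r (Function.update G t (pureE lam s))) (j : ℕ) :
    LimG N r (Function.update G t (indE lam j)) := by
  classical
  set a : ℕ → ℝ := fun m => ∏ i ∈ (range (r + 1)).erase t, (G i).1 (N (m + i)) with ha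
  set b : ℝ := ∏ i ∈ (range (r + 1)).erase t, (G i).2 with hb'
  have ha1 : ∀ m, |a m| ≤ 1 := by
    intro m
    simp only [ha]
    rw [Finset.abs_prod]
    exact Finset.prod_le_one (fun _ _ => abs_nonneg _) fun i _ => (hb i).1 _
  have hb1 : |b| ≤ 1 := by
    rw [hb', Finset.abs_prod]
    exact Finset.prod_le_one (fun _ _ => abs_nonneg _) fun i _ => (hb i).2
  have htm : t ∈ range (r + 1) := Finset.mem_range.2 ht
  have e1 : ∀ (x : (ℕ → ℝ) × ℝ) (m : ℕ), ∏ i ∈ range (r + 1),
      (Function.update G t x i).1 (N (m + i)) = x.1 (N (m + t)) * a m := by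
    intro x m
    rw [← Finset.mul_prod_erase _ _ htm, Function.update_self]
    congr 1
    refine Finset.prod_congr rfl fun i hi => ?_
    rw [Function.update_of_ne (Finset.ne_of_mem_erase hi)]
  have e2 : ∀ x : (ℕ → ℝ) × ℝ, ∏ i ∈ range (r + 1), (Function.update G t x i).2 = x.2 * b := by
    intro x
    rw [← Finset.mul_prod_erase _ _ htm, Function.update_self]
    congr 1
    refine Finset.prod_congr rfl fun i hi => ?_
    rw [Function.update_of_ne (Finset.ne_of_mem_erase hi)]
  have e3 : ∀ x : (ℕ → ℝ) × ℝ, LimG N r (Function.update G t x) ↔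
      Tendsto (fun M : ℕ => (∑ m ∈ range M, x.1 (N (m + t)) * a m) / M) atTop (𝓝 (x.2 * b)) := by
    intro x
    unfold LimG
    simp only [e1, e2]
  rw [e3]
  -- the span
  have hspan : ∀ y ∈ Sp lam,
      Tendsto (fun M : ℕ => (∑ m ∈ range M, y.1 (N (m + t)) * a m) / M) atTop (𝓝 (y.2 * b)) := by
    intro y hy
    refine Submodule.span_induction (p := fun y _ =>
      Tendsto (fun M : ℕ => (∑ m ∈ range M, y.1 (N (m + t)) * a m) / M) atTop (𝓝 (y.2 * b)))
      ?_ ?_ ?_ ?_ hy
    · rintro x ⟨s, h0, h1, rfl⟩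
      exact (e3 _).1 (hp s h0 h1)
    · simp
    · intro x y _ _ hx hy
      have h := hx.add hy
      have e : (x + y).2 * b = x.2 * b + y.2 * b := by
        rw [Prod.snd_add]
        ring
      rw [e]
      refine h.congr fun M => ?_
      rw [← add_div, ← Finset.sum_add_distrib]
      congr 1
      refine Finset.sum_congr rfl fun m _ => ?_
      rw [Prod.fst_add, Pi.add_apply]
      ring
    · intro c x _ hx
      have h := hx.const_mul c
      have e : (c • x).2 * b = c * (x.2 * b) := by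
        rw [Prod.smul_snd, smul_eq_mul]
        ring
      rw [e]
      refine h.congr fun M => ?_
      rw [mul_div_assoc', Finset.mul_sum]
      congr 1
      refine Finset.sum_congr rfl fun m _ => ?_
      rw [Prod.smul_fst, Pi.smul_apply, smul_eq_mul]
      ring
  rw [Metric.tendsto_atTop]
  intro ε hε
  obtain ⟨y, hy, hy1, hy2⟩ := approx_ind hl j (ε / 4) (by positivity)
  obtain ⟨M0, hM0⟩ := Metric.tendsto_atTop.1 (hspan y hy) (ε / 4) (by positivity)
  refine ⟨M0 + 1, fun M hM => ?_⟩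
  have h1 := hM0 M (by omega)
  rw [Real.dist_eq] at h1 ⊢
  have hMp : (0 : ℝ) < M := by exact_mod_cast (by omega : 0 < M)
  have h2 : |(∑ m ∈ range M, (indE lam j).1 (N (m + t)) * a m) / M -
      (∑ m ∈ range M, y.1 (N (m + t)) * a m) / M| ≤ ε / 4 := by
    rw [← sub_div, ← Finset.sum_sub_distrib, abs_div, abs_of_pos hMp, div_le_iff₀ hMp]
    refine (Finset.abs_sum_le_sum_abs _ _).trans ?_
    have h3 : ∀ m ∈ range M, |(indE lam j).1 (N (m + t)) * a m - y.1 (N (m + t)) * a m| ≤ ε / 4 := by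
      intro m _
      rw [← sub_mul, abs_mul]
      calc _ ≤ ε / 4 * 1 := mul_le_mul (hy1 _) (ha1 m) (abs_nonneg _) (by positivity)
        _ = ε / 4 := mul_one _
    refine (Finset.sum_le_sum h3).trans ?_
    rw [Finset.sum_const, Finset.card_range, nsmul_eq_mul, mul_comm]
  have h3 : |y.2 * b - (indE lam j).2 * b| ≤ ε / 4 := by
    rw [← sub_mul, abs_mul, abs_sub_comm]
    calc _ ≤ ε / 4 * 1 := mul_le_mul hy2 hb1 (abs_nonneg _) (by positivity)
      _ = ε / 4 := mul_one _
  have h4 := abs_sub_le ((∑ m ∈ range M, (indE lam j).1 (N (m + t)) * a m) / M)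
    ((∑ m ∈ range M, y.1 (N (m + t)) * a m) / M) ((indE lam j).2 * b)
  have h5 := abs_sub_le ((∑ m ∈ range M, y.1 (N (m + t)) * a m) / M) (y.2 * b) ((indE lam j).2 * b)
  linarith

/-- **From generating functions to frequencies.** -/
theorem freq {N : ℕ → ℕ} {lam : ℝ} (hl : 0 ≤ lam) (r : ℕ)
    (h : ∀ s : ℕ → ℚ, (∀ i, 0 ≤ s i ∧ s i ≤ 1) → LimG N r (fun i => pureE lam (s i))) (j : ℕ → ℕ) :
    LimG N r (fun i => indE lam (j i)) := by
  classical
  have key : ∀ t ≤ r + 1, ∀ s : ℕ → ℚ, (∀ i, 0 ≤ s i ∧ s i ≤ 1) →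
      LimG N r (fun i => if i < t then indE lam (j i) else pureE lam (s i)) := by
    intro t
    induction t with
    | zero =>
      intro _ s hs
      simp only [not_lt_zero, if_false]
      exact h s hs
    | succ t ih =>
      intro ht s hs
      set G : ℕ → (ℕ → ℝ) × ℝ := fun i => if i < t then indE lam (j i) else pureE lam (s i) with hG
      have h1 := replace (N := N) (r := r) (t := t) (by omega) hl (G := G) (fun i => by
          simp only [hG]
          split_ifs
          · exact indE_bd hl _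
          · exact pureE_bd hl (hs i).1 (hs i).2) (fun s' h0 h1 => by
          have h2 := ih (by omega) (Function.update s t s') (fun i => by
            by_cases hi : i = t
            · subst hi
              rw [Function.update_self]
              exact ⟨h0, h1⟩
            · rw [Function.update_of_ne hi]
              exact hs i)
          convert h2 using 1
          ext1 i
          by_cases hi : i = t
          · subst hi
            rw [Function.update_self, if_neg (lt_irrefl _), Function.update_self]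
          · rw [Function.update_of_ne hi, Function.update_of_ne hi]) (j t)
      convert h1 using 1
      ext1 i
      by_cases hi : i = t
      · subst hi
        rw [Function.update_self, if_pos (by omega)]
      · rw [Function.update_of_ne hi]
        simp only [hG]
        by_cases h3 : i < t
        · rw [if_pos h3, if_pos (by omega)]
        · rw [if_neg h3, if_neg (by omega)]
  have h1 := key (r + 1) le_rfl (fun _ => 0) (fun _ => ⟨le_rfl, zero_le_one⟩)
  unfold LimG at h1 ⊢
  have e1 : ∀ m : ℕ, ∏ i ∈ range (r + 1), ((if i < r + 1 then indE lam (j i) else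
      pureE lam 0) : (ℕ → ℝ) × ℝ).1 (N (m + i)) =
      ∏ i ∈ range (r + 1), (indE lam (j i)).1 (N (m + i)) := by
    intro m
    refine Finset.prod_congr rfl fun i hi => ?_
    rw [if_pos (Finset.mem_range.1 hi)]
  have e2 : ∏ i ∈ range (r + 1), ((if i < r + 1 then indE lam (j i) else
      pureE lam 0) : (ℕ → ℝ) × ℝ).2 = ∏ i ∈ range (r + 1), (indE lam (j i)).2 := by
    refine Finset.prod_congr rfl fun i hi => ?_
    rw [if_pos (Finset.mem_range.1 hi)]
  simp only [e1, e2] at h1
  exact h1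

end Pool.Agent.K9h18.HS
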