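import Pool.Agent.K9h18.HS.NearB
import Pool.Agent.TH888.R.Asy

set_option autoImplicit false

/-!
# The law with square root error term from bounded row sums
-/

open Finset Filter Topology MeasureTheory Asymptotics

namespace Pool.Agent.K9h18.HS

open Pool.Agent.H305R2 (roughPart)
open Pool.Agent.TH888.R (wt wt_nonneg wt_le_one VS FS VS_mono VS_nonneg gr gr_mono one_le_gr gr_small
  blocks div_tail VS_univ_bound cS)
open Pool.Agent.W66S (moment_rows)

variable {Ω : Type*} [MeasurableSpace Ω]

/-- events of probability about `κ wt q`, nearly independent: the row sums of the correlation matrix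
are bounded by the diagonal -/
structure Rows (μ : Measure Ω) (f : ℕ → Ω → ℝ) (κ : ℝ) : Prop where
  κ0 : 0 < κ
  fm : ∀ q, Measurable (f q)
  f01 : ∀ q x, f q x = 0 ∨ f q x = 1
  one : ∃ K : ℝ, 0 ≤ K ∧ ∃ P : ℕ, ∀ q ≥ P, q.Prime → ∫ x, f q x ∂μ ≤ K * wt q
  row : ∃ C : ℝ, 0 < C ∧ ∃ P : ℕ, ∀ q ≥ P, q.Prime →
    ∫ x, (f q x - κ * wt q) ^ 2 ∂μ ≤ C * wt q ∧
    ∀ T : Finset ℕ, (∀ p ∈ T, p.Prime ∧ P ≤ p ∧ p < q) →
      ∑ p ∈ T, |∫ x, (f p x - κ * wt p) * (f q x - κ * wt q) ∂μ| ≤ C * wt q

section

variable {μ : Measure Ω} [IsFiniteMeasure μ] {f : ℕ → Ω → ℝ} {κ : ℝ}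

lemma Rows.f0 (h : Rows μ f κ) (q : ℕ) (x : Ω) : 0 ≤ f q x := by
  rcases h.f01 q x with h1 | h1 <;> rw [h1]
  norm_num

lemma Rows.f1 (h : Rows μ f κ) (q : ℕ) (x : Ω) : f q x ≤ 1 := by
  rcases h.f01 q x with h1 | h1 <;> rw [h1]
  norm_num

lemma wt_small {κ : ℝ} (hκ : 0 < κ) : ∀ᶠ q : ℕ in atTop, κ * wt q ≤ 1 := by
  have h1 := (Real.isLittleO_log_id_atTop).bound (show (0 : ℝ) < 1 / κ by positivity)
  have h2 : ∀ᶠ x : ℝ in atTop, κ * (Real.log x / x) ≤ 1 := by
    filter_upwards [h1, eventually_ge_atTop 1] with x hx hx1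
    rw [Real.norm_of_nonneg (Real.log_nonneg hx1), id, Real.norm_of_nonneg (by linarith),
      one_div_mul_eq_div, le_div_iff₀ hκ] at hx
    rw [mul_div_assoc', div_le_one (by linarith)]
    linarith
  exact tendsto_natCast_atTop_atTop.eventually h2

open Classical in
/-- **The law with error term for a set of primes.** -/
theorem Rows.law (h : Rows μ f κ) (S : Set ℕ) (hdiv : Tendsto (VS S) atTop atTop) :
    ∀ᵐ x ∂μ, ∃ B : ℝ, 0 ≤ B ∧ ∀ n : ℕ, |FS f S n x - κ * VS S n| ≤ B * gr (VS S n) := by
  obtain ⟨C, hC, P1, hrow⟩ := h.row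
  obtain ⟨P2, hP2⟩ := eventually_atTop.1 (wt_small h.κ0)
  set P := P1 + P2 with hP
  set cd : ℕ → Prop := fun q => q ∈ S ∧ q.Prime ∧ P ≤ q with hcd
  have hκ0 := h.κ0
  have key := blocks (μ := μ) (f := fun q x => if cd q then f q x else 0)
    (m := fun q _ => if cd q then κ * wt q else 0) (φ := fun q => if cd q then wt q else 0)
    (B0 := 1) (K := κ) (C := 3 * C)
    (fun q => by
      split_ifs
      · exact wt_nonneg q
      · exact le_rfl)
    (fun q => by
      split_ifs with hq
      · exact wt_le_one q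
      · norm_num)
    (by
      have h1 := div_tail hdiv P (fun _ => 1) (fun _ => le_rfl)
      simp only [mul_one] at h1
      exact h1) hκ0.le (by positivity)
    (fun q => by
      by_cases hq : cd q
      · simp only [if_pos hq]; exact h.fm q
      · simp only [if_neg hq]; exact measurable_const)
    (fun q => measurable_const)
    (fun q x => by
      split_ifs
      · exact h.f0 q x
      · exact le_rfl)
    (fun q x => by
      split_ifs
      · have := wt_nonneg q
        positivity
      · exact le_rfl)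
    (fun q x => by
      split_ifs with hq
      · have h1 := h.f0 q x
        have h2 := h.f1 q x
        have h3 := hP2 q (by have := hq.2.2; omega)
        have h4 : 0 ≤ κ * wt q := mul_nonneg hκ0.le (wt_nonneg q)
        rw [abs_le]
        constructor <;> linarith
      · norm_num)
    (by
      refine Eventually.of_forall fun x q => ?_
      split_ifs with hq
      · exact le_rfl
      · rw [mul_zero])
    (by
      intro a b hab
      set T := (Ico a b).filter cd with hT
      have e1 : ∀ x, ∑ q ∈ Ico a b, ((if cd q then f q x else 0) - if cd q then κ * wt q else 0) =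
          ∑ q ∈ T, (if P2 ≤ q then f q x - κ * wt q else 0) := by
        intro x
        rw [hT, Finset.sum_filter]
        refine Finset.sum_congr rfl fun q _ => ?_
        split_ifs with h1 h2 h2
        · rfl
        · have := h1.2.2
          omega
        · norm_num
      have e2 : ∑ q ∈ Ico a b, (if cd q then wt q else 0) = ∑ q ∈ T, wt q := by
        rw [hT, Finset.sum_filter]
      simp only [e1, e2]
      set G : ℕ → Ω → ℝ := fun q x => if P2 ≤ q then f q x - κ * wt q else 0 with hG
      have hGm : ∀ q, Measurable (G q) := fun q => by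
        simp only [hG]
        split_ifs
        · exact (h.fm q).sub_const _
        · exact measurable_const
      have hGb : ∀ q x, |G q x| ≤ 1 := fun q x => by
        simp only [hG]
        split_ifs with hq
        · have h1 := h.f0 q x
          have h2 := h.f1 q x
          have h3 := hP2 q hq
          have h4 : 0 ≤ κ * wt q := mul_nonneg hκ0.le (wt_nonneg q)
          rw [abs_le]
          constructor <;> linarith
        · norm_num
      refine (moment_rows (μ := μ) (G := G) hGm hGb T).trans ?_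
      rw [Finset.mul_sum]
      refine Finset.sum_le_sum fun q hq => ?_
      rw [hT, mem_filter] at hq
      have hqc := hq.2
      have hqP : P ≤ q := hqc.2.2
      obtain ⟨h1, h2⟩ := hrow q (by omega) hqc.2.1
      have h3 := h2 (T.filter (fun p => p < q)) (by
        intro p hp
        rw [mem_filter, hT, mem_filter] at hp
        exact ⟨hp.1.2.2.1, by have := hp.1.2.2.2; omega, hp.2⟩)
      have hGq : G q = fun x => f q x - κ * wt q := by
        ext x
        simp only [hG]
        rw [if_pos (by omega)]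
      have h4 : ∑ p ∈ T.filter (fun p => p < q), |∫ x, G p x * G q x ∂μ| =
          ∑ p ∈ T.filter (fun p => p < q), |∫ x, (f p x - κ * wt p) * (f q x - κ * wt q) ∂μ| := by
        refine Finset.sum_congr rfl fun p hp => ?_
        rw [mem_filter, hT, mem_filter] at hp
        have hpP := hp.1.2.2.2
        have hGp : G p = fun x => f p x - κ * wt p := by
          ext x
          simp only [hG]
          rw [if_pos (by omega)]
        rw [hGp, hGq]
      have h5 : ∫ x, (G q x) ^ 2 ∂μ = ∫ x, (f q x - κ * wt q) ^ 2 ∂μ := by rw [hGq]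
      rw [h4, h5]
      linarith)
  filter_upwards [key] with x hx
  obtain ⟨B, hB, hBn⟩ := hx
  refine ⟨B + P * (1 + κ), by positivity, fun n => ?_⟩
  have h1 := hBn (n + 1)
  have h2 : ∑ q ∈ range (n + 1), (if cd q then wt q else 0) ≤ VS S n := by
    unfold VS
    refine Finset.sum_le_sum fun q _ => ?_
    by_cases h3 : cd q
    · rw [if_pos h3, if_pos ⟨h3.1, h3.2.1⟩]
    · rw [if_neg h3]
      split_ifs
      · exact wt_nonneg q
      · exact le_rfl
  have h20 : 0 ≤ ∑ q ∈ range (n + 1), (if cd q then wt q else 0) :=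
    Finset.sum_nonneg fun q _ => by
      split_ifs
      · exact wt_nonneg q
      · exact le_rfl
  have h3 : B * gr (∑ q ∈ range (n + 1), (if cd q then wt q else 0)) ≤ B * gr (VS S n) :=
    mul_le_mul_of_nonneg_left (gr_mono h20 h2) hB
  have hdec : FS f S n x - κ * VS S n =
      (∑ q ∈ range (n + 1), ((if cd q then f q x else 0) - if cd q then κ * wt q else 0)) +
      (∑ q ∈ range (n + 1), if q ∈ S ∧ q.Prime ∧ q < P then f q x - κ * wt q else 0) := by
    unfold FS VS
    rw [Finset.mul_sum, ← Finset.sum_sub_distrib, ← Finset.sum_add_distrib]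
    refine Finset.sum_congr rfl fun q _ => ?_
    by_cases h4 : q ∈ S ∧ q.Prime
    · by_cases h5 : P ≤ q
      · have h6 : cd q := ⟨h4.1, h4.2, h5⟩
        rw [if_pos h4, if_pos h4, if_pos h6, if_pos h6, if_neg (fun h => by omega)]
        ring
      · have h6 : ¬ cd q := fun h => h5 h.2.2
        rw [if_pos h4, if_pos h4, if_neg h6, if_neg h6, if_pos ⟨h4.1, h4.2, by omega⟩]
        ring
    · have h6 : ¬ cd q := fun h => h4 ⟨h.1, h.2.1⟩
      rw [if_neg h4, if_neg h4, if_neg h6, if_neg h6, if_neg (fun h => h4 ⟨h.1, h.2.1⟩)]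
      ring
  have hCd : |∑ q ∈ range (n + 1), if q ∈ S ∧ q.Prime ∧ q < P then f q x - κ * wt q else 0| ≤
      P * (1 + κ) * gr (VS S n) := by
    have h1 : ∑ q ∈ range (n + 1), |if q ∈ S ∧ q.Prime ∧ q < P then f q x - κ * wt q else 0| ≤
        ∑ q ∈ range (n + 1), if q < P then (1 + κ) else 0 := by
      refine Finset.sum_le_sum fun q _ => ?_
      split_ifs with h2 h3 h3
      · refine (abs_sub _ _).trans ?_
        rw [abs_of_nonneg (h.f0 q x), abs_of_nonneg (mul_nonneg hκ0.le (wt_nonneg q))]
        have := h.f1 q x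
        have h7 : κ * wt q ≤ κ * 1 := mul_le_mul_of_nonneg_left (wt_le_one q) hκ0.le
        linarith
      · exact absurd h2.2.2 h3
      · rw [abs_zero]; positivity
      · rw [abs_zero]
    have h2 : ∑ q ∈ range (n + 1), (if q < P then (1 + κ) else 0) ≤ P * (1 + κ) := by
      rw [Finset.sum_ite, Finset.sum_const_zero, add_zero, Finset.sum_const, nsmul_eq_mul]
      have : ((range (n + 1)).filter (fun q => q < P)).card ≤ P := by
        calc _ ≤ (range P).card := Finset.card_le_card fun q hq => by
                rw [mem_filter] at hq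
                exact mem_range.2 hq.2
          _ = P := Finset.card_range P
      refine mul_le_mul_of_nonneg_right ?_ (by positivity)
      exact_mod_cast this
    have h3 := one_le_gr (VS_nonneg S n)
    have h4 : (0 : ℝ) ≤ P * (1 + κ) := by positivity
    calc _ ≤ _ := (Finset.abs_sum_le_sum_abs _ _).trans (h1.trans h2)
      _ ≤ _ := le_mul_of_one_le_right h4 h3
  rw [hdec]
  refine (abs_add_le _ _).trans ?_
  have e : (B + P * (1 + κ)) * gr (VS S n) = B * gr (VS S n) + P * (1 + κ) * gr (VS S n) := by ring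
  rw [e]
  linarith

open Classical in
/-- **Convergence part.** -/
theorem Rows.fin (h : Rows μ f κ) (S : Set ℕ) (hdiv : ¬ Tendsto (VS S) atTop atTop) :
    ∀ᵐ x ∂μ, {q : ℕ | q ∈ S ∧ q.Prime ∧ f q x = 1}.Finite := by
  obtain ⟨K, hK, P, hone⟩ := h.one
  set a : ℕ → ℝ := fun q => if q ∈ S ∧ q.Prime then wt q else 0 with ha
  have ha0 : ∀ q, 0 ≤ a q := by
    intro q
    simp only [ha]
    split_ifs
    · exact wt_nonneg q
    · exact le_rfl
  have hsum : Summable a := by
    rcases tendsto_atTop_of_monotone (VS_mono S) with h1 | ⟨l, hl⟩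
    · exact absurd h1 hdiv
    · refine summable_of_sum_range_le (c := l) ha0 fun n => ?_
      have h2 : VS S n ≤ l := (VS_mono _).ge_of_tendsto hl n
      refine le_trans ?_ h2
      unfold VS
      exact Finset.sum_le_sum_of_subset_of_nonneg (Finset.range_mono (by omega))
        fun q _ _ => ha0 q
  set s : ℕ → Set Ω := fun q => if q ∈ S ∧ q.Prime ∧ P ≤ q then {x | f q x = 1} else ∅ with hs
  have hμ : ∀ q, μ (s q) ≤ ENNReal.ofReal (K * a q) := by
    intro q
    simp only [hs]
    split_ifs with hq
    · have h1 : (μ.real {x | f q x = 1}) ≤ K * a q := by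
        have h2 : {x | f q x = 1}.indicator (fun _ => (1 : ℝ)) = f q := by
          ext x
          by_cases hx : f q x = 1
          · rw [Set.indicator_of_mem (by exact hx)]
            exact hx.symm
          · rw [Set.indicator_of_notMem (by exact hx)]
            rcases h.f01 q x with h3 | h3
            · exact h3.symm
            · exact absurd h3 hx
        have hms : MeasurableSet {x | f q x = 1} := h.fm q (measurableSet_singleton 1)
        have h3 : ∫ x, f q x ∂μ = μ.real {x | f q x = 1} := by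
          conv_lhs => rw [← h2]
          rw [integral_indicator_const _ hms]
          simp
        rw [← h3]
        simp only [ha]
        rw [if_pos ⟨hq.1, hq.2.1⟩]
        exact hone q hq.2.2 hq.2.1
      rw [← ofReal_measureReal]
      exact ENNReal.ofReal_le_ofReal h1
    · simp
  have hfin : ∑' q, μ (s q) ≠ ⊤ := by
    refine ne_top_of_le_ne_top ?_ (ENNReal.tsum_le_tsum hμ)
    exact (hsum.mul_left K).tsum_ofReal_ne_top
  filter_upwards [ae_finite_setOf_mem hfin] with x hx
  refine (hx.union (Set.finite_lt_nat P)).subset fun q hq => ?_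
  by_cases hqP : P ≤ q
  · left
    simp only [Set.mem_setOf_eq, hs]
    rw [if_pos ⟨hq.1, hq.2.1, hqP⟩]
    exact hq.2.2
  · right
    exact not_le.1 hqP

end

/-- the statement for one sequence of integers and one set of primes -/
structure PtR (s : ℕ → ℕ) (c : ℝ) (S : Set ℕ) : Prop where
  law : Tendsto (VS S) atTop atTop → ∃ B : ℝ, 0 ≤ B ∧ ∀ n : ℕ,
    |(cS S s n : ℝ) - c * VS S n| ≤ B * gr (VS S n)
  fin : ¬ Tendsto (VS S) atTop atTop → {p : ℕ | p.Prime ∧ p ∈ S ∧ (roughPart p (s p)).Prime}.Finite

open Classical in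
/-- **From rows to the counting function.** -/
theorem Rows.pt {μ : Measure Ω} [IsFiniteMeasure μ] {κ : ℝ} {s : Ω → ℕ → ℕ}
    (h : Rows μ (fun p x => if (roughPart p (s x p)).Prime then 1 else 0) κ) (S : Set ℕ) :
    ∀ᵐ x ∂μ, PtR (s x) κ S := by
  have hcs : ∀ x n, (cS S (s x) n : ℝ) =
      FS (fun p x => if (roughPart p (s x p)).Prime then (1 : ℝ) else 0) S n x := by
    intro x n
    unfold cS FS
    rw [Finset.card_eq_sum_ones, Finset.sum_filter]
    push_cast
    refine Finset.sum_congr rfl fun p _ => ?_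
    by_cases h1 : p ∈ S ∧ p.Prime
    · by_cases h2 : (roughPart p (s x p)).Prime
      · rw [if_pos ⟨h1.2, h1.1, h2⟩, if_pos h1, if_pos h2]
      · rw [if_neg (fun h => h2 h.2.2), if_pos h1, if_neg h2]
    · rw [if_neg (fun h => h1 ⟨h.2.1, h.1⟩), if_neg h1]
  by_cases hdiv : Tendsto (VS S) atTop atTop
  · filter_upwards [h.law S hdiv] with x hx
    obtain ⟨B, hB, hBn⟩ := hx
    refine ⟨fun _ => ⟨B, hB, fun n => ?_⟩, fun h1 => absurd hdiv h1⟩
    rw [hcs]
    exact hBn n
  · filter_upwards [h.fin S hdiv] with x hx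
    refine ⟨fun h1 => absurd h1 hdiv, fun _ => ?_⟩
    refine hx.subset fun p hp => ?_
    exact ⟨hp.2.1, hp.1, by rw [if_pos hp.2.2]⟩

lemma log_nat_top : Tendsto (fun n : ℕ => Real.log n) atTop atTop :=
  Real.tendsto_log_atTop.comp tendsto_natCast_atTop_atTop

/-- the error term -/
lemma gr_simple {u : ℝ} (hu : 4 ≤ u) : gr u ≤ 32 * (Real.sqrt u * Real.log u ^ 2) := by
  have hlu : 1 ≤ Real.log u := by
    rw [Real.le_log_iff_exp_le (by linarith)]
    have := Real.exp_one_lt_d9
    linarith
  unfold gr
  have h4 : Real.sqrt (1 + u) ≤ 2 * Real.sqrt u := by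
    rw [Real.sqrt_le_left (by positivity), mul_pow, Real.sq_sqrt (by linarith)]
    linarith
  have h5 : Real.log (1 + u) ≤ 2 + Real.log u := by
    have h6 := Real.log_le_log (by linarith) (show 1 + u ≤ 3 * u by linarith)
    rw [Real.log_mul (by norm_num) (by linarith)] at h6
    have h7 := Real.log_le_sub_one_of_pos (show (0 : ℝ) < 3 by norm_num)
    linarith
  have h6 : 0 ≤ Real.log (1 + u) := Real.log_nonneg (by linarith)
  calc Real.sqrt (1 + u) * (1 + Real.log (1 + u)) ^ 2 ≤
        2 * Real.sqrt u * (4 * Real.log u) ^ 2 := by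
        gcongr
        linarith
    _ = _ := by ring

/-- asymptotic form of the law for a set of primes -/
lemma bigO_setR {F V : ℕ → ℝ} {c B : ℝ} (hB : 0 ≤ B) (hV : Tendsto V atTop atTop)
    (h : ∀ n : ℕ, |F n - c * V n| ≤ B * gr (V n)) :
    (fun n : ℕ => F n - c * V n) =O[atTop] fun n : ℕ => Real.sqrt (V n) * Real.log (V n) ^ 2 := by
  refine IsBigO.of_bound (32 * B) ?_
  filter_upwards [hV.eventually_ge_atTop 4] with n h1
  rw [Real.norm_eq_abs, Real.norm_of_nonneg (by positivity)]
  calc |F n - c * V n| ≤ B * gr (V n) := h n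
    _ ≤ B * _ := mul_le_mul_of_nonneg_left (gr_simple h1) hB
    _ = _ := by ring

/-- asymptotic form of the law for all primes -/
lemma bigO_allR {F : ℕ → ℝ} {c B : ℝ} (hB : 0 ≤ B)
    (h : ∀ n : ℕ, |F n - c * VS Set.univ n| ≤ B * gr (VS Set.univ n)) :
    (fun n : ℕ => F n - c * Real.log n) =O[atTop] fun n : ℕ =>
      Real.sqrt (Real.log n) * (Real.log (Real.log n)) ^ 2 := by
  obtain ⟨C, hC0, hC⟩ := VS_univ_bound
  refine IsBigO.of_bound (32 * B * 2 * 4 + |c| * C) ?_
  filter_upwards [log_nat_top.eventually_ge_atTop (C + 4), eventually_ge_atTop 1] with n h1 hn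
  set l := Real.log n with hl
  have hCn := abs_le.1 (hC n hn)
  have hl4 : 4 ≤ l := by linarith
  set V := VS Set.univ n with hV
  have hV0 : 0 ≤ V := VS_nonneg _ n
  have hVl : V ≤ 2 * l := by linarith [hCn.2]
  have hll : 1 ≤ Real.log l := by
    rw [Real.le_log_iff_exp_le (by linarith)]
    have := Real.exp_one_lt_d9
    linarith
  set E := Real.sqrt l * Real.log l ^ 2 with hE
  have hE1 : 1 ≤ E := by
    have h5 : 1 ≤ Real.sqrt l := by rw [Real.one_le_sqrt]; linarith
    have h6 : 1 ≤ Real.log l ^ 2 := one_le_pow₀ hll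
    rw [hE]
    exact one_le_mul_of_one_le_of_one_le h5 h6
  have hgr : gr V ≤ 32 * 2 * 4 * E := by
    refine (gr_mono hV0 hVl).trans ((gr_simple (by linarith)).trans ?_)
    have h5 : Real.sqrt (2 * l) ≤ 2 * Real.sqrt l := by
      rw [Real.sqrt_le_left (by positivity), mul_pow, Real.sq_sqrt (by linarith)]
      linarith
    have h6 : Real.log (2 * l) ≤ 2 * Real.log l := by
      rw [Real.log_mul (by norm_num) (by linarith)]
      have h7 := Real.log_le_sub_one_of_pos (show (0 : ℝ) < 2 by norm_num)
      linarith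
    have h7 : 0 ≤ Real.log (2 * l) := Real.log_nonneg (by linarith)
    calc 32 * (Real.sqrt (2 * l) * Real.log (2 * l) ^ 2) ≤
          32 * (2 * Real.sqrt l * (2 * Real.log l) ^ 2) := by gcongr
      _ = _ := by rw [hE]; ring
  rw [Real.norm_eq_abs, Real.norm_of_nonneg (by linarith)]
  have e : F n - c * l = (F n - c * V) + c * (V - l) := by ring
  rw [e]
  have h7 := h n
  rw [← hV] at h7
  have h8 := mul_le_mul_of_nonneg_left hgr hB
  have h9 : |c * (V - l)| ≤ |c| * C := by
    rw [abs_mul]
    exact mul_le_mul_of_nonneg_left (hC n hn) (abs_nonneg c)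
  have h10 := abs_add_le (F n - c * V) (c * (V - l))
  have h11 : |c| * C ≤ |c| * C * E := le_mul_of_one_le_right (by positivity) hE1
  linarith

end Pool.Agent.K9h18.HS
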