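import Pool.Agent.K9h18.HS.Rec

set_option autoImplicit false

/-!
# A law of large numbers for functions of the digits
-/

open Finset Filter Topology MeasureTheory ProbabilityTheory

namespace Pool.Agent.K9h18.HS

section

variable {X : ℕ → ℝ → ℝ} (hm : ∀ m, Measurable (X m)) (hb : ∀ m β, |X m β| ≤ 1) (k : ℕ → ℕ) {R : ℕ}
  (hR : 1 ≤ R) (hX : ∀ m m' : ℕ, m' + R ≤ m → ∀ g : ℝ → ℝ, (∀ x, 0 ≤ g x) → Lv (k m) (fun β => g (X m' β)))
  (hcond : ∀ ε : ℝ, 0 < ε → ∃ m0 : ℕ, ∀ m ≥ m0, ∀ φ : ℝ → ℝ, Lv (k m) φ →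
    |∫ β, φ β * X m β ∂mu1| ≤ ε * ∫ β, φ β ∂mu1)
include hm hb hX

/-- the exponential moment of a residue class -/
lemma exp_class {ε : ℝ} (hε : 0 < ε) (hε1 : ε ≤ 1 / 2) {m0 : ℕ}
    (h0 : ∀ m ≥ m0, ∀ φ : ℝ → ℝ, Lv (k m) φ → |∫ β, φ β * X m β ∂mu1| ≤ ε * ∫ β, φ β ∂mu1)
    (r M : ℕ) : ∫ β, Real.exp (ε / 4 * ∑ m ∈ (range M).filter (fun m => m % R = r ∧ m0 ≤ m),
      (X m β - 2 * ε)) ∂mu1 ≤ 1 := by
  induction M with
  | zero => simp
  | succ M ih =>
    by_cases hM : M % R = r ∧ m0 ≤ M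
    · have h1 : (range (M + 1)).filter (fun m => m % R = r ∧ m0 ≤ m) =
          insert M ((range M).filter (fun m => m % R = r ∧ m0 ≤ m)) := by
        rw [Finset.range_add_one, Finset.filter_insert, if_pos hM]
      have h2 : M ∉ (range M).filter (fun m => m % R = r ∧ m0 ≤ m) := by simp
      set B := (range M).filter (fun m => m % R = r ∧ m0 ≤ m) with hB
      set φ : ℝ → ℝ := fun β => ∏ m ∈ B, Real.exp (ε / 4 * (X m β - 2 * ε)) with hφ
      have hφL : Lv (k M) φ := by
        refine Lv.prod B fun m hmB => ?_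
        refine hX M m ?_ (fun x => Real.exp (ε / 4 * (x - 2 * ε))) fun x => (Real.exp_pos _).le
        rw [hB, mem_filter, mem_range] at hmB
        obtain ⟨h3, h4, h5⟩ := hmB
        have h6 : m ≡ M [MOD R] := by rw [Nat.ModEq, h4, hM.1]
        obtain ⟨c, hc⟩ := (Nat.modEq_iff_dvd' h3.le).1 h6
        rcases Nat.eq_zero_or_pos c with h7 | h7
        · rw [h7] at hc; omega
        · have : R * 1 ≤ R * c := Nat.mul_le_mul_left _ h7
          omega
      have hφe : ∀ β, φ β = Real.exp (ε / 4 * ∑ m ∈ B, (X m β - 2 * ε)) := by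
        intro β
        rw [hφ, Finset.mul_sum, Real.exp_sum]
      have ih' : ∫ β, φ β ∂mu1 ≤ 1 := by simp only [hφe]; exact ih
      have hI0 : 0 ≤ ∫ β, φ β ∂mu1 := setIntegral_nonneg measurableSet_Ioc fun β hβ => hφL.nonneg hβ
      have hpt : ∀ β, Real.exp (ε / 4 * ∑ m ∈ insert M B, (X m β - 2 * ε)) ≤
          (1 - ε ^ 2 / 4) * φ β + ε / 4 * (φ β * X M β) := by
        intro β
        rw [Finset.sum_insert h2, mul_add, Real.exp_add, ← hφe, mul_comm]
        have hφ0 : 0 < φ β := by rw [hφe]; exact Real.exp_pos _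
        have h3 := abs_le.1 (hb M β)
        set Y := X M β - 2 * ε with hY
        have hY2 : |Y| ≤ 2 := by rw [abs_le]; constructor <;> linarith
        have hz : |ε / 4 * Y| ≤ 1 := by
          rw [abs_mul, abs_of_pos (by positivity : 0 < ε / 4)]
          nlinarith [abs_nonneg Y]
        have h4 : Real.exp (ε / 4 * Y) ≤ 1 + ε / 4 * Y + (ε / 4 * Y) ^ 2 := by
          have h5 := Real.abs_exp_sub_one_sub_id_le hz
          have h6 := (abs_le.1 h5).2
          linarith
        have h7 : (ε / 4 * Y) ^ 2 ≤ ε ^ 2 / 4 := by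
          have h8 : Y ^ 2 ≤ 4 := by nlinarith [abs_le.1 hY2]
          have : (ε / 4 * Y) ^ 2 = ε ^ 2 / 16 * Y ^ 2 := by ring
          rw [this]
          nlinarith [sq_nonneg ε]
        have h9 : Real.exp (ε / 4 * Y) ≤ 1 - ε ^ 2 / 4 + ε / 4 * X M β := by
          rw [hY] at h4 h7 ⊢
          linarith
        calc φ β * Real.exp (ε / 4 * Y) ≤ φ β * (1 - ε ^ 2 / 4 + ε / 4 * X M β) :=
              mul_le_mul_of_nonneg_left h9 hφ0.le
          _ = _ := by ring
      rw [h1]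
      have i1 : Integrable (fun β => φ β * X M β) mu1 := hφL.int_mul (hm M) (hb M)
      have i2 : Integrable (fun β => (1 - ε ^ 2 / 4) * φ β + ε / 4 * (φ β * X M β)) mu1 :=
        (hφL.int.const_mul _).add (i1.const_mul _)
      refine (integral_mono_of_nonneg (Eventually.of_forall fun β => (Real.exp_pos _).le) i2
        (Eventually.of_forall hpt)).trans ?_
      rw [integral_add (hφL.int.const_mul _) (i1.const_mul _), integral_const_mul,
        integral_const_mul]
      have h3 := (abs_le.1 (h0 M hM.2 φ hφL)).2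
      have h4 : ε / 4 * ∫ β, φ β * X M β ∂mu1 ≤ ε / 4 * (ε * ∫ β, φ β ∂mu1) :=
        mul_le_mul_of_nonneg_left h3 (by positivity)
      calc (1 - ε ^ 2 / 4) * ∫ β, φ β ∂mu1 + ε / 4 * ∫ β, φ β * X M β ∂mu1
          ≤ (1 - ε ^ 2 / 4) * ∫ β, φ β ∂mu1 + ε / 4 * (ε * ∫ β, φ β ∂mu1) := by linarith
        _ = ∫ β, φ β ∂mu1 := by ring
        _ ≤ 1 := ih'
    · have h1 : (range (M + 1)).filter (fun m => m % R = r ∧ m0 ≤ m) =
          (range M).filter (fun m => m % R = r ∧ m0 ≤ m) := by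
        rw [Finset.range_add_one, Finset.filter_insert, if_neg hM]
      rw [h1]
      exact ih

include hR hcond

lemma class_le {ε : ℝ} (hε : 0 < ε) (hε1 : ε ≤ 1 / 2) : ∃ m0 : ℕ, ∀ᵐ β ∂mu1, ∀ᶠ M : ℕ in atTop,
    ∀ r < R, ∑ m ∈ (range M).filter (fun m => m % R = r ∧ m0 ≤ m), (X m β - 2 * ε) < ε * M := by
  obtain ⟨m0, h0⟩ := hcond ε hε
  refine ⟨m0, ?_⟩
  have h1 : ∀ r : ℕ, ∀ᵐ β ∂mu1, ∀ᶠ M : ℕ in atTop,
      ∑ m ∈ (range M).filter (fun m => m % R = r ∧ m0 ≤ m), (X m β - 2 * ε) < ε * M := by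
    intro r
    set Y : ℕ → ℝ → ℝ := fun M β => ∑ m ∈ (range M).filter (fun m => m % R = r ∧ m0 ≤ m),
      (X m β - 2 * ε) with hY
    have hYm : ∀ M, Measurable (Y M) := fun M =>
      Finset.measurable_fun_sum _ fun m _ => (hm m).sub_const _
    have hYb : ∀ M β, |Y M β| ≤ 2 * M := by
      intro M β
      refine (Finset.abs_sum_le_sum_abs _ _).trans ?_
      have h2 : ∀ m ∈ (range M).filter (fun m => m % R = r ∧ m0 ≤ m), |X m β - 2 * ε| ≤ 2 := by
        intro m _
        have h3 := abs_le.1 (hb m β)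
        rw [abs_le]
        constructor <;> linarith
      refine (Finset.sum_le_sum h2).trans ?_
      rw [Finset.sum_const, nsmul_eq_mul, mul_comm]
      have h3 : ((range M).filter (fun m => m % R = r ∧ m0 ≤ m)).card ≤ M := by
        have := Finset.card_filter_le (range M) (fun m => m % R = r ∧ m0 ≤ m)
        rwa [Finset.card_range] at this
      have h4 : (((range M).filter (fun m => m % R = r ∧ m0 ≤ m)).card : ℝ) ≤ M := by
        exact_mod_cast h3
      linarith
    have hP : ∀ M : ℕ, mu1 {β | ε * M ≤ Y M β} ≤ ENNReal.ofReal (Real.exp (-(ε ^ 2 / 4)) ^ M) := by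
      intro M
      have hint : Integrable (fun β => Real.exp (ε / 4 * Y M β)) mu1 := by
        refine Integrable.of_bound (C := Real.exp (ε / 4 * (2 * M)))
          (Real.measurable_exp.comp ((hYm M).const_mul _)).aestronglyMeasurable
          (Eventually.of_forall fun β => ?_)
        rw [Real.norm_of_nonneg (Real.exp_pos _).le]
        apply Real.exp_le_exp.2
        exact mul_le_mul_of_nonneg_left ((le_abs_self _).trans (hYb M β)) (by positivity)
      have h2 := measure_ge_le_exp_mul_mgf (X := Y M) (μ := mu1) (ε * M) (show 0 ≤ ε / 4 by positivity)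
        hint
      have h3 : mgf (Y M) mu1 (ε / 4) ≤ 1 := exp_class hm hb k hX hε hε1 h0 r M
      have h4 : mu1.real {β | ε * M ≤ Y M β} ≤ Real.exp (-(ε ^ 2 / 4)) ^ M := by
        refine h2.trans ?_
        calc Real.exp (-(ε / 4) * (ε * M)) * mgf (Y M) mu1 (ε / 4) ≤
              Real.exp (-(ε / 4) * (ε * M)) * 1 :=
              mul_le_mul_of_nonneg_left h3 (Real.exp_pos _).le
          _ = Real.exp (-(ε ^ 2 / 4)) ^ M := by
              rw [mul_one, ← Real.exp_nat_mul]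
              congr 1
              ring
      rw [← ofReal_measureReal]
      exact ENNReal.ofReal_le_ofReal h4
    have hsum : ∑' M : ℕ, mu1 {β | ε * M ≤ Y M β} ≠ ⊤ := by
      refine ne_top_of_le_ne_top ?_ (ENNReal.tsum_le_tsum hP)
      refine (summable_geometric_of_lt_one (Real.exp_pos _).le ?_).tsum_ofReal_ne_top
      rw [Real.exp_lt_one_iff]
      have : 0 < ε ^ 2 := by positivity
      linarith
    have h5 := measure_setOf_frequently_eq_zero (μ := mu1) (p := fun M β => ε * (M : ℝ) ≤ Y M β) hsum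
    rw [ae_iff]
    refine le_antisymm ((measure_mono ?_).trans h5.le) bot_le
    intro β hβ
    simp only [Set.mem_setOf_eq, not_eventually, not_lt] at hβ ⊢
    exact hβ
  have h2 : ∀ᵐ β ∂mu1, ∀ r : ℕ, ∀ᶠ M : ℕ in atTop,
      ∑ m ∈ (range M).filter (fun m => m % R = r ∧ m0 ≤ m), (X m β - 2 * ε) < ε * M :=
    ae_all_iff.2 h1
  filter_upwards [h2] with β hβ
  have h3 : ∀ᶠ M : ℕ in atTop, ∀ r ∈ Finset.range R,
      ∑ m ∈ (range M).filter (fun m => m % R = r ∧ m0 ≤ m), (X m β - 2 * ε) < ε * M :=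
    (Filter.eventually_all_finset _).2 fun r _ => hβ r
  filter_upwards [h3] with M hM r hr
  exact hM r (Finset.mem_range.2 hr)

lemma upper {ε : ℝ} (hε : 0 < ε) (hε1 : ε ≤ 1 / 2) : ∀ᵐ β ∂mu1, ∀ᶠ M : ℕ in atTop,
    ∑ m ∈ range M, X m β ≤ (R + 3) * ε * M := by
  obtain ⟨m0, h⟩ := class_le hm hb k hR hX hcond hε hε1
  filter_upwards [h] with β hβ
  have h1 : ∀ᶠ M : ℕ in atTop, (m0 : ℝ) / ε ≤ M :=
    tendsto_natCast_atTop_atTop.eventually_ge_atTop _
  filter_upwards [hβ, h1] with M hM hM1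
  rw [div_le_iff₀ hε] at hM1
  have h2 : ∑ m ∈ range M, X m β ≤ m0 + ∑ m ∈ (range M).filter (fun m => m0 ≤ m), X m β := by
    rw [← Finset.sum_filter_add_sum_filter_not (range M) (fun m => m0 ≤ m), add_comm]
    gcongr
    have h3 : ∀ m ∈ (range M).filter (fun m => ¬ m0 ≤ m), X m β ≤ 1 := fun m _ =>
      (le_abs_self _).trans (hb m β)
    refine (Finset.sum_le_sum h3).trans ?_
    rw [Finset.sum_const, nsmul_eq_mul, mul_one]
    have h4 : ((range M).filter (fun m => ¬ m0 ≤ m)).card ≤ (range m0).card :=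
      Finset.card_le_card fun m hm' => by
        rw [mem_filter] at hm'
        rw [mem_range]
        omega
    rw [Finset.card_range] at h4
    exact_mod_cast h4
  have h3 : ∑ m ∈ (range M).filter (fun m => m0 ≤ m), X m β =
      ∑ r ∈ range R, ∑ m ∈ (range M).filter (fun m => m % R = r ∧ m0 ≤ m), X m β := by
    have h4 : ∀ m ∈ (range M).filter (fun m => m0 ≤ m), m % R ∈ range R := fun m _ =>
      Finset.mem_range.2 (Nat.mod_lt _ (by omega))
    rw [← Finset.sum_fiberwise_of_maps_to h4]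
    refine Finset.sum_congr rfl fun r _ => ?_
    rw [Finset.filter_filter]
    refine Finset.sum_congr ?_ fun _ _ => rfl
    ext m
    simp only [mem_filter]
    tauto
  have h4 : ∑ r ∈ range R, ∑ m ∈ (range M).filter (fun m => m % R = r ∧ m0 ≤ m), X m β ≤
      ∑ r ∈ range R, (ε * M + 2 * ε * ((range M).filter (fun m => m % R = r ∧ m0 ≤ m)).card) := by
    refine Finset.sum_le_sum fun r hr => ?_
    have h5 := hM r (Finset.mem_range.1 hr)
    rw [Finset.sum_sub_distrib, Finset.sum_const, nsmul_eq_mul] at h5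
    linarith
  have h5 : ∑ r ∈ range R, (((range M).filter (fun m => m % R = r ∧ m0 ≤ m)).card : ℝ) ≤ M := by
    have h6 : ∑ r ∈ range R, ((range M).filter (fun m => m % R = r ∧ m0 ≤ m)).card =
        ((range M).filter (fun m => m0 ≤ m)).card := by
      have h4 : ∀ m ∈ (range M).filter (fun m => m0 ≤ m), m % R ∈ range R := fun m _ =>
        Finset.mem_range.2 (Nat.mod_lt _ (by omega))
      rw [Finset.card_eq_sum_card_fiberwise h4]
      refine Finset.sum_congr rfl fun r _ => ?_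
      rw [Finset.filter_filter]
      congr 1
      ext m
      simp only [mem_filter]
      tauto
    have h7 : ((range M).filter (fun m => m0 ≤ m)).card ≤ M := by
      have := Finset.card_filter_le (range M) (fun m => m0 ≤ m)
      rwa [Finset.card_range] at this
    rw [← Nat.cast_sum, h6]
    exact_mod_cast h7
  rw [Finset.sum_add_distrib, Finset.sum_const, Finset.card_range, nsmul_eq_mul,
    ← Finset.mul_sum] at h4
  have h6 : 2 * ε * ∑ r ∈ range R, (((range M).filter (fun m => m % R = r ∧ m0 ≤ m)).card : ℝ) ≤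
      2 * ε * M := mul_le_mul_of_nonneg_left h5 (by positivity)
  rw [h3] at h2
  linarith

end

/-- **The law of large numbers.** -/
theorem lln {X : ℕ → ℝ → ℝ} (hm : ∀ m, Measurable (X m)) (hb : ∀ m β, |X m β| ≤ 1) (k : ℕ → ℕ)
    {R : ℕ} (hR : 1 ≤ R)
    (hX : ∀ m m' : ℕ, m' + R ≤ m → ∀ g : ℝ → ℝ, (∀ x, 0 ≤ g x) → Lv (k m) (fun β => g (X m' β)))
    (hcond : ∀ ε : ℝ, 0 < ε → ∃ m0 : ℕ, ∀ m ≥ m0, ∀ φ : ℝ → ℝ, Lv (k m) φ →
      |∫ β, φ β * X m β ∂mu1| ≤ ε * ∫ β, φ β ∂mu1) :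
    ∀ᵐ β ∂mu1, Tendsto (fun M : ℕ => (∑ m ∈ range M, X m β) / M) atTop (𝓝 0) := by
  have hup := fun n : ℕ => upper hm hb k hR hX hcond (ε := 1 / ((n : ℝ) + 2)) (by positivity) (by
    apply one_div_le_one_div_of_le (by norm_num)
    have : (0 : ℝ) ≤ n := by positivity
    linarith)
  have hlo := fun n : ℕ => upper (X := fun m β => - X m β) (fun m => (hm m).neg)
    (fun m β => by rw [abs_neg]; exact hb m β) k hR
    (fun m m' h g hg => hX m m' h (fun x => g (-x)) fun x => hg _)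
    (fun ε hε => by
      obtain ⟨m0, h0⟩ := hcond ε hε
      refine ⟨m0, fun m hm' φ hφ => ?_⟩
      have h1 : ∫ β, φ β * -X m β ∂mu1 = - ∫ β, φ β * X m β ∂mu1 := by
        rw [← integral_neg]
        congr 1
        ext β
        ring
      rw [h1, abs_neg]
      exact h0 m hm' φ hφ) (ε := 1 / ((n : ℝ) + 2)) (by positivity) (by
    apply one_div_le_one_div_of_le (by norm_num)
    have : (0 : ℝ) ≤ n := by positivity
    linarith)
  filter_upwards [ae_all_iff.2 hup, ae_all_iff.2 hlo] with β h1 h2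
  rw [Metric.tendsto_atTop]
  intro ε hε
  obtain ⟨n, hn⟩ := exists_nat_gt (((R : ℝ) + 3) / ε)
  have hn' : ((R : ℝ) + 3) * (1 / ((n : ℝ) + 2)) < ε := by
    rw [div_lt_iff₀ hε] at hn
    rw [mul_one_div, div_lt_iff₀ (by positivity)]
    linarith
  obtain ⟨M0, hM0⟩ := eventually_atTop.1 ((h1 n).and (h2 n))
  refine ⟨M0 + 1, fun M hM => ?_⟩
  obtain ⟨h3, h4⟩ := hM0 M (by omega)
  have hMp : (0 : ℝ) < M := by exact_mod_cast (by omega : 0 < M)
  rw [Real.dist_eq, sub_zero, abs_div, abs_of_pos hMp, div_lt_iff₀ hMp]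
  rw [Finset.sum_neg_distrib] at h4
  have h5 : ((R : ℝ) + 3) * (1 / ((n : ℝ) + 2)) * M < ε * M := mul_lt_mul_of_pos_right hn' hMp
  rw [abs_lt]
  constructor <;> linarith

end Pool.Agent.K9h18.HS
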