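import Pool.Agent.K9h18.HS.Cnt2

set_option autoImplicit false

/-!
# Digits of a random real number
-/

open Filter Topology Set MeasureTheory
open scoped Real

namespace Pool.Agent.K9h18.HS

open Pool.Agent.H305R2 (roughPart)

/-- the number formed by the first `e` binary digits of `β` -/
noncomputable def jj (e : ℕ) (β : ℝ) : ℕ := ⌈β * 2 ^ e⌉₊ - 1

lemma jj_spec {e : ℕ} {β : ℝ} (hβ : 0 < β) : (jj e β : ℝ) < β * 2 ^ e ∧ β * 2 ^ e ≤ jj e β + 1 := by
  have h0 : 0 < β * 2 ^ e := by positivity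
  have h1 : 0 < ⌈β * 2 ^ e⌉₊ := Nat.ceil_pos.2 h0
  have h2 : ((jj e β : ℕ) : ℝ) + 1 = (⌈β * 2 ^ e⌉₊ : ℝ) := by
    unfold jj
    exact_mod_cast Nat.sub_add_cancel h1
  constructor
  · have := Nat.ceil_lt_add_one h0.le
    linarith
  · rw [h2]
    exact Nat.le_ceil _

lemma jj_eq {e : ℕ} {β : ℝ} {j : ℕ} (h1 : (j : ℝ) < β * 2 ^ e) (h2 : β * 2 ^ e ≤ j + 1) :
    jj e β = j := by
  have h3 : ⌈β * 2 ^ e⌉₊ = j + 1 := by
    rw [Nat.ceil_eq_iff (by omega)]
    constructor
    · simpa using h1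
    · push_cast
      exact h2
  unfold jj
  omega

lemma jj_lt {e : ℕ} {β : ℝ} (h0 : 0 < β) (h1 : β ≤ 1) : jj e β < 2 ^ e := by
  have h2 := (jj_spec (e := e) h0).1
  have h3 : β * 2 ^ e ≤ 2 ^ e := mul_le_of_le_one_left (by positivity) h1
  have h4 : (jj e β : ℝ) < ((2 ^ e : ℕ) : ℝ) := by push_cast; linarith
  exact_mod_cast h4

lemma jj_div {e e' : ℕ} (hee : e ≤ e') {β : ℝ} (hβ : 0 < β) :
    jj e β = jj e' β / 2 ^ (e' - e) := by
  obtain ⟨h1, h2⟩ := jj_spec (e := e) hβ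
  obtain ⟨h3, h4⟩ := jj_spec (e := e') hβ
  set g := e' - e with hg
  have he : (2 : ℝ) ^ e' = 2 ^ e * 2 ^ g := by rw [← pow_add]; congr 1; omega
  have hg0 : (0 : ℝ) < 2 ^ g := by positivity
  symm
  rw [Nat.div_eq_iff (by positivity)]
  constructor
  · have h5 : ((jj e β * 2 ^ g : ℕ) : ℝ) < ((jj e' β + 1 : ℕ) : ℝ) := by
      push_cast
      calc (jj e β : ℝ) * 2 ^ g < β * 2 ^ e * 2 ^ g := mul_lt_mul_of_pos_right h1 hg0
        _ = β * 2 ^ e' := by rw [he]; ring
        _ ≤ _ := h4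
    have h6 : jj e β * 2 ^ g < jj e' β + 1 := by exact_mod_cast h5
    omega
  · have h5 : ((jj e' β : ℕ) : ℝ) < (((jj e β + 1) * 2 ^ g : ℕ) : ℝ) := by
      push_cast
      calc (jj e' β : ℝ) < β * 2 ^ e' := h3
        _ = β * 2 ^ e * 2 ^ g := by rw [he]; ring
        _ ≤ (jj e β + 1) * 2 ^ g := mul_le_mul_of_nonneg_right h2 hg0.le
    have h6 : jj e' β < (jj e β + 1) * 2 ^ g := by exact_mod_cast h5
    have h7 : (jj e β + 1) * 2 ^ g = jj e β * 2 ^ g + 2 ^ g := by ring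
    omega

lemma jj_meas (e : ℕ) : Measurable (jj e) := by
  have h1 : Measurable fun β : ℝ => ⌈β * 2 ^ e⌉₊ := Nat.measurable_ceil.comp (by fun_prop)
  exact (measurable_from_top (f := fun n : ℕ => n - 1)).comp h1

/-- the average over a level -/
noncomputable def avg (e : ℕ) (F : ℕ → ℝ) : ℝ := (∑ j ∈ Finset.range (2 ^ e), F j) / 2 ^ e

lemma int_level (e : ℕ) (F : ℕ → ℝ) : ∫ β in Set.Ioc (0 : ℝ) 1, F (jj e β) = avg e F := by
  have hN : (0 : ℝ) < 2 ^ e := by positivity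
  set a : ℕ → ℝ := fun j => (j : ℝ) / 2 ^ e with ha
  have haj : ∀ j : ℕ, a j ≤ a (j + 1) := by
    intro j
    simp only [ha]
    apply div_le_div_of_nonneg_right _ hN.le
    push_cast
    linarith
  have hcell : ∀ j : ℕ, ∀ β ∈ Set.Ioc (a j) (a (j + 1)), jj e β = j := by
    intro j β hβ
    obtain ⟨h1, h2⟩ := hβ
    simp only [ha] at h1 h2
    rw [div_lt_iff₀ hN] at h1
    rw [le_div_iff₀ hN] at h2
    push_cast at h2
    exact jj_eq h1 h2
  have hint : ∀ j : ℕ, IntervalIntegrable (fun β => F (jj e β)) volume (a j) (a (j + 1)) := by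
    intro j
    rw [intervalIntegrable_iff_integrableOn_Ioc_of_le (haj j)]
    have h1 : IntegrableOn (fun _ : ℝ => F j) (Set.Ioc (a j) (a (j + 1))) volume :=
      integrableOn_const (by simp)
    exact h1.congr_fun (fun β hβ => by simp only; rw [hcell j β hβ]) measurableSet_Ioc
  have h1 : ∀ j : ℕ, ∫ β in (a j)..(a (j + 1)), F (jj e β) = F j / 2 ^ e := by
    intro j
    rw [intervalIntegral.integral_of_le (haj j),
      setIntegral_congr_fun measurableSet_Ioc (g := fun _ => F j) (fun β hβ => by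
        simp only
        rw [hcell j β hβ]), ← intervalIntegral.integral_of_le (haj j),
      intervalIntegral.integral_const, smul_eq_mul]
    simp only [ha]
    push_cast
    field_simp
    ring
  have h2 := intervalIntegral.sum_integral_adjacent_intervals (f := fun β => F (jj e β))
    (μ := volume) (a := a) (n := 2 ^ e) (fun k _ => hint k)
  have h3 : a 0 = 0 := by simp [ha]
  have h4 : a (2 ^ e) = 1 := by
    simp only [ha]
    push_cast
    field_simp
  rw [h3, h4, intervalIntegral.integral_of_le zero_le_one] at h2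
  rw [← h2]
  unfold avg
  rw [Finset.sum_div]
  exact Finset.sum_congr rfl fun j _ => h1 j

lemma sum_block (m n : ℕ) (F : ℕ → ℝ) : ∑ j ∈ Finset.range (m * n), F j =
    ∑ i ∈ Finset.range m, ∑ t ∈ Finset.range n, F (i * n + t) := by
  induction m with
  | zero => simp
  | succ m ih =>
    rw [Nat.succ_mul, Finset.sum_range_add, ih, Finset.sum_range_succ]

lemma avg_const (e : ℕ) (c : ℝ) : avg e (fun _ => c) = c := by
  unfold avg
  rw [Finset.sum_const, Finset.card_range, nsmul_eq_mul]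
  push_cast
  field_simp

lemma avg_mono {e : ℕ} {F G : ℕ → ℝ} (h : ∀ j < 2 ^ e, F j ≤ G j) : avg e F ≤ avg e G := by
  unfold avg
  apply div_le_div_of_nonneg_right _ (by positivity)
  exact Finset.sum_le_sum fun j hj => h j (Finset.mem_range.1 hj)

lemma avg_nonneg {e : ℕ} {F : ℕ → ℝ} (h : ∀ j < 2 ^ e, 0 ≤ F j) : 0 ≤ avg e F := by
  unfold avg
  exact div_nonneg (Finset.sum_nonneg fun j hj => h j (Finset.mem_range.1 hj)) (by positivity)

lemma avg_add (e : ℕ) (F G : ℕ → ℝ) : avg e (fun j => F j + G j) = avg e F + avg e G := by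
  unfold avg
  rw [Finset.sum_add_distrib]
  ring

lemma avg_const_mul (e : ℕ) (c : ℝ) (F : ℕ → ℝ) : avg e (fun j => c * F j) = c * avg e F := by
  unfold avg
  rw [← Finset.mul_sum]
  ring

/-- the average of a function of the first digits -/
lemma avg_div {e e' : ℕ} (hee : e ≤ e') (F : ℕ → ℝ) :
    avg e' (fun j => F (j / 2 ^ (e' - e))) = avg e F := by
  have h1 : 2 ^ e' = 2 ^ e * 2 ^ (e' - e) := by rw [← pow_add]; congr 1; omega
  unfold avg
  rw [h1, sum_block]
  have h2 : ∀ i ∈ Finset.range (2 ^ e), ∑ t ∈ Finset.range (2 ^ (e' - e)),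
      F ((i * 2 ^ (e' - e) + t) / 2 ^ (e' - e)) = 2 ^ (e' - e) * F i := by
    intro i _
    have h3 : ∀ t ∈ Finset.range (2 ^ (e' - e)),
        F ((i * 2 ^ (e' - e) + t) / 2 ^ (e' - e)) = F i := by
      intro t ht
      rw [Finset.mem_range] at ht
      congr 1
      rw [Nat.add_comm, Nat.add_mul_div_right _ _ (by positivity), Nat.div_eq_of_lt ht, zero_add]
    rw [Finset.sum_congr rfl h3, Finset.sum_const, Finset.card_range, nsmul_eq_mul]
    push_cast
    ring
  rw [Finset.sum_congr rfl h2, ← Finset.mul_sum]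
  have h4 : (2 : ℝ) ^ e' = 2 ^ e * 2 ^ (e' - e) := by exact_mod_cast h1
  rw [h4]
  field_simp

/-- decorrelation from equidistribution in blocks -/
lemma avg_far {e k e' : ℕ} (hek : e ≤ k) (hke : k ≤ e') (F G : ℕ → ℝ) (hF : ∀ j, 0 ≤ F j)
    {M η : ℝ}
    (hG : ∀ i < 2 ^ k, |∑ t ∈ Finset.range (2 ^ (e' - k)), G (i * 2 ^ (e' - k) + t) -
      M * 2 ^ (e' - k)| ≤ η * 2 ^ (e' - k)) :
    |avg e' (fun j => F (j / 2 ^ (e' - e)) * G j) - M * avg e F| ≤ η * avg e F := by
  set g := e' - k with hg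
  have hg0 : (0 : ℝ) < 2 ^ g := by positivity
  have h1 : 2 ^ e' = 2 ^ k * 2 ^ g := by rw [← pow_add]; congr 1; omega
  have h1' : (2 : ℝ) ^ e' = 2 ^ k * 2 ^ g := by exact_mod_cast h1
  have h2 : avg e F = avg k (fun i => F (i / 2 ^ (k - e))) := (avg_div hek F).symm
  have h3 : avg e' (fun j => F (j / 2 ^ (e' - e)) * G j) =
      avg k (fun i => F (i / 2 ^ (k - e)) * ((∑ t ∈ Finset.range (2 ^ g), G (i * 2 ^ g + t)) / 2 ^ g)) := by
    unfold avg
    rw [h1, sum_block, h1']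
    have h4 : ∀ i ∈ Finset.range (2 ^ k), ∑ t ∈ Finset.range (2 ^ g),
        F ((i * 2 ^ g + t) / 2 ^ (e' - e)) * G (i * 2 ^ g + t) =
        F (i / 2 ^ (k - e)) * ∑ t ∈ Finset.range (2 ^ g), G (i * 2 ^ g + t) := by
      intro i _
      rw [Finset.mul_sum]
      refine Finset.sum_congr rfl fun t ht => ?_
      rw [Finset.mem_range] at ht
      congr 2
      have h5 : 2 ^ (e' - e) = 2 ^ g * 2 ^ (k - e) := by rw [← pow_add]; congr 1; omega
      rw [h5, ← Nat.div_div_eq_div_mul]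
      congr 1
      rw [Nat.add_comm, Nat.add_mul_div_right _ _ (by positivity), Nat.div_eq_of_lt ht, zero_add]
    rw [Finset.sum_congr rfl h4, ← div_div, Finset.sum_div, Finset.sum_div, Finset.sum_div]
    refine Finset.sum_congr rfl fun i _ => ?_
    field_simp
  have hFk : 0 ≤ avg k (fun i => F (i / 2 ^ (k - e))) := avg_nonneg fun j _ => hF _
  rw [h2, h3]
  have h5 : avg k (fun i => F (i / 2 ^ (k - e)) *
      ((∑ t ∈ Finset.range (2 ^ g), G (i * 2 ^ g + t)) / 2 ^ g)) -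
      M * avg k (fun i => F (i / 2 ^ (k - e))) =
      avg k (fun i => F (i / 2 ^ (k - e)) *
        ((∑ t ∈ Finset.range (2 ^ g), G (i * 2 ^ g + t) - M * 2 ^ g) / 2 ^ g)) := by
    unfold avg
    rw [← mul_div_assoc, ← sub_div, Finset.mul_sum, ← Finset.sum_sub_distrib]
    congr 1
    refine Finset.sum_congr rfl fun i _ => ?_
    field_simp
  rw [h5, ← avg_const_mul]
  unfold avg
  rw [abs_div, abs_of_pos (by positivity : (0 : ℝ) < 2 ^ k)]
  apply div_le_div_of_nonneg_right _ (by positivity)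
  refine (Finset.abs_sum_le_sum_abs _ _).trans (Finset.sum_le_sum fun i hi => ?_)
  rw [abs_mul, abs_of_nonneg (hF _), abs_div, abs_of_pos hg0, mul_comm η]
  apply mul_le_mul_of_nonneg_left _ (hF _)
  rw [div_le_iff₀ hg0]
  exact hG i (Finset.mem_range.1 hi)

end Pool.Agent.K9h18.HS
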