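import Pool.Agent.K9h18.HS.Far
import Pool.Agent.N136.OW.SVStm

set_option autoImplicit false

/-!
# Near pairs
-/

open Filter Topology Set MeasureTheory
open scoped Real

namespace Pool.Agent.K9h18.HS

open Pool.Agent.H305R2 (roughPart roughPart_prime SM SM_pos)
open Pool.Agent.TH888.R (wt wt_nonneg)

/-- a large prime factor of an integer with prime rough part is the rough part -/
lemma large_factor {p m l : ℕ} (hm : (roughPart p m).Prime) (hl : l.Prime) (hpl : p < l)
    (hlm : l ∣ m) : l = roughPart p m ∧ m = (m / roughPart p m) * l := by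
  obtain ⟨h1, s, hs, he⟩ := roughPart_prime hm
  have h2 : l ∣ s * roughPart p m := by rw [← he]; exact hlm
  rcases (Nat.Prime.dvd_mul hl).1 h2 with h3 | h3
  · exfalso
    have h4 := hs.2 l ((Nat.mem_primeFactorsList (SM_pos hs).ne').2 ⟨hl, h3⟩)
    omega
  · have h4 : l = roughPart p m := (Nat.prime_dvd_prime_iff_eq hl hm).1 h3
    refine ⟨h4, ?_⟩
    rw [h4]
    exact (Nat.div_mul_cancel ⟨s, by rw [mul_comm]; exact he⟩).symm

/-- the number of prime factors -/
lemma omega_le {z q : ℕ} (hz : z ≠ 0) (hzq : z ≤ 2 ^ q) : z.primeFactors.card ≤ q := by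
  have h1 : 2 ^ z.primeFactors.card ≤ ∏ l ∈ z.primeFactors, l := by
    rw [← Finset.prod_const]
    exact Finset.prod_le_prod' fun l hl => (Nat.prime_of_mem_primeFactors hl).two_le
  have h2 : ∏ l ∈ z.primeFactors, l ≤ z :=
    Nat.le_of_dvd (Nat.pos_of_ne_zero hz) (Nat.prod_primeFactors_dvd z)
  exact (Nat.pow_le_pow_iff_right (by norm_num)).1 (h1.trans (h2.trans hzq))

open Classical in
/-- the residue classes removed at the prime `l` -/
noncomputable def resI (a c g l : ℕ) : Finset ℕ :=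
  if l = 0 then ∅ else {ZMod.val ((1 : ZMod l) - (a : ZMod l)),
    ZMod.val ((1 : ZMod l) - (c : ZMod l) * ((2 : ZMod l) ^ g)⁻¹)}

lemma resI_sub {a c g l : ℕ} (hl : l.Prime) : resI a c g l ⊆ Finset.range l := by
  classical
  have : Fact l.Prime := ⟨hl⟩
  unfold resI
  rw [if_neg hl.ne_zero]
  intro x hx
  rw [Finset.mem_insert, Finset.mem_singleton] at hx
  rw [Finset.mem_range]
  rcases hx with h | h <;> rw [h] <;> exact ZMod.val_lt _

lemma resI_card {a c g l : ℕ} (hl : l.Prime) : (resI a c g l).card ≤ 2 := by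
  classical
  unfold resI
  rw [if_neg hl.ne_zero]
  exact Finset.card_le_two

lemma two_ne {l : ℕ} (hl : l.Prime) (h2 : 2 < l) : ((2 : ℕ) : ZMod l) ≠ 0 := by
  have : Fact l.Prime := ⟨hl⟩
  intro h
  rw [ZMod.natCast_eq_zero_iff] at h
  exact absurd (Nat.le_of_dvd (by norm_num) h) (by omega)

lemma resI_card_two {a c g l : ℕ} (hl : l.Prime) (h2 : 2 < l)
    (h : ¬ (l : ℤ) ∣ (c : ℤ) - 2 ^ g * a) : (resI a c g l).card = 2 := by
  classical
  have : Fact l.Prime := ⟨hl⟩
  unfold resI
  rw [if_neg hl.ne_zero]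
  apply Finset.card_pair
  intro h3
  have h4 := ZMod.val_injective l h3
  have h5 : (a : ZMod l) = c * ((2 : ZMod l) ^ g)⁻¹ := sub_right_injective h4
  have h20 : ((2 : ZMod l) ^ g) ≠ 0 := pow_ne_zero _ (by exact_mod_cast two_ne hl h2)
  have h6 : (c : ZMod l) = 2 ^ g * a := by
    rw [h5]
    field_simp
  apply h
  rw [← ZMod.intCast_zmod_eq_zero_iff_dvd]
  push_cast
  rw [h6]
  ring

lemma resI_avoid {a c g l m : ℕ} (hl : l.Prime) (h2 : 2 < l) (ha : ¬ l ∣ a + m)
    (hc : ¬ l ∣ c + 2 ^ g * m) : (m + 1) % l ∉ resI a c g l := by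
  classical
  have : Fact l.Prime := ⟨hl⟩
  unfold resI
  rw [if_neg hl.ne_zero]
  intro hx
  rw [Finset.mem_insert, Finset.mem_singleton, ← ZMod.val_natCast] at hx
  rcases hx with h | h
  · have h3 := ZMod.val_injective l h
    apply ha
    rw [← ZMod.natCast_eq_zero_iff]
    push_cast at h3 ⊢
    have h4 : (m : ZMod l) = -a := by
      have : (m : ZMod l) = (m + 1) - 1 := by ring
      rw [this, h3]
      ring
    rw [h4]
    ring
  · have h3 := ZMod.val_injective l h
    apply hc
    rw [← ZMod.natCast_eq_zero_iff]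
    have h20 : ((2 : ZMod l) ^ g) ≠ 0 := pow_ne_zero _ (by exact_mod_cast two_ne hl h2)
    push_cast at h3 ⊢
    have h4 : (m : ZMod l) = -(c * ((2 : ZMod l) ^ g)⁻¹) := by
      have : (m : ZMod l) = (m + 1) - 1 := by ring
      rw [this, h3]
      ring
    rw [h4]
    field_simp
    ring

open Classical in
/-- both integers have prime rough parts and small smooth parts -/
noncomputable def JJ (p q a c g n : ℕ) : Finset ℕ :=
  (Finset.range (2 ^ n)).filter (fun m =>
    ((roughPart p (a + m)).Prime ∧ (((a + m) / roughPart p (a + m) : ℕ) : ℝ) ≤ Real.exp (p / 16)) ∧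
    ((roughPart q (c + 2 ^ g * m)).Prime ∧
      (((c + 2 ^ g * m) / roughPart q (c + 2 ^ g * m) : ℕ) : ℝ) ≤ Real.exp (q / 16)))

theorem sieve_near (hSV : Pool.Agent.N136.OW.S_SV2) {c0 : ℝ} (hc0 : 0 < c0) :
    ∃ K : ℝ, 0 < K ∧ ∃ P : ℕ, 1 ≤ P ∧ ∀ q ≥ P, ∀ p a c g n : ℕ, 2 ≤ p → p < q → c0 * q ≤ n →
      n + 1 ≤ p → 2 ^ (p - 1) ≤ a → 2 ^ (q - 1) ≤ c → c ≤ 2 ^ q → 2 ^ g * a ≤ 2 ^ q →
      c ≠ 2 ^ g * a → ((JJ p q a c g n).card : ℝ) ≤ K * wt q ^ 2 * 2 ^ n := by
  classical
  obtain ⟨C0, hC0, hSV'⟩ := hSV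
  obtain ⟨D, hD, hsv⟩ := hSV' C0 le_rfl
  have hl2 : 0 < Real.log 2 := Real.log_pos (by norm_num)
  have hl2a : 0.69 < Real.log 2 := by linarith [Real.log_two_gt_d9]
  have ev1 : ∀ᶠ q : ℕ in atTop, C0 * 2 * Real.log q ≤ c0 * q * Real.log 2 := by
    have h1 := (Real.isLittleO_log_id_atTop).bound
      (show (0 : ℝ) < c0 * Real.log 2 / (C0 * 2) by positivity)
    have h2 : ∀ᶠ x : ℝ in atTop, C0 * 2 * Real.log x ≤ c0 * x * Real.log 2 := by
      filter_upwards [h1, eventually_ge_atTop 1] with x hx hx1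
      rw [Real.norm_of_nonneg (Real.log_nonneg hx1), id, Real.norm_of_nonneg (by linarith),
        div_mul_eq_mul_div, le_div_iff₀ (by positivity)] at hx
      linarith
    exact tendsto_natCast_atTop_atTop.eventually h2
  obtain ⟨P, hP⟩ := (ev1.and (eventually_ge_atTop 4)).exists_forall_of_atTop
  refine ⟨D ^ 2 * Real.exp 2 * (2 / (c0 * Real.log 2)) ^ 2, by positivity, max P 1,
    le_max_right _ _, fun q hq p a c g n hp2 hpq hn1 hn2 ha hc1 hc2 hga hne => ?_⟩
  obtain ⟨hlog, hq4⟩ := hP q ((le_max_left _ _).trans hq)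
  have hq0 : (0 : ℝ) < q := by exact_mod_cast (by omega : 0 < q)
  have hlN : Real.log ((2 ^ n : ℕ) : ℝ) = n * Real.log 2 := by
    push_cast
    rw [Real.log_pow]
  have hn0 : (0 : ℝ) < n := lt_of_lt_of_le (by positivity) hn1
  -- large primes do not divide
  have hp1r : ((p - 1 : ℕ) : ℝ) = (p : ℝ) - 1 := by rw [Nat.cast_sub (by omega), Nat.cast_one]
  have hq1r : ((q - 1 : ℕ) : ℝ) = (q : ℝ) - 1 := by rw [Nat.cast_sub (by omega), Nat.cast_one]
  have hp2r : (2 : ℝ) ≤ p := by exact_mod_cast hp2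
  have hpqr : (p : ℝ) + 1 ≤ q := by exact_mod_cast hpq
  have hn2r : (n : ℝ) + 1 ≤ p := by exact_mod_cast hn2
  have hnd : ∀ (r b M : ℕ), (2 : ℝ) ≤ r → (n : ℝ) + 1 ≤ r → 2 ^ (r - 1) ≤ b → (r : ℝ) - 1 = ((r - 1 : ℕ) : ℝ) →
      (roughPart r (b + M)).Prime →
      (((b + M) / roughPart r (b + M) : ℕ) : ℝ) ≤ Real.exp (r / 16) →
      ∀ l : ℕ, l.Prime → r < l → C0 * 2 * Real.log l ≤ n * Real.log 2 → ¬ l ∣ b + M := by
    intro r b M hr2 hnr hb hr1 hprime hsm l hl hrl hlog hdvd
    obtain ⟨h1, h2⟩ := large_factor hprime hl hrl hdvd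
    have hl0 : (0 : ℝ) < l := by exact_mod_cast hl.pos
    have hll0 : 0 ≤ Real.log l := Real.log_natCast_nonneg l
    have h3 : (b : ℝ) + M ≤ Real.exp (r / 16) * l := by
      have h4 : ((b + M : ℕ) : ℝ) = (((b + M) / roughPart r (b + M) : ℕ) : ℝ) * l := by
        exact_mod_cast h2
      push_cast at h4
      rw [h4]
      exact mul_le_mul_of_nonneg_right hsm hl0.le
    have h5 : Real.exp ((r - 1) * Real.log 2) ≤ b := by
      rw [hr1, Real.exp_nat_mul, Real.exp_log (by norm_num)]
      exact_mod_cast hb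
    have h6 : Real.exp ((r - 1) * Real.log 2) ≤ Real.exp (r / 16 + Real.log l) := by
      rw [Real.exp_add, Real.exp_log hl0]
      have : (0 : ℝ) ≤ M := by positivity
      linarith
    have h7 := Real.exp_le_exp.1 h6
    have h8 : 2 * Real.log l ≤ n * Real.log 2 := by
      have : 1 * (2 * Real.log l) ≤ C0 * (2 * Real.log l) :=
        mul_le_mul_of_nonneg_right hC0 (by positivity)
      linarith
    have h9 : (n : ℝ) * Real.log 2 ≤ (r - 1) * Real.log 2 :=
      mul_le_mul_of_nonneg_right (by linarith) hl2.le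
    have h10 : ((r : ℝ) - 1) * 0.69 ≤ (r - 1) * Real.log 2 :=
      mul_le_mul_of_nonneg_left hl2a.le (by linarith)
    linarith
  -- apply the sieve
  have hmain := hsv 2 (2 ^ n) q 2 (fun l => resI a c g l) ((JJ p q a c g n).image (fun m => m + 1))
    (by norm_num) (by omega) (by omega) (by
      rw [hlN]
      push_cast
      have : c0 * q * Real.log 2 ≤ n * Real.log 2 := mul_le_mul_of_nonneg_right hn1 hl2.le
      linarith) (by
      intro x hx
      rw [Finset.mem_image] at hx
      obtain ⟨m, hm, rfl⟩ := hx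
      unfold JJ at hm
      rw [Finset.mem_filter, Finset.mem_range] at hm
      rw [Finset.mem_Icc]
      omega) (by
      intro l hl _
      exact ⟨resI_sub hl, resI_card hl⟩) (by
      intro x hx l hl hql hlog
      rw [Finset.mem_image] at hx
      obtain ⟨m, hm, rfl⟩ := hx
      unfold JJ at hm
      rw [Finset.mem_filter, Finset.mem_range] at hm
      obtain ⟨hm1, ⟨hm2, hm3⟩, hm4, hm5⟩ := hm
      rw [hlN] at hlog
      push_cast at hlog
      apply resI_avoid hl (by omega)
      · exact hnd p a m hp2r hn2r ha hp1r.symm hm2 hm3 l hl (by omega) hlog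
      · exact hnd q c (2 ^ g * m) (by linarith) (by linarith) hc1 hq1r.symm hm4 hm5 l hl hql hlog)
    (by
      -- the exceptional primes
      set z : ℤ := (c : ℤ) - 2 ^ g * a with hz
      have hz0 : z.natAbs ≠ 0 := by
        rw [Int.natAbs_ne_zero, hz, sub_ne_zero]
        exact_mod_cast hne
      have hzq : z.natAbs ≤ 2 ^ q := by
        have h1 : (c : ℤ) ≤ 2 ^ q := by exact_mod_cast hc2
        have h2 : ((2 ^ g * a : ℕ) : ℤ) ≤ 2 ^ q := by exact_mod_cast hga
        push_cast at h2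
        have h3 : (0 : ℤ) ≤ (c : ℤ) := by positivity
        have h4 : (0 : ℤ) ≤ 2 ^ g * (a : ℤ) := by positivity
        zify
        rw [abs_le]
        constructor <;> linarith
      have h1 : ∀ l ∈ (Finset.Ioc q (2 ^ n)).filter Nat.Prime,
          (((2 : ℕ) : ℝ) - ((resI a c g l).card : ℝ)) / l ≤
          if l ∈ z.natAbs.primeFactors then 2 / (q : ℝ) else 0 := by
        intro l hl
        rw [Finset.mem_filter, Finset.mem_Ioc] at hl
        have hl0 : (0 : ℝ) < l := by exact_mod_cast hl.2.pos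
        have hql : (q : ℝ) ≤ l := by exact_mod_cast hl.1.1.le
        split_ifs with h2
        · have h3 : ((2 : ℕ) : ℝ) - ((resI a c g l).card : ℝ) ≤ 2 := by
            have : (0 : ℝ) ≤ ((resI a c g l).card : ℝ) := by positivity
            push_cast
            linarith
          calc (((2 : ℕ) : ℝ) - ((resI a c g l).card : ℝ)) / l ≤ 2 / l := by gcongr
            _ ≤ 2 / q := by gcongr
        · have h3 : ¬ (l : ℤ) ∣ z := by
            intro h4
            apply h2
            rw [Nat.mem_primeFactors]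
            exact ⟨hl.2, Int.natCast_dvd.1 h4, hz0⟩
          rw [resI_card_two hl.2 (by omega) h3]
          simp
      refine (Finset.sum_le_sum h1).trans ?_
      rw [← Finset.sum_filter, Finset.sum_const, nsmul_eq_mul]
      have h2 : (((Finset.Ioc q (2 ^ n)).filter Nat.Prime).filter
          (fun l => l ∈ z.natAbs.primeFactors)).card ≤ q := by
        refine le_trans (Finset.card_le_card ?_) (omega_le hz0 hzq)
        intro l hl
        exact (Finset.mem_filter.1 hl).2
      have h3 : ((((Finset.Ioc q (2 ^ n)).filter Nat.Prime).filter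
          (fun l => l ∈ z.natAbs.primeFactors)).card : ℝ) ≤ q := by exact_mod_cast h2
      calc _ ≤ (q : ℝ) * (2 / q) := mul_le_mul_of_nonneg_right h3 (by positivity)
        _ = 2 := by field_simp)
  have hinj : ((JJ p q a c g n).image (fun m => m + 1)).card = (JJ p q a c g n).card :=
    Finset.card_image_of_injective _ (fun _ _ h => Nat.succ_injective h)
  rw [hinj, hlN] at hmain
  refine hmain.trans ?_
  have h4 : ((2 : ℕ) : ℝ) * Real.log q / (n * Real.log 2) ≤ 2 / (c0 * Real.log 2) * wt q := by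
    unfold wt
    rw [div_mul_div_comm]
    push_cast
    have h5 : 0 ≤ Real.log q := Real.log_natCast_nonneg q
    apply div_le_div_of_nonneg_left (by positivity) (by positivity)
    calc c0 * Real.log 2 * q = c0 * q * Real.log 2 := by ring
      _ ≤ n * Real.log 2 := mul_le_mul_of_nonneg_right hn1 hl2.le
  have h5 : 0 ≤ ((2 : ℕ) : ℝ) * Real.log q / (n * Real.log 2) := by
    have := Real.log_natCast_nonneg q
    positivity
  have h6 : (((2 : ℕ) : ℝ) * Real.log q / (n * Real.log 2)) ^ 2 ≤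
      (2 / (c0 * Real.log 2) * wt q) ^ 2 := pow_le_pow_left₀ h5 h4 2
  calc D ^ 2 * Real.exp 2 * (((2 : ℕ) : ℝ) * Real.log q / (n * Real.log 2)) ^ 2 *
        ((2 ^ n : ℕ) : ℝ) ≤
        D ^ 2 * Real.exp 2 * (2 / (c0 * Real.log 2) * wt q) ^ 2 * ((2 ^ n : ℕ) : ℝ) := by
        apply mul_le_mul_of_nonneg_right _ (by positivity)
        exact mul_le_mul_of_nonneg_left h6 (by positivity)
    _ = _ := by
        push_cast
        ring

end Pool.Agent.K9h18.HS
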