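import Pool.Agent.K9h18.HS.Near

set_option autoImplicit false

/-!
# Near pairs: averages
-/

open Filter Topology Set MeasureTheory
open scoped Real

namespace Pool.Agent.K9h18.HS

open Pool.Agent.H305R2 (roughPart)
open Pool.Agent.TH888.R (wt wt_nonneg)

open Classical in
/-- the indicator of prime rough part and large smooth part -/
noncomputable def bigI (p m : ℕ) : ℝ :=
  if (roughPart p m).Prime ∧ Real.exp (p / 16) < ((m / roughPart p m : ℕ) : ℝ) then 1 else 0

lemma bigI_nonneg (p m : ℕ) : 0 ≤ bigI p m := by unfold bigI; split_ifs <;> norm_num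

lemma bigI_sum (q A' g : ℕ) (hA : 1 ≤ A') :
    ∑ t ∈ Finset.range (2 ^ g), bigI q (A' + t) =
      ((bigS q (A' - 1) (A' - 1 + 2 ^ g) (Real.exp (q / 16))).card : ℝ) := by
  classical
  have h1 : ((bigS q (A' - 1) (A' - 1 + 2 ^ g) (Real.exp (q / 16))).card : ℝ) =
      ∑ m ∈ Finset.Ioc (A' - 1) (A' - 1 + 2 ^ g), bigI q m := by
    unfold bigI bigS
    rw [← Finset.sum_filter, Finset.sum_const, nsmul_eq_mul, mul_one]
  rw [h1]
  refine Finset.sum_bij (fun t _ => A' + t) ?_ ?_ ?_ ?_
  · intro t ht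
    rw [Finset.mem_range] at ht
    rw [Finset.mem_Ioc]
    omega
  · intro a _ b _ h
    omega
  · intro m hm
    rw [Finset.mem_Ioc] at hm
    refine ⟨m - A', ?_, ?_⟩
    · rw [Finset.mem_range]
      omega
    · omega
  · intro t _
    rfl

lemma big_avg {δ : ℝ} (hδ : δ < 1 / 4) {e A : ℕ → ℕ} (hD : Dig δ e A) :
    ∃ P : ℕ, 1 ≤ P ∧ ∀ q ≥ P, avg (e q) (fun j => bigI q (A q + j)) ≤ 1 / q ^ 2 := by
  obtain ⟨P, hP⟩ := big_rare
  refine ⟨max P 20, (by norm_num : 1 ≤ 20).trans (le_max_right _ _), fun q hq => ?_⟩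
  have hq20 : 20 ≤ q := (le_max_right _ _).trans hq
  have hq20' : (20 : ℝ) ≤ q := by exact_mod_cast hq20
  have hA1 : 1 ≤ A q := le_trans Nat.one_le_two_pow (hD.Alow q (by omega))
  have hdiff : ((A q - 1 + 2 ^ e q : ℕ) : ℝ) - ((A q - 1 : ℕ) : ℝ) = 2 ^ e q := by
    push_cast
    ring
  have h1 := hP q ((le_max_left _ _).trans hq) (A q - 1) (A q - 1 + 2 ^ e q) (Nat.le_add_right _ _)
    (by
      rw [hdiff]
      have h2 : (2 : ℝ) ^ e q = Real.exp (e q * Real.log 2) := by
        rw [Real.exp_nat_mul, Real.exp_log (by norm_num)]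
      rw [h2]
      apply Real.exp_le_exp.2
      have h3 := hD.low q
      have hl2a : 0.69 < Real.log 2 := by linarith [Real.log_two_gt_d9]
      have h4 : 3 / 4 * (q : ℝ) - 2 ≤ e q := by
        have : (3 / 4 : ℝ) * q ≤ (1 - δ) * q := mul_le_mul_of_nonneg_right (by linarith) (by linarith)
        linarith
      have h5 : (3 / 4 * (q : ℝ) - 2) * 0.69 ≤ e q * Real.log 2 :=
        mul_le_mul h4 hl2a.le (by norm_num) (by positivity)
      linarith)
  rw [hdiff] at h1
  unfold avg
  rw [bigI_sum q (A q) (e q) hA1, div_le_iff₀ (by positivity)]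
  refine h1.trans (le_of_eq ?_)
  ring

/-- **Near pairs.** -/
theorem near_avg (hSV : Pool.Agent.N136.OW.S_SV2) {δ : ℝ} (hδ0 : 0 ≤ δ) (hδ : δ < 1 / 4)
    {e A : ℕ → ℕ} (hD : Dig δ e A) {c1 : ℝ} (hc1 : 0 < c1) :
    ∃ K : ℝ, 0 < K ∧ ∃ P : ℕ, 1 ≤ P ∧ ∀ q ≥ P, ∀ p : ℕ, p < q → c1 * q ≤ p →
      avg (e q) (fun j => ind p (A p + j / 2 ^ (e q - e p)) * ind q (A q + j)) ≤
        K * wt q ^ 2 + ((2 : ℝ) ^ (e q - e p))⁻¹ * avg (e p) (fun j => ind p (A p + j)) +
          1 / (p : ℝ) ^ 2 + 1 / (q : ℝ) ^ 2 := by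
  classical
  obtain ⟨K, hK, P1, hP1, hsv⟩ := sieve_near hSV (c0 := c1 / 2) (by positivity)
  obtain ⟨P2, hP21, hbig⟩ := big_avg hδ hD
  have hq : Tendsto (fun q : ℕ => (q : ℝ)) atTop atTop := tendsto_natCast_atTop_atTop
  obtain ⟨P3, hP3⟩ := (hq.eventually_ge_atTop ((P2 + 20) / c1)).exists_forall_of_atTop
  refine ⟨K, hK, P1 + P2 + P3, by omega, fun q hqP p hpq hp => ?_⟩
  have hqr := hP3 q (by omega)
  rw [div_le_iff₀ hc1] at hqr
  have hpr : (P2 : ℝ) + 20 ≤ p := by linarith
  have hpP2 : P2 + 20 ≤ p := by exact_mod_cast hpr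
  have hp20 : (20 : ℝ) ≤ p := by
    have : (0 : ℝ) ≤ P2 := by positivity
    linarith
  set g := e q - e p with hg
  have hmono := hD.mono p q hpq.le
  have hslope := hD.slope p q hpq.le
  have hgq : g + e p = e q := by omega
  have hlep := hD.le p (by omega)
  have hAlowp := hD.Alow p (by omega)
  have hAlowq := hD.Alow q (by omega)
  have hAupp := hD.Aup p (by omega)
  have hAupq := hD.Aup q (by omega)
  -- the sum over the last digits
  have hpow : 2 ^ e q = 2 ^ e p * 2 ^ g := by rw [← pow_add]; congr 1; omega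
  have hpow' : (2 : ℝ) ^ e q = 2 ^ e p * 2 ^ g := by exact_mod_cast hpow
  have hg0 : (0 : ℝ) < 2 ^ g := by positivity
  have hep0 : (0 : ℝ) < 2 ^ e p := by positivity
  set ap := avg (e p) (fun j => ind p (A p + j)) with hap
  have hap0 : 0 ≤ ap := avg_nonneg fun _ _ => ind_nonneg _ _
  have hsum : ∑ j ∈ Finset.range (2 ^ e q), ind p (A p + j / 2 ^ g) * ind q (A q + j) =
      ∑ r ∈ Finset.range (2 ^ g), ∑ m ∈ Finset.range (2 ^ e p),
        ind p (A p + m) * ind q ((A q + r) + 2 ^ g * m) := by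
    rw [hpow, sum_block, Finset.sum_comm]
    refine Finset.sum_congr rfl fun r hr => Finset.sum_congr rfl fun m _ => ?_
    rw [Finset.mem_range] at hr
    have h1 : (m * 2 ^ g + r) / 2 ^ g = m := by
      rw [Nat.add_comm, Nat.add_mul_div_right _ _ (by positivity), Nat.div_eq_of_lt hr, zero_add]
    have h2 : A q + (m * 2 ^ g + r) = (A q + r) + 2 ^ g * m := by ring
    rw [h1, h2]
  have hbq : ∑ r ∈ Finset.range (2 ^ g), ∑ m ∈ Finset.range (2 ^ e p),
      bigI q ((A q + r) + 2 ^ g * m) = ∑ j ∈ Finset.range (2 ^ e q), bigI q (A q + j) := by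
    rw [hpow, sum_block, Finset.sum_comm]
    refine Finset.sum_congr rfl fun r _ => Finset.sum_congr rfl fun m _ => ?_
    congr 1
    ring
  -- each residue
  have hr : ∀ r ∈ Finset.range (2 ^ g), ∑ m ∈ Finset.range (2 ^ e p),
      ind p (A p + m) * ind q ((A q + r) + 2 ^ g * m) ≤
      K * wt q ^ 2 * 2 ^ e p + ∑ m ∈ Finset.range (2 ^ e p), bigI p (A p + m) +
        ∑ m ∈ Finset.range (2 ^ e p), bigI q ((A q + r) + 2 ^ g * m) +
        (if A q + r = 2 ^ g * A p then 2 ^ e p * ap else 0) := by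
    intro r hr
    rw [Finset.mem_range] at hr
    have hb1 : 0 ≤ ∑ m ∈ Finset.range (2 ^ e p), bigI p (A p + m) :=
      Finset.sum_nonneg fun _ _ => bigI_nonneg _ _
    have hb2 : 0 ≤ ∑ m ∈ Finset.range (2 ^ e p), bigI q ((A q + r) + 2 ^ g * m) :=
      Finset.sum_nonneg fun _ _ => bigI_nonneg _ _
    split_ifs with hz
    · have h1 : ∑ m ∈ Finset.range (2 ^ e p),
          ind p (A p + m) * ind q ((A q + r) + 2 ^ g * m) ≤ 2 ^ e p * ap := by
        have h2 : 2 ^ e p * ap = ∑ m ∈ Finset.range (2 ^ e p), ind p (A p + m) := by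
          rw [hap]
          unfold avg
          field_simp
        rw [h2]
        refine Finset.sum_le_sum fun m _ => ?_
        calc ind p (A p + m) * ind q ((A q + r) + 2 ^ g * m) ≤ ind p (A p + m) * 1 :=
              mul_le_mul_of_nonneg_left (ind_le_one _ _) (ind_nonneg _ _)
          _ = _ := mul_one _
      have h3 : 0 ≤ K * wt q ^ 2 * 2 ^ e p := by positivity
      linarith
    · have hrg : r < 2 ^ g := hr
      have hga : 2 ^ g * A p ≤ 2 ^ q := by
        calc 2 ^ g * A p ≤ 2 ^ g * 2 ^ p :=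
              Nat.mul_le_mul_left _ ((Nat.le_add_right _ _).trans hAupp)
          _ = 2 ^ (g + p) := by rw [pow_add]
          _ ≤ 2 ^ q := Nat.pow_le_pow_right (by norm_num) (by omega)
      have hc2 : A q + r ≤ 2 ^ q := by
        have h1 : 2 ^ g ≤ 2 ^ e q := Nat.pow_le_pow_right (by norm_num) (by omega)
        exact (Nat.add_le_add_left (hrg.le.trans h1) _).trans hAupq
      have hn1 : c1 / 2 * q ≤ (e p : ℝ) := by
        have h4 := hD.low p
        have h5 : (3 / 4 : ℝ) * p ≤ (1 - δ) * p :=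
          mul_le_mul_of_nonneg_right (by linarith) (by linarith)
        linarith
      have hJ := hsv q (by omega) p (A p) (A q + r) g (e p) (by omega) hpq hn1 hlep hAlowp
        (by omega) hc2 hga hz
      have hpt : ∀ m ∈ Finset.range (2 ^ e p),
          ind p (A p + m) * ind q ((A q + r) + 2 ^ g * m) ≤
          (if m ∈ JJ p q (A p) (A q + r) g (e p) then 1 else 0) + bigI p (A p + m) +
            bigI q ((A q + r) + 2 ^ g * m) := by
        intro m hm
        have b1 := bigI_nonneg p (A p + m)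
        have b2 := bigI_nonneg q ((A q + r) + 2 ^ g * m)
        have b3 : (0 : ℝ) ≤ if m ∈ JJ p q (A p) (A q + r) g (e p) then 1 else 0 := by
          split_ifs <;> norm_num
        by_cases h1 : (roughPart p (A p + m)).Prime
        · by_cases h2 : (roughPart q ((A q + r) + 2 ^ g * m)).Prime
          · have h3 : ind p (A p + m) * ind q ((A q + r) + 2 ^ g * m) = 1 := by
              unfold ind
              rw [if_pos h1, if_pos h2, mul_one]
            rw [h3]
            by_cases h4 : Real.exp (p / 16) < (((A p + m) / roughPart p (A p + m) : ℕ) : ℝ)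
            · have : bigI p (A p + m) = 1 := by
                unfold bigI
                rw [if_pos ⟨h1, h4⟩]
              linarith
            · by_cases h5 : Real.exp (q / 16) <
                  ((((A q + r) + 2 ^ g * m) / roughPart q ((A q + r) + 2 ^ g * m) : ℕ) : ℝ)
              · have : bigI q ((A q + r) + 2 ^ g * m) = 1 := by
                  unfold bigI
                  rw [if_pos ⟨h2, h5⟩]
                linarith
              · have h6 : m ∈ JJ p q (A p) (A q + r) g (e p) := by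
                  unfold JJ
                  rw [Finset.mem_filter]
                  exact ⟨hm, ⟨h1, not_lt.1 h4⟩, h2, not_lt.1 h5⟩
                rw [if_pos h6]
                linarith
          · have h3 : ind q ((A q + r) + 2 ^ g * m) = 0 := by
              unfold ind
              rw [if_neg h2]
            rw [h3, mul_zero]
            linarith
        · have h3 : ind p (A p + m) = 0 := by
            unfold ind
            rw [if_neg h1]
          rw [h3, zero_mul]
          linarith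
      refine (Finset.sum_le_sum hpt).trans ?_
      rw [Finset.sum_add_distrib, Finset.sum_add_distrib]
      have h7 : ∑ m ∈ Finset.range (2 ^ e p),
          (if m ∈ JJ p q (A p) (A q + r) g (e p) then (1 : ℝ) else 0) ≤
          ((JJ p q (A p) (A q + r) g (e p)).card : ℝ) := by
        rw [← Finset.sum_filter, Finset.sum_const, nsmul_eq_mul, mul_one]
        have : ((Finset.range (2 ^ e p)).filter
            (fun m => m ∈ JJ p q (A p) (A q + r) g (e p))).card ≤
            (JJ p q (A p) (A q + r) g (e p)).card :=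
          Finset.card_le_card fun m hm => (Finset.mem_filter.1 hm).2
        exact_mod_cast this
      linarith
  -- at most one degenerate residue
  have hdeg : ∑ r ∈ Finset.range (2 ^ g), (if A q + r = 2 ^ g * A p then 2 ^ e p * ap else 0) ≤
      2 ^ e p * ap := by
    rw [← Finset.sum_filter, Finset.sum_const, nsmul_eq_mul]
    have h1 : ((Finset.range (2 ^ g)).filter (fun r => A q + r = 2 ^ g * A p)).card ≤ 1 := by
      rw [Finset.card_le_one]
      intro a ha b hb
      rw [Finset.mem_filter] at ha hb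
      omega
    have h2 : (((Finset.range (2 ^ g)).filter (fun r => A q + r = 2 ^ g * A p)).card : ℝ) ≤ 1 := by
      exact_mod_cast h1
    have h3 : 0 ≤ 2 ^ e p * ap := by positivity
    nlinarith
  have htot : ∑ j ∈ Finset.range (2 ^ e q), ind p (A p + j / 2 ^ g) * ind q (A q + j) ≤
      2 ^ g * (K * wt q ^ 2 * 2 ^ e p + ∑ m ∈ Finset.range (2 ^ e p), bigI p (A p + m)) +
        ∑ j ∈ Finset.range (2 ^ e q), bigI q (A q + j) + 2 ^ e p * ap := by
    rw [hsum]
    refine (Finset.sum_le_sum hr).trans ?_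
    rw [Finset.sum_add_distrib, Finset.sum_add_distrib, Finset.sum_const, Finset.card_range,
      nsmul_eq_mul, hbq]
    push_cast
    linarith
  have h2 := hbig q (by omega)
  have h3 := hbig p (by omega)
  unfold avg at h2 h3 ⊢
  rw [div_le_iff₀ (by positivity)] at h2 h3 ⊢
  refine htot.trans ?_
  rw [hpow'] at h2 ⊢
  have e1 : (K * wt q ^ 2 + ((2 : ℝ) ^ g)⁻¹ * ap +
      1 / (p : ℝ) ^ 2 + 1 / (q : ℝ) ^ 2) * (2 ^ e p * 2 ^ g) =
      2 ^ g * (K * wt q ^ 2 * 2 ^ e p + 1 / (p : ℝ) ^ 2 * 2 ^ e p) +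
        1 / (q : ℝ) ^ 2 * (2 ^ e p * 2 ^ g) + 2 ^ e p * ap := by
    have h5 : ((2 : ℝ) ^ g)⁻¹ * 2 ^ g = 1 := inv_mul_cancel₀ hg0.ne'
    linear_combination (2 ^ e p * ap) * h5
  rw [e1]
  have h4 : (2 : ℝ) ^ g * (K * wt q ^ 2 * 2 ^ e p + ∑ m ∈ Finset.range (2 ^ e p), bigI p (A p + m)) ≤
      2 ^ g * (K * wt q ^ 2 * 2 ^ e p + 1 / (p : ℝ) ^ 2 * 2 ^ e p) :=
    mul_le_mul_of_nonneg_left (by linarith) hg0.le
  linarith

end Pool.Agent.K9h18.HS
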