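import Pool.Agent.K9h18.HS.Cond

set_option autoImplicit false

/-!
# Products over finite sets of exponents, conditionally on the first digits
-/

open Finset Filter Topology MeasureTheory

namespace Pool.Agent.K9h18.HS

open Pool.Agent.H305R2 (roughPart)
open Pool.Agent.TH888.R (wt wt_nonneg wt_le_one)

/-- nonnegative functions of the first `k` digits -/
def Lv (k : ℕ) (φ : ℝ → ℝ) : Prop := ∃ F : ℕ → ℝ, (∀ j, 0 ≤ F j) ∧ ∀ β ∈ Set.Ioc (0 : ℝ) 1, φ β = F (jj k β)

lemma Lv.mono {k k' : ℕ} {φ : ℝ → ℝ} (h : Lv k φ) (hk : k ≤ k') : Lv k' φ := by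
  obtain ⟨F, hF, h1⟩ := h
  exact ⟨fun j => F (j / 2 ^ (k' - k)), fun j => hF _, fun β hβ => by rw [h1 β hβ, jj_div hk hβ.1]⟩

lemma Lv.mul {k : ℕ} {φ ψ : ℝ → ℝ} (h : Lv k φ) (h' : Lv k ψ) : Lv k (fun β => φ β * ψ β) := by
  obtain ⟨F, hF, h1⟩ := h
  obtain ⟨G, hG, h2⟩ := h'
  exact ⟨fun j => F j * G j, fun j => mul_nonneg (hF j) (hG j), fun β hβ => by
    simp only [h1 β hβ, h2 β hβ]⟩

lemma Lv.const (k : ℕ) {c : ℝ} (hc : 0 ≤ c) : Lv k (fun _ => c) := ⟨fun _ => c, fun _ => hc, fun _ _ => rfl⟩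

lemma Lv.nonneg {k : ℕ} {φ : ℝ → ℝ} (h : Lv k φ) {β : ℝ} (hβ : β ∈ Set.Ioc (0 : ℝ) 1) : 0 ≤ φ β := by
  obtain ⟨F, hF, h1⟩ := h
  rw [h1 β hβ]
  exact hF _

lemma Lv.comp {k : ℕ} {φ : ℝ → ℝ} (h : Lv k φ) {g : ℝ → ℝ} (hg : ∀ x, 0 ≤ g x) :
    Lv k (fun β => g (φ β)) := by
  obtain ⟨F, hF, h1⟩ := h
  exact ⟨fun j => g (F j), fun j => hg _, fun β hβ => by simp only [h1 β hβ]⟩

lemma Lv.prod {ι : Type*} {k : ℕ} {φ : ι → ℝ → ℝ} (s : Finset ι) (h : ∀ i ∈ s, Lv k (φ i)) :
    Lv k (fun β => ∏ i ∈ s, φ i β) := by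
  classical
  induction s using Finset.induction_on with
  | empty => simpa using Lv.const k zero_le_one
  | insert a s ha ih =>
    have h1 := (h a (Finset.mem_insert_self _ _)).mul (ih fun i hi => h i (Finset.mem_insert_of_mem hi))
    simpa only [Finset.prod_insert ha] using h1

/-- the factors -/
noncomputable def fac (e A : ℕ → ℕ) (c : ℕ → ℝ) (q : ℕ) (β : ℝ) : ℝ := 1 - c q * fd e A q β

/-- the product over `T` -/
noncomputable def GT (e A : ℕ → ℕ) (c : ℕ → ℝ) (T : Finset ℕ) (β : ℝ) : ℝ := ∏ q ∈ T, fac e A c q β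

section

variable {e A : ℕ → ℕ} {c : ℕ → ℝ} (hc : ∀ q, 0 ≤ c q ∧ c q ≤ 1)
include hc

lemma fac_nonneg (q : ℕ) (β : ℝ) : 0 ≤ fac e A c q β := by
  have h1 := fd_nonneg e A q β
  have h2 := fd_le_one e A q β
  have h3 := mul_le_one₀ (hc q).2 h1 h2
  unfold fac
  linarith

lemma fac_le_one (q : ℕ) (β : ℝ) : fac e A c q β ≤ 1 := by
  have h1 := mul_nonneg (hc q).1 (fd_nonneg e A q β)
  unfold fac
  linarith

lemma fac_ge (q : ℕ) (β : ℝ) : 1 - fd e A q β ≤ fac e A c q β := by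
  have h1 := mul_le_of_le_one_left (fd_nonneg e A q β) (hc q).2
  unfold fac
  linarith

lemma GT_nonneg (T : Finset ℕ) (β : ℝ) : 0 ≤ GT e A c T β :=
  Finset.prod_nonneg fun q _ => fac_nonneg hc q β

lemma GT_le_one (T : Finset ℕ) (β : ℝ) : GT e A c T β ≤ 1 :=
  Finset.prod_le_one (fun q _ => fac_nonneg hc q β) fun q _ => fac_le_one hc q β

lemma GT_ge (T : Finset ℕ) (β : ℝ) : 1 - ∑ q ∈ T, fd e A q β ≤ GT e A c T β := by
  classical
  induction T using Finset.induction_on with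
  | empty => simp [GT]
  | insert a s ha ih =>
    have h1 : GT e A c (insert a s) β = fac e A c a β * GT e A c s β := Finset.prod_insert ha
    rw [h1, Finset.sum_insert ha]
    have h2 := fac_ge hc (e := e) (A := A) a β
    have h3 := fac_nonneg hc (e := e) (A := A) a β
    have h4 := fac_le_one hc (e := e) (A := A) a β
    have h5 := GT_nonneg hc (e := e) (A := A) s β
    have h6 := GT_le_one hc (e := e) (A := A) s β
    nlinarith

lemma fac_Lv (q : ℕ) : Lv (e q) (fac e A c q) := by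
  refine ⟨fun j => 1 - c q * ind q (A q + j), fun j => ?_, fun β _ => rfl⟩
  have h3 := mul_le_one₀ (hc q).2 (ind_nonneg q (A q + j)) (ind_le_one q (A q + j))
  linarith

end

lemma fac_meas (e A : ℕ → ℕ) (c : ℕ → ℝ) (q : ℕ) : Measurable (fac e A c q) :=
  measurable_const.sub ((fd_meas e A q).const_mul _)

lemma GT_meas (e A : ℕ → ℕ) (c : ℕ → ℝ) (T : Finset ℕ) : Measurable (GT e A c T) :=
  Finset.measurable_fun_prod _ fun q _ => fac_meas e A c q

lemma Lv.aesm {k : ℕ} {φ : ℝ → ℝ} (h : Lv k φ) : AEStronglyMeasurable φ mu1 := by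
  obtain ⟨F, hF, h1⟩ := h
  have h2 : Measurable fun β => F (jj k β) := (measurable_from_top (f := F)).comp (jj_meas k)
  refine h2.aestronglyMeasurable.congr ?_
  filter_upwards [ae_restrict_mem measurableSet_Ioc] with β hβ
  exact (h1 β hβ).symm

lemma Lv.bdd {k : ℕ} {φ : ℝ → ℝ} (h : Lv k φ) : ∃ B : ℝ, 0 ≤ B ∧ ∀ᵐ β ∂mu1, ‖φ β‖ ≤ B := by
  obtain ⟨F, hF, h1⟩ := h
  refine ⟨∑ j ∈ Finset.range (2 ^ k), F j, Finset.sum_nonneg fun j _ => hF j, ?_⟩
  filter_upwards [ae_restrict_mem measurableSet_Ioc] with β hβ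
  rw [h1 β hβ, Real.norm_of_nonneg (hF _)]
  exact Finset.single_le_sum (f := F) (fun j _ => hF j) (Finset.mem_range.2 (jj_lt hβ.1 hβ.2))

lemma Lv.int {k : ℕ} {φ : ℝ → ℝ} (h : Lv k φ) : Integrable φ mu1 := by
  obtain ⟨B, _, hB⟩ := h.bdd
  exact Integrable.of_bound h.aesm B hB

lemma Lv.int_mul {k : ℕ} {φ : ℝ → ℝ} (h : Lv k φ) {g : ℝ → ℝ} (hg : Measurable g)
    {B : ℝ} (hgb : ∀ x, |g x| ≤ B) : Integrable (fun β => φ β * g β) mu1 := by
  refine h.int.mul_bdd (c := B) hg.aestronglyMeasurable (Eventually.of_forall fun x => ?_)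
  rw [Real.norm_eq_abs]
  exact hgb x

lemma int_Lv {k : ℕ} {φ : ℝ → ℝ} {F : ℕ → ℝ} (h1 : ∀ β ∈ Set.Ioc (0 : ℝ) 1, φ β = F (jj k β)) :
    ∫ β, φ β ∂mu1 = avg k F := by
  rw [← int_level]
  exact setIntegral_congr_fun measurableSet_Ioc h1

lemma int_Lv1 {k : ℕ} {φ : ℝ → ℝ} {F : ℕ → ℝ} (h1 : ∀ β ∈ Set.Ioc (0 : ℝ) 1, φ β = F (jj k β))
    {e A : ℕ → ℕ} {q : ℕ} (hk : k ≤ e q) : ∫ β, φ β * fd e A q β ∂mu1 =
      avg (e q) (fun j => F (j / 2 ^ (e q - k)) * ind q (A q + j)) := by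
  rw [← int_level]
  refine setIntegral_congr_fun measurableSet_Ioc fun β hβ => ?_
  simp only [fd]
  rw [h1 β hβ, jj_div hk hβ.1]

lemma int_Lv2 {k : ℕ} {φ : ℝ → ℝ} {F : ℕ → ℝ} (h1 : ∀ β ∈ Set.Ioc (0 : ℝ) 1, φ β = F (jj k β))
    {e A : ℕ → ℕ} {p q : ℕ} (hk : k ≤ e q) (hpq : e p ≤ e q) :
    ∫ β, φ β * (fd e A p β * fd e A q β) ∂mu1 =
      avg (e q) (fun j => F (j / 2 ^ (e q - k)) *
        (ind p (A p + j / 2 ^ (e q - e p)) * ind q (A q + j))) := by
  rw [← int_level]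
  refine setIntegral_congr_fun measurableSet_Ioc fun β hβ => ?_
  simp only [fd]
  rw [h1 β hβ, jj_div hk hβ.1, jj_div hpq hβ.1]

/-- far pairs -/
theorem far_L (hPV : Pool.Agent.N176.OW.S_PV) {δ : ℝ} (hδ0 : 0 ≤ δ) (hδ : δ < 1 / 4)
    {e A : ℕ → ℕ} (hD : Dig δ e A) :
    ∃ K : ℝ, 0 < K ∧ ∃ P : ℕ, 1 ≤ P ∧ ∀ q ≥ P, ∀ k : ℕ, (k : ℝ) ≤ cr δ * q → ∀ φ : ℝ → ℝ, Lv k φ →
      |∫ β, φ β * fd e A q β ∂mu1 - kc * wt q * ∫ β, φ β ∂mu1| ≤ K / q * ∫ β, φ β ∂mu1 := by
  obtain ⟨K, hK, P, hP1, h⟩ := far_F hPV hδ0 hδ hD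
  refine ⟨K, hK, P, hP1, fun q hq k hk φ hφ => ?_⟩
  obtain ⟨F, hF, h1⟩ := hφ
  obtain ⟨hke, h2⟩ := h q hq k hk
  rw [int_Lv1 h1 hke, int_Lv h1]
  exact h2 F hF

/-- near pairs -/
theorem near_L (hPV : Pool.Agent.N176.OW.S_PV) (hSV : Pool.Agent.N136.OW.S_SV2) {δ : ℝ}
    (hδ0 : 0 ≤ δ) (hδ : δ < 1 / 4) {e A : ℕ → ℕ} (hD : Dig δ e A) :
    ∃ K : ℝ, 0 < K ∧ ∃ P : ℕ, 1 ≤ P ∧ ∀ q ≥ P, ∀ p : ℕ, p < q → cr δ * q ≤ p →
      ∀ k : ℕ, (k : ℝ) ≤ cr δ * p → ∀ φ : ℝ → ℝ, Lv k φ →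
      ∫ β, φ β * (fd e A p β * fd e A q β) ∂mu1 ≤ K * nb p q * ∫ β, φ β ∂mu1 := by
  obtain ⟨K1, hK1, P1, hP11, hfar⟩ := far_F hPV hδ0 hδ hD
  obtain ⟨K, hK, P, hP1, h⟩ := near_F hPV hSV hδ0 hδ hD
  refine ⟨K, hK, P + P1, by omega, fun q hq p hpq hp k hk φ hφ => ?_⟩
  obtain ⟨F, hF, h1⟩ := hφ
  have hcr := cr_pos hδ
  have hkq : (k : ℝ) ≤ cr δ * q :=
    hk.trans (mul_le_mul_of_nonneg_left (by exact_mod_cast hpq.le) hcr.le)
  obtain ⟨hke, -⟩ := hfar q (by omega) k hkq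
  rw [int_Lv2 h1 hke (hD.mono p q hpq.le), int_Lv h1]
  exact h q (by omega) p hpq hp k hk F hF

/-- the error term -/
noncomputable def er (δ : ℝ) (T : Finset ℕ) : ℝ :=
  ∑ q ∈ T, (1 / (q : ℝ) + ∑ p ∈ T.filter (fun p => p < q ∧ cr δ * q < p), (nb p q + wt q * wt p))

/-- **The product over a finite set of exponents, conditionally on the first digits.** -/
theorem prod_L (hPV : Pool.Agent.N176.OW.S_PV) (hSV : Pool.Agent.N136.OW.S_SV2) {δ : ℝ}
    (hδ0 : 0 ≤ δ) (hδ : δ < 1 / 4) {e A : ℕ → ℕ} (hD : Dig δ e A) :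
    ∃ K : ℝ, 0 < K ∧ ∃ P : ℕ, 1 ≤ P ∧ (∀ q ≥ P, kc * wt q ≤ 1) ∧
      ∀ T : Finset ℕ, (∀ p ∈ T, P ≤ p) → ∀ c : ℕ → ℝ, (∀ q, 0 ≤ c q ∧ c q ≤ 1) →
      ∀ k : ℕ, (∀ p ∈ T, (k : ℝ) ≤ cr δ * p) → ∀ φ : ℝ → ℝ, Lv k φ →
      |∫ β, φ β * GT e A c T β ∂mu1 - (∏ q ∈ T, (1 - c q * (kc * wt q))) * ∫ β, φ β ∂mu1| ≤
        K * er δ T * ∫ β, φ β ∂mu1 := by
  classical
  obtain ⟨K1, hK1, P1, hP11, hfar⟩ := far_L hPV hδ0 hδ hD
  obtain ⟨K2, hK2, P2, hP21, hnear⟩ := near_L hPV hSV hδ0 hδ hD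
  obtain ⟨P3, hP3⟩ := eventually_atTop.1 (wt_small kc_pos)
  have hkc := kc_pos
  have hcr := cr_pos hδ
  have hcr8 := cr_le (δ := δ) hδ0
  refine ⟨K1 + K2 + kc * (kc + K1), by positivity, P1 + P2 + P3 + 3, by omega,
    fun q hq => hP3 q (by omega), ?_⟩
  intro T
  induction T using Finset.induction_on_max with
  | empty =>
    intro _ c _ k _ φ hφ
    have h1 : ∫ β, φ β * GT e A c ∅ β ∂mu1 = ∫ β, φ β ∂mu1 := by simp [GT]
    rw [h1, Finset.prod_empty, one_mul, sub_self, abs_zero]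
    have h2 : 0 ≤ ∫ β, φ β ∂mu1 := setIntegral_nonneg measurableSet_Ioc fun β hβ => hφ.nonneg hβ
    unfold er
    rw [Finset.sum_empty]
    simp
  | insert a s hmax ih =>
    intro hT c hc k hk φ hφ
    have has : a ∉ s := fun h => lt_irrefl a (hmax a h)
    have haP := hT a (Finset.mem_insert_self _ _)
    have hsP : ∀ p ∈ s, P1 + P2 + P3 + 3 ≤ p := fun p hp => hT p (Finset.mem_insert_of_mem hp)
    have hka := hk a (Finset.mem_insert_self _ _)
    have hks : ∀ p ∈ s, (k : ℝ) ≤ cr δ * p := fun p hp => hk p (Finset.mem_insert_of_mem hp)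
    have hI0 : 0 ≤ ∫ β, φ β ∂mu1 := setIntegral_nonneg measurableSet_Ioc fun β hβ => hφ.nonneg hβ
    set I0 := ∫ β, φ β ∂mu1 with hI0def
    have ihs := ih hsP c hc k hks φ hφ
    set Is := ∫ β, φ β * GT e A c s β ∂mu1 with hIs
    set PP := ∏ q ∈ s, (1 - c q * (kc * wt q)) with hPPdef
    set far := s.filter (fun p : ℕ => (p : ℝ) ≤ cr δ * a) with hfardef
    set nr := s.filter (fun p : ℕ => ¬ (p : ℝ) ≤ cr δ * a) with hnr
    have hfm := fd_meas e A
    have hfabs : ∀ q β, |fd e A q β| ≤ 1 := fun q β => by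
      rw [abs_of_nonneg (fd_nonneg _ _ _ _)]; exact fd_le_one _ _ _ _
    have hGm := GT_meas e A c
    have hGabs : ∀ S β, |GT e A c S β| ≤ 1 := fun S β => by
      rw [abs_of_nonneg (GT_nonneg hc _ _)]; exact GT_le_one hc _ _
    have hsplit : ∀ β, GT e A c s β = GT e A c far β * GT e A c nr β := by
      intro β
      unfold GT
      rw [hfardef, hnr, Finset.prod_filter_mul_prod_filter_not]
    have hdiff0 : ∀ β, GT e A c s β ≤ GT e A c far β := by
      intro β
      rw [hsplit]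
      exact mul_le_of_le_one_right (GT_nonneg hc _ _) (GT_le_one hc _ _)
    have hdiff : ∀ β, GT e A c far β - ∑ p ∈ nr, fd e A p β ≤ GT e A c s β := by
      intro β
      rw [hsplit]
      have h1 := GT_ge hc (e := e) (A := A) nr β
      have h2 := GT_nonneg hc (e := e) (A := A) far β
      have h3 := GT_le_one hc (e := e) (A := A) far β
      have h4 : 0 ≤ ∑ p ∈ nr, fd e A p β := Finset.sum_nonneg fun p _ => fd_nonneg _ _ _ _
      nlinarith
    have hnrm : ∀ p ∈ nr, p ∈ s ∧ cr δ * a < p := by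
      intro p hp
      rw [hnr, Finset.mem_filter] at hp
      exact ⟨hp.1, not_le.1 hp.2⟩
    -- the function of the far exponents
    set k' := ⌊cr δ * a⌋₊ with hk'
    have hk'le : (k' : ℝ) ≤ cr δ * a := Nat.floor_le (by positivity)
    have hLfar : Lv k' (fun β => φ β * GT e A c far β) := by
      refine (hφ.mono (Nat.le_floor hka)).mul (Lv.prod far fun p hp => ?_)
      refine (fac_Lv hc p).mono (Nat.le_floor ?_)
      rw [hfardef, Finset.mem_filter] at hp
      have h1 := hD.le p (by have := hsP p hp.1; omega)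
      have h2 : (e p : ℝ) ≤ p := by exact_mod_cast (by omega : e p ≤ p)
      linarith [hp.2]
    have hF := hfar a (by omega) k' hk'le _ hLfar
    set J1 := ∫ β, φ β * GT e A c far β * fd e A a β ∂mu1 with hJ1
    set J0 := ∫ β, φ β * GT e A c far β ∂mu1 with hJ0
    set Ja := ∫ β, φ β * GT e A c s β * fd e A a β ∂mu1 with hJa
    -- integrability
    have i1 : Integrable (fun β => φ β * GT e A c s β) mu1 := hφ.int_mul (hGm s) (hGabs s)
    have i2 : Integrable (fun β => φ β * GT e A c far β) mu1 := hφ.int_mul (hGm far) (hGabs far)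
    have i3 : Integrable (fun β => φ β * GT e A c s β * fd e A a β) mu1 := by
      simp only [mul_assoc]
      refine hφ.int_mul (B := 1) ((hGm s).mul (hfm a)) fun x => ?_
      rw [abs_mul]
      exact mul_le_one₀ (hGabs s x) (abs_nonneg _) (hfabs a x)
    have i4 : Integrable (fun β => φ β * GT e A c far β * fd e A a β) mu1 := by
      simp only [mul_assoc]
      refine hφ.int_mul (B := 1) ((hGm far).mul (hfm a)) fun x => ?_
      rw [abs_mul]
      exact mul_le_one₀ (hGabs far x) (abs_nonneg _) (hfabs a x)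
    have i5 : ∀ p, Integrable (fun β => φ β * fd e A p β) mu1 := fun p =>
      hφ.int_mul (hfm p) (hfabs p)
    have i6 : ∀ p, Integrable (fun β => φ β * (fd e A p β * fd e A a β)) mu1 := fun p => by
      refine hφ.int_mul (B := 1) ((hfm p).mul (hfm a)) fun x => ?_
      rw [abs_mul]
      exact mul_le_one₀ (hfabs p x) (abs_nonneg _) (hfabs a x)
    have hIa : ∫ β, φ β * GT e A c (insert a s) β ∂mu1 = Is - c a * Ja := by
      have h1 : ∀ β, φ β * GT e A c (insert a s) β =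
          φ β * GT e A c s β - c a * (φ β * GT e A c s β * fd e A a β) := by
        intro β
        have h2 : GT e A c (insert a s) β = fac e A c a β * GT e A c s β := Finset.prod_insert has
        rw [h2]
        unfold fac
        ring
      simp only [h1]
      rw [integral_sub i1 (i3.const_mul _), integral_const_mul]
    -- the bounds
    set N1 := ∑ p ∈ nr, K2 * nb p a * I0 with hN1
    set N0 := ∑ p ∈ nr, (kc + K1) * wt p * I0 with hN0
    have b1 : Ja ≤ J1 := by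
      refine setIntegral_mono_on i3 i4 measurableSet_Ioc fun β hβ => ?_
      exact mul_le_mul_of_nonneg_right (mul_le_mul_of_nonneg_left (hdiff0 β) (hφ.nonneg hβ))
        (fd_nonneg _ _ _ _)
    have b2 : Is ≤ J0 := by
      refine setIntegral_mono_on i1 i2 measurableSet_Ioc fun β hβ => ?_
      exact mul_le_mul_of_nonneg_left (hdiff0 β) (hφ.nonneg hβ)
    have b3 : J1 - N1 ≤ Ja := by
      have h1 : J1 - Ja ≤ ∑ p ∈ nr, ∫ β, φ β * (fd e A p β * fd e A a β) ∂mu1 := by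
        rw [hJ1, hJa, ← integral_sub i4 i3, ← integral_finsetSum _ fun p _ => i6 p]
        refine setIntegral_mono_on (i4.sub i3) (integrable_finsetSum _ fun p _ => i6 p)
          measurableSet_Ioc fun β hβ => ?_
        have h2 := hdiff β
        have h3 := hφ.nonneg hβ
        have h4 := fd_nonneg e A a β
        have h5 : ∑ p ∈ nr, φ β * (fd e A p β * fd e A a β) =
            φ β * fd e A a β * ∑ p ∈ nr, fd e A p β := by
          rw [Finset.mul_sum]
          exact Finset.sum_congr rfl fun p _ => by ring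
        rw [h5]
        have h6 : φ β * GT e A c far β * fd e A a β - φ β * GT e A c s β * fd e A a β =
            φ β * fd e A a β * (GT e A c far β - GT e A c s β) := by ring
        rw [h6]
        exact mul_le_mul_of_nonneg_left (by linarith) (mul_nonneg h3 h4)
      have h2 : ∑ p ∈ nr, ∫ β, φ β * (fd e A p β * fd e A a β) ∂mu1 ≤ N1 := by
        refine Finset.sum_le_sum fun p hp => ?_
        obtain ⟨hps, hpa⟩ := hnrm p hp
        exact hnear a (by omega) p (hmax p hps) hpa.le k (hks p hps) φ hφ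
      linarith
    have b4 : J0 - N0 ≤ Is := by
      have h1 : J0 - Is ≤ ∑ p ∈ nr, ∫ β, φ β * fd e A p β ∂mu1 := by
        rw [hJ0, hIs, ← integral_sub i2 i1, ← integral_finsetSum _ fun p _ => i5 p]
        refine setIntegral_mono_on (i2.sub i1) (integrable_finsetSum _ fun p _ => i5 p)
          measurableSet_Ioc fun β hβ => ?_
        have h2 := hdiff β
        have h3 := hφ.nonneg hβ
        rw [← Finset.mul_sum, ← mul_sub]
        exact mul_le_mul_of_nonneg_left (by linarith) h3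
      have h2 : ∑ p ∈ nr, ∫ β, φ β * fd e A p β ∂mu1 ≤ N0 := by
        refine Finset.sum_le_sum fun p hp => ?_
        obtain ⟨hps, hpa⟩ := hnrm p hp
        have hpP := hsP p hps
        have h3 := (abs_le.1 (hfar p (by omega) k (hks p hps) φ hφ)).2
        have h4 : K1 / p ≤ K1 * wt p := by
          rw [div_eq_mul_one_div]
          exact mul_le_mul_of_nonneg_left (inv_le_wt (by omega)) hK1.le
        have h5 : K1 / p * I0 ≤ K1 * wt p * I0 := mul_le_mul_of_nonneg_right h4 hI0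
        calc ∫ β, φ β * fd e A p β ∂mu1 ≤ kc * wt p * I0 + K1 / p * I0 := by linarith
          _ ≤ kc * wt p * I0 + K1 * wt p * I0 := by linarith
          _ = _ := by ring
      linarith
    have hJ0le : J0 ≤ I0 := by
      refine setIntegral_mono_on i2 hφ.int measurableSet_Ioc fun β hβ => ?_
      exact mul_le_of_le_one_right (hφ.nonneg hβ) (GT_le_one hc _ _)
    have ha0 : (0 : ℝ) < a := by exact_mod_cast (by omega : 0 < a)
    have b5 : |J1 - kc * wt a * J0| ≤ K1 / a * I0 := by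
      refine hF.trans ?_
      exact mul_le_mul_of_nonneg_left hJ0le (by positivity)
    have hwa := wt_nonneg a
    have hN10 : 0 ≤ N1 := Finset.sum_nonneg fun p _ => by
      have := nb_nonneg p a
      positivity
    have hN00 : 0 ≤ N0 := Finset.sum_nonneg fun p _ => by
      have := wt_nonneg p
      positivity
    obtain ⟨b5a, b5b⟩ := abs_le.1 b5
    -- the new term
    have hnew : |Ja - kc * wt a * Is| ≤ K1 / a * I0 + N1 + kc * wt a * N0 := by
      have h1 : 0 ≤ kc * wt a := by positivity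
      have h2 : kc * wt a * Is ≤ kc * wt a * J0 := mul_le_mul_of_nonneg_left b2 h1
      have h3 : kc * wt a * (J0 - N0) ≤ kc * wt a * Is := mul_le_mul_of_nonneg_left b4 h1
      have h4 : 0 ≤ kc * wt a * N0 := by positivity
      rw [abs_le]
      constructor <;> linarith
    have hca := hc a
    have hkw : c a * (kc * wt a) ≤ 1 := mul_le_one₀ hca.2 (by positivity) (hP3 a (by omega))
    have hkw0 : 0 ≤ c a * (kc * wt a) := mul_nonneg hca.1 (by positivity)
    rw [hIa, Finset.prod_insert has]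
    have e1 : Is - c a * Ja - (1 - c a * (kc * wt a)) * PP * I0 =
        (1 - c a * (kc * wt a)) * (Is - PP * I0) - c a * (Ja - kc * wt a * Is) := by ring
    rw [e1]
    refine (abs_sub _ _).trans ?_
    rw [abs_mul, abs_mul, abs_of_nonneg (by linarith : 0 ≤ 1 - c a * (kc * wt a)),
      abs_of_nonneg hca.1]
    have c1 : (1 - c a * (kc * wt a)) * |Is - PP * I0| ≤ 1 * |Is - PP * I0| :=
      mul_le_mul_of_nonneg_right (by linarith) (abs_nonneg _)
    have c2 : c a * |Ja - kc * wt a * Is| ≤ 1 * |Ja - kc * wt a * Is| :=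
      mul_le_mul_of_nonneg_right hca.2 (abs_nonneg _)
    -- the error term
    have her : er δ s * I0 + (1 / (a : ℝ) * I0 + ∑ p ∈ nr, (nb p a + wt a * wt p) * I0) ≤
        er δ (insert a s) * I0 := by
      unfold er
      rw [Finset.sum_insert has, add_comm, add_mul]
      have h1 : nr = (insert a s).filter (fun p => p < a ∧ cr δ * a < p) := by
        ext p
        rw [hnr, Finset.mem_filter, Finset.mem_filter, Finset.mem_insert, not_le]
        constructor
        · rintro ⟨h2, h3⟩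
          exact ⟨Or.inr h2, hmax p h2, h3⟩
        · rintro ⟨h2 | h2, h3, h4⟩
          · omega
          · exact ⟨h2, h4⟩
      rw [← h1]
      have h2 : ∑ q ∈ s, (1 / (q : ℝ) + ∑ p ∈ s.filter (fun p => p < q ∧ cr δ * q < p),
          (nb p q + wt q * wt p)) ≤ ∑ q ∈ s, (1 / (q : ℝ) +
          ∑ p ∈ (insert a s).filter (fun p => p < q ∧ cr δ * q < p), (nb p q + wt q * wt p)) := by
        refine Finset.sum_le_sum fun q _ => add_le_add le_rfl ?_
        refine Finset.sum_le_sum_of_subset_of_nonneg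
          (Finset.filter_subset_filter _ (Finset.subset_insert _ _)) fun p _ _ => ?_
        have := nb_nonneg p q
        have := wt_nonneg p
        have := wt_nonneg q
        positivity
      have h3 := mul_le_mul_of_nonneg_right h2 hI0
      rw [add_mul, Finset.sum_mul nr]
      linarith
    have hN1e : N1 = K2 * ∑ p ∈ nr, nb p a * I0 := by
      rw [hN1, Finset.mul_sum]
      exact Finset.sum_congr rfl fun p _ => by ring
    have hN0e : kc * wt a * N0 = kc * (kc + K1) * ∑ p ∈ nr, wt a * wt p * I0 := by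
      rw [hN0, Finset.mul_sum, Finset.mul_sum]
      exact Finset.sum_congr rfl fun p _ => by ring
    have hsplit2 : ∑ p ∈ nr, (nb p a + wt a * wt p) * I0 =
        ∑ p ∈ nr, nb p a * I0 + ∑ p ∈ nr, wt a * wt p * I0 := by
      rw [← Finset.sum_add_distrib]
      exact Finset.sum_congr rfl fun p _ => by ring
    have hX0 : 0 ≤ ∑ p ∈ nr, nb p a * I0 := Finset.sum_nonneg fun p _ => by
      have := nb_nonneg p a
      positivity
    have hY0 : 0 ≤ ∑ p ∈ nr, wt a * wt p * I0 := Finset.sum_nonneg fun p _ => by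
      have := wt_nonneg p
      positivity
    set X := ∑ p ∈ nr, nb p a * I0 with hX
    set Y := ∑ p ∈ nr, wt a * wt p * I0 with hY
    set K := K1 + K2 + kc * (kc + K1) with hKdef
    have hK0 : 0 < K := by positivity
    have d1 : K1 / a * I0 ≤ K * (1 / (a : ℝ) * I0) := by
      have h1 : K1 / a * I0 = K1 * (1 / (a : ℝ) * I0) := by ring
      rw [h1]
      apply mul_le_mul_of_nonneg_right _ (by positivity)
      have : 0 < kc * (kc + K1) := by positivity
      linarith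
    have d2 : K2 * X ≤ K * X := by
      apply mul_le_mul_of_nonneg_right _ hX0
      have : 0 < kc * (kc + K1) := by positivity
      linarith
    have d3 : kc * (kc + K1) * Y ≤ K * Y := by
      apply mul_le_mul_of_nonneg_right _ hY0
      linarith
    have d4 := mul_le_mul_of_nonneg_left her hK0.le
    rw [hsplit2] at d4
    rw [hN1e, hN0e] at hnew
    linarith

end Pool.Agent.K9h18.HS
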