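import Pool.Agent.K9h18.HS.LawR

set_option autoImplicit false

/-!
# Row sums for numbers with prescribed leading digits
-/

open Finset Filter Topology MeasureTheory

namespace Pool.Agent.K9h18.HS

open Pool.Agent.H305R2 (roughPart)
open Pool.Agent.TH888.R (wt wt_nonneg wt_le_one VS VS_univ_bound VS_nonneg)

lemma log_ge_one {q : ℕ} (hq : 3 ≤ q) : 1 ≤ Real.log q := by
  have h3 : (3 : ℝ) ≤ q := by exact_mod_cast hq
  rw [Real.le_log_iff_exp_le (by linarith)]
  have := Real.exp_one_lt_d9
  linarith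

lemma wt_anti {p q : ℕ} (hp : 3 ≤ p) (hpq : p ≤ q) : wt q ≤ wt p := by
  have h3 : (3 : ℝ) ≤ p := by exact_mod_cast hp
  have h4 : (p : ℝ) ≤ q := by exact_mod_cast hpq
  have h5 : Real.exp 1 ≤ (p : ℝ) := by
    have := Real.exp_one_lt_d9
    linarith
  exact Real.log_div_self_antitoneOn h5 (h5.trans h4) h4

lemma inv_le_wt {q : ℕ} (hq : 3 ≤ q) : 1 / (q : ℝ) ≤ wt q := by
  have h1 := log_ge_one hq
  unfold wt
  gcongr

/-- Mertens for a sum over a range of primes -/
lemma near_sum {c1 : ℝ} (hc1 : 0 < c1) : ∃ C : ℝ, 0 < C ∧ ∃ P : ℕ, ∀ q ≥ P, ∀ T : Finset ℕ,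
    (∀ p ∈ T, p.Prime ∧ c1 * q ≤ p ∧ p < q) → ∑ p ∈ T, wt p ≤ C := by
  classical
  obtain ⟨C, hC0, hC⟩ := VS_univ_bound
  have hq : Tendsto (fun q : ℕ => (q : ℝ)) atTop atTop := tendsto_natCast_atTop_atTop
  obtain ⟨P, hP⟩ := (hq.eventually_ge_atTop (4 / c1)).exists_forall_of_atTop
  refine ⟨2 * C + |Real.log (2 / c1)| + 1, by positivity, P + 1, fun q hqP T hT => ?_⟩
  have hqr := hP q (by omega)
  rw [div_le_iff₀ hc1] at hqr
  have hq1 : 1 ≤ q := by omega
  have hq0 : (0 : ℝ) < q := by exact_mod_cast hq1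
  set m := ⌈c1 * q⌉₊ - 1 with hm
  have hceil : c1 * q ≤ ⌈c1 * q⌉₊ := Nat.le_ceil _
  have hceil4 : 4 ≤ ⌈c1 * q⌉₊ := by
    have : (4 : ℝ) ≤ ⌈c1 * q⌉₊ := by linarith
    exact_mod_cast this
  have hm1 : 1 ≤ m := by omega
  have hmr : (m : ℝ) = ⌈c1 * q⌉₊ - 1 := by
    rw [hm, Nat.cast_sub (by omega), Nat.cast_one]
  have hmlow : c1 * q / 2 ≤ m := by rw [hmr]; linarith
  by_cases hTe : T = ∅
  · rw [hTe, Finset.sum_empty]
    positivity
  obtain ⟨p0, hp0⟩ := Finset.nonempty_of_ne_empty hTe
  have hmq : m < q := by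
    have h1 := (hT p0 hp0).2.1
    have h2 : ⌈c1 * q⌉₊ ≤ p0 := Nat.ceil_le.2 h1
    have h3 := (hT p0 hp0).2.2
    omega
  have hVq := (abs_le.1 (hC q hq1)).2
  have hVm := (abs_le.1 (hC m hm1)).1
  have hsum : ∑ p ∈ T, wt p + VS Set.univ m ≤ VS Set.univ q := by
    unfold VS
    simp only [Set.mem_univ, true_and]
    rw [← Finset.sum_filter, ← Finset.sum_filter, ← Finset.sum_union]
    · apply Finset.sum_le_sum_of_subset_of_nonneg
      · intro p hp
        rw [Finset.mem_union] at hp
        rw [Finset.mem_filter, Finset.mem_range]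
        rcases hp with hp | hp
        · obtain ⟨h1, h2, h3⟩ := hT p hp
          exact ⟨by omega, h1⟩
        · rw [Finset.mem_filter, Finset.mem_range] at hp
          exact ⟨by omega, hp.2⟩
      · intro p _ _
        exact wt_nonneg p
    · rw [Finset.disjoint_left]
      intro p hp hp'
      rw [Finset.mem_filter, Finset.mem_range] at hp'
      have h2 : ⌈c1 * q⌉₊ ≤ p := Nat.ceil_le.2 (hT p hp).2.1
      omega
  have hlog : Real.log q - Real.log m ≤ |Real.log (2 / c1)| := by
    refine le_trans ?_ (le_abs_self _)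
    have hm0 : (0 : ℝ) < m := by exact_mod_cast hm1
    rw [← Real.log_div hq0.ne' hm0.ne']
    apply Real.log_le_log (by positivity)
    rw [div_le_div_iff₀ hm0 hc1]
    linarith
  linarith

lemma all_sum : ∃ C : ℝ, 0 < C ∧ ∀ q : ℕ, 3 ≤ q → ∀ T : Finset ℕ, (∀ p ∈ T, p.Prime ∧ p < q) →
    ∑ p ∈ T, wt p ≤ C * Real.log q := by
  classical
  obtain ⟨C, hC0, hC⟩ := VS_univ_bound
  refine ⟨C + 1, by positivity, fun q hq T hT => ?_⟩
  have h1 := log_ge_one hq
  have hVq := (abs_le.1 (hC q (by omega))).2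
  have hsum : ∑ p ∈ T, wt p ≤ VS Set.univ q := by
    unfold VS
    simp only [Set.mem_univ, true_and]
    rw [← Finset.sum_filter]
    apply Finset.sum_le_sum_of_subset_of_nonneg
    · intro p hp
      rw [Finset.mem_filter, Finset.mem_range]
      exact ⟨by have := (hT p hp).2; omega, (hT p hp).1⟩
    · intro p _ _
      exact wt_nonneg p
  have h2 : C ≤ C * Real.log q := le_mul_of_one_le_right hC0 h1
  linarith

lemma geom_sum (q : ℕ) (T : Finset ℕ) (hT : ∀ p ∈ T, p < q) :
    ∑ p ∈ T, (3 / 4 : ℝ) ^ (q - p) ≤ 4 := by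
  have h1 : ∑ p ∈ T, (3 / 4 : ℝ) ^ (q - p) ≤ ∑ k ∈ Finset.range (q + 1), (3 / 4 : ℝ) ^ k := by
    have h2 : ∑ p ∈ T, (3 / 4 : ℝ) ^ (q - p) ≤ ∑ p ∈ Finset.range (q + 1), (3 / 4 : ℝ) ^ (q - p) := by
      apply Finset.sum_le_sum_of_subset_of_nonneg
      · intro p hp
        have := hT p hp
        rw [Finset.mem_range]
        omega
      · intro p _ _
        positivity
    refine h2.trans (le_of_eq ?_)
    have h3 := Finset.sum_range_reflect (fun k => (3 / 4 : ℝ) ^ k) (q + 1)
    rw [← h3]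
    refine Finset.sum_congr rfl fun p _ => ?_
    congr 1
  refine h1.trans ?_
  rw [geom_sum_eq (by norm_num)]
  have h4 : (0 : ℝ) ≤ (3 / 4) ^ (q + 1) := by positivity
  rw [div_le_iff_of_neg (by norm_num)]
  linarith

lemma inv_pow_le {δ : ℝ} (hδ : δ < 1 / 4) {e A : ℕ → ℕ} (hD : Dig δ e A) {p q : ℕ} (hpq : p ≤ q) :
    ((2 : ℝ) ^ (e q - e p))⁻¹ ≤ 2 * (3 / 4) ^ (q - p) := by
  have h1 := hD.grow p q hpq
  have hmono := hD.mono p q hpq
  have hpq' : (p : ℝ) ≤ q := by exact_mod_cast hpq
  set m := e q - e p with hm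
  have hmr : (m : ℝ) = e q - e p := by rw [hm, Nat.cast_sub hmono]
  set k := q - p with hk
  have hkr : (k : ℝ) = q - p := by rw [hk, Nat.cast_sub hpq]
  have hkm : k ≤ 2 * m + 2 := by
    have h2 : (k : ℝ) ≤ ((2 * m + 2 : ℕ) : ℝ) := by
      push_cast
      rw [hmr, hkr]
      nlinarith
    exact_mod_cast h2
  have h3 : ((2 : ℝ) ^ m)⁻¹ ≤ (3 / 4) ^ (2 * m) := by
    rw [pow_mul, ← inv_pow]
    gcongr
    norm_num
  have h4 : (3 / 4 : ℝ) ^ (2 * m) = (16 / 9) * (3 / 4) ^ (2 * m + 2) := by
    rw [pow_add]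
    ring
  have h5 : (3 / 4 : ℝ) ^ (2 * m + 2) ≤ (3 / 4) ^ k :=
    pow_le_pow_of_le_one (by norm_num) (by norm_num) hkm
  have h6 : (0 : ℝ) ≤ (3 / 4) ^ k := by positivity
  linarith

/-- Lebesgue measure on the unit interval -/
noncomputable abbrev mu1 : Measure ℝ := volume.restrict (Set.Ioc 0 1)

instance mu1_prob : IsProbabilityMeasure mu1 := ⟨by simp [mu1]⟩

/-- the events -/
noncomputable def fd (e A : ℕ → ℕ) (p : ℕ) (β : ℝ) : ℝ := ind p (A p + jj (e p) β)

lemma fd_meas (e A : ℕ → ℕ) (p : ℕ) : Measurable (fd e A p) :=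
  (measurable_from_top (f := fun j : ℕ => ind p (A p + j))).comp (jj_meas (e p))

lemma fd_nonneg (e A : ℕ → ℕ) (p : ℕ) (β : ℝ) : 0 ≤ fd e A p β := ind_nonneg _ _

lemma fd_le_one (e A : ℕ → ℕ) (p : ℕ) (β : ℝ) : fd e A p β ≤ 1 := ind_le_one _ _

lemma fd_sq (e A : ℕ → ℕ) (p : ℕ) (β : ℝ) : fd e A p β * fd e A p β = fd e A p β := by
  unfold fd ind
  split_ifs <;> norm_num

lemma fd_int (e A : ℕ → ℕ) (p : ℕ) : Integrable (fd e A p) mu1 := by
  refine Integrable.of_bound (fd_meas e A p).aestronglyMeasurable 1 (Eventually.of_forall fun x => ?_)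
  rw [Real.norm_eq_abs, abs_of_nonneg (fd_nonneg _ _ _ _)]
  exact fd_le_one _ _ _ _

lemma fd_int2 (e A : ℕ → ℕ) (p q : ℕ) : Integrable (fun x => fd e A p x * fd e A q x) mu1 := by
  refine Integrable.of_bound ((fd_meas e A p).mul (fd_meas e A q)).aestronglyMeasurable 1
    (Eventually.of_forall fun x => ?_)
  rw [Real.norm_eq_abs, abs_of_nonneg (mul_nonneg (fd_nonneg _ _ _ _) (fd_nonneg _ _ _ _))]
  exact mul_le_one₀ (fd_le_one _ _ _ _) (fd_nonneg _ _ _ _) (fd_le_one _ _ _ _)

/-- mean -/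
noncomputable def mn (e A : ℕ → ℕ) (p : ℕ) : ℝ := avg (e p) (fun j => ind p (A p + j))

/-- joint mean -/
noncomputable def mn2 (e A : ℕ → ℕ) (p q : ℕ) : ℝ :=
  avg (e q) (fun j => ind p (A p + j / 2 ^ (e q - e p)) * ind q (A q + j))

lemma mn_nonneg (e A : ℕ → ℕ) (p : ℕ) : 0 ≤ mn e A p := avg_nonneg fun _ _ => ind_nonneg _ _

lemma mn2_nonneg (e A : ℕ → ℕ) (p q : ℕ) : 0 ≤ mn2 e A p q :=
  avg_nonneg fun _ _ => mul_nonneg (ind_nonneg _ _) (ind_nonneg _ _)

lemma fd_mean (e A : ℕ → ℕ) (p : ℕ) : ∫ β, fd e A p β ∂mu1 = mn e A p :=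
  int_level (e p) (fun j => ind p (A p + j))

lemma fd_mean2 {e A : ℕ → ℕ} {p q : ℕ} (h : e p ≤ e q) :
    ∫ β, fd e A p β * fd e A q β ∂mu1 = mn2 e A p q := by
  have h1 := int_level (e q) (fun j => ind p (A p + j / 2 ^ (e q - e p)) * ind q (A q + j))
  unfold mn2
  rw [← h1]
  refine setIntegral_congr_fun measurableSet_Ioc fun β hβ => ?_
  simp only [fd]
  rw [jj_div h hβ.1]

lemma fd_cov (e A : ℕ → ℕ) (p q : ℕ) (a b : ℝ) :
    ∫ β, (fd e A p β - a) * (fd e A q β - b) ∂mu1 =
      (∫ β, fd e A p β * fd e A q β ∂mu1) - b * mn e A p - a * mn e A q + a * b := by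
  have h1 : ∀ β, (fd e A p β - a) * (fd e A q β - b) =
      fd e A p β * fd e A q β - b * fd e A p β - a * fd e A q β + a * b := fun β => by ring
  simp only [h1]
  rw [integral_add, integral_sub, integral_sub, integral_const_mul, integral_const_mul, fd_mean,
    fd_mean, integral_const, probReal_univ, one_smul]
  · exact fd_int2 e A p q
  · exact (fd_int e A p).const_mul b
  · exact (fd_int2 e A p q).sub ((fd_int e A p).const_mul b)
  · exact (fd_int e A q).const_mul a
  · exact ((fd_int2 e A p q).sub ((fd_int e A p).const_mul b)).sub ((fd_int e A q).const_mul a)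
  · exact integrable_const _

/-- **Row sums.** -/
theorem rows_dig (hPV : Pool.Agent.N176.OW.S_PV) (hSV : Pool.Agent.N136.OW.S_SV2) {δ : ℝ}
    (hδ0 : 0 ≤ δ) (hδ : δ < 1 / 4) {e A : ℕ → ℕ} (hD : Dig δ e A) : Rows mu1 (fd e A) kc := by
  classical
  obtain ⟨K, hK, P1, hP1, hfar⟩ := far_pairs hPV hδ0 hδ hD
  set c1 := (1 / 4 - δ) / 2 with hc1
  have hc10 : 0 < c1 := by rw [hc1]; linarith
  obtain ⟨K2, hK2, P2, hP2, hnear⟩ := near_avg hSV hδ0 hδ hD hc10
  obtain ⟨C3, hC3, P3, hns⟩ := near_sum hc10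
  obtain ⟨C4, hC4, has⟩ := all_sum
  have hkc := kc_pos
  have hmean : ∀ q ≥ P1 + 3, mn e A q ≤ (kc + K) * wt q := by
    intro q hq
    have h1 := (abs_le.1 (hfar q (by omega)).1).2
    have h2 := inv_le_wt (show 3 ≤ q by omega)
    have h3 : K / q ≤ K * wt q := by
      rw [div_eq_mul_one_div]
      exact mul_le_mul_of_nonneg_left h2 hK.le
    unfold mn
    linarith
  refine ⟨kc_pos, fd_meas e A, fun q x => ?_, ⟨kc + K, by positivity, P1 + 3, fun q hq _ => ?_⟩,
    ⟨(kc + K + kc ^ 2) + K * (kc + K + kc) * C4 +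
      (K2 + 2 * (kc + K) * kc + kc ^ 2 + (kc + K) * kc) * C3 + 8 * (kc + K) / c1 + (1 / c1 ^ 2 + 1),
      by positivity, P1 + P2 + P3 + 3, fun q hq hqp => ?_⟩⟩
  · unfold fd ind
    split_ifs
    · exact Or.inr rfl
    · exact Or.inl rfl
  · rw [fd_mean]
    exact hmean q hq
  · have hq3 : 3 ≤ q := by omega
    have hq0 : (0 : ℝ) < q := by exact_mod_cast (by omega : 0 < q)
    have hwq0 := wt_nonneg q
    have hwq1 := wt_le_one q
    have hmq := hmean q (by omega)
    have hmq0 := mn_nonneg e A q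
    have hlq := log_ge_one hq3
    have hiq := inv_le_wt hq3
    have hwq : wt q * q = Real.log q := by unfold wt; field_simp
    set W := wt q with hW
    have hrest1 : 0 ≤ K * (kc + K + kc) * C4 * W := by positivity
    have hrest2 : 0 ≤ (K2 + 2 * (kc + K) * kc + kc ^ 2 + (kc + K) * kc) * C3 * W := by positivity
    have hrest3 : 0 ≤ 8 * (kc + K) / c1 * W := by positivity
    have hrest4 : 0 ≤ (1 / c1 ^ 2 + 1) * W := by positivity
    have hrest0 : 0 ≤ (kc + K + kc ^ 2) * W := by positivity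
    constructor
    · have h1 : ∫ x, (fd e A q x - kc * W) ^ 2 ∂mu1 = mn e A q - kc * W * mn e A q -
          kc * W * mn e A q + kc * W * (kc * W) := by
        have h2 := fd_cov e A q q (kc * W) (kc * W)
        have h3 : ∫ β, fd e A q β * fd e A q β ∂mu1 = mn e A q := by
          simp only [fd_sq]
          exact fd_mean e A q
        rw [h3] at h2
        rw [← h2]
        simp only [sq]
      rw [h1]
      have h4 : 0 ≤ kc * W * mn e A q := by positivity
      have h5 : kc * W * (kc * W) ≤ kc ^ 2 * W := by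
        have : kc * W * (kc * W) = kc ^ 2 * (W * W) := by ring
        rw [this]
        apply mul_le_mul_of_nonneg_left _ (by positivity)
        exact mul_le_of_le_one_left hwq0 hwq1
      nlinarith
    · intro T hT
      -- split into far and near
      have hTm : ∀ p ∈ T, mn e A p ≤ (kc + K) * wt p := fun p hp => hmean p (by
        have := (hT p hp).2.1
        omega)
      have hterm : ∀ p ∈ T, |∫ x, (fd e A p x - kc * wt p) * (fd e A q x - kc * W) ∂mu1| ≤
          K * (kc + K + kc) / q * wt p +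
          (if c1 * q ≤ p then
            (K2 + 2 * (kc + K) * kc + kc ^ 2 + (kc + K) * kc) * W * wt p +
            2 * (kc + K) / c1 * W * (3 / 4) ^ (q - p) + (1 / c1 ^ 2 + 1) / q ^ 2 else 0) := by
        intro p hp
        obtain ⟨hpp, hpP, hpq⟩ := hT p hp
        have hepq := hD.mono p q hpq.le
        have hmp := hTm p hp
        have hmp0 := mn_nonneg e A p
        have hwp0 := wt_nonneg p
        rw [fd_cov, fd_mean2 hepq]
        by_cases hc : c1 * q ≤ p
        · rw [if_pos hc]
          have h1 := hnear q (by omega) p hpq hc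
          have h2 : mn2 e A p q ≤ K2 * W ^ 2 + ((2 : ℝ) ^ (e q - e p))⁻¹ * mn e A p +
              1 / (p : ℝ) ^ 2 + 1 / (q : ℝ) ^ 2 := h1
          have h20 := mn2_nonneg e A p q
          have hWp : W ≤ wt p := wt_anti (by omega) hpq.le
          have hp0 : (0 : ℝ) < p := by exact_mod_cast hpp.pos
          have hwpW : wt p ≤ W / c1 := by
            rw [hW]
            unfold wt
            rw [div_div, div_le_div_iff₀ hp0 (by positivity)]
            have h3 : Real.log p ≤ Real.log q := Real.log_le_log hp0 (by exact_mod_cast hpq.le)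
            have h4 : 0 ≤ Real.log p := Real.log_natCast_nonneg p
            calc Real.log p * (q * c1) ≤ Real.log q * (q * c1) := by gcongr
              _ ≤ Real.log q * p := by
                apply mul_le_mul_of_nonneg_left _ (by linarith)
                linarith
          have h3 := inv_pow_le hδ hD hpq.le
          have h4 : ((2 : ℝ) ^ (e q - e p))⁻¹ * mn e A p ≤
              2 * (kc + K) / c1 * W * (3 / 4) ^ (q - p) := by
            calc ((2 : ℝ) ^ (e q - e p))⁻¹ * mn e A p ≤
                (2 * (3 / 4) ^ (q - p)) * ((kc + K) * (W / c1)) := by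
                  apply mul_le_mul h3 (hmp.trans _) hmp0 (by positivity)
                  exact mul_le_mul_of_nonneg_left hwpW (by positivity)
              _ = _ := by ring
          have h5 : 1 / (p : ℝ) ^ 2 + 1 / (q : ℝ) ^ 2 ≤ (1 / c1 ^ 2 + 1) / q ^ 2 := by
            have h6 : 1 / (p : ℝ) ^ 2 ≤ 1 / (c1 * q) ^ 2 := by gcongr
            have h7 : 1 / (c1 * (q : ℝ)) ^ 2 = 1 / c1 ^ 2 / q ^ 2 := by
              rw [mul_pow, div_div]
            rw [h7] at h6
            rw [add_div]
            linarith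
          have h8 : K2 * W ^ 2 ≤ K2 * W * wt p := by
            have : K2 * W ^ 2 = K2 * W * W := by ring
            rw [this]
            exact mul_le_mul_of_nonneg_left hWp (by positivity)
          have h9 : kc * W * mn e A p ≤ kc * W * ((kc + K) * wt p) :=
            mul_le_mul_of_nonneg_left hmp (by positivity)
          have h10 : kc * wt p * mn e A q ≤ kc * wt p * ((kc + K) * W) :=
            mul_le_mul_of_nonneg_left hmq (by positivity)
          have h11 : 0 ≤ K * (kc + K + kc) / q * wt p := by positivity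
          have h12 : 0 ≤ kc * W * mn e A p := by positivity
          have h13 : 0 ≤ kc * wt p * mn e A q := by positivity
          have h14 : 0 ≤ kc * wt p * (kc * W) := by positivity
          have h15 : 0 ≤ (kc + K) * kc * W * wt p := by positivity
          have h16 : |mn2 e A p q - kc * W * mn e A p - kc * wt p * mn e A q +
              kc * wt p * (kc * W)| ≤ mn2 e A p q + kc * W * mn e A p + kc * wt p * mn e A q +
              kc * wt p * (kc * W) := by
            rw [abs_le]
            constructor <;> linarith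
          refine h16.trans ?_
          nlinarith
        · rw [if_neg hc, add_zero]
          have hc' : (p : ℝ) ≤ c1 * q := (not_le.1 hc).le
          obtain ⟨h1, h2⟩ := hfar q (by omega)
          have h3 := h2 p hpq.le hc' hpp.one_lt.le
          have h4 : |mn2 e A p q - kc * W * mn e A p| ≤ K / q * mn e A p := h3
          have h5 : |mn e A q - kc * W| ≤ K / q := h1
          have e1 : mn2 e A p q - kc * W * mn e A p - kc * wt p * mn e A q + kc * wt p * (kc * W) =
              (mn2 e A p q - kc * W * mn e A p) - kc * wt p * (mn e A q - kc * W) := by ring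
          rw [e1]
          refine (abs_sub _ _).trans ?_
          rw [abs_mul (kc * wt p), abs_of_nonneg (show 0 ≤ kc * wt p by positivity)]
          have h6 : kc * wt p * |mn e A q - kc * W| ≤ kc * wt p * (K / q) :=
            mul_le_mul_of_nonneg_left h5 (by positivity)
          have h7 : K / q * mn e A p ≤ K / q * ((kc + K) * wt p) :=
            mul_le_mul_of_nonneg_left hmp (by positivity)
          have e2 : K * (kc + K + kc) / q * wt p = K / q * ((kc + K) * wt p) + kc * wt p * (K / q) := by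
            ring
          rw [e2]
          linarith
      refine (Finset.sum_le_sum hterm).trans ?_
      rw [Finset.sum_add_distrib, ← Finset.mul_sum, ← Finset.sum_filter]
      have hS1 := has q hq3 T (fun p hp => ⟨(hT p hp).1, (hT p hp).2.2⟩)
      set T' := T.filter (fun p : ℕ => c1 * q ≤ p) with hT'
      have hT'm : ∀ p ∈ T', p ∈ T ∧ c1 * q ≤ p := by
        intro p hp
        rw [hT', Finset.mem_filter] at hp
        exact hp
      have hS2 := hns q (by omega) T' (fun p hp => by
        obtain ⟨h1, h2⟩ := hT'm p hp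
        exact ⟨(hT p h1).1, h2, (hT p h1).2.2⟩)
      have hS3 := geom_sum q T' (fun p hp => (hT p (hT'm p hp).1).2.2)
      have hcard : (T'.card : ℝ) ≤ q := by
        have h1 : T'.card ≤ (Finset.range q).card := Finset.card_le_card fun p hp => by
          rw [Finset.mem_range]
          exact (hT p (hT'm p hp).1).2.2
        rw [Finset.card_range] at h1
        exact_mod_cast h1
      rw [Finset.sum_add_distrib, Finset.sum_add_distrib, ← Finset.mul_sum, ← Finset.mul_sum,
        Finset.sum_const, nsmul_eq_mul]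
      have b1 : K * (kc + K + kc) / q * ∑ p ∈ T, wt p ≤ K * (kc + K + kc) * C4 * W := by
        calc K * (kc + K + kc) / q * ∑ p ∈ T, wt p ≤ K * (kc + K + kc) / q * (C4 * Real.log q) :=
              mul_le_mul_of_nonneg_left hS1 (by positivity)
          _ = _ := by
              rw [hW]
              unfold wt
              ring
      have b2 : (K2 + 2 * (kc + K) * kc + kc ^ 2 + (kc + K) * kc) * W * ∑ p ∈ T', wt p ≤
          (K2 + 2 * (kc + K) * kc + kc ^ 2 + (kc + K) * kc) * C3 * W := by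
        calc _ ≤ (K2 + 2 * (kc + K) * kc + kc ^ 2 + (kc + K) * kc) * W * C3 :=
              mul_le_mul_of_nonneg_left hS2 (by positivity)
          _ = _ := by ring
      have b3 : 2 * (kc + K) / c1 * W * ∑ p ∈ T', (3 / 4 : ℝ) ^ (q - p) ≤
          8 * (kc + K) / c1 * W := by
        calc _ ≤ 2 * (kc + K) / c1 * W * 4 := mul_le_mul_of_nonneg_left hS3 (by positivity)
          _ = _ := by ring
      have b4 : (T'.card : ℝ) * ((1 / c1 ^ 2 + 1) / q ^ 2) ≤ (1 / c1 ^ 2 + 1) * W := by
        calc _ ≤ (q : ℝ) * ((1 / c1 ^ 2 + 1) / q ^ 2) :=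
              mul_le_mul_of_nonneg_right hcard (by positivity)
          _ = (1 / c1 ^ 2 + 1) * (1 / q) := by field_simp
          _ ≤ _ := mul_le_mul_of_nonneg_left hiq (by positivity)
      linarith

end Pool.Agent.K9h18.HS
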